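import Pool.Agent.SawFold.DecUn

/-!
Module Act (the action of permutations and reversals) of the project Pool.Agent.SawFold.
-/

set_option autoImplicit false
set_option linter.unusedSectionVars false

namespace Pool.Agent.SawFold

open Finset
open scoped BigOperators

variable {d : ℕ} [NeZero d]

namespace ActAux

open DecUnAux

theorem jn_len (Xs : List (Word d)) :
    (jn Xs).length = (Xs.map fun X => 1 + X.length).sum := by
  induction Xs with
  | nil => rfl
  | cons X Xs ih =>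
    show (upS :: X ++ jn Xs).length = _
    rw [List.length_append, List.length_cons, List.map_cons, List.sum_cons, ih]
    omega

theorem jn_D (Xs : List (Word d)) :
    D (jn Xs) 0 = (Xs.map fun X => 1 + D X 0).sum := by
  induction Xs with
  | nil => rfl
  | cons X Xs ih =>
    rw [D_jn_cons, Pi.add_apply, Pi.add_apply, e_zero', List.map_cons, List.sum_cons, ih]

theorem act_len {K : ℕ} (g : Gp K) (X : Fin K → Word d) :
    (jn (List.ofFn fun i => orw (X (g.1 i)) (g.2 i))).length = (jn (List.ofFn X)).length := by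
  rw [jn_len, jn_len, List.map_ofFn, List.map_ofFn, List.sum_ofFn, List.sum_ofFn]
  have h : ∀ i : Fin K, ((fun Y : Word d => 1 + Y.length) ∘ fun i => orw (X (g.1 i)) (g.2 i)) i =
      ((fun Y : Word d => 1 + Y.length) ∘ X) (g.1 i) := by
    intro i
    simp only [Function.comp_apply, orw_length]
  rw [Finset.sum_congr rfl fun i _ => h i]
  exact Equiv.sum_comp g.1 ((fun Y : Word d => 1 + Y.length) ∘ X)

theorem act_D {K : ℕ} (g : Gp K) (X : Fin K → Word d) :
    D (jn (List.ofFn fun i => orw (X (g.1 i)) (g.2 i))) 0 = D (jn (List.ofFn X)) 0 := by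
  rw [jn_D, jn_D, List.map_ofFn, List.map_ofFn, List.sum_ofFn, List.sum_ofFn]
  have h : ∀ i : Fin K, ((fun Y : Word d => 1 + D Y 0) ∘ fun i => orw (X (g.1 i)) (g.2 i)) i =
      ((fun Y : Word d => 1 + D Y 0) ∘ X) (g.1 i) := by
    intro i
    simp only [Function.comp_apply, orw_D]
  rw [Finset.sum_congr rfl fun i _ => h i]
  exact Equiv.sum_comp g.1 ((fun Y : Word d => 1 + D Y 0) ∘ X)

theorem dec_congr {N lam : ℕ} {U₀ U₁ : Word d} {Xs Ys : List (Word d)}
    (h : Dec N lam U₀ Xs U₁) (hb : ∀ Y ∈ Ys, Blk Y) (hlen : (jn Ys).length = (jn Xs).length)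
    (hD : D (jn Ys) 0 = D (jn Xs) 0) :
    Dec N lam U₀ Ys U₁ ∧ D (wd U₀ Ys U₁) 0 = D (wd U₀ Xs U₁) 0 := by
  have h1 : D (U₀ ++ jn Ys) 0 = D (U₀ ++ jn Xs) 0 := by
    rw [D_append, D_append, Pi.add_apply, Pi.add_apply, hD]
  have h2 : ∀ Z : Word d, D (U₀ ++ jn Ys ++ Z) 0 = D (U₀ ++ jn Xs ++ Z) 0 := by
    intro Z
    rw [D_append (U₀ ++ jn Ys), D_append (U₀ ++ jn Xs), Pi.add_apply, Pi.add_apply, h1]
  have h3 : D (wd U₀ Ys U₁) 0 = D (wd U₀ Xs U₁) 0 := h2 _
  refine ⟨⟨h.saL, h.saR, h.lp, h.rp, hb, ?_, ?_, ?_, ?_, ?_⟩, h3⟩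
  · rw [← h.len]
    unfold wd
    rw [List.length_append, List.length_append, List.length_append, List.length_append, hlen]
  · rw [h3]; exact h.lo
  · rw [h3, h1]; exact h.hi
  · intro A R hA h4 h5
    rw [h3]; exact h.cutL A R hA h4 h5
  · intro A R hA h4 h5
    rw [h3, h2]; exact h.cutR A R hA h4 h5

theorem act_inj {K : ℕ} (g : Gp K) :
    Function.Injective (act g : Word d × (Fin K → Word d) × Word d → _) := by
  rintro ⟨U, X, V⟩ ⟨U', X', V'⟩ h
  have h1 : U = U' := congrArg Prod.fst h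
  have h2 : V = V' := congrArg (fun t => t.2.2) h
  have h3 : (fun i => orw (X (g.1 i)) (g.2 i)) = fun i => orw (X' (g.1 i)) (g.2 i) :=
    congrArg (fun t => t.2.1) h
  have h4 : X = X' := by
    funext j
    have h5 := congrFun h3 (g.1.symm j)
    simp only [Equiv.apply_symm_apply] at h5
    rw [← orw_orw (X j) (g.2 (g.1.symm j)), h5, orw_orw]
  rw [h1, h2, h4]

end ActAux

open ActAux

theorem act_mem {N lam : ℕ} {E : ℤ} {K : ℕ} (g : Gp K) {t : Word d × (Fin K → Word d) × Word d}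
    (h : t ∈ decF d N lam E K) : act g t ∈ decF d N lam E K := by
  rw [mem_decF] at h ⊢
  have hb : ∀ Y ∈ List.ofFn (fun i => orw (t.2.1 (g.1 i)) (g.2 i)), Blk Y := by
    intro Y hY
    obtain ⟨i, rfl⟩ := (List.mem_ofFn' _ _).1 hY
    exact Blk_orw (h.1.blk _ ((List.mem_ofFn' _ _).2 ⟨g.1 i, rfl⟩)) _
  obtain ⟨h1, h2⟩ := dec_congr h.1 hb (act_len g t.2.1) (act_D g t.2.1)
  refine ⟨h1, ?_⟩
  show E ≤ D (wd t.1 (List.ofFn fun i => orw (t.2.1 (g.1 i)) (g.2 i)) t.2.2) 0
  rw [h2]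
  exact h.2

theorem sum_act {N lam : ℕ} {E : ℤ} {K : ℕ} (g : Gp K)
    (f : Word d × (Fin K → Word d) × Word d → ℝ) :
    ∑ t ∈ decF d N lam E K, f (act g t) = ∑ t ∈ decF d N lam E K, f t := by
  have h1 : Set.MapsTo (act g) (decF d N lam E K : Set (Word d × (Fin K → Word d) × Word d))
      (decF d N lam E K : Set (Word d × (Fin K → Word d) × Word d)) :=
    fun t ht => act_mem g ht
  have h2 : Set.InjOn (act g) (decF d N lam E K : Set (Word d × (Fin K → Word d) × Word d)) :=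
    (act_inj g).injOn
  exact Finset.sum_nbij (act g) (fun t ht => act_mem g ht) h2
    (Finset.surjOn_of_injOn_of_card_le _ h1 h2 le_rfl) (fun _ _ => rfl)

end Pool.Agent.SawFold
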