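import Pool.Agent.SawFold.Defs

/-!
Module Geo (strand geometry) of the project Pool.Agent.SawFold.
-/

set_option autoImplicit false
set_option linter.unusedSectionVars false

namespace Pool.Agent.SawFold

open Finset
open scoped BigOperators

variable {d : ℕ} [NeZero d] (W : BlockSys d)

theorem ind_nonneg (P : Prop) : 0 ≤ ind P := by
  unfold ind
  split_ifs <;> norm_num

theorem ind_le_one (P : Prop) : ind P ≤ 1 := by
  unfold ind
  split_ifs <;> norm_num

theorem ind_true {P : Prop} (h : P) : ind P = 1 := by simp [ind, h]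

theorem ind_false {P : Prop} (h : ¬ P) : ind P = 0 := by simp [ind, h]

theorem ind_mono {P Q : Prop} (h : P → Q) : ind P ≤ ind Q := by
  by_cases hp : P
  · rw [ind_true hp, ind_true (h hp)]
  · rw [ind_false hp]; exact ind_nonneg Q

theorem ind_or (P Q : Prop) : ind (P ∨ Q) ≤ ind P + ind Q := by
  by_cases hp : P <;> by_cases hq : Q <;> simp [ind, hp, hq]

theorem ind_not (P : Prop) : ind (¬ P) = 1 - ind P := by
  by_cases hp : P <;> simp [ind, hp]

theorem ind_and (P Q : Prop) : ind (P ∧ Q) = ind P * ind Q := by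
  by_cases hp : P <;> by_cases hq : Q <;> simp [ind, hp, hq]

theorem fl_fl (v : Pt d) : fl (fl v) = v := by
  ext i
  by_cases h : i = 0 <;> simp [fl, h]

theorem fl_e : fl (e : Pt d) = - e := by
  ext i
  by_cases h : i = 0
  · subst h; simp [fl, e]
  · simp [fl, e, h]

theorem fl_zero_apply (v : Pt d) : fl v 0 = - v 0 := by simp [fl]

theorem e_zero : (e : Pt d) 0 = 1 := by simp [e]

theorem Vl_nil : Vl W [] = 0 := rfl

theorem Vl_append (l l' : List W.B) : Vl W (l ++ l') = Vl W l + Vl W l' := by simp [Vl]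

theorem rv_rv (l : List W.B) : rv W (rv W l) = l := by
  unfold rv
  rw [List.map_reverse, List.reverse_reverse, List.map_map]
  conv_rhs => rw [← List.map_id l]
  apply List.map_congr_left
  intro b _
  exact W.tl_tl b

theorem rv_append (l l' : List W.B) : rv W (l ++ l') = rv W l' ++ rv W l := by simp [rv]

theorem rv_length (l : List W.B) : (rv W l).length = l.length := by simp [rv]

theorem GeoAux.Vl_cons (b : W.B) (l : List W.B) : Vl W (b :: l) = W.V b + Vl W l := by simp [Vl]

theorem GeoAux.rv_cons (b : W.B) (l : List W.B) : rv W (b :: l) = rv W l ++ [W.tl b] := by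
  simp [rv]

theorem Vl_rv (l : List W.B) : Vl W (rv W l) = - fl (Vl W l) := by
  induction l with
  | nil => simp [rv, Vl]
  | cons b l ih =>
    rw [GeoAux.rv_cons, Vl_append, ih, GeoAux.Vl_cons, GeoAux.Vl_cons, Vl_nil, W.V_tl, map_add]
    abel

theorem Vl_height (l : List W.B) : (l.length : ℤ) ≤ Vl W l 0 := by
  induction l with
  | nil => simp [Vl]
  | cons b l ih =>
    rw [GeoAux.Vl_cons, Pi.add_apply, List.length_cons]
    have := W.V_pos b
    push_cast
    linarith

theorem up_add (x z : Pt d) (l : List W.B) (y : Pt d) :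
    y ∈ up W (x + z) l ↔ y - z ∈ up W x l := by
  induction l generalizing x with
  | nil => simp [up]
  | cons b l ih =>
    have h1 : x + z + W.V b = (x + W.V b) + z := by abel
    have h2 : y - (x + z) = y - z - x := by abel
    simp only [up, Set.mem_union, Set.mem_setOf_eq]
    rw [h1, ih, h2]

theorem dn_add (x z : Pt d) (l : List W.B) (y : Pt d) :
    y ∈ dn W (x + z) l ↔ y - z ∈ dn W x l := by
  simp only [dn, Set.mem_setOf_eq]
  rw [up_add]
  have : x + z + fl (y - (x + z)) - z = x + fl (y - z - x) := by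
    have h2 : y - (x + z) = y - z - x := by abel
    rw [h2]; abel
  rw [this]

theorem mem_dn (x : Pt d) (l : List W.B) (y : Pt d) :
    y ∈ dn W x l ↔ fl (y - x) ∈ up W 0 l := by
  simp only [dn, Set.mem_setOf_eq]
  have h0 : y ∈ dn W x l ↔ y ∈ dn W x l := Iff.rfl
  have h1 : x + fl (y - x) ∈ up W (0 + x) l ↔ x + fl (y - x) - x ∈ up W 0 l := up_add W 0 x l _
  rw [zero_add, add_sub_cancel_left] at h1
  exact h1

theorem up_append (x : Pt d) (l l' : List W.B) :
    up W x (l ++ l') = up W x l ∪ up W (x + Vl W l) l' := by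
  induction l generalizing x with
  | nil => simp [up, Vl]
  | cons b l ih =>
    rw [List.cons_append]
    simp only [up]
    rw [ih, GeoAux.Vl_cons, Set.union_assoc, add_assoc]

theorem dn_append (x : Pt d) (l l' : List W.B) :
    dn W x (l ++ l') = dn W x l ∪ dn W (x + fl (Vl W l)) l' := by
  ext y
  rw [Set.mem_union, mem_dn, mem_dn, mem_dn, up_append, Set.mem_union, up_add]
  have : fl (y - (x + fl (Vl W l))) = fl (y - x) - Vl W l := by
    rw [← sub_sub, map_sub, fl_fl]
  rw [this]

theorem GeoAux.mem_up_rv (l : List W.B) (z : Pt d) :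
    z ∈ up W 0 (rv W l) ↔ fl z + Vl W l - e ∈ up W 0 l := by
  induction l with
  | nil => simp [rv, up]
  | cons b l ih =>
    rw [GeoAux.rv_cons, up_append, Set.mem_union, ih, GeoAux.Vl_cons]
    have h1 : z ∈ up W (0 + Vl W (rv W l)) [W.tl b] ↔
        fl z + (W.V b + Vl W l) - e - 0 ∈ W.S b := by
      simp only [up, Set.union_empty, Set.mem_setOf_eq]
      rw [W.S_tl, Vl_rv]
      have : fl (z - (0 + - fl (Vl W l))) + W.V b - e = fl z + (W.V b + Vl W l) - e - 0 := by
        rw [zero_add, sub_neg_eq_add, map_add, fl_fl]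
        abel
      rw [this]
    have h2 : fl z + (W.V b + Vl W l) - e ∈ up W (0 + W.V b) l ↔
        fl z + Vl W l - e ∈ up W 0 l := by
      rw [up_add]
      have : fl z + (W.V b + Vl W l) - e - W.V b = fl z + Vl W l - e := by abel
      rw [this]
    rw [h1]
    simp only [up, Set.mem_union, Set.mem_setOf_eq]
    rw [h2]
    exact or_comm

theorem up_rv (x : Pt d) (l : List W.B) :
    up W x l = dn W (x + Vl W l - e) (rv W l) := by
  ext y
  rw [mem_dn, GeoAux.mem_up_rv, fl_fl]
  have h1 : y ∈ up W (0 + x) l ↔ y - x ∈ up W 0 l := up_add W 0 x l _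
  rw [zero_add] at h1
  rw [h1]
  have : y - (x + Vl W l - e) + Vl W l - e = y - x := by abel
  rw [this]

theorem dn_rv (x : Pt d) (l : List W.B) :
    dn W x l = up W (x + fl (Vl W l) + e) (rv W l) := by
  rw [up_rv, rv_rv, Vl_rv]
  congr 1
  abel

theorem up_lo (x : Pt d) (l : List W.B) (y : Pt d) (h : y ∈ up W x l) : x 0 ≤ y 0 := by
  induction l generalizing x with
  | nil => simp [up] at h
  | cons b l ih =>
    simp only [up, Set.mem_union, Set.mem_setOf_eq] at h
    rcases h with h | h
    · have := W.S_lo b _ h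
      rw [Pi.sub_apply] at this
      linarith
    · have := ih _ h
      rw [Pi.add_apply] at this
      have := W.V_pos b
      linarith

theorem up_hi (x : Pt d) (l : List W.B) (y : Pt d) (h : y ∈ up W x l) :
    y 0 < x 0 + Vl W l 0 := by
  induction l generalizing x with
  | nil => simp [up] at h
  | cons b l ih =>
    simp only [up, Set.mem_union, Set.mem_setOf_eq] at h
    rw [GeoAux.Vl_cons, Pi.add_apply]
    rcases h with h | h
    · have := W.S_hi b _ h
      rw [Pi.sub_apply] at this
      have h2 := Vl_height W l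
      have h3 : (0 : ℤ) ≤ l.length := by positivity
      linarith
    · have := ih _ h
      rw [Pi.add_apply] at this
      linarith

theorem dn_hi (x : Pt d) (l : List W.B) (y : Pt d) (h : y ∈ dn W x l) : y 0 ≤ x 0 := by
  rw [mem_dn] at h
  have := up_lo W _ _ _ h
  rw [fl_zero_apply, Pi.sub_apply, Pi.zero_apply] at this
  linarith

theorem dn_lo (x : Pt d) (l : List W.B) (y : Pt d) (h : y ∈ dn W x l) :
    x 0 - Vl W l 0 < y 0 := by
  rw [mem_dn] at h
  have := up_hi W _ _ _ h
  rw [fl_zero_apply, Pi.sub_apply, Pi.zero_apply] at this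
  linarith

theorem fold_append {a b a' b' : List W.B} (h : Fold W (a ++ a') (b ++ b')) : Fold W a b := by
  unfold Fold at h ⊢
  rw [up_append, up_append] at h
  exact h.mono Set.subset_union_left Set.subset_union_left

theorem disjoint_bc (b c : List W.B) :
    Disjoint (up W e b) (dn W (Vl W b - e) c) ↔ Fold W (rv W b) c := by
  unfold Fold
  rw [Set.disjoint_left, Set.disjoint_left]
  -- the reflection `y ↦ fl (y - Vl b)`
  have key1 : ∀ y, y ∈ up W e b ↔ fl (y - Vl W b) ∈ up W 0 (rv W b) := by
    intro y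
    rw [GeoAux.mem_up_rv, fl_fl]
    have h1 : y ∈ up W (0 + e) b ↔ y - e ∈ up W 0 b := up_add W 0 e b _
    rw [zero_add] at h1
    rw [h1]
    have : y - Vl W b + Vl W b - e = y - e := by abel
    rw [this]
  have key2 : ∀ y, y ∈ dn W (Vl W b - e) c ↔ fl (y - Vl W b) ∈ up W e c := by
    intro y
    rw [mem_dn]
    have h1 : fl (y - Vl W b) ∈ up W (0 + e) c ↔ fl (y - Vl W b) - e ∈ up W 0 c :=
      up_add W 0 e c _
    rw [zero_add] at h1
    rw [h1]
    have : fl (y - (Vl W b - e)) = fl (y - Vl W b) - (e : Pt d) := by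
      have h2 : y - (Vl W b - e) = (y - Vl W b) + e := by abel
      rw [h2, map_add, fl_e]
      abel
    rw [this]
  constructor
  · intro h z hz hz'
    have h1 : fl ((fl z + Vl W b) - Vl W b) = z := by
      rw [add_sub_cancel_right, fl_fl]
    refine h (a := fl z + Vl W b) ?_ ?_
    · rw [key1, h1]; exact hz
    · rw [key2, h1]; exact hz'
  · intro h y hy hy'
    exact h ((key1 y).1 hy) ((key2 y).1 hy')

end Pool.Agent.SawFold
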