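import Pool.Agent.SawFold.PSA
import Pool.Agent.SawFold.Geo

/-!
Module Link (words and strands) of the project Pool.Agent.SawFold.
-/

set_option autoImplicit false
set_option linter.unusedSectionVars false

namespace Pool.Agent.SawFold

open Finset
open scoped BigOperators

variable {d : ℕ} [NeZero d]

namespace LinkAux

theorem SA_append {u v : Word d} (hu : SA u) (hv : SA v)
    (h : ∀ y ∈ P u, y - D u ∈ P v → y = D u) : SA (u ++ v) := by
  have key : ∀ i j : ℕ, i ≤ u.length → j ≤ v.length →
      D (u.take i) = D u + D (v.take j) → i = u.length ∧ j = 0 := by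
    intro i j hi hj hij
    have h1 : D (u.take i) = D u := h _ ⟨i, hi, rfl⟩ ⟨j, hj, by rw [hij]; abel⟩
    have h2 : i = u.length := by
      apply hu i u.length hi le_rfl
      rw [List.take_length]
      exact h1
    have h3 : D (v.take j) = 0 := by
      rw [h1] at hij
      simpa using hij.symm
    refine ⟨h2, hv j 0 hj (Nat.zero_le _) ?_⟩
    rw [h3]; simp
  intro i j hi hj hij
  rw [List.length_append] at hi hj
  by_cases h1 : i ≤ u.length
  · by_cases h2 : j ≤ u.length
    · rw [PSAAux.D_take_left _ _ i h1, PSAAux.D_take_left _ _ j h2] at hij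
      exact hu i j h1 h2 hij
    · have h3 : j = u.length + (j - u.length) := by omega
      rw [PSAAux.D_take_left _ _ i h1, h3, PSAAux.D_take_right] at hij
      have := key i (j - u.length) h1 (by omega) hij
      omega
  · have h3 : i = u.length + (i - u.length) := by omega
    by_cases h2 : j ≤ u.length
    · rw [PSAAux.D_take_left _ _ j h2, h3, PSAAux.D_take_right] at hij
      have := key j (i - u.length) h2 (by omega) hij.symm
      omega
    · have h4 : j = u.length + (j - u.length) := by omega
      rw [h3, h4, PSAAux.D_take_right, PSAAux.D_take_right] at hij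
      have := hv (i - u.length) (j - u.length) (by omega) (by omega) (add_left_cancel hij)
      omega

theorem SA_inter {u v : Word d} (h : SA (u ++ v)) : ∀ y ∈ P u, y - D u ∈ P v → y = D u := by
  rintro y ⟨i, hi, rfl⟩ ⟨j, hj, hy⟩
  have h1 := h i (u.length + j) (by rw [List.length_append]; omega)
    (by rw [List.length_append]; omega) (by
      rw [PSAAux.D_take_left _ _ i hi, PSAAux.D_take_right, ← hy]; abel)
  have h2 : i = u.length := by omega
  rw [h2, List.take_length]

theorem jn_append (l l' : List (Word d)) : jn (l ++ l') = jn l ++ jn l' := by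
  induction l with
  | nil => simp [jn]
  | cons X Xs ih => simp [jn, ih]

section

variable (W : BlockSys d) (ww : W.B → Word d)

theorem D_jn (hV : ∀ b, W.V b = D (ww b) + e) (l : List W.B) :
    D (jn (l.map ww)) = Vl W l := by
  induction l with
  | nil => simp [jn, Vl]
  | cons b l ih =>
    rw [List.map_cons, jn, D_append, D_cons, ih, GeoAux.Vl_cons, hV, vec_upS]
    abel

theorem mem_P_jn (hS : ∀ b, W.S b = P (ww b)) (hV : ∀ b, W.V b = D (ww b) + e)
    (l : List W.B) (y : Pt d) : y ∈ P (jn (l.map ww)) ↔ y = 0 ∨ y ∈ up W e l := by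
  induction l generalizing y with
  | nil =>
    simp only [List.map_nil, jn, up, Set.mem_empty_iff_false, or_false]
    constructor
    · rintro ⟨i, _, rfl⟩
      simp
    · rintro rfl
      exact zero_mem_P _
  | cons b l ih =>
    have h0 : jn ((b :: l).map ww) = upS :: (ww b ++ jn (l.map ww)) := by simp [jn]
    rw [h0, mem_P_cons, mem_P_append, ih, vec_upS]
    have h1 : y ∈ up W e (b :: l) ↔ (y - e ∈ W.S b ∨ y ∈ up W (e + W.V b) l) := by
      simp only [up, Set.mem_union]
      exact Iff.rfl
    rw [h1, hS, up_add, hV]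
    have h2 : y - (D (ww b) + e) = y - e - D (ww b) := by abel
    rw [h2]
    constructor
    · rintro (h | h | h | h)
      · exact Or.inl h
      · exact Or.inr (Or.inl h)
      · right; left
        have : y - e = D (ww b) := sub_eq_zero.1 h
        rw [this]
        exact D_mem_P _
      · exact Or.inr (Or.inr h)
    · rintro (h | h | h)
      · exact Or.inl h
      · exact Or.inr (Or.inl h)
      · exact Or.inr (Or.inr (Or.inr h))

theorem SA_jn (hS : ∀ b, W.S b = P (ww b)) (hV : ∀ b, W.V b = D (ww b) + e)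
    (hs : ∀ b, SA (ww b)) (l : List W.B) : SA (jn (l.map ww)) := by
  induction l with
  | nil =>
    intro i j hi hj _
    simp only [List.map_nil, jn, List.length_nil, Nat.le_zero] at hi hj
    rw [hi, hj]
  | cons b l ih =>
    rw [List.map_cons, jn]
    have h1 : SA (upS :: ww b) := by
      have := (SA_bond ([] : Word d) upS (ww b)).2 ⟨by
        intro i j hi hj _
        simp only [List.length_nil, Nat.le_zero] at hi hj
        rw [hi, hj], hs b, by
        rintro y ⟨i, _, rfl⟩ h
        rw [← hS] at h
        have := W.S_lo b _ h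
        rw [vec_upS] at this
        simp at this⟩
      simpa using this
    apply SA_append h1 ih
    intro y hy hy'
    rw [mem_P_jn W ww hS hV] at hy'
    rcases hy' with h | h
    · exact sub_eq_zero.1 h
    · exfalso
      have h2 := up_lo W _ _ _ h
      rw [D_cons, vec_upS, Pi.sub_apply, Pi.add_apply, e_zero] at h2
      rw [mem_P_cons, vec_upS] at hy
      have hb := W.V_pos b
      rw [hV, Pi.add_apply, e_zero] at hb
      rcases hy with h3 | h3
      · rw [h3, Pi.zero_apply] at h2
        linarith
      · rw [← hS] at h3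
        have h4 := W.S_hi b _ h3
        rw [hV, Pi.add_apply, e_zero, Pi.sub_apply, e_zero] at h4
        linarith

/-- heights of the strand word -/
theorem jn_hi (hS : ∀ b, W.S b = P (ww b)) (hV : ∀ b, W.V b = D (ww b) + e)
    (l : List W.B) (y : Pt d) (h : y ∈ P (jn (l.map ww))) : y 0 ≤ Vl W l 0 := by
  rw [mem_P_jn W ww hS hV] at h
  rcases h with h | h
  · rw [h, Pi.zero_apply]
    have := Vl_height W l
    have h3 : (0 : ℤ) ≤ l.length := by positivity
    linarith
  · have := up_hi W _ _ _ h
    rw [e_zero] at this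
    linarith

theorem jn_lo (hS : ∀ b, W.S b = P (ww b)) (hV : ∀ b, W.V b = D (ww b) + e)
    (l : List W.B) (y : Pt d) (h : y ∈ P (jn (l.map ww))) : y = 0 ∨ 1 ≤ y 0 := by
  rw [mem_P_jn W ww hS hV] at h
  rcases h with h | h
  · exact Or.inl h
  · have := up_lo W _ _ _ h
    rw [e_zero] at this
    exact Or.inr this

theorem mem_up_rv' (a : List W.B) (z : Pt d) :
    z ∈ up W 0 (rv W a) ↔ fl z + Vl W a ∈ up W e a := by
  rw [GeoAux.mem_up_rv]
  have h1 : fl z + Vl W a ∈ up W (0 + e) a ↔ fl z + Vl W a - e ∈ up W 0 a := up_add W 0 e a _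
  rw [zero_add] at h1
  exact h1.symm

theorem fold_of_SA' (hS : ∀ b, W.S b = P (ww b)) (hV : ∀ b, W.V b = D (ww b) + e)
    (U₀ U₁ : Word d) (l : List W.B) (q k : ℕ) (h1 : k ≤ q) (h2 : q + k ≤ l.length)
    (h : SA (foldw U₀ (l.map ww) U₁ q)) :
    Fold W (rv W ((l.drop (q - k)).take k)) ((l.drop q).take k) := by
  unfold foldw at h
  have e1 : (l.map ww).take q = (l.take (q - k)).map ww ++ ((l.drop (q - k)).take k).map ww := by
    rw [← List.map_take, ← List.map_append]
    congr 1
    have : q = (q - k) + k := by omega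
    conv_lhs => rw [this]
    rw [List.take_add]
  have e2 : (l.map ww).drop q = ((l.drop q).take k).map ww ++ ((l.drop q).drop k).map ww := by
    rw [← List.map_drop, ← List.map_append, List.take_append_drop]
  rw [e1, e2, jn_append, jn_append] at h
  set l0 := l.take (q - k)
  set a := (l.drop (q - k)).take k
  set b := (l.drop q).take k
  set b' := (l.drop q).drop k
  unfold Fold
  rw [Set.disjoint_left]
  intro z hz hz'
  have h3 := SA_inter h (D (U₀ ++ (jn (l0.map ww) ++ jn (a.map ww))) + fl z) ?_ ?_
  · have h4 : fl z = 0 := by simpa using h3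
    have h5 : z = 0 := by rw [← fl_fl z, h4, map_zero]
    have h6 := up_lo W _ _ _ hz'
    rw [h5, e_zero, Pi.zero_apply] at h6
    omega
  · rw [mem_up_rv'] at hz
    rw [← List.append_assoc, mem_P_append]
    right
    rw [mem_P_jn W ww hS hV]
    right
    have : D (U₀ ++ jn (l0.map ww) ++ jn (a.map ww)) + fl z - D (U₀ ++ jn (l0.map ww))
        = fl z + Vl W a := by
      rw [D_append (U₀ ++ jn (l0.map ww)), D_jn W ww hV]
      abel
    rw [this]
    exact hz
  · rw [add_sub_cancel_left, mem_P_flw, fl_fl, List.append_assoc, mem_P_append]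
    left
    rw [mem_P_jn W ww hS hV]
    exact Or.inr hz'

theorem SA_of_zg' (hS : ∀ b, W.S b = P (ww b)) (hV : ∀ b, W.V b = D (ww b) + e)
    (hs : ∀ b, SA (ww b)) (U₀ U₁ : Word d) (hU₀ : LP U₀) (hU₁ : RP U₁)
    (hs₀ : SA U₀) (hs₁ : SA U₁) (l : List W.B) (i j k : ℕ) (h1 : k ≤ i) (h2 : i < j)
    (h3 : j + k ≤ l.length)
    (h : Zg W (rv W ((l.drop (i - k)).take k)) ((l.drop i).take (j - i)) ((l.drop j).take k)) :
    SA (zigw U₀ (l.map ww) U₁ i j) := by
  unfold zigw
  have e1 : (l.map ww).take i = (l.take (i - k)).map ww ++ ((l.drop (i - k)).take k).map ww := by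
    rw [← List.map_take, ← List.map_append]
    congr 1
    have : i = (i - k) + k := by omega
    conv_lhs => rw [this]
    rw [List.take_add]
  have e2 : ((l.map ww).drop i).take (j - i) = ((l.drop i).take (j - i)).map ww := by
    rw [← List.map_drop, ← List.map_take]
  have e3 : (l.map ww).drop j = ((l.drop j).take k).map ww ++ ((l.drop j).drop k).map ww := by
    rw [← List.map_drop, ← List.map_append, List.take_append_drop]
  rw [e1, e2, e3, jn_append, jn_append]
  set l0 := l.take (i - k)
  set a := (l.drop (i - k)).take k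
  set b := (l.drop i).take (j - i)
  set c := (l.drop j).take k
  set c' := (l.drop j).drop k
  obtain ⟨hab, hbc, hac, hha, hhc⟩ := h
  rw [Set.disjoint_left] at hab hbc hac
  have hra : Vl W (rv W a) 0 = Vl W a 0 := by
    rw [Vl_rv, Pi.neg_apply, fl_zero_apply, neg_neg]
  rw [hra] at hha
  have hb0 : 0 ≤ Vl W b 0 := by
    have := Vl_height W b
    have h3 : (0 : ℤ) ≤ b.length := by positivity
    linarith
  -- the parts
  set A0 : Word d := U₀ ++ jn (l0.map ww) with hA0
  set u : Pt d := D (A0 ++ jn (a.map ww)) with hu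
  have hu' : u = D A0 + Vl W a := by rw [hu, D_append, D_jn W ww hV]
  -- heights of A0
  have hA0hi : ∀ y ∈ P A0, y 0 ≤ D A0 0 := by
    intro y hy
    rw [hA0, mem_P_append] at hy
    rw [hA0, D_append, D_jn W ww hV, Pi.add_apply]
    rcases hy with hy | hy
    · have h4 := hU₀ y hy
      have := Vl_height W l0
      have h3 : (0 : ℤ) ≤ l0.length := by positivity
      linarith
    · have h4 := jn_hi W ww hS hV l0 _ hy
      rw [Pi.sub_apply] at h4
      linarith
  -- points of the part A
  have hA : ∀ y ∈ P (A0 ++ jn (a.map ww)), y 0 ≤ u 0 - Vl W a 0 ∨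
      fl (y - u) ∈ up W 0 (rv W a) := by
    intro y hy
    rw [mem_P_append] at hy
    have hD : D A0 0 = u 0 - Vl W a 0 := by rw [hu', Pi.add_apply]; ring
    rcases hy with hy | hy
    · left
      have := hA0hi y hy
      linarith
    · rw [mem_P_jn W ww hS hV] at hy
      rcases hy with hy | hy
      · left
        have : y = D A0 := sub_eq_zero.1 hy
        rw [this, hD]
      · right
        rw [mem_up_rv', fl_fl]
        have : y - u + Vl W a = y - D A0 := by rw [hu']; abel
        rw [this]
        exact hy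
  have hAhi : ∀ y ∈ P (A0 ++ jn (a.map ww)), y 0 ≤ u 0 := by
    intro y hy
    rcases hA y hy with h4 | h4
    · linarith
    · have := up_lo W _ _ _ h4
      rw [fl_zero_apply, Pi.sub_apply, Pi.zero_apply] at this
      linarith
  have hSA_A : SA (A0 ++ jn (a.map ww)) := by
    have hx : A0 ++ jn (a.map ww) = U₀ ++ jn ((l0 ++ a).map ww) := by
      rw [List.map_append, jn_append, hA0, List.append_assoc]
    rw [hx]
    apply SA_append hs₀ (SA_jn W ww hS hV hs _)
    intro y hy hy'
    rcases jn_lo W ww hS hV _ _ hy' with h4 | h4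
    · exact sub_eq_zero.1 h4
    · exfalso
      have := hU₀ y hy
      rw [Pi.sub_apply] at h4
      linarith
  -- the part C
  have hCpos : ∀ y ∈ P (upS :: U₁), y = 0 ∨ 1 ≤ y 0 := by
    intro y hy
    rw [mem_P_cons, vec_upS] at hy
    rcases hy with hy | hy
    · exact Or.inl hy
    · right
      have := hU₁ _ hy
      rw [Pi.sub_apply, e_zero] at this
      linarith
  have hSA_C0 : SA (upS :: U₁) := by
    have := (SA_bond ([] : Word d) upS U₁).2 ⟨by
      intro i j hi hj _
      simp only [List.length_nil, Nat.le_zero] at hi hj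
      rw [hi, hj], hs₁, by
      rintro y ⟨i, _, rfl⟩ h
      have := hU₁ _ h
      rw [vec_upS] at this
      simp at this⟩
    simpa using this
  have hSA_C : SA (jn (c.map ww) ++ jn (c'.map ww) ++ upS :: U₁) := by
    rw [← jn_append, ← List.map_append]
    apply SA_append (SA_jn W ww hS hV hs _) hSA_C0
    intro y hy hy'
    rcases hCpos _ hy' with h4 | h4
    · exact sub_eq_zero.1 h4
    · exfalso
      have h5 := jn_hi W ww hS hV _ _ hy
      rw [D_jn W ww hV, Pi.sub_apply] at h4
      linarith
  -- the part A B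
  have hSA_AB : SA (A0 ++ jn (a.map ww) ++ flw (jn (b.map ww))) := by
    apply SA_append hSA_A ((SA_flw _).2 (SA_jn W ww hS hV hs _))
    intro y hy hy'
    rw [← hu] at hy' ⊢
    rw [mem_P_flw, mem_P_jn W ww hS hV] at hy'
    rcases hy' with h4 | h4
    · have h5 : y - u = 0 := by rw [← fl_fl (y - u), h4, map_zero]
      exact sub_eq_zero.1 h5
    · exfalso
      rcases hA y hy with h5 | h5
      · have h6 := up_hi W _ _ _ h4
        rw [fl_zero_apply, Pi.sub_apply, e_zero] at h6
        linarith
      · exact hab h5 h4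
  have hgoal : U₀ ++ (jn (l0.map ww) ++ jn (a.map ww)) ++ flw (jn (b.map ww)) ++
      (jn (c.map ww) ++ jn (c'.map ww)) ++ upS :: U₁ =
      (A0 ++ jn (a.map ww) ++ flw (jn (b.map ww))) ++
      (jn (c.map ww) ++ jn (c'.map ww) ++ upS :: U₁) := by
    rw [hA0]
    simp only [List.append_assoc]
  rw [hgoal]
  apply SA_append hSA_AB hSA_C
  set v : Pt d := D (A0 ++ jn (a.map ww) ++ flw (jn (b.map ww))) with hv
  have hv' : v = u + fl (Vl W b) := by rw [hv, D_append, D_flw, D_jn W ww hV]
  have hv0 : v 0 = u 0 - Vl W b 0 := by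
    rw [hv', Pi.add_apply, fl_zero_apply]; ring
  intro y hy hy'
  rw [mem_P_append] at hy
  -- the height of y
  have hyhi : y 0 ≤ u 0 := by
    rcases hy with hy | hy
    · exact hAhi y hy
    · rw [← hu, mem_P_flw] at hy
      rcases jn_lo W ww hS hV _ _ hy with h4 | h4
      · have h5 : y - u = 0 := by rw [← fl_fl (y - u), h4, map_zero]
        rw [sub_eq_zero.1 h5]
      · rw [fl_zero_apply, Pi.sub_apply] at h4
        linarith
  -- y is in the part c
  have hyc : y - v ∈ P (jn (c.map ww)) := by
    rw [List.append_assoc, mem_P_append] at hy'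
    rcases hy' with h4 | h4
    · exact h4
    · rw [D_jn W ww hV] at h4
      have h5 : y - v - Vl W c = 0 ∨ 1 ≤ (y - v - Vl W c) 0 := by
        rw [mem_P_append] at h4
        rcases h4 with h4 | h4
        · exact jn_lo W ww hS hV _ _ h4
        · rcases hCpos _ h4 with h5 | h5
          · rw [D_jn W ww hV] at h5
            have h6 : y - v - Vl W c = Vl W c' := sub_eq_zero.1 h5
            rcases jn_lo W ww hS hV c' (Vl W c') (by
              rw [← D_jn W ww hV]; exact D_mem_P _) with h7 | h7
            · left; rw [h6, h7]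
            · right; rw [h6]; exact h7
          · right
            rw [D_jn W ww hV, Pi.sub_apply] at h5
            have := Vl_height W c'
            have h3 : (0 : ℤ) ≤ c'.length := by positivity
            linarith
      rcases h5 with h5 | h5
      · have h6 : y - v = Vl W c := sub_eq_zero.1 h5
        rw [h6, ← D_jn W ww hV]
        exact D_mem_P _
      · exfalso
        rw [Pi.sub_apply, Pi.sub_apply] at h5
        linarith
  rw [mem_P_jn W ww hS hV] at hyc
  rcases hyc with hyc | hyc
  · exact sub_eq_zero.1 hyc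
  exfalso
  have hz : fl (y - u) ∈ dn W (Vl W b - e) c := by
    rw [mem_dn]
    have h4 : fl (fl (y - u) - (Vl W b - e)) = y - v - e := by
      rw [map_sub fl (fl (y - u)), map_sub fl (Vl W b), fl_fl, fl_e, hv']
      abel
    rw [h4]
    have h5 : y - v ∈ up W (0 + e) c ↔ y - v - e ∈ up W 0 c := up_add W 0 e c _
    rw [zero_add] at h5
    exact h5.1 hyc
  have hylo : v 0 + 1 ≤ y 0 := by
    have := up_lo W _ _ _ hyc
    rw [e_zero, Pi.sub_apply] at this
    linarith
  have hyA : y ∈ P (A0 ++ jn (a.map ww)) → False := by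
    intro hy
    rcases hA y hy with h5 | h5
    · linarith
    · exact hac h5 hz
  rcases hy with hy | hy
  · exact hyA hy
  · rw [← hu, mem_P_flw, mem_P_jn W ww hS hV] at hy
    rcases hy with h4 | h4
    · have h5 : y - u = 0 := by rw [← fl_fl (y - u), h4, map_zero]
      apply hyA
      rw [sub_eq_zero.1 h5, hu]
      exact D_mem_P _
    · exact hbc h4 hz

end

end LinkAux

theorem fold_of_SA {K : ℕ} (hK : 0 < K) (X : Fin K → Word d) (hr : ∀ i, RP (X i))
    (hl : ∀ i, LP (X i)) (U₀ U₁ : Word d) (hU₀ : LP U₀) (hU₁ : RP U₁) (l : List (Fin K × Bool))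
    (q k : ℕ) (h1 : k ≤ q) (h2 : q + k ≤ l.length) (h : SA (foldw U₀ (wl X l) U₁ q)) :
    Fold (bsys hK X hr hl) (rv (bsys hK X hr hl) ((l.drop (q - k)).take k))
      ((l.drop q).take k) :=
  LinkAux.fold_of_SA' (bsys hK X hr hl) (fun b => orw (X b.1) b.2) (fun _ => rfl) (fun _ => rfl)
    U₀ U₁ l q k h1 h2 h

theorem SA_of_zg {K : ℕ} (hK : 0 < K) (X : Fin K → Word d) (hr : ∀ i, RP (X i))
    (hl : ∀ i, LP (X i)) (hs : ∀ i, SA (X i)) (U₀ U₁ : Word d) (hU₀ : LP U₀) (hU₁ : RP U₁)
    (hs₀ : SA U₀) (hs₁ : SA U₁) (l : List (Fin K × Bool)) (i j k : ℕ) (h1 : k ≤ i) (h2 : i < j)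
    (h3 : j + k ≤ l.length)
    (h : Zg (bsys hK X hr hl) (rv (bsys hK X hr hl) ((l.drop (i - k)).take k))
      ((l.drop i).take (j - i)) ((l.drop j).take k)) :
    SA (zigw U₀ (wl X l) U₁ i j) :=
  LinkAux.SA_of_zg' (bsys hK X hr hl) (fun b => orw (X b.1) b.2) (fun _ => rfl) (fun _ => rfl)
    (by
      rintro ⟨i, s⟩
      cases s
      · exact hs i
      · exact (SA_tlw _).2 (hs i)) U₀ U₁ hU₀ hU₁ hs₀ hs₁ l i j k h1 h2 h3 h

end Pool.Agent.SawFold
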