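import Pool.Agent.SawFold.Defs2

/-!
Basic facts on words; the block system of a family of blocks.
-/

set_option autoImplicit false
set_option linter.unusedSectionVars false

namespace Pool.Agent.SawFold

open Finset
open scoped BigOperators

variable {d : ℕ} [NeZero d]

@[simp] theorem fl_apply (v : Pt d) (i : Fin d) : fl v i = if i = 0 then - v i else v i := rfl

@[simp] theorem fl_fl' (v : Pt d) : fl (fl v) = v := by
  ext i
  by_cases h : i = 0 <;> simp [h]

@[simp] theorem fl_e' : fl (e : Pt d) = - e := by
  ext i
  by_cases h : i = 0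
  · subst h; simp [e]
  · simp [e, h]

@[simp] theorem e_zero' : (e : Pt d) 0 = 1 := by simp [e]

@[simp] theorem D_nil : D ([] : Word d) = 0 := rfl

theorem D_cons (s : Stp d) (w : Word d) : D (s :: w) = vec s + D w := by simp [D]

theorem D_append (u v : Word d) : D (u ++ v) = D u + D v := by simp [D]

theorem vec_upS : vec (upS : Stp d) = e := by simp [vec, upS, e]

theorem zero_mem_P (w : Word d) : (0 : Pt d) ∈ P w := ⟨0, Nat.zero_le _, by simp⟩

theorem D_mem_P (w : Word d) : D w ∈ P w := ⟨w.length, le_rfl, by simp⟩

theorem vec_flip (s : Stp d) : vec (if s.1 = 0 then (s.1, !s.2) else s) = fl (vec s) := by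
  obtain ⟨i, b⟩ := s
  ext j
  by_cases hi : i = 0
  · subst hi
    by_cases hj : j = 0
    · subst hj
      cases b <;> simp [vec]
    · cases b <;> simp [vec, hj]
  · by_cases hj : j = 0
    · subst hj
      have : (0 : Fin d) ≠ i := fun h => hi h.symm
      cases b <;> simp [vec, hi, this]
    · simp [vec, hi, hj]

theorem vec_lat (s : Stp d) : vec (if s.1 = 0 then s else (s.1, !s.2)) = - fl (vec s) := by
  obtain ⟨i, b⟩ := s
  ext j
  by_cases hi : i = 0
  · subst hi
    by_cases hj : j = 0
    · subst hj
      cases b <;> simp [vec]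
    · cases b <;> simp [vec, hj]
  · by_cases hj : j = 0
    · subst hj
      have : (0 : Fin d) ≠ i := fun h => hi h.symm
      cases b <;> simp [vec, hi, this]
    · by_cases hij : j = i
      · subst hij
        cases b <;> simp [vec, hi]
      · cases b <;> simp [vec, hi, hj, hij]

theorem D_flw (w : Word d) : D (flw w) = fl (D w) := by
  induction w with
  | nil => simp [flw, D]
  | cons s w ih =>
    have h : flw (s :: w) = (if s.1 = 0 then (s.1, !s.2) else s) :: flw w := by simp [flw]
    rw [h, D_cons, D_cons, ih, vec_flip, map_add]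

theorem D_tlw (w : Word d) : D (tlw w) = - fl (D w) := by
  induction w with
  | nil => simp [tlw, D]
  | cons s w ih =>
    have h : tlw (s :: w) = tlw w ++ [if s.1 = 0 then s else (s.1, !s.2)] := by simp [tlw]
    rw [h, D_append, ih, D_cons, D_cons, vec_lat, map_add, D_nil]
    abel

theorem tlw_tlw (w : Word d) : tlw (tlw w) = w := by
  unfold tlw
  rw [List.map_reverse, List.reverse_reverse, List.map_map]
  conv_rhs => rw [← List.map_id w]
  apply List.map_congr_left
  intro s _
  by_cases h : s.1 = 0 <;> simp [h]

theorem flw_flw (w : Word d) : flw (flw w) = w := by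
  unfold flw
  rw [List.map_map]
  conv_rhs => rw [← List.map_id w]
  apply List.map_congr_left
  rintro ⟨i, b⟩ _
  by_cases h : i = 0 <;> simp [h]

theorem tlw_append (u v : Word d) : tlw (u ++ v) = tlw v ++ tlw u := by simp [tlw]

theorem flw_append (u v : Word d) : flw (u ++ v) = flw u ++ flw v := by simp [flw]

theorem tlw_length (w : Word d) : (tlw w).length = w.length := by simp [tlw]

theorem flw_length (w : Word d) : (flw w).length = w.length := by simp [flw]

theorem mem_P_tlw_aux (w : Word d) (y : Pt d) (h : y ∈ P (tlw w)) : fl y + D w ∈ P w := by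
  obtain ⟨i, hi, rfl⟩ := h
  rw [tlw_length] at hi
  refine ⟨w.length - i, by omega, ?_⟩
  have h1 : (tlw w).take i = tlw (w.drop (w.length - i)) := by
    conv_lhs => rw [← List.take_append_drop (w.length - i) w, tlw_append]
    rw [List.take_left']
    rw [tlw_length, List.length_drop]
    omega
  rw [h1, D_tlw, map_neg, fl_fl']
  conv_lhs => rw [← List.take_append_drop (w.length - i) w, D_append]
  simp

theorem mem_P_tlw (w : Word d) (y : Pt d) : y ∈ P (tlw w) ↔ fl y + D w ∈ P w := by
  constructor
  · exact mem_P_tlw_aux w y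
  · intro h
    have h2 := mem_P_tlw_aux (tlw w) (fl y + D w) (by rw [tlw_tlw]; exact h)
    rw [D_tlw, map_add, fl_fl'] at h2
    simpa using h2

theorem orw_D (X : Word d) (s : Bool) : D (orw X s) 0 = D X 0 := by
  cases s
  · rfl
  · simp [orw, D_tlw]

/-- The block system of a family of words (sites and displacements of the words and of the words
traversed backwards). -/
def bsys {K : ℕ} (hK : 0 < K) (X : Fin K → Word d) (hr : ∀ i, RP (X i)) (hl : ∀ i, LP (X i)) :
    BlockSys d where
  B := Fin K × Bool
  fin := inferInstance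
  ne := ⟨(⟨0, hK⟩, false)⟩
  S b := P (orw (X b.1) b.2)
  V b := D (orw (X b.1) b.2) + e
  tl b := (b.1, !b.2)
  tl_tl b := by simp
  V_pos b := by
    rw [Pi.add_apply, orw_D, e_zero']
    have := hr b.1 _ (D_mem_P _)
    linarith
  S_lo b x hx := by
    obtain ⟨i, s⟩ := b
    cases s
    · exact hr i x hx
    · have h1 := hl i _ ((mem_P_tlw (X i) x).1 hx)
      simp at h1
      linarith
  S_hi b x hx := by
    obtain ⟨i, s⟩ := b
    rw [Pi.add_apply, orw_D, e_zero']
    cases s
    · have := hl i x hx
      show x 0 < D (X i) 0 + 1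
      linarith
    · have h1 := hr i _ ((mem_P_tlw (X i) x).1 hx)
      simp at h1
      show x 0 < D (X i) 0 + 1
      linarith
  V_tl b := by
    obtain ⟨i, s⟩ := b
    cases s
    · simp [orw, D_tlw]
      abel
    · simp [orw, D_tlw]
      abel
  S_tl b y := by
    obtain ⟨i, s⟩ := b
    cases s
    · have := mem_P_tlw (X i) y
      show y ∈ P (tlw (X i)) ↔ fl y + (D (X i) + e) - e ∈ P (X i)
      rw [← add_assoc, add_sub_cancel_right]
      exact this
    · have := mem_P_tlw (tlw (X i)) y
      rw [tlw_tlw] at this
      show y ∈ P (X i) ↔ fl y + (D (tlw (X i)) + e) - e ∈ P (tlw (X i))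
      rw [← add_assoc, add_sub_cancel_right]
      exact this

end Pool.Agent.SawFold
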