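import Pool.Agent.SawFold.ELb
import Pool.Agent.SawFold.Word0

/-!
Module PermIid (permutations versus independent blocks) of the project Pool.Agent.SawFold.
-/

set_option autoImplicit false
set_option linter.unusedSectionVars false

namespace Pool.Agent.SawFold

open Finset
open scoped BigOperators

variable {d : ℕ} [NeZero d]

theorem wl_seqB {K : ℕ} (g : Gp K) (t : Word d × (Fin K → Word d) × Word d) :
    List.ofFn (act g t).2.1 = wl t.2.1 (seqB g) := by
  unfold act wl seqB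
  rw [List.map_ofFn]
  rfl

namespace PermIidAux

/-- Restriction of a permutation with orientations to the positions `i, ..., i + q - 1`. -/
def res {K : ℕ} (i q : ℕ) (h : i + q ≤ K) (g : Gp K) : Fin q → Fin K × Bool :=
  fun j => (g.1 ⟨i + j, by omega⟩, g.2 ⟨i + j, by omega⟩)

theorem res_list {K : ℕ} (i q : ℕ) (h : i + q ≤ K) (g : Gp K) :
    ((seqB g).drop i).take q = List.ofFn (res i q h g) := by
  apply List.ext_getElem
  · simp [seqB]
    omega
  · intro n h1 h2
    simp [seqB, res]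

theorem res_inj {K : ℕ} (i q : ℕ) (h : i + q ≤ K) (g : Gp K) :
    Function.Injective fun j => (res i q h g j).1 := by
  intro a b hab
  have h1 := g.1.injective hab
  rw [Fin.mk.injEq] at h1
  exact Fin.ext (by omega)

/-- Injective labels. -/
noncomputable def Inj (K q : ℕ) : Finset (Fin q → Fin K × Bool) := by
  classical exact Finset.univ.filter fun x => Function.Injective fun j => (x j).1

theorem mem_Inj {K q : ℕ} (x : Fin q → Fin K × Bool) :
    x ∈ Inj K q ↔ Function.Injective fun j => (x j).1 := by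
  classical
  unfold Inj
  simp

theorem exists_perm {K q : ℕ} (f f' : Fin q → Fin K) (hf : Function.Injective f)
    (hf' : Function.Injective f') : ∃ π : Equiv.Perm (Fin K), ∀ j, π (f j) = f' j := by
  classical
  let e : {x // x ∈ Set.range f} ≃ {x // x ∈ Set.range f'} :=
    (Equiv.ofInjective f hf).symm.trans (Equiv.ofInjective f' hf')
  refine ⟨e.extendSubtype, fun j => ?_⟩
  rw [e.extendSubtype_apply_of_mem (f j) ⟨j, rfl⟩]
  show ((Equiv.ofInjective f' hf') ((Equiv.ofInjective f hf).symm ⟨f j, ⟨j, rfl⟩⟩) : Fin K) = f' j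
  have h1 : (Equiv.ofInjective f hf).symm ⟨f j, ⟨j, rfl⟩⟩ = j := by
    rw [Equiv.symm_apply_eq]
    rfl
  rw [h1]
  rfl

open Classical in
/-- The fibre of the restriction. -/
noncomputable def fib {K : ℕ} (i q : ℕ) (h : i + q ≤ K) (x : Fin q → Fin K × Bool) :
    Finset (Gp K) := Finset.univ.filter fun g => res i q h g = x

theorem mem_fib {K : ℕ} (i q : ℕ) (h : i + q ≤ K) (x : Fin q → Fin K × Bool) (g : Gp K) :
    g ∈ fib i q h x ↔ res i q h g = x := by
  classical
  unfold fib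
  simp

theorem fib_le {K : ℕ} (i q : ℕ) (h : i + q ≤ K) (x x' : Fin q → Fin K × Bool)
    (hx : x ∈ Inj K q) (hx' : x' ∈ Inj K q) : (fib i q h x).card ≤ (fib i q h x').card := by
  classical
  rw [mem_Inj] at hx hx'
  obtain ⟨π, hπ⟩ := exists_perm _ _ hx hx'
  let u : Fin K → Bool := fun p =>
    if hp : i ≤ p.1 ∧ p.1 < i + q then
      xor (x ⟨p.1 - i, by omega⟩).2 (x' ⟨p.1 - i, by omega⟩).2 else false
  apply Finset.card_le_card_of_injOn (fun g => (g.1.trans π, fun p => xor (g.2 p) (u p)))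
  · intro g hg
    rw [Finset.mem_coe, mem_fib] at hg ⊢
    funext j
    have hg' := congrFun hg j
    have h1 : g.1 ⟨i + j, by omega⟩ = (x j).1 := congrArg Prod.fst hg'
    have h2 : g.2 ⟨i + j, by omega⟩ = (x j).2 := congrArg Prod.snd hg'
    have h3 : u ⟨i + j, by omega⟩ = xor (x j).2 (x' j).2 := by
      have h4 : i ≤ i + j.1 ∧ i + j.1 < i + q := ⟨by omega, by omega⟩
      have h5 : (⟨i + j.1 - i, by omega⟩ : Fin q) = j := Fin.ext (by simp)
      show (if hp : i ≤ i + j.1 ∧ i + j.1 < i + q then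
        xor (x ⟨i + j.1 - i, by omega⟩).2 (x' ⟨i + j.1 - i, by omega⟩).2 else false) = _
      rw [dif_pos h4, h5]
    apply Prod.ext
    · show π (g.1 ⟨i + j, by omega⟩) = (x' j).1
      rw [h1, hπ]
    · show xor (g.2 ⟨i + j, by omega⟩) (u ⟨i + j, by omega⟩) = (x' j).2
      rw [h2, h3, ← Bool.xor_assoc, Bool.xor_self, Bool.false_xor]
  · intro g _ g' _ hgg
    have h1 : g.1.trans π = g'.1.trans π := congrArg Prod.fst hgg
    have h2 : (fun p => xor (g.2 p) (u p)) = fun p => xor (g'.2 p) (u p) :=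
      congrArg Prod.snd hgg
    apply Prod.ext
    · ext p
      have h3 : π (g.1 p) = π (g'.1 p) := congrFun (congrArg DFunLike.coe h1) p
      exact congrArg Fin.val (π.injective h3)
    · funext p
      have h3 := congrFun h2 p
      exact Bool.xor_left_inj.1 h3

theorem avg_eq {K : ℕ} (i q : ℕ) (h : i + q ≤ K) (φ : List (Fin K × Bool) → ℝ) :
    avg (fun g => φ (((seqB g).drop i).take q)) =
      (∑ x ∈ Inj K q, φ (List.ofFn x)) / ((Inj K q).card : ℝ) := by
  classical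
  have hres : ∀ g, res i q h g ∈ Inj K q := fun g => (mem_Inj _).2 (res_inj i q h g)
  let g₀ : Gp K := (1, fun _ => false)
  let c : ℕ := (fib i q h (res i q h g₀)).card
  have hc : ∀ x ∈ Inj K q, (fib i q h x).card = c := fun x hx =>
    le_antisymm (fib_le i q h _ _ hx (hres g₀)) (fib_le i q h _ _ (hres g₀) hx)
  have hc0 : 0 < c := Finset.card_pos.2 ⟨g₀, (mem_fib _ _ _ _ _).2 rfl⟩
  have key : ∀ ψ : (Fin q → Fin K × Bool) → ℝ,
      ∑ g : Gp K, ψ (res i q h g) = c * ∑ x ∈ Inj K q, ψ x := by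
    intro ψ
    rw [← Finset.sum_fiberwise_of_maps_to (s := Finset.univ) (t := Inj K q)
      (g := res i q h) (fun g _ => hres g), Finset.mul_sum]
    apply Finset.sum_congr rfl
    intro x hx
    rw [← hc x hx]
    have : ∑ g ∈ Finset.univ.filter (fun g => res i q h g = x), ψ (res i q h g) =
        ∑ _g ∈ fib i q h x, ψ x := by
      unfold fib
      apply Finset.sum_congr rfl
      intro g hg
      rw [(Finset.mem_filter.1 hg).2]
    rw [this, Finset.sum_const, nsmul_eq_mul]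
  have h1 := key (fun x => φ (List.ofFn x))
  have h2 := key (fun _ => 1)
  rw [Finset.sum_const, nsmul_eq_mul, mul_one, Finset.sum_const, nsmul_eq_mul, mul_one,
    Finset.card_univ] at h2
  unfold avg
  have h3 : ∑ g : Gp K, φ (((seqB g).drop i).take q) =
      ∑ g : Gp K, φ (List.ofFn (res i q h g)) := by
    apply Finset.sum_congr rfl
    intro g _
    rw [res_list i q h g]
  rw [h3, h1, h2]
  have hcR : (c : ℝ) ≠ 0 := by exact_mod_cast hc0.ne'
  rw [mul_div_mul_left _ _ hcR]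

theorem Inj_card_le (K q : ℕ) : ((Inj K q).card : ℝ) ≤ (2 * K : ℝ) ^ q := by
  have h1 : (Inj K q).card ≤ Fintype.card (Fin q → Fin K × Bool) := Finset.card_le_univ _
  rw [Fintype.card_fun, Fintype.card_prod, Fintype.card_fin, Fintype.card_bool,
    Fintype.card_fin] at h1
  have h2 : ((Inj K q).card : ℝ) ≤ (((K * 2) ^ q : ℕ) : ℝ) := by exact_mod_cast h1
  push_cast at h2
  rw [mul_comm (2 : ℝ)]
  exact h2

theorem desc_ge (K : ℕ) (hK : 0 < K) : ∀ q, q ≤ K →
    (1 - (q : ℝ) ^ 2 / K) * (K : ℝ) ^ q ≤ (K.descFactorial q : ℝ) := by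
  intro q
  induction q with
  | zero => intro _; simp
  | succ q ih =>
    intro hq
    have h1 := ih (by omega)
    rw [Nat.descFactorial_succ, Nat.cast_mul, Nat.cast_sub (by omega)]
    have hKr : (0 : ℝ) < K := by exact_mod_cast hK
    have h2 : (0 : ℝ) ≤ (K : ℝ) - q := by
      have : (q : ℝ) + 1 ≤ K := by exact_mod_cast hq
      linarith
    have h3 := mul_le_mul_of_nonneg_left h1 h2
    refine le_trans ?_ h3
    have h4 : ((K : ℝ) - q) * ((1 - (q : ℝ) ^ 2 / K) * (K : ℝ) ^ q) -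
        (1 - ((q + 1 : ℕ) : ℝ) ^ 2 / K) * (K : ℝ) ^ (q + 1) =
        (K : ℝ) ^ q * ((q : ℝ) + 1 + (q : ℝ) ^ 3 / K) := by
      push_cast
      rw [pow_succ (K : ℝ) q]
      field_simp
      ring
    have h5 : (0 : ℝ) ≤ (K : ℝ) ^ q * ((q : ℝ) + 1 + (q : ℝ) ^ 3 / K) := by positivity
    linarith

theorem Inj_card_ge (K q : ℕ) (hK : 0 < K) (h : q ≤ K) :
    (1 - (q : ℝ) ^ 2 / K) * (2 * K : ℝ) ^ q ≤ ((Inj K q).card : ℝ) := by
  have h1 : K.descFactorial q * 2 ^ q ≤ (Inj K q).card := by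
    have e1 : Fintype.card ((Fin q ↪ Fin K) × (Fin q → Bool)) = K.descFactorial q * 2 ^ q := by
      rw [Fintype.card_prod, Fintype.card_embedding_eq, Fintype.card_fun, Fintype.card_fin,
        Fintype.card_fin, Fintype.card_bool]
    rw [← e1, ← Finset.card_univ]
    apply Finset.card_le_card_of_injOn (fun p => fun j => (p.1 j, p.2 j))
    · intro p _
      rw [Finset.mem_coe, mem_Inj]
      exact p.1.injective
    · intro p _ p' _ hpp
      apply Prod.ext
      · ext j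
        have := congrArg Prod.fst (congrFun hpp j)
        exact congrArg Fin.val this
      · funext j
        exact congrArg Prod.snd (congrFun hpp j)
  have h2 := desc_ge K hK q h
  have h3 : ((K.descFactorial q * 2 ^ q : ℕ) : ℝ) ≤ ((Inj K q).card : ℝ) := by exact_mod_cast h1
  push_cast at h3
  have h4 := mul_le_mul_of_nonneg_right h2 (by positivity : (0 : ℝ) ≤ 2 ^ q)
  have h5 : (1 - (q : ℝ) ^ 2 / K) * (2 * K : ℝ) ^ q =
      (1 - (q : ℝ) ^ 2 / K) * (K : ℝ) ^ q * 2 ^ q := by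
    rw [mul_pow]
    ring
  rw [h5]
  exact h4.trans h3

theorem EL_eq {K : ℕ} (hK : 0 < K) (X : Fin K → Word d) (hr : ∀ i, RP (X i))
    (hl : ∀ i, LP (X i)) (q : ℕ) (φ : List (Fin K × Bool) → ℝ) :
    EL (bsys hK X hr hl) q φ = (∑ x : Fin q → Fin K × Bool, φ (List.ofFn x)) / (2 * K : ℝ) ^ q := by
  have h1 : EL (bsys hK X hr hl) q φ = (∑ x : Fin q → Fin K × Bool, φ (List.ofFn x)) /
      (Fintype.card (Fin q → Fin K × Bool) : ℝ) := rfl
  rw [h1, Fintype.card_fun, Fintype.card_prod, Fintype.card_fin, Fintype.card_bool,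
    Fintype.card_fin]
  push_cast
  rw [mul_comm (2 : ℝ)]

end PermIidAux

theorem avg_ge {K : ℕ} (hK : 0 < K) (X : Fin K → Word d) (hr : ∀ i, RP (X i))
    (hl : ∀ i, LP (X i)) (φ : List (Fin K × Bool) → ℝ) (h0 : ∀ l, 0 ≤ φ l) (h1 : ∀ l, φ l ≤ 1)
    (i q : ℕ) (h : i + q ≤ K) :
    EL (bsys hK X hr hl) q φ - (q : ℝ) ^ 2 / K ≤ avg fun g => φ (((seqB g).drop i).take q) := by
  classical
  rw [PermIidAux.avg_eq i q h φ, PermIidAux.EL_eq]
  have hKr : (0 : ℝ) < K := by exact_mod_cast hK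
  have hN : (0 : ℝ) < (2 * K : ℝ) ^ q := by positivity
  have a1 := PermIidAux.Inj_card_le K q
  have a2 := PermIidAux.Inj_card_ge K q hK (by omega)
  have a3 : (0 : ℝ) ≤ ∑ x ∈ PermIidAux.Inj K q, φ (List.ofFn x) :=
    Finset.sum_nonneg fun x _ => h0 _
  have hI : (0 : ℝ) < ((PermIidAux.Inj K q).card : ℝ) := by
    have : (PermIidAux.res i q h ((1, fun _ => false) : Gp K)) ∈ PermIidAux.Inj K q :=
      (PermIidAux.mem_Inj _).2 (PermIidAux.res_inj i q h _)
    exact_mod_cast Finset.card_pos.2 ⟨_, this⟩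
  have b1 : (∑ x ∈ PermIidAux.Inj K q, φ (List.ofFn x)) / (2 * K : ℝ) ^ q ≤
      (∑ x ∈ PermIidAux.Inj K q, φ (List.ofFn x)) / ((PermIidAux.Inj K q).card : ℝ) :=
    div_le_div_of_nonneg_left a3 hI a1
  refine le_trans ?_ b1
  have b2 : ∑ x : Fin q → Fin K × Bool, φ (List.ofFn x) =
      ∑ x ∈ PermIidAux.Inj K q, φ (List.ofFn x) +
      ∑ x ∈ (PermIidAux.Inj K q)ᶜ, φ (List.ofFn x) := (Finset.sum_add_sum_compl _ _).symm
  have b3 : ∑ x ∈ (PermIidAux.Inj K q)ᶜ, φ (List.ofFn x) ≤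
      (((PermIidAux.Inj K q)ᶜ).card : ℝ) := by
    calc _ ≤ ∑ _x ∈ (PermIidAux.Inj K q)ᶜ, (1 : ℝ) := Finset.sum_le_sum fun x _ => h1 _
      _ = _ := by rw [Finset.sum_const, nsmul_eq_mul, mul_one]
  have b4 : ((PermIidAux.Inj K q).card : ℝ) + (((PermIidAux.Inj K q)ᶜ).card : ℝ) =
      (2 * K : ℝ) ^ q := by
    have c1 := Finset.card_add_card_compl (PermIidAux.Inj K q)
    rw [Fintype.card_fun, Fintype.card_prod, Fintype.card_fin, Fintype.card_bool,
      Fintype.card_fin] at c1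
    have c2 : (((PermIidAux.Inj K q).card + ((PermIidAux.Inj K q)ᶜ).card : ℕ) : ℝ) =
        (((K * 2) ^ q : ℕ) : ℝ) := by rw [c1]
    push_cast at c2
    rw [mul_comm (2 : ℝ)]
    exact c2
  rw [sub_le_iff_le_add, div_le_iff₀ hN, add_mul, div_mul_cancel₀ _ hN.ne', b2]
  have b5 : (1 - (q : ℝ) ^ 2 / K) * (2 * K : ℝ) ^ q =
      (2 * K : ℝ) ^ q - (q : ℝ) ^ 2 / K * (2 * K : ℝ) ^ q := by ring
  rw [b5] at a2
  linarith

theorem avg_le {K : ℕ} (hK : 0 < K) (X : Fin K → Word d) (hr : ∀ i, RP (X i))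
    (hl : ∀ i, LP (X i)) (φ : List (Fin K × Bool) → ℝ) (h0 : ∀ l, 0 ≤ φ l)
    (i q : ℕ) (h : i + q ≤ K) :
    (1 - (q : ℝ) ^ 2 / K) * avg (fun g => φ (((seqB g).drop i).take q)) ≤
      EL (bsys hK X hr hl) q φ := by
  classical
  rw [PermIidAux.avg_eq i q h φ, PermIidAux.EL_eq]
  have hKr : (0 : ℝ) < K := by exact_mod_cast hK
  have hN : (0 : ℝ) < (2 * K : ℝ) ^ q := by positivity
  have a2 := PermIidAux.Inj_card_ge K q hK (by omega)
  have a3 : (0 : ℝ) ≤ ∑ x ∈ PermIidAux.Inj K q, φ (List.ofFn x) :=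
    Finset.sum_nonneg fun x _ => h0 _
  have hI : (0 : ℝ) < ((PermIidAux.Inj K q).card : ℝ) := by
    have : (PermIidAux.res i q h ((1, fun _ => false) : Gp K)) ∈ PermIidAux.Inj K q :=
      (PermIidAux.mem_Inj _).2 (PermIidAux.res_inj i q h _)
    exact_mod_cast Finset.card_pos.2 ⟨_, this⟩
  have b1 : ∑ x ∈ PermIidAux.Inj K q, φ (List.ofFn x) ≤
      ∑ x : Fin q → Fin K × Bool, φ (List.ofFn x) :=
    Finset.sum_le_sum_of_subset_of_nonneg (Finset.subset_univ _) fun x _ _ => h0 _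
  rw [le_div_iff₀ hN]
  refine le_trans ?_ b1
  have b2 : (1 - (q : ℝ) ^ 2 / K) * ((∑ x ∈ PermIidAux.Inj K q, φ (List.ofFn x)) /
      ((PermIidAux.Inj K q).card : ℝ)) * (2 * K : ℝ) ^ q =
      ((1 - (q : ℝ) ^ 2 / K) * (2 * K : ℝ) ^ q) *
        ((∑ x ∈ PermIidAux.Inj K q, φ (List.ofFn x)) / ((PermIidAux.Inj K q).card : ℝ)) := by
    ring
  rw [b2]
  calc _ ≤ ((PermIidAux.Inj K q).card : ℝ) *
        ((∑ x ∈ PermIidAux.Inj K q, φ (List.ofFn x)) / ((PermIidAux.Inj K q).card : ℝ)) :=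
        mul_le_mul_of_nonneg_right a2 (div_nonneg a3 hI.le)
    _ = _ := mul_div_cancel₀ _ hI.ne'

theorem rho_ge {K : ℕ} (hK : 0 < K) (X : Fin K → Word d) (hr : ∀ i, RP (X i))
    (hl : ∀ i, LP (X i)) (T : Word d) (v : Pt d) (h1 : D T + e = v) (h2 : D (tlw T) + e = v) :
    (cnt T X : ℝ) / K ≤ EL (bsys hK X hr hl) 1 fun l => ind (Vl (bsys hK X hr hl) l = v) := by
  classical
  rw [EL_one]
  have hKr : (0 : ℝ) < K := by exact_mod_cast hK
  have e1 : (Fintype.card (bsys hK X hr hl).B : ℝ) = 2 * K := by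
    have : (Fintype.card (bsys hK X hr hl).B : ℝ) = (Fintype.card (Fin K × Bool) : ℝ) := rfl
    rw [this, Fintype.card_prod, Fintype.card_fin, Fintype.card_bool]
    push_cast
    ring
  have e2 : (∑ b : (bsys hK X hr hl).B, ind (Vl (bsys hK X hr hl) [b] = v)) =
      ∑ b : Fin K × Bool, ind (D (orw (X b.1) b.2) + e = v) := by
    have : ∀ b : (bsys hK X hr hl).B, Vl (bsys hK X hr hl) [b] = (bsys hK X hr hl).V b := by
      intro b
      simp [Vl]
    simp only [this]
    rfl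
  rw [e1, e2, Fintype.sum_prod_type]
  simp only [Fintype.sum_bool]
  rw [div_le_div_iff₀ hKr (by positivity)]
  have e3 : (2 * cnt T X : ℝ) ≤ ∑ x : Fin K, (ind (D (orw (X x) true) + e = v) +
      ind (D (orw (X x) false) + e = v)) := by
    have : (2 * cnt T X : ℝ) = ∑ _x ∈ Finset.univ.filter (fun i => X i = T), (2 : ℝ) := by
      rw [Finset.sum_const, nsmul_eq_mul]
      unfold cnt
      ring
    rw [this]
    refine le_trans ?_ (Finset.sum_le_sum_of_subset_of_nonneg (Finset.filter_subset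
      (fun i => X i = T) Finset.univ) fun x _ _ => add_nonneg (ind_nonneg _) (ind_nonneg _))
    apply Finset.sum_le_sum
    intro x hx
    rw [(Finset.mem_filter.1 hx).2]
    have g1 : D (orw T true) + e = v := h2
    have g2 : D (orw T false) + e = v := h1
    rw [ind_true g1, ind_true g2]
    norm_num
  calc (cnt T X : ℝ) * (2 * K) = (2 * cnt T X) * K := by ring
    _ ≤ _ := mul_le_mul_of_nonneg_right e3 hKr.le

end Pool.Agent.SawFold
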