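import Pool.Agent.SawFold.DecUn
import Pool.Agent.SawFold.Link
import Pool.Agent.SawFold.PermIid

/-!
Module Avg (means over permutations and reversals) of the project Pool.Agent.SawFold.
-/

set_option autoImplicit false
set_option linter.unusedSectionVars false

namespace Pool.Agent.SawFold

open Finset
open scoped BigOperators

variable {d : ℕ} [NeZero d]

namespace AvgAux

theorem card_pos (K : ℕ) : (0 : ℝ) < (Fintype.card (Gp K) : ℝ) := by
  exact_mod_cast Fintype.card_pos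

theorem avg_mono {K : ℕ} {φ ψ : Gp K → ℝ} (h : ∀ g, φ g ≤ ψ g) : avg φ ≤ avg ψ := by
  unfold avg
  exact div_le_div_of_nonneg_right (Finset.sum_le_sum fun g _ => h g) (card_pos K).le

theorem avg_sum {K : ℕ} {ι : Type} (s : Finset ι) (φ : ι → Gp K → ℝ) :
    avg (fun g => ∑ i ∈ s, φ i g) = ∑ i ∈ s, avg (φ i) := by
  unfold avg
  rw [Finset.sum_comm, Finset.sum_div]

theorem avg_const {K : ℕ} (c : ℝ) : avg (fun _ : Gp K => c) = c := by
  unfold avg
  rw [Finset.sum_const, Finset.card_univ, nsmul_eq_mul]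
  exact mul_div_cancel_left₀ _ (card_pos K).ne'

theorem avg_nonneg {K : ℕ} {φ : Gp K → ℝ} (h : ∀ g, 0 ≤ φ g) : 0 ≤ avg φ := by
  unfold avg
  exact div_nonneg (Finset.sum_nonneg fun g _ => h g) (card_pos K).le

theorem avg_le_one {K : ℕ} {φ : Gp K → ℝ} (h : ∀ g, φ g ≤ 1) : avg φ ≤ 1 := by
  have h1 := avg_mono (ψ := fun _ => (1 : ℝ)) h
  rwa [avg_const] at h1

theorem seqB_length {K : ℕ} (g : Gp K) : (seqB g).length = K := by
  unfold seqB
  rw [List.length_ofFn]

/-- The zigzag at the bonds at positions `h` and `h + n` of a list of `2 h + n` blocks. -/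
noncomputable def zf (W : BlockSys d) (h n : ℕ) (l : List W.B) : ℝ :=
  ind (Zg W (rv W (l.take h)) ((l.drop h).take n) ((l.drop (h + n)).take h))

/-- The fold at position `h` of a list of `2 h` blocks. -/
noncomputable def ff (W : BlockSys d) (h : ℕ) (l : List W.B) : ℝ :=
  ind (Fold W (rv W (l.take h)) ((l.drop h).take h))

theorem EL_zf (W : BlockSys d) (h n : ℕ) : EL W (h + n + h) (zf W h n) = pz W h n := by
  rw [EL_add, EL_add]
  unfold pz
  refine EL_congr W fun a ha => EL_congr W fun b hb => EL_congr W fun c hc => ?_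
  unfold zf
  have h1 : (a ++ b ++ c).take h = a := by
    rw [List.append_assoc, List.take_left' ha]
  have h2 : ((a ++ b ++ c).drop h).take n = b := by
    rw [List.append_assoc, List.drop_left' ha, List.take_left' hb]
  have h3 : ((a ++ b ++ c).drop (h + n)).take h = c := by
    rw [List.drop_left' (by rw [List.length_append, ha, hb]), List.take_of_length_le hc.le]
  rw [h1, h2, h3]

theorem EL_ff (W : BlockSys d) (h : ℕ) : EL W (h + h) (ff W h) = pf W h := by
  rw [EL_add]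
  unfold pf
  rw [← EL_rv W h (fun a => EL W h fun b => ind (Fold W a b))]
  refine EL_congr W fun a ha => EL_congr W fun b hb => ?_
  unfold ff
  rw [List.take_left' ha, List.drop_left' ha, List.take_of_length_le hb.le]

theorem zf_slice (W : BlockSys d) (h n i' : ℕ) (hi : h ≤ i') (l : List W.B) :
    zf W h n ((l.drop (i' - h)).take (h + n + h)) =
      ind (Zg W (rv W ((l.drop (i' - h)).take h)) ((l.drop i').take n)
        ((l.drop (i' + n)).take h)) := by
  unfold zf
  have h1 : ((l.drop (i' - h)).take (h + n + h)).take h = (l.drop (i' - h)).take h := by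
    rw [List.take_take, min_eq_left (by omega)]
  have h2 : (((l.drop (i' - h)).take (h + n + h)).drop h).take n = (l.drop i').take n := by
    have e1 : min n (h + n + h - h) = n := by omega
    have e2 : i' - h + h = i' := by omega
    have e3 : h + (i' - h) = i' := by omega
    simp only [List.drop_take, List.drop_drop, List.take_take, e1, e2, e3]
  have h3 : (((l.drop (i' - h)).take (h + n + h)).drop (h + n)).take h =
      (l.drop (i' + n)).take h := by
    have e1 : min h (h + n + h - (h + n)) = h := by omega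
    have e2 : i' - h + (h + n) = i' + n := by omega
    have e3 : h + n + (i' - h) = i' + n := by omega
    simp only [List.drop_take, List.drop_drop, List.take_take, e1, e2, e3]
  rw [h1, h2, h3]

theorem ff_slice (W : BlockSys d) (h q : ℕ) (hq : h ≤ q) (l : List W.B) :
    ff W h ((l.drop (q - h)).take (h + h)) =
      ind (Fold W (rv W ((l.drop (q - h)).take h)) ((l.drop q).take h)) := by
  unfold ff
  have h1 : ((l.drop (q - h)).take (h + h)).take h = (l.drop (q - h)).take h := by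
    rw [List.take_take, min_eq_left (by omega)]
  have h2 : (((l.drop (q - h)).take (h + h)).drop h).take h = (l.drop q).take h := by
    have e1 : min h (h + h - h) = h := by omega
    have e2 : q - h + h = q := by omega
    have e3 : h + (q - h) = q := by omega
    simp only [List.drop_take, List.drop_drop, List.take_take, e1, e2, e3]
  rw [h1, h2]

/-- Sums over windows. -/
theorem sum_windows (a w V K h : ℕ) (f : ℕ → ℕ → ℝ) (hf : ∀ i j, 0 ≤ f i j)
    (hw : 2 * a = w) (hV : 2 * h + V * w ≤ K) :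
    ∑ v ∈ range V, ∑ i ∈ range a, ∑ j ∈ Ico a w, f (h + v * w + i) (h + v * w + j) ≤
      ∑ i ∈ range (K + 1), ∑ j ∈ Ico (i + 1) (K + 1), f i j := by
  classical
  have e1 : ∑ v ∈ range V, ∑ i ∈ range a, ∑ j ∈ Ico a w, f (h + v * w + i) (h + v * w + j) =
      ∑ p ∈ (range V) ×ˢ ((range a) ×ˢ (Ico a w)),
        f (h + p.1 * w + p.2.1) (h + p.1 * w + p.2.2) := by
    rw [Finset.sum_product]
    refine Finset.sum_congr rfl fun v _ => ?_
    rw [Finset.sum_product]
  have e2 : ∑ i ∈ range (K + 1), ∑ j ∈ Ico (i + 1) (K + 1), f i j =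
      ∑ p ∈ (range (K + 1)).sigma fun i => Ico (i + 1) (K + 1), f p.1 p.2 := by
    rw [Finset.sum_sigma]
  rw [e1, e2]
  set S := (range V) ×ˢ ((range a) ×ˢ (Ico a w)) with hS
  let F : ℕ × ℕ × ℕ → (_ : ℕ) × ℕ := fun p => ⟨h + p.1 * w + p.2.1, h + p.1 * w + p.2.2⟩
  have hinj : Set.InjOn F (S : Set (ℕ × ℕ × ℕ)) := by
    rintro ⟨v, i, j⟩ hp ⟨v', i', j'⟩ hp' he
    simp only [hS, Finset.coe_product, Set.mem_prod, Finset.mem_coe, Finset.mem_range,
      Finset.mem_Ico] at hp hp'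
    have h1 : h + v * w + i = h + v' * w + i' := congrArg Sigma.fst he
    have h2 : h + v * w + j = h + v' * w + j' := by
      have := congrArg (fun q : (_ : ℕ) × ℕ => q.2) he
      exact this
    have hv : v = v' := by
      rcases lt_trichotomy v v' with hlt | heq | hlt
      · exfalso
        have h3 : (v + 1) * w ≤ v' * w := Nat.mul_le_mul_right w hlt
        rw [Nat.add_mul, Nat.one_mul] at h3
        omega
      · exact heq
      · exfalso
        have h3 : (v' + 1) * w ≤ v * w := Nat.mul_le_mul_right w hlt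
        rw [Nat.add_mul, Nat.one_mul] at h3
        omega
    subst hv
    have hi : i = i' := by omega
    have hj : j = j' := by omega
    rw [hi, hj]
  have hsub : S.image F ⊆ (range (K + 1)).sigma fun i => Ico (i + 1) (K + 1) := by
    intro q hq
    rw [Finset.mem_image] at hq
    obtain ⟨⟨v, i, j⟩, hp, rfl⟩ := hq
    simp only [hS, Finset.mem_product, Finset.mem_range, Finset.mem_Ico] at hp
    obtain ⟨hv, hi, hj1, hj2⟩ := hp
    have h3 : (v + 1) * w ≤ V * w := Nat.mul_le_mul_right w hv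
    rw [Nat.add_mul, Nat.one_mul] at h3
    simp only [F, Finset.mem_sigma, Finset.mem_range, Finset.mem_Ico]
    omega
  calc ∑ p ∈ S, f (h + p.1 * w + p.2.1) (h + p.1 * w + p.2.2)
      = ∑ q ∈ S.image F, f q.1 q.2 := by
        rw [Finset.sum_image hinj]
    _ ≤ _ := Finset.sum_le_sum_of_subset_of_nonneg hsub fun q _ _ => hf _ _

end AvgAux

open AvgAux

theorem zig_avg {N lam : ℕ} {E : ℤ} {K : ℕ} (hK : 0 < K)
    (t : Word d × (Fin K → Word d) × Word d) (ht : t ∈ decF d N lam E K)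
    (hr : ∀ i, RP (t.2.1 i)) (hl : ∀ i, LP (t.2.1 i)) (m h : ℕ) (hh : 2 * h ≤ K) :
    (((K - 2 * h) / 2 ^ (m + 1) : ℕ) : ℝ) *
      (∑ i ∈ range (2 ^ m), ∑ j ∈ Ico (2 ^ m) (2 ^ (m + 1)),
          pz (bsys hK t.2.1 hr hl) h (j - i) - 4 ^ m * (2 * h + 2 ^ (m + 1) : ℝ) ^ 2 / K) ≤
      avg fun g => nZ (act g t) := by
  classical
  set W := bsys hK t.2.1 hr hl with hW
  set V := (K - 2 * h) / 2 ^ (m + 1) with hV
  have ht' := (mem_decF t).1 ht
  have hs : ∀ i, SA (t.2.1 i) := fun i =>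
    (ht'.1.blk _ ((List.mem_ofFn' _ _).2 ⟨i, rfl⟩)).sa
  have hVK : 2 * h + V * 2 ^ (m + 1) ≤ K := by
    have := Nat.div_mul_le_self (K - 2 * h) (2 ^ (m + 1))
    rw [← hV] at this
    omega
  have hpow : 2 * 2 ^ m = 2 ^ (m + 1) := by rw [pow_succ]; ring
  -- the zigzags of the windows
  have h1 : ∀ g : Gp K, ∑ v ∈ range V, ∑ i ∈ range (2 ^ m), ∑ j ∈ Ico (2 ^ m) (2 ^ (m + 1)),
      zf W h (j - i) (((seqB g).drop (h + v * 2 ^ (m + 1) + i - h)).take (h + (j - i) + h)) ≤
      nZ (act g t) := by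
    intro g
    have h2 := sum_windows (2 ^ m) (2 ^ (m + 1)) V K h
      (fun i j => ind (SA (zigw t.1 (List.ofFn (act g t).2.1) t.2.2 i j)))
      (fun _ _ => ind_nonneg _) hpow hVK
    refine le_trans ?_ h2
    refine Finset.sum_le_sum fun v hv => Finset.sum_le_sum fun i hi =>
      Finset.sum_le_sum fun j hj => ?_
    rw [Finset.mem_range] at hv hi
    rw [Finset.mem_Ico] at hj
    have h3 : (v + 1) * 2 ^ (m + 1) ≤ V * 2 ^ (m + 1) := Nat.mul_le_mul_right _ hv
    rw [Nat.add_mul, Nat.one_mul] at h3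
    refine le_trans (le_of_eq (zf_slice W h (j - i) (h + v * 2 ^ (m + 1) + i) (by omega)
      (seqB g))) ?_
    rw [wl_seqB]
    refine ind_mono fun hz => ?_
    have h4 : h + v * 2 ^ (m + 1) + i + (j - i) = h + v * 2 ^ (m + 1) + j := by omega
    have h5 : h + v * 2 ^ (m + 1) + j - (h + v * 2 ^ (m + 1) + i) = j - i := by omega
    refine SA_of_zg hK t.2.1 hr hl hs t.1 t.2.2 ht'.1.lp ht'.1.rp ht'.1.saL ht'.1.saR (seqB g)
      (h + v * 2 ^ (m + 1) + i) (h + v * 2 ^ (m + 1) + j) h (by omega) (by omega)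
      (by rw [seqB_length]; omega) ?_
    rw [h5, ← h4]
    exact hz
  refine le_trans ?_ (avg_mono h1)
  rw [avg_sum]
  have h2 : ∀ v ∈ range V, ∑ i ∈ range (2 ^ m), ∑ j ∈ Ico (2 ^ m) (2 ^ (m + 1)),
      pz W h (j - i) - 4 ^ m * (2 * h + 2 ^ (m + 1) : ℝ) ^ 2 / K ≤
      avg fun g => ∑ i ∈ range (2 ^ m), ∑ j ∈ Ico (2 ^ m) (2 ^ (m + 1)),
        zf W h (j - i) (((seqB g).drop (h + v * 2 ^ (m + 1) + i - h)).take (h + (j - i) + h)) := by
    intro v hv
    rw [Finset.mem_range] at hv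
    have h3 : (v + 1) * 2 ^ (m + 1) ≤ V * 2 ^ (m + 1) := Nat.mul_le_mul_right _ hv
    rw [Nat.add_mul, Nat.one_mul] at h3
    rw [avg_sum]
    simp_rw [avg_sum]
    have h4 : ∀ i ∈ range (2 ^ m), ∀ j ∈ Ico (2 ^ m) (2 ^ (m + 1)),
        pz W h (j - i) - (2 * h + 2 ^ (m + 1) : ℝ) ^ 2 / K ≤
        avg fun g => zf W h (j - i)
          (((seqB g).drop (h + v * 2 ^ (m + 1) + i - h)).take (h + (j - i) + h)) := by
      intro i hi j hj
      rw [Finset.mem_range] at hi
      rw [Finset.mem_Ico] at hj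
      have h5 := avg_ge hK t.2.1 hr hl (zf W h (j - i)) (fun _ => ind_nonneg _)
        (fun _ => ind_le_one _) (h + v * 2 ^ (m + 1) + i - h) (h + (j - i) + h) (by omega)
      refine le_trans ?_ h5
      have h5' : EL W (h + (j - i) + h) (zf W h (j - i)) = pz W h (j - i) := EL_zf W h (j - i)
      refine le_trans ?_ (le_of_eq (congrArg
        (fun x => x - ((h + (j - i) + h : ℕ) : ℝ) ^ 2 / (K : ℝ)) h5'.symm))
      show _ ≤ pz W h (j - i) - ((h + (j - i) + h : ℕ) : ℝ) ^ 2 / (K : ℝ)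
      have h6 : ((h + (j - i) + h : ℕ) : ℝ) ≤ 2 * h + 2 ^ (m + 1) := by
        have h7 : h + (j - i) + h ≤ 2 * h + 2 ^ (m + 1) := by omega
        exact_mod_cast h7
      have h8 : (((h + (j - i) + h : ℕ) : ℝ)) ^ 2 / K ≤ (2 * h + 2 ^ (m + 1) : ℝ) ^ 2 / K := by
        gcongr
      linarith
    have h9 : ∑ i ∈ range (2 ^ m), ∑ j ∈ Ico (2 ^ m) (2 ^ (m + 1)),
        (pz W h (j - i) - (2 * h + 2 ^ (m + 1) : ℝ) ^ 2 / K) =
        ∑ i ∈ range (2 ^ m), ∑ j ∈ Ico (2 ^ m) (2 ^ (m + 1)), pz W h (j - i) -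
          4 ^ m * (2 * h + 2 ^ (m + 1) : ℝ) ^ 2 / K := by
      simp_rw [Finset.sum_sub_distrib]
      rw [Finset.sum_const, Finset.sum_const, Finset.card_range, Nat.card_Ico, nsmul_eq_mul,
        nsmul_eq_mul]
      have h10 : 2 ^ (m + 1) - 2 ^ m = 2 ^ m := by omega
      rw [h10]
      have h11 : ((2 ^ m : ℕ) : ℝ) * (((2 ^ m : ℕ) : ℝ) *
          ((2 * (h : ℝ) + 2 ^ (m + 1)) ^ 2 / (K : ℝ))) =
          4 ^ m * (2 * h + 2 ^ (m + 1) : ℝ) ^ 2 / K := by
        have h12 : (4 : ℝ) ^ m = 2 ^ m * 2 ^ m := by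
          rw [← mul_pow]; norm_num
        rw [h12]
        push_cast
        ring
      rw [h11]
    rw [← h9]
    exact Finset.sum_le_sum fun i hi => Finset.sum_le_sum fun j hj => h4 i hi j hj
  have h3 := Finset.sum_le_sum h2
  rw [Finset.sum_const, Finset.card_range, nsmul_eq_mul] at h3
  exact h3

theorem fold_avg {N lam : ℕ} {E : ℤ} {K : ℕ} (hK : 0 < K)
    (t : Word d × (Fin K → Word d) × Word d) (ht : t ∈ decF d N lam E K)
    (hr : ∀ i, RP (t.2.1 i)) (hl : ∀ i, LP (t.2.1 i)) (h : ℕ) (hh : 2 * h ≤ K) :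
    (1 - (2 * h : ℝ) ^ 2 / K) * avg (fun g => nF (act g t)) ≤
      2 * h + (K + 1) * pf (bsys hK t.2.1 hr hl) h := by
  classical
  set W := bsys hK t.2.1 hr hl with hW
  have ht' := (mem_decF t).1 ht
  have h0 : (0 : ℝ) ≤ (2 * h : ℝ) ^ 2 / K := by positivity
  have hpf : 0 ≤ pf W h := by
    rw [← EL_ff]
    have := EL_mono W (k := h + h) (φ := fun _ => (0 : ℝ)) (ψ := ff W h)
      (fun l _ => ind_nonneg _)
    rwa [EL_const] at this
  -- the single junctions
  have h1 : ∀ q ∈ Ico h (K + 1 - h), (1 - (2 * h : ℝ) ^ 2 / K) *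
      avg (fun g => ind (SA (foldw t.1 (List.ofFn (act g t).2.1) t.2.2 q))) ≤
      pf W h := by
    intro q hq
    rw [Finset.mem_Ico] at hq
    rcases le_or_gt 0 (1 - (2 * h : ℝ) ^ 2 / K) with hpos | hneg
    · have h2 := avg_le hK t.2.1 hr hl (ff W h) (fun _ => ind_nonneg _) (q - h) (h + h)
        (by omega)
      have h2' : EL (bsys hK t.2.1 hr hl) (h + h) (ff W h) = pf W h := EL_ff W h
      rw [h2'] at h2
      have h3 : (((h + h : ℕ) : ℝ)) ^ 2 / K = (2 * h : ℝ) ^ 2 / K := by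
        push_cast
        ring
      rw [h3] at h2
      refine le_trans (mul_le_mul_of_nonneg_left ?_ hpos) h2
      refine avg_mono fun g => ?_
      refine le_trans ?_ (le_of_eq (ff_slice W h q hq.1 (seqB g)).symm)
      rw [wl_seqB]
      refine ind_mono fun hf => ?_
      exact fold_of_SA hK t.2.1 hr hl t.1 t.2.2 ht'.1.lp ht'.1.rp (seqB g) q h hq.1
        (by rw [seqB_length]; omega) hf
    · have h2 : 0 ≤ avg (fun g : Gp K =>
          ind (SA (foldw t.1 (List.ofFn (act g t).2.1) t.2.2 q))) :=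
        avg_nonneg fun _ => ind_nonneg _
      have h3 := mul_nonpos_of_nonpos_of_nonneg hneg.le h2
      linarith
  have h2 : ∀ q, (1 - (2 * h : ℝ) ^ 2 / K) *
      avg (fun g => ind (SA (foldw t.1 (List.ofFn (act g t).2.1) t.2.2 q))) ≤ 1 := by
    intro q
    have h3 : 0 ≤ avg (fun g : Gp K =>
        ind (SA (foldw t.1 (List.ofFn (act g t).2.1) t.2.2 q))) :=
      avg_nonneg fun _ => ind_nonneg _
    have h4 : avg (fun g : Gp K =>
        ind (SA (foldw t.1 (List.ofFn (act g t).2.1) t.2.2 q))) ≤ 1 :=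
      avg_le_one fun _ => ind_le_one _
    nlinarith
  have h3 : (1 - (2 * h : ℝ) ^ 2 / K) * avg (fun g => nF (act g t)) =
      ∑ q ∈ range (K + 1), (1 - (2 * h : ℝ) ^ 2 / K) *
        avg (fun g => ind (SA (foldw t.1 (List.ofFn (act g t).2.1) t.2.2 q))) := by
    rw [← Finset.mul_sum, ← avg_sum]
    rfl
  rw [h3]
  have h4 : range (K + 1) = Ico 0 (K + 1) := by rw [Nat.Ico_zero_eq_range]
  rw [h4, ← Finset.sum_Ico_consecutive _ (Nat.zero_le h) (by omega : h ≤ K + 1),
    ← Finset.sum_Ico_consecutive _ (by omega : h ≤ K + 1 - h) (by omega : K + 1 - h ≤ K + 1)]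
  have h5 : ∑ q ∈ Ico 0 h, (1 - (2 * h : ℝ) ^ 2 / K) *
      avg (fun g => ind (SA (foldw t.1 (List.ofFn (act g t).2.1) t.2.2 q))) ≤ (h : ℝ) := by
    refine (Finset.sum_le_sum fun q _ => h2 q).trans ?_
    rw [Finset.sum_const, Nat.card_Ico, nsmul_eq_mul]
    simp
  have h6 : ∑ q ∈ Ico (K + 1 - h) (K + 1), (1 - (2 * h : ℝ) ^ 2 / K) *
      avg (fun g => ind (SA (foldw t.1 (List.ofFn (act g t).2.1) t.2.2 q))) ≤ (h : ℝ) := by
    refine (Finset.sum_le_sum fun q _ => h2 q).trans ?_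
    rw [Finset.sum_const, Nat.card_Ico, nsmul_eq_mul]
    have : K + 1 - (K + 1 - h) = h := by omega
    rw [this]
    simp
  have h7 : ∑ q ∈ Ico h (K + 1 - h), (1 - (2 * h : ℝ) ^ 2 / K) *
      avg (fun g => ind (SA (foldw t.1 (List.ofFn (act g t).2.1) t.2.2 q))) ≤
      (K + 1) * pf W h := by
    refine (Finset.sum_le_sum h1).trans ?_
    rw [Finset.sum_const, Nat.card_Ico, nsmul_eq_mul]
    refine mul_le_mul_of_nonneg_right ?_ hpf
    have : K + 1 - h - h ≤ K + 1 := by omega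
    exact_mod_cast this
  linarith

end Pool.Agent.SawFold
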