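import Pool.Agent.SawFold.ELb

/-!
Module CS (pairs of foldable bonds) of the project Pool.Agent.SawFold.
-/

set_option autoImplicit false
set_option linter.unusedSectionVars false

namespace Pool.Agent.SawFold

open Finset
open scoped BigOperators

variable {d : ℕ} [NeZero d] (W : BlockSys d)

namespace CSAux

/-- Foldability of the junction `i` of a list. -/
noncomputable def X (K i : ℕ) (x : List W.B) : ℝ :=
  ind (Fold W (rv W ((x.drop i).take K)) ((x.drop (i + K)).take K))

theorem ind_mul_self (P : Prop) : ind P * ind P = ind P := by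
  rw [← ind_and, and_self]

theorem EL_X (K L i : ℕ) (h : i + 2 * K ≤ L) : EL W L (X W K i) = pf W K := by
  obtain ⟨φ, hφ⟩ : ∃ φ : List W.B → ℝ,
      φ = fun l => ind (Fold W (rv W (l.take K)) (l.drop K)) := ⟨_, rfl⟩
  have h1 : EL W L (X W K i) = EL W L (fun x => φ ((x.drop i).take (K + K))) := by
    apply EL_congr
    intro x hx
    unfold X
    rw [hφ]
    have e1 : ((x.drop i).take (K + K)).take K = (x.drop i).take K := by
      rw [List.take_take]
      congr 1
      omega
    have e2 : ((x.drop i).take (K + K)).drop K = (x.drop (i + K)).take K := by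
      rw [List.drop_take, List.drop_drop]
      congr 1
      omega
    simp only [e1, e2]
  rw [h1, EL_sub_list W L i (K + K) (by omega), EL_add, hφ]
  have h2 : EL W K (fun l => EL W K fun l' =>
      ind (Fold W (rv W ((l ++ l').take K)) ((l ++ l').drop K))) =
      EL W K (fun l => EL W K fun l' => ind (Fold W (rv W l) l')) := by
    apply EL_congr
    intro l hl
    apply EL_congr
    intro l' _
    rw [← hl, List.take_left, List.drop_left]
  rw [h2, EL_rv W K (fun l => EL W K fun l' => ind (Fold W l l'))]
  rfl

theorem EL_pair_le (K L i j : ℕ) (hij : i ≤ j) (h : j + 2 * K ≤ L) :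
    EL W L (fun x => X W K i x * X W K j x) = p2 W K (j - i) := by
  obtain ⟨n, rfl⟩ := Nat.exists_eq_add_of_le hij
  obtain ⟨φ, hφ⟩ : ∃ φ : List W.B → ℝ,
      φ = fun l => ind (Fold W (rv W (l.take K)) ((l.drop K).take K) ∧
          Fold W (rv W ((l.drop n).take K)) (l.drop (n + K))) := ⟨_, rfl⟩
  have h1 : EL W L (fun x => X W K i x * X W K (i + n) x) =
      EL W L (fun x => φ ((x.drop i).take (K + (n + K)))) := by
    apply EL_congr
    intro x hx
    unfold X
    rw [hφ]
    have e1 : ((x.drop i).take (K + (n + K))).take K = (x.drop i).take K := by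
      rw [List.take_take]
      congr 1
      omega
    have e2 : (((x.drop i).take (K + (n + K))).drop K).take K = (x.drop (i + K)).take K := by
      rw [List.drop_take, List.drop_drop, List.take_take]
      congr 1
      omega
    have e3 : (((x.drop i).take (K + (n + K))).drop n).take K = (x.drop (i + n)).take K := by
      rw [List.drop_take, List.drop_drop, List.take_take]
      congr 1
      omega
    have e4 : ((x.drop i).take (K + (n + K))).drop (n + K) = (x.drop (i + n + K)).take K := by
      rw [List.drop_take, List.drop_drop]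
      congr 1
      · omega
      · congr 1
        omega
    simp only [e1, e2, e3, e4]
    rw [ind_and]
  rw [h1, EL_sub_list W L i (K + (n + K)) (by omega), EL_add, hφ]
  unfold p2
  rw [Nat.add_sub_cancel_left]
  apply EL_congr
  intro a ha
  rw [EL_add]
  apply EL_congr
  intro b hb
  apply EL_congr
  intro c hc
  have e1 : (a ++ (b ++ c)).take K = a := by rw [← ha, List.take_left]
  have e2 : (a ++ (b ++ c)).drop K = b ++ c := by rw [← ha, List.drop_left]
  have e3 : ((a ++ (b ++ c)).drop n).take K = (a ++ b).drop n := by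
    rw [← List.append_assoc, List.drop_append_of_le_length (by
      rw [List.length_append, ha, hb]; omega)]
    apply List.take_left'
    rw [List.length_drop, List.length_append, ha, hb]
    omega
  have e4 : (a ++ (b ++ c)).drop (n + K) = c := by
    rw [← List.append_assoc]
    apply List.drop_left'
    rw [List.length_append, ha, hb]
    omega
  simp only [e1, e2, e3, e4]

theorem EL_pair (K L i j : ℕ) (hi : i + 2 * K ≤ L) (hj : j + 2 * K ≤ L) :
    EL W L (fun x => X W K i x * X W K j x) = p2 W K (Nat.dist i j) := by
  rcases le_total i j with h | h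
  · rw [Nat.dist_eq_sub_of_le h]
    exact EL_pair_le W K L i j h hj
  · rw [Nat.dist_comm, Nat.dist_eq_sub_of_le h, ← EL_pair_le W K L j i h hi]
    apply EL_congr
    intro x _
    exact mul_comm _ _

theorem EL_sumsq (K L : ℕ) (s : Finset ℕ) (h : ∀ i ∈ s, i + 2 * K ≤ L) :
    EL W L (fun x => (∑ i ∈ s, X W K i x) ^ 2) =
      ∑ i ∈ s, ∑ j ∈ s, p2 W K (Nat.dist i j) := by
  have h1 : EL W L (fun x => (∑ i ∈ s, X W K i x) ^ 2) =
      EL W L (fun x => ∑ i ∈ s, ∑ j ∈ s, X W K i x * X W K j x) := by
    apply EL_congr
    intro x _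
    rw [sq, Finset.sum_mul_sum]
  rw [h1, EL_finsum]
  apply Finset.sum_congr rfl
  intro i hi
  rw [EL_finsum]
  apply Finset.sum_congr rfl
  intro j hj
  exact EL_pair W K L i j (h i hi) (h j hj)

theorem dist_shift (a b k : ℕ) : Nat.dist (a + k) (b + k) = Nat.dist a b := by
  simp only [Nat.dist]
  omega

theorem sum_shift (K w u : ℕ) :
    ∑ i ∈ Ico u (u + w), ∑ j ∈ Ico u (u + w), p2 W K (Nat.dist i j) = TT W K w := by
  unfold TT
  rw [Finset.sum_Ico_eq_sum_range]
  have e1 : u + w - u = w := by omega
  rw [e1]
  apply Finset.sum_congr rfl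
  intro i _
  rw [Finset.sum_Ico_eq_sum_range, e1]
  apply Finset.sum_congr rfl
  intro j _
  rw [add_comm u i, add_comm u j, dist_shift]

end CSAux

theorem pf_nonneg (k : ℕ) : 0 ≤ pf W k := by
  unfold pf
  calc (0 : ℝ) = EL W k fun _ => EL W k fun _ => 0 := by rw [EL_const, EL_const]
    _ ≤ _ := by
      apply EL_mono
      intro a _
      apply EL_mono
      intro b _
      exact ind_nonneg _

theorem pf_le_one (k : ℕ) : pf W k ≤ 1 := by
  unfold pf
  calc _ ≤ EL W k fun _ => EL W k fun _ => 1 := by
        apply EL_mono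
        intro a _
        apply EL_mono
        intro b _
        exact ind_le_one _
    _ = 1 := by rw [EL_const, EL_const]

theorem pf_anti {k k' : ℕ} (h : k ≤ k') : pf W k' ≤ pf W k := by
  obtain ⟨n, rfl⟩ := Nat.exists_eq_add_of_le h
  unfold pf
  rw [EL_add]
  apply EL_mono
  intro a _
  calc _ ≤ EL W n (fun _ => EL W k fun b => ind (Fold W a b)) := by
        apply EL_mono
        intro a' _
        rw [EL_add]
        apply EL_mono
        intro b _
        calc _ ≤ EL W n (fun _ => ind (Fold W a b)) := by
              apply EL_mono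
              intro b' _
              exact ind_mono fun hf => fold_append W hf
          _ = _ := EL_const W n _
    _ = _ := EL_const W n _

theorem p2_anti {K K' : ℕ} (h : K ≤ K') (n : ℕ) : p2 W K' n ≤ p2 W K n := by
  obtain ⟨m, rfl⟩ := Nat.exists_eq_add_of_le h
  unfold p2
  have h0 : EL W (K + m) (fun a => EL W n fun b => EL W (K + m) fun c =>
      ind (Fold W (rv W a) ((b ++ c).take (K + m)) ∧ Fold W (rv W ((a ++ b).drop n)) c)) =
      EL W m (fun a' => EL W K fun a => EL W n fun b => EL W K fun c => EL W m fun c' =>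
        ind (Fold W (rv W (a' ++ a)) ((b ++ (c ++ c')).take (K + m)) ∧
          Fold W (rv W (((a' ++ a) ++ b).drop n)) (c ++ c'))) := by
    rw [add_comm K m, EL_add]
    apply EL_congr
    intro a' _
    apply EL_congr
    intro a _
    apply EL_congr
    intro b _
    rw [add_comm m K, EL_add]
  rw [h0]
  calc _ ≤ EL W m (fun _ => EL W K fun a => EL W n fun b => EL W K fun c =>
        ind (Fold W (rv W a) ((b ++ c).take K) ∧ Fold W (rv W ((a ++ b).drop n)) c)) := by
        apply EL_mono
        intro a' ha'
        apply EL_mono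
        intro a ha
        apply EL_mono
        intro b hb
        apply EL_mono
        intro c hc
        calc _ ≤ EL W m (fun _ =>
              ind (Fold W (rv W a) ((b ++ c).take K) ∧ Fold W (rv W ((a ++ b).drop n)) c)) := by
              apply EL_mono
              intro c' hc'
              apply ind_mono
              rintro ⟨h1, h2⟩
              constructor
              · have e1 : (b ++ (c ++ c')).take (K + m) =
                    (b ++ c).take K ++ ((b ++ (c ++ c')).take (K + m)).drop K := by
                  conv_lhs => rw [← List.take_append_drop K ((b ++ (c ++ c')).take (K + m))]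
                  congr 1
                  rw [List.take_take, ← List.append_assoc, List.take_append_of_le_length (by
                    rw [List.length_append, hb, hc]; omega)]
                  congr 1
                  omega
                rw [rv_append, e1] at h1
                exact fold_append W h1
              · have hs1 : (a ++ b).drop n <:+ a' ++ (a ++ b) :=
                  (List.drop_suffix n (a ++ b)).trans (List.suffix_append a' (a ++ b))
                have hs2 : (a' ++ (a ++ b)).drop n <:+ a' ++ (a ++ b) := List.drop_suffix n _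
                have hs : (a ++ b).drop n <:+ (a' ++ (a ++ b)).drop n := by
                  apply List.suffix_of_suffix_length_le hs1 hs2
                  simp only [List.length_drop, List.length_append]
                  omega
                obtain ⟨y, hy⟩ := hs
                rw [List.append_assoc, ← hy, rv_append] at h2
                exact fold_append W h2
          _ = _ := EL_const W m _
    _ = _ := EL_const W m _

theorem p2_nonneg (K n : ℕ) : 0 ≤ p2 W K n := by
  unfold p2
  calc (0 : ℝ) = EL W K fun _ => EL W n fun _ => EL W K fun _ => 0 := by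
        rw [EL_const, EL_const, EL_const]
    _ ≤ _ := by
      apply EL_mono
      intro a _
      apply EL_mono
      intro b _
      apply EL_mono
      intro c _
      exact ind_nonneg _

theorem TT_lower (K w : ℕ) : (w : ℝ) ^ 2 * (pf W K) ^ 2 ≤ TT W K w := by
  have h1 := CSAux.EL_sumsq W K (w + 2 * K) (range w) (by
    intro i hi
    rw [Finset.mem_range] at hi
    omega)
  have h2 : EL W (w + 2 * K) (fun x => ∑ i ∈ range w, CSAux.X W K i x) = w * pf W K := by
    rw [EL_finsum, Finset.sum_congr rfl (g := fun _ => pf W K)]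
    · rw [Finset.sum_const, Finset.card_range, nsmul_eq_mul]
    · intro i hi
      rw [Finset.mem_range] at hi
      exact CSAux.EL_X W K (w + 2 * K) i (by omega)
  have h3 := EL_sq W (w + 2 * K) (fun x => ∑ i ∈ range w, CSAux.X W K i x)
  rw [h2, h1] at h3
  rw [← mul_pow]
  exact h3

theorem TT_double (K w : ℕ) : TT W K (2 * w) ≤ 4 * TT W K w := by
  set L := 2 * w + 2 * K with hL
  have h1 : EL W L (fun x => (∑ i ∈ range (2 * w), CSAux.X W K i x) ^ 2) = TT W K (2 * w) :=
    CSAux.EL_sumsq W K L (range (2 * w)) (by
      intro i hi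
      rw [Finset.mem_range] at hi
      omega)
  have h2 : EL W L (fun x => (∑ i ∈ range w, CSAux.X W K i x) ^ 2) = TT W K w :=
    CSAux.EL_sumsq W K L (range w) (by
      intro i hi
      rw [Finset.mem_range] at hi
      omega)
  have h3 : EL W L (fun x => (∑ i ∈ Ico w (w + w), CSAux.X W K i x) ^ 2) = TT W K w := by
    rw [← CSAux.sum_shift W K w w]
    exact CSAux.EL_sumsq W K L (Ico w (w + w)) (by
      intro i hi
      rw [Finset.mem_Ico] at hi
      omega)
  rw [← h1]
  have h4 : 4 * TT W K w = EL W L (fun x => 2 * (∑ i ∈ range w, CSAux.X W K i x) ^ 2 +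
      2 * (∑ i ∈ Ico w (w + w), CSAux.X W K i x) ^ 2) := by
    rw [EL_sum, EL_mul_left, EL_mul_left, h2, h3]
    ring
  rw [h4]
  apply EL_mono
  intro x _
  have h5 : ∑ i ∈ range (2 * w), CSAux.X W K i x =
      ∑ i ∈ range w, CSAux.X W K i x + ∑ i ∈ Ico w (w + w), CSAux.X W K i x := by
    rw [two_mul, ← Finset.sum_range_add_sum_Ico _ (by omega : w ≤ w + w)]
  rw [h5]
  have h6 := sq_nonneg (∑ i ∈ range w, CSAux.X W K i x - ∑ i ∈ Ico w (w + w), CSAux.X W K i x)
  have h7 := add_sq (∑ i ∈ range w, CSAux.X W K i x) (∑ i ∈ Ico w (w + w), CSAux.X W K i x)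
  have h8 := sub_sq (∑ i ∈ range w, CSAux.X W K i x) (∑ i ∈ Ico w (w + w), CSAux.X W K i x)
  linarith

theorem TT_anti {K K' : ℕ} (h : K ≤ K') (w : ℕ) : TT W K' w ≤ TT W K w := by
  unfold TT
  exact Finset.sum_le_sum fun i _ => Finset.sum_le_sum fun j _ => p2_anti W h _

theorem TT_split (K w : ℕ) : TT W K (2 * w) =
    2 * TT W K w + 2 * ∑ i ∈ range w, ∑ j ∈ Ico w (2 * w), p2 W K (j - i) := by
  have e1 : ∀ f : ℕ → ℝ, ∑ i ∈ range (2 * w), f i =
      ∑ i ∈ range w, f i + ∑ i ∈ Ico w (2 * w), f i := fun f =>
    (Finset.sum_range_add_sum_Ico _ (by omega : w ≤ 2 * w)).symm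
  have e2 := CSAux.sum_shift W K w w
  rw [← two_mul] at e2
  have e3 : ∑ i ∈ range w, ∑ j ∈ Ico w (2 * w), p2 W K (Nat.dist i j) =
      ∑ i ∈ range w, ∑ j ∈ Ico w (2 * w), p2 W K (j - i) := by
    apply Finset.sum_congr rfl
    intro i hi
    apply Finset.sum_congr rfl
    intro j hj
    rw [Finset.mem_range] at hi
    rw [Finset.mem_Ico] at hj
    rw [Nat.dist_eq_sub_of_le (by omega)]
  have e4 : ∑ i ∈ Ico w (2 * w), ∑ j ∈ range w, p2 W K (Nat.dist i j) =
      ∑ i ∈ range w, ∑ j ∈ Ico w (2 * w), p2 W K (Nat.dist i j) := by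
    rw [Finset.sum_comm]
    apply Finset.sum_congr rfl
    intro i _
    apply Finset.sum_congr rfl
    intro j _
    rw [Nat.dist_comm]
  have e5 : TT W K (2 * w) = ∑ i ∈ range (2 * w), ∑ j ∈ range (2 * w), p2 W K (Nat.dist i j) :=
    rfl
  have e6 : TT W K w = ∑ i ∈ range w, ∑ j ∈ range w, p2 W K (Nat.dist i j) := rfl
  rw [e5, e1]
  simp only [e1, Finset.sum_add_distrib]
  rw [e2, e4, e3, ← e6]
  ring

theorem TT_near (K v w : ℕ) (h : v ≤ w) :
    ∑ i ∈ range w, ∑ j ∈ (Ico w (2 * w)).filter (fun j => j - i ≤ v), p2 W K (j - i) ≤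
      TT W K (2 * v) := by
  rw [← CSAux.sum_shift W K (2 * v) (w - v)]
  have e1 : w - v + 2 * v = w + v := by omega
  rw [e1]
  have h1 : ∑ i ∈ range w, ∑ j ∈ (Ico w (2 * w)).filter (fun j => j - i ≤ v), p2 W K (j - i) =
      ∑ i ∈ Ico (w - v) w, ∑ j ∈ (Ico w (2 * w)).filter (fun j => j - i ≤ v),
        p2 W K (j - i) := by
    symm
    apply Finset.sum_subset
    · intro i hi
      rw [Finset.mem_Ico] at hi
      rw [Finset.mem_range]
      omega
    · intro i hi hi'
      rw [Finset.mem_range] at hi
      rw [Finset.mem_Ico] at hi'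
      apply Finset.sum_eq_zero
      intro j hj
      rw [Finset.mem_filter, Finset.mem_Ico] at hj
      omega
  rw [h1]
  calc _ ≤ ∑ i ∈ Ico (w - v) w, ∑ j ∈ Ico (w - v) (w + v), p2 W K (Nat.dist i j) := by
        apply Finset.sum_le_sum
        intro i hi
        rw [Finset.mem_Ico] at hi
        calc _ = ∑ j ∈ (Ico w (2 * w)).filter (fun j => j - i ≤ v), p2 W K (Nat.dist i j) := by
              apply Finset.sum_congr rfl
              intro j hj
              rw [Finset.mem_filter, Finset.mem_Ico] at hj
              rw [Nat.dist_eq_sub_of_le (by omega)]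
          _ ≤ _ := by
              apply Finset.sum_le_sum_of_subset_of_nonneg
              · intro j hj
                rw [Finset.mem_filter, Finset.mem_Ico] at hj
                rw [Finset.mem_Ico]
                omega
              · intro j _ _
                exact p2_nonneg W K _
    _ ≤ _ := by
        apply Finset.sum_le_sum_of_subset_of_nonneg
        · intro i hi
          rw [Finset.mem_Ico] at hi ⊢
          omega
        · intro i _ _
          exact Finset.sum_nonneg fun j _ => p2_nonneg W K _

end Pool.Agent.SawFold
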