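import Pool.Agent.SawFold.Ent

/-!
Module DVb  of the project Pool.Agent.SawFold.
-/

set_option autoImplicit false
set_option linter.unusedSectionVars false

namespace Pool.Agent.SawFold

open Finset
open scoped BigOperators

variable {d : ℕ} [NeZero d] (W : BlockSys d)

open EntAux ToolAux in
theorem qz_le (n N : ℕ) (q : ℝ) (hq0 : 0 < q) (hq1 : q ≤ 1) (hq : qr W n N ≤ q) :
    qz W n N * Real.log (1 / q) ≤ HD W n N - Hv W n + Real.log 2 := by
  classical
  set A := Fin N → W.B
  set M := Fin n → W.B
  let vA : A → Pt d := fun x => Vl W (List.ofFn x)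
  let vM : M → Pt d := fun x => Vl W (List.ofFn x)
  let f : A × M → A × Pt d := fun p => (p.1, vM p.2 - vA p.1)
  let h : M × A → Pt d := fun p => vM p.1 - vA p.2
  let g : A × (M × A) → A × Pt d := fun p => (p.1, h p.2)
  let φ : A × Pt d → ℝ := fun z =>
    EL W N fun a => ind (¬ Disjoint (up W 0 a) (up W z.2 (List.ofFn z.1)))
  have hac : ∀ x, ∃ y, g y = f x := fun x => ⟨(x.1, x.2, x.1), rfl⟩
  have h0 : ∀ z, 0 ≤ φ z := by
    intro z
    exact mu_nonneg fun _ => ind_nn _
  have h1 : ∀ z, φ z ≤ 1 := by
    intro z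
    have : φ z ≤ mu (fun _ : Fin N → W.B => (1 : ℝ)) := mu_mono fun _ => by
      by_cases hh : (¬ Disjoint (up W 0 (List.ofFn ‹Fin N → W.B›))
        (up W z.2 (List.ofFn z.1)))
      · exact (ind_t hh).le
      · exact (ind_f hh).le.trans (by norm_num)
    rwa [mu_const] at this
  have hqz : mu (fun x => φ (f x)) = qz W n N := by
    rw [mu_prod]
    rfl
  have hqr : mu (fun y => φ (g y)) = qr W n N := by
    rw [mu_prod]
    have : ∀ b : A, (mu fun p : M × A => φ (g (b, p))) =
        EL W n fun v => EL W N fun u => EL W N fun a =>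
          ind (¬ Disjoint (up W 0 a) (up W (Vl W v - Vl W u) (List.ofFn b))) := by
      intro b
      rw [mu_prod]
      rfl
    rw [mu_congr this]
    rfl
  have hdv := dv f g hac φ h0 h1 q hq0 hq1 (by rw [hqr]; exact hq)
  rw [hqz] at hdv
  have hK : KLU f g = HD W n N - Hv W n := by
    have hlg : ∀ c z, lawU g (c, z) = lawU (id : A → A) c * lawD W n N z := by
      intro c z
      have := lawU_prod (id : A → A) h c z
      have h2 : lawU h z = lawD W n N z := by
        rw [lawU_eq_mu, mu_prod]
        rfl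
      rw [h2] at this
      exact this
    have hlf : ∀ x, lawU f (f x) = lawU (id : A → A) x.1 * lawV W n (vM x.2) := by
      intro x
      have h2 : lawU f (f x) = lawU (fun p : A × M => (id p.1, vM p.2)) (x.1, vM x.2) := by
        rw [lawU_eq_mu, lawU_eq_mu]
        apply mu_congr
        intro x'
        congr 1
        apply propext
        show (x'.1, vM x'.2 - vA x'.1) = (x.1, vM x.2 - vA x.1) ↔ (x'.1, vM x'.2) = (x.1, vM x.2)
        rw [Prod.mk.injEq, Prod.mk.injEq]
        constructor
        · rintro ⟨e1, e2⟩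
          rw [e1] at e2
          exact ⟨e1, sub_left_injective e2⟩
        · rintro ⟨e1, e2⟩
          exact ⟨e1, by rw [e1, e2]⟩
      rw [h2, lawU_prod]
      rfl
    have hid : ∀ c : A, 0 < lawU (id : A → A) c := fun c => lawU_pos _ ⟨c, rfl⟩
    have hpf : ∀ x, 0 < lawU f (f x) := fun x => lawU_pos f ⟨x, rfl⟩
    have hpg : ∀ x, 0 < lawU g (f x) := fun x => lawU_pos g (hac x)
    have hpt : ∀ x : A × M, Real.log (lawU f (f x)) - Real.log (lawU g (f x)) =
        Real.log (lawV W n (vM x.2)) - Real.log (lawD W n N (vM x.2 - vA x.1)) := by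
      intro x
      have e1 := hpf x
      have e2 := hpg x
      have e3 : lawU g (f x) = lawU (id : A → A) x.1 * lawD W n N (vM x.2 - vA x.1) := hlg _ _
      rw [e3] at e2
      rw [hlf] at e1
      have e4 : 0 < lawV W n (vM x.2) := (mul_pos_iff_of_pos_left (hid _)).1 e1
      have e5 : 0 < lawD W n N (vM x.2 - vA x.1) := (mul_pos_iff_of_pos_left (hid _)).1 e2
      rw [hlf, e3, Real.log_mul (hid _).ne' e4.ne', Real.log_mul (hid _).ne' e5.ne']
      ring
    unfold KLU
    rw [mu_congr hpt, mu_sub]
    have e1 : (mu fun x : A × M => Real.log (lawV W n (vM x.2))) = - Hv W n := by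
      rw [mu_prod]
      show (mu fun _ : A => mu fun b : M => Real.log (lawV W n (vM b))) = _
      rw [mu_const]
      unfold Hv
      rw [neg_neg]
      rfl
    have e2 : (mu fun x : A × M => Real.log (lawD W n N (vM x.2 - vA x.1))) = - HD W n N := by
      rw [mu_prod]
      unfold HD
      rw [neg_neg]
      exact EL_comm W N n fun l l' => Real.log (lawD W n N (Vl W l' - Vl W l))
    rw [e1, e2]
    ring
  rw [hK] at hdv
  exact hdv

end Pool.Agent.SawFold
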