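import Pool.Agent.SawFold.Shift

/-!
Module Eta  of the project Pool.Agent.SawFold.
-/

set_option autoImplicit false
set_option linter.unusedSectionVars false

namespace Pool.Agent.SawFold

open Finset
open scoped BigOperators

variable {d : ℕ} [NeZero d] (W : BlockSys d)

namespace EtaAux

theorem g_mean (s n : ℕ) (g : Pt d → ℝ)
    (h3 : EL W s (fun l => (g (Vl W l)) ^ 2) ≤ Hv W (s + n) - Hv W n) :
    EL W s (fun l => g (Vl W l)) ≤ Real.sqrt (Hv W (n + s) - Hv W n) := by
  refine Real.le_sqrt_of_sq_le ?_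
  rw [add_comm n s]
  exact (EL_sq W s _).trans h3

theorem base (n : ℕ) : etaF W 1 n ≤ 2 * Real.sqrt (Hv W (n + 1) - Hv W n) := by
  obtain ⟨g, hg, hg2, hg3⟩ := forget W 1 n
  have h1 := g_mean W 1 n g hg3
  have h2 : etaF W 1 n ≤ EL W 1 fun a => EL W 1 fun b => (g (Vl W a) + g (Vl W b)) := by
    unfold etaF
    refine EL_mono W fun a _ => EL_mono W fun b _ => ?_
    have h3 := hg2 (Vl W a) (Vl W b)
    have h4 := shN_nonneg W n (Vl W a - Vl W b)
    have h5 := ind_le_one (Fold W a b)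
    have h6 := ind_nonneg (Fold W a b)
    calc ind (Fold W a b) * shN W n (Vl W a - Vl W b) ≤ 1 * shN W n (Vl W a - Vl W b) :=
          mul_le_mul_of_nonneg_right h5 h4
      _ ≤ g (Vl W a) + g (Vl W b) := by rw [one_mul]; exact h3
  have h3 : (EL W 1 fun a => EL W 1 fun b => (g (Vl W a) + g (Vl W b)))
      = 2 * EL W 1 (fun l => g (Vl W l)) := by
    simp only [EL_sum, EL_const]
    ring
  rw [h3] at h2
  linarith

theorem step (k n : ℕ) : etaF W (k + k) n ≤ etaF W k n +
    2 * pf W k * Real.sqrt (Hv W (n + k) - Hv W n) := by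
  obtain ⟨g, hg, hg2, hg3⟩ := forget W k n
  have h1 := g_mean W k n g hg3
  set c := EL W k (fun l => g (Vl W l)) with hc
  have hpf : 0 ≤ pf W k := by
    have h0 : EL W k (fun _ => EL W k fun _ => (0 : ℝ)) ≤ pf W k := by
      unfold pf
      exact EL_mono W fun a _ => EL_mono W fun b _ => ind_nonneg _
    simpa only [EL_const] using h0
  have h2 : etaF W (k + k) n ≤ EL W k fun a1 => EL W k fun a2 => EL W k fun b1 => EL W k fun b2 =>
      ind (Fold W a1 b1) * (shN W n (Vl W a1 - Vl W b1) + (g (Vl W a2) + g (Vl W b2))) := by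
    unfold etaF
    rw [EL_add]
    refine EL_mono W fun a1 _ => EL_mono W fun a2 _ => ?_
    rw [EL_add]
    refine EL_mono W fun b1 _ => EL_mono W fun b2 _ => ?_
    have e1 : Vl W (a1 ++ a2) - Vl W (b1 ++ b2) = (Vl W a1 - Vl W b1) + (Vl W a2 - Vl W b2) := by
      rw [Vl_append, Vl_append]; abel
    rw [e1]
    have h3 := shN_add W n (Vl W a1 - Vl W b1) (Vl W a2 - Vl W b2)
    have h4 := hg2 (Vl W a2) (Vl W b2)
    have h5 := shN_nonneg W n ((Vl W a1 - Vl W b1) + (Vl W a2 - Vl W b2))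
    have h6 : ind (Fold W (a1 ++ a2) (b1 ++ b2)) ≤ ind (Fold W a1 b1) :=
      ind_mono (fold_append W)
    calc _ ≤ ind (Fold W a1 b1) * shN W n ((Vl W a1 - Vl W b1) + (Vl W a2 - Vl W b2)) :=
          mul_le_mul_of_nonneg_right h6 h5
      _ ≤ _ := mul_le_mul_of_nonneg_left (by linarith) (ind_nonneg _)
  have h3 : (EL W k fun a1 => EL W k fun a2 => EL W k fun b1 => EL W k fun b2 =>
      ind (Fold W a1 b1) * (shN W n (Vl W a1 - Vl W b1) + (g (Vl W a2) + g (Vl W b2))))
      = etaF W k n + 2 * pf W k * c := by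
    have e1 : ∀ a1 a2 b1 : List W.B, (EL W k fun b2 =>
        ind (Fold W a1 b1) * (shN W n (Vl W a1 - Vl W b1) + (g (Vl W a2) + g (Vl W b2))))
        = ind (Fold W a1 b1) * (shN W n (Vl W a1 - Vl W b1) + c) +
          ind (Fold W a1 b1) * g (Vl W a2) := by
      intro a1 a2 b1
      rw [EL_mul_left]
      simp only [EL_sum, EL_const]
      rw [← hc]; ring
    simp only [e1]
    have e2 : ∀ a1 : List W.B, (EL W k fun a2 => EL W k fun b1 =>
        (ind (Fold W a1 b1) * (shN W n (Vl W a1 - Vl W b1) + c) +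
          ind (Fold W a1 b1) * g (Vl W a2)))
        = EL W k fun b1 => (ind (Fold W a1 b1) * shN W n (Vl W a1 - Vl W b1)
          + ind (Fold W a1 b1) * (2 * c)) := by
      intro a1
      rw [EL_comm]
      refine EL_congr W fun b1 _ => ?_
      rw [EL_sum, EL_const, EL_mul_left, ← hc]
      ring
    simp only [e2]
    simp only [EL_sum, EL_mul_right]
    unfold etaF pf
    ring
  rw [h3] at h2
  have h4 : 2 * pf W k * c ≤ 2 * pf W k * Real.sqrt (Hv W (n + k) - Hv W n) :=
    mul_le_mul_of_nonneg_left h1 (by linarith)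
  linarith

end EtaAux

theorem etaF_le (j n : ℕ) : etaF W (2 ^ j) n ≤ 2 * Real.sqrt (Hv W (n + 1) - Hv W n) +
    ∑ s ∈ range j, 2 * pf W (2 ^ s) * Real.sqrt (Hv W (n + 2 ^ s) - Hv W n) := by
  induction j with
  | zero =>
    rw [pow_zero, Finset.range_zero, Finset.sum_empty, add_zero]
    exact EtaAux.base W n
  | succ j ih =>
    have h1 := EtaAux.step W (2 ^ j) n
    rw [← two_mul, ← pow_succ'] at h1
    rw [Finset.sum_range_succ]
    linarith

end Pool.Agent.SawFold
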