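import Pool.Agent.SawFold.ELb

/-!
Module Heights  of the project Pool.Agent.SawFold.
-/

set_option autoImplicit false
set_option linter.unusedSectionVars false

namespace Pool.Agent.SawFold

open Finset
open scoped BigOperators

variable {d : ℕ} [NeZero d] (W : BlockSys d)

namespace HeightsAux

/-- the height as a real number -/
noncomputable def hh (l : List W.B) : ℝ := ((Vl W l 0 : ℤ) : ℝ)

theorem hh_append (l l' : List W.B) : hh W (l ++ l') = hh W l + hh W l' := by
  unfold hh; rw [Vl_append]; simp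

theorem hh_ge (l : List W.B) : (l.length : ℝ) ≤ hh W l := by
  unfold hh
  exact_mod_cast Vl_height W l

theorem hh_nonneg (l : List W.B) : 0 ≤ hh W l := (Nat.cast_nonneg _).trans (hh_ge W l)

theorem hh_pos {l : List W.B} (h : 0 < l.length) : 0 < hh W l :=
  lt_of_lt_of_le (by exact_mod_cast h) (hh_ge W l)

/-- the mean share of the height -/
noncomputable def Q (s r : ℕ) : ℝ :=
  EL W s fun m => EL W r fun a => hh W m / (hh W m + hh W a)

theorem Q_zero (r : ℕ) : Q W 0 r = 0 := by
  unfold Q
  rw [EL_zero]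
  have h0 : hh W ([] : List W.B) = 0 := by simp [hh, Vl]
  simp only [h0, zero_div]
  exact EL_const W r 0

theorem Q_succ (s r : ℕ) : Q W (s + 1) r = Q W s (1 + r) + Q W 1 (s + r) := by
  have h1 : Q W (s + 1) r = EL W s fun m => EL W 1 fun b => EL W r fun a =>
      (hh W m / (hh W m + hh W (b ++ a)) + hh W b / (hh W b + hh W (m ++ a))) := by
    unfold Q
    rw [EL_add]
    refine EL_congr W fun m _ => EL_congr W fun b _ => EL_congr W fun a _ => ?_
    rw [hh_append, hh_append, hh_append, add_div]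
    congr 2 <;> ring
  rw [h1]
  have h2 : Q W s (1 + r) = EL W s fun m => EL W 1 fun b => EL W r fun a =>
      hh W m / (hh W m + hh W (b ++ a)) := by
    unfold Q
    refine EL_congr W fun m _ => ?_
    rw [EL_add]
  have h3 : Q W 1 (s + r) = EL W s fun m => EL W 1 fun b => EL W r fun a =>
      hh W b / (hh W b + hh W (m ++ a)) := by
    unfold Q
    rw [EL_comm W s 1]
    refine EL_congr W fun b _ => ?_
    rw [EL_add]
  rw [h2, h3]
  simp only [EL_sum]

theorem Q_lin (s r : ℕ) : Q W s (r + 1) = s * Q W 1 (s + r) := by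
  induction s generalizing r with
  | zero => rw [Q_zero]; simp
  | succ s ih =>
    rw [Q_succ, show 1 + (r + 1) = (r + 1) + 1 by ring, ih]
    rw [show s + (r + 1) = s + 1 + r by ring]
    push_cast
    ring

theorem Q_one (L : ℕ) : Q W 1 L * (L + 1 : ℝ) = 1 := by
  have h1 : Q W (L + 1) 0 = 1 := by
    unfold Q
    have : ∀ m : List W.B, m.length = L + 1 →
        (EL W 0 fun a => hh W m / (hh W m + hh W a)) = 1 := by
      intro m hm
      rw [EL_zero]
      have h0 : hh W ([] : List W.B) = 0 := by simp [hh, Vl]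
      rw [h0, add_zero]
      exact div_self (hh_pos W (by omega)).ne'
    rw [EL_congr W this, EL_const]
  rw [Q_succ, show 1 + 0 = 0 + 1 by rfl, Q_lin] at h1
  simp only [add_zero] at h1
  linarith

/-- exchangeability -/
theorem Q_eq (s r : ℕ) (h : 0 < s + r) : Q W s r = s / (s + r : ℝ) := by
  obtain ⟨t, ht⟩ : ∃ t, s + r = t + 1 := ⟨s + r - 1, by omega⟩
  have hC := Q_one W t
  have hpos : (0 : ℝ) < t + 1 := by positivity
  have hst : (s : ℝ) + r = t + 1 := by exact_mod_cast ht
  have key : Q W s r = s * Q W 1 t := by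
    rcases Nat.eq_zero_or_pos r with hr | hr
    · subst hr
      have hs : s = t + 1 := by omega
      subst hs
      rw [Q_succ, show 1 + 0 = 0 + 1 by rfl, Q_lin]
      push_cast
      simp only [add_zero]
      ring
    · obtain ⟨r', rfl⟩ : ∃ r', r = r' + 1 := ⟨r - 1, by omega⟩
      rw [Q_lin, show s + r' = t by omega]
  rw [key, hst, eq_div_iff hpos.ne']
  linear_combination (s : ℝ) * hC

/-! ### the truncated ratio -/

noncomputable def mn (x y : ℝ) : ℝ := min 1 (2 * x / y)

theorem mn_nonneg {x y : ℝ} (hx : 0 ≤ x) (hy : 0 < y) : 0 ≤ mn x y :=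
  le_min zero_le_one (by positivity)

theorem mn_add {x x' y : ℝ} (hx : 0 ≤ x) (hx' : 0 ≤ x') (hy : 0 < y) :
    mn (x + x') y ≤ mn x y + mn x' y := by
  have h1 := mn_nonneg hx hy
  have h2 := mn_nonneg hx' hy
  unfold mn at *
  rcases le_total 1 (2 * x / y) with h3 | h3
  · rw [min_eq_left h3] at *
    exact (min_le_left _ _).trans (by linarith)
  · rcases le_total 1 (2 * x' / y) with h4 | h4
    · rw [min_eq_left h4] at *
      exact (min_le_left _ _).trans (by linarith)
    · rw [min_eq_right h3, min_eq_right h4]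
      refine (min_le_right _ _).trans (le_of_eq ?_)
      ring

theorem ind_le_mn {x y : ℝ} (hx : 0 ≤ x) (hy : 0 < y) : ind (y ≤ 2 * x) ≤ mn x y := by
  by_cases h : y ≤ 2 * x
  · rw [ind_true h]
    exact le_min le_rfl ((one_le_div hy).2 h)
  · rw [ind_false h]; exact mn_nonneg hx hy

theorem mn_le {x y : ℝ} (hx : 0 ≤ x) (hy : 0 < y) : mn x y ≤ 4 * (x / (x + y)) := by
  have hxy : 0 < x + y := by linarith
  unfold mn
  rw [← mul_div_assoc]
  rcases le_total x y with h | h
  · refine (min_le_right _ _).trans ?_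
    rw [div_le_div_iff₀ hy hxy]
    nlinarith
  · refine (min_le_left _ _).trans ?_
    rw [le_div_iff₀ hxy]
    linarith

/-- mean of the truncated ratio -/
theorem mn_mean (k n : ℕ) (hn : 0 < n) :
    (EL W k fun a => EL W n fun m => mn (hh W a) (hh W m)) ≤ 4 * k / (k + n : ℝ) := by
  have h1 : (EL W k fun a => EL W n fun m => mn (hh W a) (hh W m))
      ≤ EL W k fun a => EL W n fun m => 4 * (hh W a / (hh W a + hh W m)) := by
    refine EL_mono W fun a _ => EL_mono W fun m hm => ?_
    exact mn_le (hh_nonneg W a) (hh_pos W (by omega))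
  refine h1.trans (le_of_eq ?_)
  simp only [EL_mul_left]
  have h2 := Q_eq W k n (by omega)
  unfold Q at h2
  rw [h2]
  ring

/-- one of the two arms -/
def pick {α : Type} (β : Bool) (a b : α) : α := if β then a else b

theorem pick_append (β : Bool) (a a' b b' : List W.B) :
    pick β (a ++ a') (b ++ b') = pick β a b ++ pick β a' b' := by
  cases β <;> rfl

/-- the mean over the two arms -/
noncomputable def AA (β : Bool) (k n : ℕ) : ℝ :=
  EL W k fun a => EL W k fun b => EL W n fun m =>
      ind (Fold W a b) * mn (hh W (pick β a b)) (hh W m)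

theorem pick_mean (β : Bool) (k : ℕ) (ψ : List W.B → ℝ) :
    (EL W k fun a => EL W k fun b => ψ (pick β a b)) = EL W k ψ := by
  cases β
  · simp only [pick, Bool.false_eq_true, if_false]
    rw [EL_const]
  · simp only [pick, if_true]
    refine EL_congr W fun a _ => ?_
    rw [EL_const]

theorem AA_one (β : Bool) (n : ℕ) (hn : 0 < n) : AA W β 1 n ≤ 4 / (1 + n : ℝ) := by
  have h1 : AA W β 1 n ≤ EL W 1 fun a => EL W 1 fun b => EL W n fun m =>
      mn (hh W (pick β a b)) (hh W m) := by
    unfold AA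
    refine EL_mono W fun a _ => EL_mono W fun b _ => EL_mono W fun m hm => ?_
    have h2 := mn_nonneg (hh_nonneg W (pick β a b)) (hh_pos W (l := m) (by omega))
    have h3 := ind_le_one (Fold W a b)
    nlinarith
  have h2 := pick_mean W β 1 (fun x => EL W n fun m => mn (hh W x) (hh W m))
  have h3 := mn_mean W 1 n hn
  rw [h2] at h1
  refine h1.trans (h3.trans (le_of_eq ?_))
  norm_num

theorem AA_step (β : Bool) (k n : ℕ) (hn : 0 < n) :
    AA W β (k + k) n ≤ AA W β k n + pf W k * (4 * k / (k + n : ℝ)) := by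
  set G : ℝ := EL W k (fun x => EL W n fun m => mn (hh W x) (hh W m)) with hG
  have hGle : G ≤ 4 * k / (k + n : ℝ) := mn_mean W k n hn
  have hpf : 0 ≤ pf W k := by
    have h0 : EL W k (fun _ => EL W k fun _ => (0 : ℝ)) ≤ pf W k := by
      unfold pf
      exact EL_mono W fun a _ => EL_mono W fun b _ => ind_nonneg _
    simpa only [EL_const] using h0
  have h1 : AA W β (k + k) n ≤
      EL W k fun a1 => EL W k fun a2 => EL W k fun b1 => EL W k fun b2 => EL W n fun m =>
        (ind (Fold W a1 b1) * mn (hh W (pick β a1 b1)) (hh W m) +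
          ind (Fold W a1 b1) * mn (hh W (pick β a2 b2)) (hh W m)) := by
    unfold AA
    rw [EL_add]
    refine EL_mono W fun a1 _ => EL_mono W fun a2 _ => ?_
    rw [EL_add]
    refine EL_mono W fun b1 _ => EL_mono W fun b2 _ => EL_mono W fun m hm => ?_
    rw [pick_append, hh_append]
    have hm' := hh_pos W (l := m) (by omega)
    have h3 := mn_add (hh_nonneg W (pick β a1 b1)) (hh_nonneg W (pick β a2 b2)) hm'
    have h4 := mn_nonneg (add_nonneg (hh_nonneg W (pick β a1 b1)) (hh_nonneg W (pick β a2 b2))) hm'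
    have h6 : ind (Fold W (a1 ++ a2) (b1 ++ b2)) ≤ ind (Fold W a1 b1) :=
      ind_mono (fold_append W)
    rw [← mul_add]
    exact (mul_le_mul_of_nonneg_right h6 h4).trans
      (mul_le_mul_of_nonneg_left h3 (ind_nonneg _))
  have h2 : (EL W k fun a1 => EL W k fun a2 => EL W k fun b1 => EL W k fun b2 => EL W n fun m =>
        (ind (Fold W a1 b1) * mn (hh W (pick β a1 b1)) (hh W m) +
          ind (Fold W a1 b1) * mn (hh W (pick β a2 b2)) (hh W m)))
      = AA W β k n + pf W k * G := by
    have e1 : ∀ a1 : List W.B, (EL W k fun a2 => EL W k fun b1 => EL W k fun b2 => EL W n fun m =>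
        (ind (Fold W a1 b1) * mn (hh W (pick β a1 b1)) (hh W m) +
          ind (Fold W a1 b1) * mn (hh W (pick β a2 b2)) (hh W m)))
        = EL W k fun b1 => ((EL W n fun m => ind (Fold W a1 b1) *
            mn (hh W (pick β a1 b1)) (hh W m)) + ind (Fold W a1 b1) * G) := by
      intro a1
      rw [EL_comm]
      refine EL_congr W fun b1 _ => ?_
      simp only [EL_sum, EL_mul_left, EL_const]
      rw [pick_mean W β k (fun x => EL W n fun m => mn (hh W x) (hh W m))]
    simp only [e1]
    simp only [EL_sum, EL_mul_right]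
    rfl
  rw [h2] at h1
  have := mul_le_mul_of_nonneg_left hGle hpf
  linarith

theorem AA_le (β : Bool) (j n : ℕ) (hn : 0 < n) : AA W β (2 ^ j) n ≤
    4 / (1 + n : ℝ) + ∑ s ∈ range j, pf W (2 ^ s) * (4 * 2 ^ s / (2 ^ s + n : ℝ)) := by
  induction j with
  | zero =>
    rw [pow_zero, Finset.range_zero, Finset.sum_empty, add_zero]
    exact AA_one W β n hn
  | succ j ih =>
    have h1 := AA_step W β (2 ^ j) n hn
    rw [← two_mul, ← pow_succ'] at h1
    rw [Finset.sum_range_succ]
    push_cast at h1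
    linarith

theorem arm (β : Bool) (j n : ℕ) (hn : 0 < n) :
    EL W (2 ^ j) (fun a => EL W (2 ^ j) fun b => EL W n fun m =>
      ind (Fold W a b) * ind (Vl W m 0 ≤ 2 * Vl W (pick β a b) 0)) ≤
    4 / (1 + n : ℝ) + ∑ s ∈ range j, pf W (2 ^ s) * (4 * 2 ^ s / (2 ^ s + n : ℝ)) := by
  refine le_trans ?_ (AA_le W β j n hn)
  unfold AA
  refine EL_mono W fun a _ => EL_mono W fun b _ => EL_mono W fun m hm => ?_
  refine mul_le_mul_of_nonneg_left ?_ (ind_nonneg _)
  have h1 := ind_le_mn (hh_nonneg W (pick β a b)) (hh_pos W (l := m) (by omega))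
  refine le_trans (ind_mono ?_) h1
  intro h
  unfold hh
  exact_mod_cast h

end HeightsAux

open HeightsAux

theorem cov_le (n N : ℕ) (h : 0 < n + N) :
    EL W n (fun m => EL W N fun a => ind (Vl W a 0 < 2 * Vl W m 0)) ≤ 3 * n / (n + N : ℝ) := by
  have h1 : EL W n (fun m => EL W N fun a => ind (Vl W a 0 < 2 * Vl W m 0)) ≤
      EL W n fun m => EL W N fun a => 3 * (hh W m / (hh W m + hh W a)) := by
    refine EL_mono W fun m hm => EL_mono W fun a ha => ?_
    have h2 := hh_nonneg W m
    have h3 := hh_nonneg W a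
    by_cases hlt : Vl W a 0 < 2 * Vl W m 0
    · rw [ind_true hlt]
      have h4 : hh W a < 2 * hh W m := by unfold hh; exact_mod_cast hlt
      have h5 : 0 < hh W m + hh W a := by linarith
      rw [← mul_div_assoc, le_div_iff₀ h5]
      linarith
    · rw [ind_false hlt]; positivity
  refine h1.trans (le_of_eq ?_)
  simp only [EL_mul_left]
  have h2 := Q_eq W n N h
  unfold Q at h2
  rw [h2]
  ring

theorem arm_a (j n : ℕ) (hn : 0 < n) :
    EL W (2 ^ j) (fun a => EL W (2 ^ j) fun b => EL W n fun m =>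
      ind (Fold W a b) * ind (Vl W m 0 ≤ 2 * Vl W a 0)) ≤
    4 / (1 + n : ℝ) + ∑ s ∈ range j, pf W (2 ^ s) * (4 * 2 ^ s / (2 ^ s + n : ℝ)) :=
  arm W true j n hn

theorem arm_b (j n : ℕ) (hn : 0 < n) :
    EL W (2 ^ j) (fun a => EL W (2 ^ j) fun b => EL W n fun m =>
      ind (Fold W a b) * ind (Vl W m 0 ≤ 2 * Vl W b 0)) ≤
    4 / (1 + n : ℝ) + ∑ s ∈ range j, pf W (2 ^ s) * (4 * 2 ^ s / (2 ^ s + n : ℝ)) :=
  arm W false j n hn

end Pool.Agent.SawFold
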