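import Pool.Agent.SawFold.WEst
import Pool.Agent.SawFold.DVb
import Pool.Agent.SawFold.Eta
import Pool.Agent.SawFold.Heights
import Pool.Agent.SawFold.CS

/-!
Module Comb (combination for one distance) of the project Pool.Agent.SawFold.
-/

set_option autoImplicit false
set_option linter.unusedSectionVars false

namespace Pool.Agent.SawFold

open Finset
open scoped BigOperators

variable {d : ℕ} [NeZero d] (W : BlockSys d)

/-- The arm term. -/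
noncomputable def armA (j n : ℕ) : ℝ :=
  4 / (1 + n : ℝ) + ∑ s ∈ range j, pf W (2 ^ s) * (4 * 2 ^ s / (2 ^ s + n : ℝ))

namespace CombAux

theorem EE_mono (k n N : ℕ)
    {Φ Ψ : List W.B → List W.B → List W.B → List W.B → List W.B → List W.B → List W.B → ℝ}
    (h : ∀ a₁ b₁ a₂ b₂ m a c, Φ a₁ b₁ a₂ b₂ m a c ≤ Ψ a₁ b₁ a₂ b₂ m a c) :
    EE W k n N Φ ≤ EE W k n N Ψ := by
  unfold EE
  apply EL_mono; intro a₁ _
  apply EL_mono; intro b₁ _
  apply EL_mono; intro a₂ _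
  apply EL_mono; intro b₂ _
  apply EL_mono; intro m _
  apply EL_mono; intro a _
  apply EL_mono; intro c _
  exact mul_le_mul_of_nonneg_left (h _ _ _ _ _ _ _)
    (mul_nonneg (ind_nonneg _) (ind_nonneg _))

theorem EE_add (k n N : ℕ)
    (Φ Ψ : List W.B → List W.B → List W.B → List W.B → List W.B → List W.B → List W.B → ℝ) :
    EE W k n N (fun a₁ b₁ a₂ b₂ m a c => Φ a₁ b₁ a₂ b₂ m a c + Ψ a₁ b₁ a₂ b₂ m a c) =
      EE W k n N Φ + EE W k n N Ψ := by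
  unfold EE
  simp only [mul_add, EL_sum]

theorem EE_sub (k n N : ℕ)
    (Φ Ψ : List W.B → List W.B → List W.B → List W.B → List W.B → List W.B → List W.B → ℝ) :
    EE W k n N (fun a₁ b₁ a₂ b₂ m a c => Φ a₁ b₁ a₂ b₂ m a c - Ψ a₁ b₁ a₂ b₂ m a c) =
      EE W k n N Φ - EE W k n N Ψ := by
  unfold EE
  simp only [mul_sub, EL_sub]

theorem EE_left (k n N : ℕ) (g : List W.B → List W.B → List W.B → ℝ) :
    EE W k n N (fun a₁ b₁ _ _ m _ _ => g a₁ b₁ m) =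
      pf W k * EL W k (fun a => EL W k fun b => EL W n fun m => ind (Fold W a b) * g a b m) := by
  unfold EE pf
  rw [← EL_mul_left]
  apply EL_congr; intro a₁ _
  rw [← EL_mul_left]
  apply EL_congr; intro b₁ _
  rw [← EL_mul_right]
  apply EL_congr; intro a₂ _
  rw [← EL_mul_right]
  apply EL_congr; intro b₂ _
  rw [← EL_mul_left]
  apply EL_congr; intro m _
  rw [EL_const, EL_const]
  ring

theorem EE_right (k n N : ℕ) (g : List W.B → List W.B → List W.B → ℝ) :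
    EE W k n N (fun _ _ a₂ b₂ m _ _ => g a₂ b₂ m) =
      pf W k * EL W k (fun a => EL W k fun b => EL W n fun m => ind (Fold W a b) * g a b m) := by
  unfold EE pf
  rw [← EL_mul_right]
  apply EL_congr; intro a₁ _
  rw [← EL_mul_right]
  apply EL_congr; intro b₁ _
  rw [← EL_mul_left]
  apply EL_congr; intro a₂ _
  rw [← EL_mul_left]
  apply EL_congr; intro b₂ _
  rw [← EL_mul_left]
  apply EL_congr; intro m _
  rw [EL_const, EL_const]
  ring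

theorem EE_a (k n N : ℕ) (g : List W.B → List W.B → ℝ) :
    EE W k n N (fun _ _ _ _ m a _ => g m a) =
      pf W k ^ 2 * EL W n (fun m => EL W N fun a => g m a) := by
  have h := EE_left W k n N (fun _ _ m => EL W N fun a => g m a)
  have h1 : EE W k n N (fun _ _ _ _ m a _ => g m a) =
      EE W k n N (fun _ _ _ _ m _ _ => EL W N fun a => g m a) := by
    unfold EE
    apply EL_congr; intro a₁ _
    apply EL_congr; intro b₁ _
    apply EL_congr; intro a₂ _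
    apply EL_congr; intro b₂ _
    apply EL_congr; intro m _
    rw [EL_const, EL_const, ← EL_mul_left]
    apply EL_congr; intro a _
    rw [EL_const]
  rw [h1, h, sq, mul_assoc]
  congr 1
  unfold pf
  rw [← EL_mul_right]
  apply EL_congr; intro a₁ _
  rw [← EL_mul_right]
  apply EL_congr; intro b₁ _
  rw [EL_mul_left]

theorem EE_c (k n N : ℕ) (g : List W.B → List W.B → ℝ) :
    EE W k n N (fun _ _ _ _ m _ c => g m c) =
      pf W k ^ 2 * EL W n (fun m => EL W N fun a => g m a) := by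
  rw [← EE_a]
  unfold EE
  apply EL_congr; intro a₁ _
  apply EL_congr; intro b₁ _
  apply EL_congr; intro a₂ _
  apply EL_congr; intro b₂ _
  apply EL_congr; intro m _
  rw [EL_const]
  apply EL_congr; intro a _
  rw [EL_const]

theorem EE_one (k n N : ℕ) : EE W k n N (fun _ _ _ _ _ _ _ => 1) = pf W k ^ 2 := by
  rw [EE_a W k n N (fun _ _ => 1), EL_const, EL_const, mul_one]

theorem Vl_rv_zero (l : List W.B) : Vl W (rv W l) 0 = Vl W l 0 := by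
  rw [Vl_rv, Pi.neg_apply, fl_zero_apply, neg_neg]

theorem ind_le_one_sub {P Q : Prop} (h : Q → P) : ind (¬ P) ≤ 1 - ind Q := by
  rw [← ind_not]
  exact ind_mono fun hp hq => hp (h hq)

end CombAux

theorem pz_lower (j n N : ℕ) (hn : 0 < n) (h : n + 2 * 2 ^ j ≤ 2 ^ j + N) :
    3 * p2 W (2 ^ j + N) (n + 2 * 2 ^ j) -
      (pf W (2 ^ j)) ^ 2 * (2 + 2 * shN W n e + qz W n N + 6 * n / (n + N : ℝ)) -
      pf W (2 ^ j) * (8 * etaF W (2 ^ j) n + 4 * armA W j n) ≤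
    pz W (2 ^ j + N) (n + 2 * 2 ^ j) := by
  set k : ℕ := 2 ^ j with hk
  have hk0 : 0 < k := by positivity
  have hpf0 : 0 ≤ pf W k := pf_nonneg W k
  refine le_trans ?_ (pz_ge_EE W k n N)
  have A1 := p2_le_EE W k n N h
  have A2 := w_est W k n N hk0
  -- the pointwise inequality
  have A3 : EE W k n N (fun a₁ b₁ a₂ b₂ m a c =>
      ind (G1 W a₁ b₁ a₂ m a ∧ G2 W b₁ a₂ b₂ m c)) -
      EE W k n N (fun a₁ b₁ a₂ b₂ m a c => ind (¬ G3 W a₁ b₁ a₂ b₂ m a c)) -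
      (EE W k n N (fun _ b₁ _ _ m _ _ => ind (Vl W m 0 ≤ 2 * Vl W b₁ 0)) +
       EE W k n N (fun _ _ a₂ _ m _ _ => ind (Vl W m 0 ≤ 2 * Vl W a₂ 0)) +
       (EE W k n N (fun _ _ _ _ m a _ => ind (Vl W a 0 < 2 * Vl W m 0)) +
       EE W k n N (fun _ _ _ _ m _ c => ind (Vl W c 0 < 2 * Vl W m 0)))) ≤
      EE W k n N (fun a₁ b₁ a₂ b₂ m a c =>
      ind (G1 W a₁ b₁ a₂ m a ∧ G2 W b₁ a₂ b₂ m c ∧ G3 W a₁ b₁ a₂ b₂ m a c ∧
        Vl W (b₁ ++ m ++ rv W a₂) 0 < Vl W (a₁ ++ a) 0 ∧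
        Vl W (b₁ ++ m ++ rv W a₂) 0 ≤ Vl W (b₂ ++ c) 0)) := by
    rw [← CombAux.EE_add, ← CombAux.EE_add, ← CombAux.EE_add, ← CombAux.EE_sub,
      ← CombAux.EE_sub]
    apply CombAux.EE_mono
    intro a₁ b₁ a₂ b₂ m a c
    have e1 : Vl W (b₁ ++ m ++ rv W a₂) 0 = Vl W b₁ 0 + Vl W m 0 + Vl W a₂ 0 := by
      rw [Vl_append, Vl_append, Pi.add_apply, Pi.add_apply, CombAux.Vl_rv_zero]
    have e2 : Vl W (a₁ ++ a) 0 = Vl W a₁ 0 + Vl W a 0 := by
      rw [Vl_append, Pi.add_apply]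
    have e3 : Vl W (b₂ ++ c) 0 = Vl W b₂ 0 + Vl W c 0 := by
      rw [Vl_append, Pi.add_apply]
    rw [e1, e2, e3]
    have p1 : 0 ≤ Vl W a₁ 0 := le_trans (Nat.cast_nonneg _) (Vl_height W a₁)
    have p2 : 0 ≤ Vl W b₂ 0 := le_trans (Nat.cast_nonneg _) (Vl_height W b₂)
    have q1 := ind_nonneg (Vl W m 0 ≤ 2 * Vl W b₁ 0)
    have q2 := ind_nonneg (Vl W m 0 ≤ 2 * Vl W a₂ 0)
    have q3 := ind_nonneg (Vl W a 0 < 2 * Vl W m 0)
    have q4 := ind_nonneg (Vl W c 0 < 2 * Vl W m 0)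
    have q5 := ind_nonneg (¬ G3 W a₁ b₁ a₂ b₂ m a c)
    have q6 := ind_nonneg (G1 W a₁ b₁ a₂ m a ∧ G2 W b₁ a₂ b₂ m c)
    have q7 := ind_le_one (G1 W a₁ b₁ a₂ m a ∧ G2 W b₁ a₂ b₂ m c)
    have q8 := ind_nonneg (G1 W a₁ b₁ a₂ m a ∧ G2 W b₁ a₂ b₂ m c ∧ G3 W a₁ b₁ a₂ b₂ m a c ∧
        Vl W b₁ 0 + Vl W m 0 + Vl W a₂ 0 < Vl W a₁ 0 + Vl W a 0 ∧
        Vl W b₁ 0 + Vl W m 0 + Vl W a₂ 0 ≤ Vl W b₂ 0 + Vl W c 0)
    by_cases h12 : G1 W a₁ b₁ a₂ m a ∧ G2 W b₁ a₂ b₂ m c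
    · by_cases h3 : G3 W a₁ b₁ a₂ b₂ m a c
      · by_cases r1 : Vl W m 0 ≤ 2 * Vl W b₁ 0
        · rw [ind_true r1] at *
          linarith
        by_cases r2 : Vl W m 0 ≤ 2 * Vl W a₂ 0
        · rw [ind_true r2] at *
          linarith
        by_cases r3 : Vl W a 0 < 2 * Vl W m 0
        · rw [ind_true r3] at *
          linarith
        by_cases r4 : Vl W c 0 < 2 * Vl W m 0
        · rw [ind_true r4] at *
          linarith
        have h5 : G1 W a₁ b₁ a₂ m a ∧ G2 W b₁ a₂ b₂ m c ∧ G3 W a₁ b₁ a₂ b₂ m a c ∧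
            Vl W b₁ 0 + Vl W m 0 + Vl W a₂ 0 < Vl W a₁ 0 + Vl W a 0 ∧
            Vl W b₁ 0 + Vl W m 0 + Vl W a₂ 0 ≤ Vl W b₂ 0 + Vl W c 0 :=
          ⟨h12.1, h12.2, h3, by omega, by omega⟩
        rw [ind_true h5]
        linarith
      · rw [ind_true h3] at *
        linarith
    · rw [ind_false h12] at *
      linarith
  -- the defects of the folds
  have A4 : EE W k n N (fun a₁ b₁ a₂ _ m a _ => ind (¬ G1 W a₁ b₁ a₂ m a)) ≤
      pf W k ^ 2 - EE W k n N (fun a₁ b₁ a₂ b₂ m a c =>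
        ind (G1 W a₁ b₁ a₂ m a ∧ G2 W b₁ a₂ b₂ m c)) := by
    rw [← CombAux.EE_one W k n N, ← CombAux.EE_sub]
    apply CombAux.EE_mono
    intro a₁ b₁ a₂ b₂ m a c
    exact CombAux.ind_le_one_sub fun hh => hh.1
  have A5 : EE W k n N (fun _ b₁ a₂ b₂ m _ c => ind (¬ G2 W b₁ a₂ b₂ m c)) ≤
      pf W k ^ 2 - EE W k n N (fun a₁ b₁ a₂ b₂ m a c =>
        ind (G1 W a₁ b₁ a₂ m a ∧ G2 W b₁ a₂ b₂ m c)) := by
    rw [← CombAux.EE_one W k n N, ← CombAux.EE_sub]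
    apply CombAux.EE_mono
    intro a₁ b₁ a₂ b₂ m a c
    exact CombAux.ind_le_one_sub fun hh => hh.2
  -- the arms
  have A6 : EE W k n N (fun a₁ _ _ b₂ m _ _ => ind (¬ (Vl W a₁ 0 + Vl W b₂ 0 ≤ Vl W m 0))) ≤
      EE W k n N (fun a₁ _ _ _ m _ _ => ind (Vl W m 0 ≤ 2 * Vl W a₁ 0)) +
      EE W k n N (fun _ _ _ b₂ m _ _ => ind (Vl W m 0 ≤ 2 * Vl W b₂ 0)) := by
    rw [← CombAux.EE_add]
    apply CombAux.EE_mono
    intro a₁ b₁ a₂ b₂ m a c
    refine le_trans (ind_mono fun hh => ?_) (ind_or _ _)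
    by_contra hc
    rw [not_or] at hc
    omega
  have B1 : EE W k n N (fun a₁ _ _ _ m _ _ => ind (Vl W m 0 ≤ 2 * Vl W a₁ 0)) ≤
      pf W k * armA W j n := by
    rw [CombAux.EE_left W k n N (fun a _ m => ind (Vl W m 0 ≤ 2 * Vl W a 0))]
    exact mul_le_mul_of_nonneg_left (arm_a W j n hn) hpf0
  have B2 : EE W k n N (fun _ _ _ b₂ m _ _ => ind (Vl W m 0 ≤ 2 * Vl W b₂ 0)) ≤
      pf W k * armA W j n := by
    rw [CombAux.EE_right W k n N (fun _ b m => ind (Vl W m 0 ≤ 2 * Vl W b 0))]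
    exact mul_le_mul_of_nonneg_left (arm_b W j n hn) hpf0
  have B3 : EE W k n N (fun _ b₁ _ _ m _ _ => ind (Vl W m 0 ≤ 2 * Vl W b₁ 0)) ≤
      pf W k * armA W j n := by
    rw [CombAux.EE_left W k n N (fun _ b m => ind (Vl W m 0 ≤ 2 * Vl W b 0))]
    exact mul_le_mul_of_nonneg_left (arm_b W j n hn) hpf0
  have B4 : EE W k n N (fun _ _ a₂ _ m _ _ => ind (Vl W m 0 ≤ 2 * Vl W a₂ 0)) ≤
      pf W k * armA W j n := by
    rw [CombAux.EE_right W k n N (fun a _ m => ind (Vl W m 0 ≤ 2 * Vl W a 0))]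
    exact mul_le_mul_of_nonneg_left (arm_a W j n hn) hpf0
  have hcov := cov_le W n N (by omega)
  have C1 : EE W k n N (fun _ _ _ _ m a _ => ind (Vl W a 0 < 2 * Vl W m 0)) ≤
      pf W k ^ 2 * (3 * n / (n + N : ℝ)) := by
    rw [CombAux.EE_a W k n N (fun m a => ind (Vl W a 0 < 2 * Vl W m 0))]
    exact mul_le_mul_of_nonneg_left hcov (sq_nonneg _)
  have C2 : EE W k n N (fun _ _ _ _ m _ c => ind (Vl W c 0 < 2 * Vl W m 0)) ≤
      pf W k ^ 2 * (3 * n / (n + N : ℝ)) := by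
    rw [CombAux.EE_c W k n N (fun m a => ind (Vl W a 0 < 2 * Vl W m 0))]
    exact mul_le_mul_of_nonneg_left hcov (sq_nonneg _)
  have e1 : pf W k ^ 2 * (2 + 2 * shN W n e + qz W n N + 6 * n / (n + N : ℝ)) =
      2 * pf W k ^ 2 + 2 * (pf W k) ^ 2 * shN W n e + (pf W k) ^ 2 * qz W n N +
        2 * (pf W k ^ 2 * (3 * n / (n + N : ℝ))) := by ring
  have e2 : pf W k * (8 * etaF W k n + 4 * armA W j n) =
      8 * pf W k * etaF W k n + 4 * (pf W k * armA W j n) := by ring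
  rw [e1, e2]
  linarith

end Pool.Agent.SawFold
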