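import Pool.Agent.SawFold.Word0

/-!
Cuts and junctions of words.
-/

set_option autoImplicit false
set_option linter.unusedSectionVars false

namespace Pool.Agent.SawFold

open Finset
open scoped BigOperators

namespace CutAux

variable {d : ℕ} [NeZero d]

theorem D_cut (A R : Word d) : D (A ++ upS :: R) = D A + e + D R := by
  rw [D_append, D_cons, vec_upS]; abel

theorem D_cut0 (A R : Word d) : D (A ++ upS :: R) 0 = D A 0 + 1 + D R 0 := by
  rw [D_cut]; simp

theorem P_take {w : Word d} {i : ℕ} (h : i ≤ w.length) : D (w.take i) ∈ P w := ⟨i, h, rfl⟩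

theorem mem_P_left {A R : Word d} {x : Pt d} (h : x ∈ P A) : x ∈ P (A ++ R) := by
  obtain ⟨i, hi, rfl⟩ := h
  refine ⟨i, by rw [List.length_append]; omega, ?_⟩
  rw [List.take_append_of_le_length hi]

theorem mem_P_right {A R : Word d} {x : Pt d} (h : x ∈ P R) : D A + x ∈ P (A ++ R) := by
  obtain ⟨i, hi, rfl⟩ := h
  refine ⟨A.length + i, by rw [List.length_append]; omega, ?_⟩
  rw [List.take_length_add_append, D_append]

theorem mem_P_append {A R : Word d} {x : Pt d} :
    x ∈ P (A ++ R) ↔ x ∈ P A ∨ ∃ y ∈ P R, x = D A + y := by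
  constructor
  · rintro ⟨i, hi, rfl⟩
    rcases le_total i A.length with h | h
    · left
      rw [List.take_append_of_le_length h]
      exact P_take h
    · right
      obtain ⟨j, rfl⟩ := Nat.exists_eq_add_of_le h
      rw [List.length_append] at hi
      refine ⟨D (R.take j), P_take (by omega), ?_⟩
      rw [List.take_length_add_append, D_append]
  · rintro (h | ⟨y, hy, rfl⟩)
    · exact mem_P_left h
    · exact mem_P_right hy

theorem mem_P_cons {s : Stp d} {R : Word d} {x : Pt d} :
    x ∈ P (s :: R) ↔ x = 0 ∨ ∃ y ∈ P R, x = vec s + y := by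
  constructor
  · rintro ⟨i, hi, rfl⟩
    cases i with
    | zero => left; simp
    | succ i =>
      right
      rw [List.length_cons] at hi
      exact ⟨D (R.take i), P_take (by omega), by rw [List.take_succ_cons, D_cons]⟩
  · rintro (rfl | ⟨y, ⟨i, hi, rfl⟩, rfl⟩)
    · exact zero_mem_P _
    · exact ⟨i + 1, by rw [List.length_cons]; omega, by rw [List.take_succ_cons, D_cons]⟩

theorem mem_P_cut {A R : Word d} {x : Pt d} :
    x ∈ P (A ++ upS :: R) ↔ x ∈ P A ∨ ∃ y ∈ P R, x = D A + e + y := by
  rw [mem_P_append]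
  constructor
  · rintro (h | ⟨y, hy, rfl⟩)
    · exact Or.inl h
    · rcases mem_P_cons.1 hy with rfl | ⟨z, hz, rfl⟩
      · left; rw [add_zero]; exact D_mem_P A
      · right; exact ⟨z, hz, by rw [vec_upS]; abel⟩
  · rintro (h | ⟨y, hy, rfl⟩)
    · exact Or.inl h
    · right
      exact ⟨e + y, mem_P_cons.2 (Or.inr ⟨y, hy, by rw [vec_upS]⟩), by abel⟩

theorem LP.nonneg {w : Word d} (h : LP w) : 0 ≤ D w 0 := h 0 (zero_mem_P w)

theorem RP.nonneg {w : Word d} (h : RP w) : 0 ≤ D w 0 := h _ (D_mem_P w)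

theorem LP_join {A X : Word d} (hA : LP A) (hX : LP X) : LP (A ++ upS :: X) := by
  intro x hx
  rw [D_cut0]
  have h0 := LP.nonneg hX
  rcases mem_P_cut.1 hx with h | ⟨y, hy, rfl⟩
  · have := hA x h
    omega
  · have := hX y hy
    simp only [Pi.add_apply, e_zero']
    omega

theorem RP_join {X R : Word d} (hX : RP X) (hR : RP R) : RP (X ++ upS :: R) := by
  intro x hx
  have h0 := RP.nonneg hX
  rcases mem_P_cut.1 hx with h | ⟨y, hy, rfl⟩
  · exact hX x h
  · have := hR y hy
    simp only [Pi.add_apply, e_zero']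
    omega

theorem LP_right {A M : Word d} (h : LP (A ++ M)) : LP M := by
  intro x hx
  have := h _ (mem_P_right hx)
  rw [D_append] at this
  simp only [Pi.add_apply] at this
  omega

theorem LP_of_cons {s : Stp d} {M : Word d} (h : LP (s :: M)) : LP M :=
  LP_right (A := [s]) (M := M) h

theorem RP_left {M R : Word d} (h : RP (M ++ R)) : RP M := fun x hx => h x (mem_P_left hx)

theorem SA_join {A R : Word d} (hA : SA A) (hR : SA R) (hl : LP A) (hr : RP R) :
    SA (A ++ upS :: R) := by
  have key : ∀ i j, i ≤ A.length → j ≤ (A ++ upS :: R).length → A.length < j →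
      D ((A ++ upS :: R).take i) ≠ D ((A ++ upS :: R).take j) := by
    intro i j hi hj hj' h
    obtain ⟨k, rfl⟩ := Nat.exists_eq_add_of_lt hj'
    rw [List.take_append_of_le_length hi, add_assoc, List.take_length_add_append,
      List.take_succ_cons, D_cut] at h
    have h1 := congrFun h 0
    simp only [Pi.add_apply, e_zero'] at h1
    have h2 := hl _ (P_take hi)
    rw [List.length_append, List.length_cons] at hj
    have h3 := hr _ (P_take (w := R) (i := k) (by omega))
    omega
  intro i j hi hj h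
  rcases le_or_gt i A.length with h1 | h1
  · rcases le_or_gt j A.length with h2 | h2
    · rw [List.take_append_of_le_length h1, List.take_append_of_le_length h2] at h
      exact hA i j h1 h2 h
    · exact absurd h (key i j h1 hj h2)
  · rcases le_or_gt j A.length with h2 | h2
    · exact absurd h.symm (key j i h2 hi h1)
    · obtain ⟨k, rfl⟩ := Nat.exists_eq_add_of_lt h1
      obtain ⟨l, rfl⟩ := Nat.exists_eq_add_of_lt h2
      rw [add_assoc, add_assoc, List.take_length_add_append, List.take_length_add_append,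
        List.take_succ_cons, List.take_succ_cons, D_cut, D_cut] at h
      rw [List.length_append, List.length_cons] at hi hj
      have := hR k l (by omega) (by omega) (add_left_cancel h)
      omega

/-- Comparison of two cuts of the same word. -/
theorem cut_cases {A R A' R' : Word d} (h : A ++ upS :: R = A' ++ upS :: R') :
    (A = A' ∧ R = R') ∨ (∃ M, A' = A ++ upS :: M ∧ R = M ++ upS :: R') ∨
      ∃ M, A = A' ++ upS :: M ∧ R' = M ++ upS :: R := by
  rcases List.append_eq_append_iff.1 h with ⟨M, h1, h2⟩ | ⟨M, h1, h2⟩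
  · cases M with
    | nil =>
      left
      rw [List.append_nil] at h1
      rw [List.nil_append] at h2
      exact ⟨h1.symm, (List.cons_injective h2)⟩
    | cons s M =>
      right; left
      rw [List.cons_append, List.cons.injEq] at h2
      obtain ⟨rfl, h2⟩ := h2
      exact ⟨M, h1, h2⟩
  · cases M with
    | nil =>
      left
      rw [List.append_nil] at h1
      rw [List.nil_append] at h2
      exact ⟨h1, (List.cons_injective h2).symm⟩
    | cons s M =>
      right; right
      rw [List.cons_append, List.cons.injEq] at h2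
      obtain ⟨rfl, h2⟩ := h2
      exact ⟨M, h1, h2⟩

/-- The part of the word after the first junction. -/
def rem : List (Word d) → Word d → Word d
  | [], U => U
  | X :: Xs, U => X ++ (jn Xs ++ upS :: U)

theorem jn_rem (Xs : List (Word d)) (U : Word d) : jn Xs ++ upS :: U = upS :: rem Xs U := by
  cases Xs with
  | nil => rfl
  | cons X Xs => simp [jn, rem]

theorem jn_append (Xs Ys : List (Word d)) : jn (Xs ++ Ys) = jn Xs ++ jn Ys := by
  induction Xs with
  | nil => rfl
  | cons X Xs ih => simp [jn, ih]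

theorem wd_eq (U₀ : Word d) (Xs : List (Word d)) (U₁ : Word d) (q : ℕ) :
    wd U₀ Xs U₁ = (U₀ ++ jn (Xs.take q)) ++ upS :: rem (Xs.drop q) U₁ := by
  unfold wd
  conv_lhs => rw [← List.take_append_drop q Xs]
  rw [jn_append, ← jn_rem]
  simp

theorem LP_jn {U₀ : Word d} {Xs : List (Word d)} (h : LP U₀) (hX : ∀ X ∈ Xs, LP X) :
    LP (U₀ ++ jn Xs) := by
  induction Xs generalizing U₀ with
  | nil => simpa [jn] using h
  | cons X Xs ih =>
    have h1 : U₀ ++ jn (X :: Xs) = (U₀ ++ upS :: X) ++ jn Xs := by simp [jn]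
    rw [h1]
    exact ih (LP_join h (hX X List.mem_cons_self)) fun Y hY => hX Y (List.mem_cons_of_mem _ hY)

theorem RP_rem {U : Word d} {Xs : List (Word d)} (h : RP U) (hX : ∀ X ∈ Xs, RP X) :
    RP (rem Xs U) := by
  induction Xs with
  | nil => exact h
  | cons X Xs ih =>
    have h1 : rem (X :: Xs) U = X ++ upS :: rem Xs U := by rw [← jn_rem]; rfl
    rw [h1]
    exact RP_join (hX X List.mem_cons_self) (ih fun Y hY => hX Y (List.mem_cons_of_mem _ hY))

theorem jn_height {Xs : List (Word d)} (hX : ∀ X ∈ Xs, LP X) : (Xs.length : ℤ) ≤ D (jn Xs) 0 := by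
  induction Xs with
  | nil => simp [jn]
  | cons X Xs ih =>
    have h1 : D (jn (X :: Xs)) 0 = 1 + D X 0 + D (jn Xs) 0 := by
      simp only [jn, List.cons_append]
      rw [D_cons, D_append, vec_upS]
      simp only [Pi.add_apply, e_zero']
      ring
    have h2 := LP.nonneg (hX X List.mem_cons_self)
    have h3 := ih fun Y hY => hX Y (List.mem_cons_of_mem _ hY)
    rw [h1, List.length_cons]
    push_cast
    omega

theorem jn_length {Xs : List (Word d)} : Xs.length ≤ (jn Xs).length := by
  induction Xs with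
  | nil => simp [jn]
  | cons X Xs ih =>
    simp only [jn, List.cons_append, List.length_cons, List.length_append]
    omega

/-- Cuts in the region of the blocks are junctions. -/
theorem junction_aux {U₁ : Word d} : ∀ (Xs : List (Word d)) (Pre : Word d)
    (_ : ∀ X ∈ Xs, Irr X) (A R : Word d) (_ : Pre ++ jn Xs ++ upS :: U₁ = A ++ upS :: R)
    (_ : LP A) (_ : RP R) (_ : Pre.length ≤ A.length)
    (_ : ∀ A' R', U₁ = A' ++ upS :: R' → LP A' → RP R' → A ≠ Pre ++ jn Xs ++ upS :: A'),
    ∃ q ≤ Xs.length, A = Pre ++ jn (Xs.take q) := by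
  intro Xs
  induction Xs with
  | nil =>
    intro Pre _ A R h hA hR hlen hcut
    refine ⟨0, le_rfl, ?_⟩
    have h1 : Pre ++ upS :: U₁ = A ++ upS :: R := by simpa [jn] using h
    rcases cut_cases h1 with ⟨h2, -⟩ | ⟨M, h2, h3⟩ | ⟨M, h2, -⟩
    · simp [jn, h2]
    · have h4 : LP M := by
        rw [h2] at hA
        exact LP_of_cons (LP_right hA)
      exact absurd (by simp [jn, h2]) (hcut M R h3 h4 hR)
    · rw [h2, List.length_append, List.length_cons] at hlen
      omega
  | cons X Xs ih =>
    intro Pre hX A R h hA hR hlen hcut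
    by_cases hlen' : (Pre ++ upS :: X).length ≤ A.length
    · obtain ⟨q, hq, hAq⟩ := ih (Pre ++ upS :: X) (fun Y hY => hX Y (List.mem_cons_of_mem _ hY))
        A R (by rw [← h]; simp [jn]) hA hR hlen' (fun A' R' h1 h2 h3 h4 =>
          hcut A' R' h1 h2 h3 (by rw [h4]; simp [jn]))
      exact ⟨q + 1, by rw [List.length_cons]; omega, by rw [hAq]; simp [jn]⟩
    · have h1 : Pre ++ upS :: (X ++ (jn Xs ++ upS :: U₁)) = A ++ upS :: R := by
        rw [← h]; simp [jn]
      rcases cut_cases h1 with ⟨h2, -⟩ | ⟨M, h2, h3⟩ | ⟨M, h2, -⟩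
      · exact ⟨0, Nat.zero_le _, by simp [jn, h2]⟩
      · exfalso
        rw [jn_rem] at h3
        rcases cut_cases h3 with ⟨h4, -⟩ | ⟨M', h4, -⟩ | ⟨M', h4, h5⟩
        · apply hlen'
          rw [h2, h4]
        · apply hlen'
          rw [h2, h4]
          simp
        · refine hX X List.mem_cons_self M M' h4 ?_ ?_
          · rw [h2] at hA
            exact LP_of_cons (LP_right hA)
          · rw [h5] at hR
            exact RP_left hR
      · rw [h2, List.length_append, List.length_cons] at hlen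
        omega

/-- The junctions of a decomposition are all the cuts in the window. -/
theorem junction {N lam : ℕ} {U₀ U₁ : Word d} {Xs : List (Word d)} (h : Dec N lam U₀ Xs U₁)
    {A R : Word d} (he : wd U₀ Xs U₁ = A ++ upS :: R) (hA : LP A) (hR : RP R)
    (hlo : - (lam : ℤ) ≤ 2 * D A 0 - D (wd U₀ Xs U₁) 0)
    (hhi : 2 * D A 0 - D (wd U₀ Xs U₁) 0 ≤ lam) :
    ∃ q ≤ Xs.length, A = U₀ ++ jn (Xs.take q) := by
  have hlen : U₀.length ≤ A.length := by
    have h1 : U₀ ++ upS :: rem Xs U₁ = A ++ upS :: R := by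
      rw [← he, ← jn_rem]; simp [wd]
    rcases cut_cases h1 with ⟨h2, -⟩ | ⟨M, h2, -⟩ | ⟨M, h2, h3⟩
    · rw [h2]
    · rw [h2, List.length_append]; omega
    · exfalso
      have h4 : RP M := by
        rw [h3] at hR
        exact RP_left hR
      have := h.cutL A M h2 hA h4
      omega
  refine junction_aux Xs U₀ (fun X hX => (h.blk X hX).irr) A R he hA hR hlen ?_
  intro A' R' h1 h2 h3 h4
  have := h.cutR A' R' h1 h2 h3
  rw [← h4] at this
  omega

theorem Dec.LPq {N lam : ℕ} {U₀ U₁ : Word d} {Xs : List (Word d)} (h : Dec N lam U₀ Xs U₁)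
    (q : ℕ) : LP (U₀ ++ jn (Xs.take q)) :=
  LP_jn h.lp fun X hX => (h.blk X (List.mem_of_mem_take hX)).lp

theorem Dec.RPq {N lam : ℕ} {U₀ U₁ : Word d} {Xs : List (Word d)} (h : Dec N lam U₀ Xs U₁)
    (q : ℕ) : RP (rem (Xs.drop q) U₁) :=
  RP_rem h.rp fun X hX => (h.blk X (List.mem_of_mem_drop hX)).rp

theorem Dec.SAj {Xs : List (Word d)} : ∀ {U₀ : Word d} (_ : SA U₀) (_ : LP U₀)
    (_ : ∀ X ∈ Xs, Blk X), SA (U₀ ++ jn Xs) := by
  induction Xs with
  | nil => intro U₀ h _ _; simpa [jn] using h
  | cons X Xs ih =>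
    intro U₀ h hl hX
    have h1 : U₀ ++ jn (X :: Xs) = (U₀ ++ upS :: X) ++ jn Xs := by simp [jn]
    have hb := hX X List.mem_cons_self
    rw [h1]
    exact ih (SA_join h hb.sa hl hb.rp) (LP_join hl hb.lp)
      fun Y hY => hX Y (List.mem_cons_of_mem _ hY)

theorem SA_rem {Xs : List (Word d)} {U : Word d} (h : SA U) (hr : RP U) (hX : ∀ X ∈ Xs, Blk X) :
    SA (rem Xs U) := by
  induction Xs with
  | nil => exact h
  | cons X Xs ih =>
    have h1 : rem (X :: Xs) U = X ++ upS :: rem Xs U := by rw [← jn_rem]; rfl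
    have hX' : ∀ Y ∈ Xs, Blk Y := fun Y hY => hX Y (List.mem_cons_of_mem _ hY)
    have hb := hX X List.mem_cons_self
    rw [h1]
    exact SA_join hb.sa (ih hX') hb.lp (RP_rem hr fun Y hY => (hX' Y hY).rp)

/-- Levels of the junctions. -/
theorem Dec.lev {N lam : ℕ} {U₀ U₁ : Word d} {Xs : List (Word d)} (h : Dec N lam U₀ Xs U₁)
    (q : ℕ) : - (lam : ℤ) ≤ 2 * D (U₀ ++ jn (Xs.take q)) 0 - D (wd U₀ Xs U₁) 0 ∧
      2 * D (U₀ ++ jn (Xs.take q)) 0 - D (wd U₀ Xs U₁) 0 ≤ lam := by
  have h1 := h.lo
  have h2 := h.hi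
  have h3 := jn_height (Xs := Xs.take q) fun X hX => (h.blk X (List.mem_of_mem_take hX)).lp
  have h4 := jn_height (Xs := Xs.drop q) fun X hX => (h.blk X (List.mem_of_mem_drop hX)).lp
  have h5 : D (U₀ ++ jn Xs) 0 = D U₀ 0 + D (jn (Xs.take q)) 0 + D (jn (Xs.drop q)) 0 := by
    conv_lhs => rw [← List.take_append_drop q Xs]
    rw [jn_append, D_append, D_append]
    simp only [Pi.add_apply]
    ring
  have h6 : D (U₀ ++ jn (Xs.take q)) 0 = D U₀ 0 + D (jn (Xs.take q)) 0 := by
    rw [D_append]; rfl
  constructor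
  · rw [h6]; omega
  · rw [h6]; omega

theorem mem_wordsN {N : ℕ} {w : Word d} : w ∈ wordsN d N ↔ w.length = N := by
  classical
  unfold wordsN
  rw [Finset.mem_image]
  constructor
  · rintro ⟨f, -, rfl⟩
    exact List.length_ofFn
  · rintro rfl
    exact ⟨w.get, Finset.mem_univ _, List.ofFn_get w⟩

theorem mem_far {N : ℕ} {E : ℤ} {w : Word d} :
    w ∈ far d N E ↔ w.length = N ∧ SA w ∧ E ≤ D w 0 := by
  classical
  unfold far saF
  rw [Finset.mem_filter, Finset.mem_filter, mem_wordsN, and_assoc]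

theorem ind_eq_ite (P : Prop) [Decidable P] : ind P = if P then 1 else 0 := by
  unfold ind
  congr

theorem take_length_lt {U₀ : Word d} {Xs : List (Word d)} {i j : ℕ} (hij : i < j)
    (hj : j ≤ Xs.length) : (U₀ ++ jn (Xs.take i)).length < (U₀ ++ jn (Xs.take j)).length := by
  obtain ⟨k, rfl⟩ := Nat.exists_eq_add_of_lt hij
  have h1 : Xs.take (i + k + 1) = Xs.take i ++ (Xs.drop i).take (k + 1) := by
    rw [add_assoc, List.take_add]
  have h2 : ((Xs.drop i).take (k + 1)).length = k + 1 := by
    rw [List.length_take, List.length_drop]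
    omega
  have h3 := jn_length (Xs := (Xs.drop i).take (k + 1))
  rw [h1, jn_append, List.length_append, List.length_append, List.length_append]
  omega

theorem take_length_inj {U₀ : Word d} {Xs : List (Word d)} {i j : ℕ} (hi : i ≤ Xs.length)
    (hj : j ≤ Xs.length) (h : (U₀ ++ jn (Xs.take i)).length = (U₀ ++ jn (Xs.take j)).length) :
    i = j := by
  rcases lt_trichotomy i j with h1 | h1 | h1
  · exact absurd h (take_length_lt h1 hj).ne
  · exact h1
  · exact absurd h.symm (take_length_lt h1 hi).ne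

end CutAux

end Pool.Agent.SawFold
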