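import Pool.Agent.SawFold.DecUn

/-!
Module DecEx (existence of decompositions; near walks are folds) of the project Pool.Agent.SawFold.
-/

set_option autoImplicit false
set_option linter.unusedSectionVars false

namespace Pool.Agent.SawFold

open Finset
open scoped BigOperators

variable {d : ℕ} [NeZero d]

namespace DecExAux

open DecUnAux PSAAux

/-- The left part. -/
theorem left_dec (c : ℤ) (n : ℕ) : ∀ A : Word d, A.length ≤ n → LP A → SA A → c ≤ D A 0 →
    ∃ (U : Word d) (Ys : List (Word d)), A = U ++ jn Ys ∧ (∀ Y ∈ Ys, Blk Y) ∧ LP U ∧ SA U ∧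
      c ≤ D U 0 ∧ ∀ A' R : Word d, U = A' ++ upS :: R → LP A' → RP R → D A' 0 < c := by
  induction n with
  | zero =>
    intro A hA hL hS hc
    have h0 : A = [] := List.length_eq_zero_iff.1 (by omega)
    subst h0
    exact ⟨[], [], rfl, by simp, hL, hS, hc, by intro A' R h; simp at h⟩
  | succ n ih =>
    intro A hA hL hS hc
    by_cases hcut : ∀ A' R : Word d, A = A' ++ upS :: R → LP A' → RP R → D A' 0 < c
    · exact ⟨A, [], by simp [jn], by simp, hL, hS, hc, hcut⟩
    · -- take the last cut
      have hex : ∃ k, ∃ A' R : Word d, R.length = k ∧ A = A' ++ upS :: R ∧ LP A' ∧ RP R ∧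
          c ≤ D A' 0 := by
        push Not at hcut
        obtain ⟨A', R, h1, h2, h3, h4⟩ := hcut
        exact ⟨R.length, A', R, rfl, h1, h2, h3, h4⟩
      classical
      obtain ⟨A', X, hk, h1, h2, h3, h4⟩ := Nat.find_spec hex
      have hmin := fun m => @Nat.find_min _ _ hex m
      rw [← hk] at hmin
      have hb : Blk X := by
        refine ⟨?_, ?_, h3, ?_⟩
        · rw [h1] at hS
          have : SA (([upS] : Word d) ++ X) := SA_suffix hS
          exact SA_suffix this
        · rw [h1] at hL
          have : LP (([upS] : Word d) ++ X) := LP_suffix hL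
          exact LP_suffix this
        · intro B R hB hBL hRR
          refine hmin R.length ?_ ⟨A' ++ upS :: B, R, rfl, ?_, LP_bond h2 hBL, hRR, ?_⟩
          · rw [hB, List.length_append, List.length_cons]; omega
          · rw [h1, hB]; simp
          · rw [D_append, D_cons, vec_upS]
            have := LP_D hBL
            simp only [Pi.add_apply, e_zero']
            linarith
      have hl : A'.length ≤ n := by
        rw [h1, List.length_append, List.length_cons] at hA
        omega
      have hS' : SA A' := by rw [h1] at hS; exact SA_prefix hS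
      obtain ⟨U, Ys, g1, g2, g3, g4, g5, g6⟩ := ih A' hl h2 hS' h4
      refine ⟨U, Ys ++ [X], ?_, ?_, g3, g4, g5, g6⟩
      · rw [jn_append, h1, g1]
        simp [jn]
      · intro Y hY
        rw [List.mem_append, List.mem_singleton] at hY
        rcases hY with hY | hY
        · exact g2 Y hY
        · rw [hY]; exact hb

/-- The right part. -/
theorem right_dec (c : ℤ) (n : ℕ) : ∀ Z R : Word d, R.length ≤ n → RP R → SA R → D Z 0 ≤ c →
    ∃ (U : Word d) (Xs : List (Word d)), R = tw Xs U ∧ (∀ Y ∈ Xs, Blk Y) ∧ RP U ∧ SA U ∧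
      D (Z ++ jn Xs) 0 ≤ c ∧ ∀ A' R' : Word d, U = A' ++ upS :: R' → LP A' → RP R' →
        c < D (Z ++ jn Xs ++ upS :: A') 0 := by
  induction n with
  | zero =>
    intro Z R hA hL hS hc
    have h0 : R = [] := List.length_eq_zero_iff.1 (by omega)
    subst h0
    exact ⟨[], [], rfl, by simp, hL, hS, by simpa [jn] using hc, by intro A' R h; simp at h⟩
  | succ n ih =>
    intro Z R hA hL hS hc
    by_cases hcut : ∀ A' R' : Word d, R = A' ++ upS :: R' → LP A' → RP R' →
        c < D (Z ++ upS :: A') 0
    · refine ⟨R, [], rfl, by simp, hL, hS, by simpa [jn] using hc, ?_⟩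
      intro A' R' h1 h2 h3
      have : Z ++ jn ([] : List (Word d)) ++ upS :: A' = Z ++ upS :: A' := by simp [jn]
      rw [this]
      exact hcut A' R' h1 h2 h3
    · -- take the first cut
      have hex : ∃ k, ∃ A' R' : Word d, A'.length = k ∧ R = A' ++ upS :: R' ∧ LP A' ∧ RP R' ∧
          D (Z ++ upS :: A') 0 ≤ c := by
        push Not at hcut
        obtain ⟨A', R', h1, h2, h3, h4⟩ := hcut
        exact ⟨A'.length, A', R', rfl, h1, h2, h3, h4⟩
      classical
      obtain ⟨X, R', hk, h1, h2, h3, h4⟩ := Nat.find_spec hex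
      have hmin := fun m => @Nat.find_min _ _ hex m
      rw [← hk] at hmin
      have hRX : RP X := by rw [h1] at hL; exact RP_prefix hL
      have hb : Blk X := by
        refine ⟨?_, h2, hRX, ?_⟩
        · rw [h1] at hS
          exact SA_prefix hS
        · intro B S hB hBL hSR
          refine hmin B.length ?_ ⟨B, S ++ upS :: R', rfl, ?_, hBL, RP_bond hSR h3, ?_⟩
          · rw [hB, List.length_append, List.length_cons]; omega
          · rw [h1, hB]; simp
          · have h5 : D (Z ++ upS :: X) 0 = D (Z ++ upS :: B) 0 + (1 + D S 0) := by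
              rw [hB]
              simp only [D_append, D_cons, vec_upS, Pi.add_apply, e_zero']
              ring
            have := RP_D hSR
            linarith
      have hl : R'.length ≤ n := by
        rw [h1, List.length_append, List.length_cons] at hA
        omega
      have hS' : SA R' := by
        rw [h1] at hS
        have : SA (([upS] : Word d) ++ R') := SA_suffix hS
        exact SA_suffix this
      obtain ⟨U, Xs, g1, g2, g3, g4, g5, g6⟩ := ih (Z ++ upS :: X) R' hl h3 hS' h4
      have h0 : Z ++ upS :: X ++ jn Xs = Z ++ jn (X :: Xs) := by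
        rw [List.append_assoc]; rfl
      rw [h0] at g5 g6
      refine ⟨U, X :: Xs, ?_, ?_, g3, g4, g5, g6⟩
      · rw [h1, g1]; rfl
      · intro Y hY
        rw [List.mem_cons] at hY
        rcases hY with hY | hY
        · rw [hY]; exact hb
        · exact g2 Y hY

/-- Every cut of a self-avoiding word with level in the window comes from a decomposition. -/
theorem exists_dec {N lam : ℕ} {A R : Word d} (hA : LP A) (hR : RP R) (sA : SA A) (sR : SA R)
    (hN : (A ++ upS :: R).length = N)
    (lo : -(lam : ℤ) ≤ 2 * D A 0 - D (A ++ upS :: R) 0)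
    (hi : 2 * D A 0 - D (A ++ upS :: R) 0 ≤ lam) :
    ∃ (U₀ U₁ : Word d) (Xs : List (Word d)) (q : ℕ), Dec N lam U₀ Xs U₁ ∧ q ≤ Xs.length ∧
      wd U₀ Xs U₁ = A ++ upS :: R ∧ foldw U₀ Xs U₁ q = A ++ flw (upS :: R) := by
  set E : ℤ := D (A ++ upS :: R) 0 with hE
  -- thresholds for the heights: `-lam ≤ 2 h - E` iff `c₀ ≤ h`
  obtain ⟨c₀, hc₀⟩ : ∃ c₀ : ℤ, ∀ h : ℤ, -(lam : ℤ) ≤ 2 * h - E ↔ c₀ ≤ h :=
    ⟨(E - lam + 1) / 2, fun h => by omega⟩
  obtain ⟨c₁, hc₁⟩ : ∃ c₁ : ℤ, ∀ h : ℤ, 2 * h - E ≤ lam ↔ h ≤ c₁ :=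
    ⟨(E + lam) / 2, fun h => by omega⟩
  obtain ⟨U₀, Ys, a1, a2, a3, a4, a5, a6⟩ := left_dec c₀ A.length A le_rfl hA sA ((hc₀ _).1 lo)
  obtain ⟨U₁, Xs, b1, b2, b3, b4, b5, b6⟩ := right_dec c₁ R.length A R le_rfl hR sR
    ((hc₁ _).1 hi)
  have hw : U₀ ++ jn (Ys ++ Xs) = A ++ jn Xs := by
    rw [jn_append, a1, List.append_assoc]
  have hwd : wd U₀ (Ys ++ Xs) U₁ = A ++ upS :: R := by
    unfold wd
    rw [hw, List.append_assoc, jn_tw, ← b1]
  refine ⟨U₀, U₁, Ys ++ Xs, Ys.length, ?_, ?_, hwd, ?_⟩
  · refine ⟨a4, b4, a3, b3, ?_, ?_, ?_, ?_, ?_, ?_⟩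
    · intro X hX
      rcases List.mem_append.1 hX with h | h
      · exact a2 X h
      · exact b2 X h
    · rw [hwd]; exact hN
    · rw [hwd]; exact (hc₀ _).2 a5
    · rw [hwd, hw]; exact (hc₁ _).2 b5
    · intro B S h1 h2 h3
      rw [hwd]
      have h4 := a6 B S h1 h2 h3
      by_contra h5
      have h6 := (hc₀ (D B 0)).1 (by linarith)
      linarith
    · intro B S h1 h2 h3
      rw [hwd, hw]
      have h4 := b6 B S h1 h2 h3
      by_contra h5
      have h6 := (hc₁ (D (A ++ jn Xs ++ upS :: B) 0)).1 (by linarith)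
      linarith
  · rw [List.length_append]; omega
  · unfold foldw
    rw [List.take_left', List.drop_left', jn_tw, ← b1, ← a1]
    all_goals rfl

theorem vec_neg {s : Stp d} (h : vec s 0 < 0) : s = (0, false) := by
  obtain ⟨k, b⟩ := s
  by_cases hk : k = 0
  · subst hk
    cases b
    · rfl
    · exfalso
      simp [vec] at h
  · exfalso
    have h0 : (0 : Fin d) ≠ k := fun h => hk h.symm
    simp [vec, h0] at h

/-- Near walks are folds. -/
theorem near_fold {N lam D₀ : ℕ} (h : lam < D₀) {η : Word d} (hη : η ∈ near d N lam D₀) :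
    ∃ (U₀ U₁ : Word d) (Xs : List (Word d)) (q : ℕ), Dec N lam U₀ Xs U₁ ∧ q ≤ Xs.length ∧
      (2 * (D₀ : ℤ) - lam ≤ D (wd U₀ Xs U₁) 0) ∧ foldw U₀ Xs U₁ q = η := by
  classical
  unfold near at hη
  rw [Finset.mem_filter, mem_saF] at hη
  obtain ⟨⟨hN, hS⟩, hlam, x, hx, hxD⟩ := hη
  -- the last time at the maximal height
  obtain ⟨i, hi, hmax⟩ := Finset.exists_max_image (range (N + 1))
    (fun i => D (η.take i) 0 * ((N : ℤ) + 1) + i) ⟨0, by simp⟩
  rw [Finset.mem_range] at hi
  have hle : ∀ j, j ≤ N → D (η.take j) 0 ≤ D (η.take i) 0 := by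
    intro j hj
    have h1 := hmax j (by rw [Finset.mem_range]; omega)
    by_contra h2
    push Not at h2
    have h3 : D (η.take i) 0 + 1 ≤ D (η.take j) 0 := h2
    have h4 : (D (η.take i) 0 + 1) * ((N : ℤ) + 1) ≤ D (η.take j) 0 * ((N : ℤ) + 1) :=
      mul_le_mul_of_nonneg_right h3 (by positivity)
    have h5 : (i : ℤ) ≤ N := by exact_mod_cast (by omega : i ≤ N)
    have h6 : (0 : ℤ) ≤ j := by positivity
    nlinarith
  have hlt : ∀ j, i < j → j ≤ N → D (η.take j) 0 < D (η.take i) 0 := by
    intro j hij hj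
    have h1 := hmax j (by rw [Finset.mem_range]; omega)
    rcases (hle j hj).lt_or_eq with h2 | h2
    · exact h2
    · exfalso
      rw [h2] at h1
      have h3 : (i : ℤ) < j := by exact_mod_cast hij
      linarith
  have hM : (D₀ : ℤ) ≤ D (η.take i) 0 := by
    obtain ⟨k, hk, rfl⟩ := hx
    rw [hN] at hk
    exact hxD.trans (hle k hk)
  have hend := (abs_le.1 hlam).2
  have hlow := (abs_le.1 hlam).1
  have hlamD : (lam : ℤ) < D₀ := by exact_mod_cast h
  have hiN : i < N := by
    rcases Nat.lt_or_ge i N with h1 | h1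
    · exact h1
    · exfalso
      have h2 : i = N := by omega
      rw [h2, ← hN, List.take_length] at hM
      linarith
  have hiη : i < η.length := by omega
  set A := η.take i with hA
  set s := η[i] with hs
  set R' := η.drop (i + 1) with hR'
  have hAl : A.length = i := by rw [hA, List.length_take]; omega
  have hsplit : η = A ++ s :: R' := by
    conv_lhs => rw [← List.take_append_drop i η, List.drop_eq_getElem_cons hiη]
  have hbond : ∀ j, D (η.take (i + 1 + j)) = D A + vec s + D (R'.take j) := by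
    intro j
    conv_lhs => rw [hsplit]
    have := D_take_bond A s R' j
    rw [hAl] at this
    exact this
  have hs0 : s = (0, false) := by
    apply vec_neg
    have h1 := hlt (i + 1) (by omega) (by omega)
    have h2 := hbond 0
    rw [List.take_zero, D_nil, add_zero, add_zero] at h2
    rw [h2, Pi.add_apply] at h1
    linarith
  have hvs : vec s = - (e : Pt d) := by
    rw [hs0]
    have h1 := vec_flip (upS : Stp d)
    rw [vec_upS, fl_e'] at h1
    rw [← h1]
    simp [upS]
  have hRl : R'.length = N - i - 1 := by rw [hR', List.length_drop]; omega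
  -- the unfolded walk
  have hLA : LP A := by
    rintro y ⟨k, hk, rfl⟩
    rw [hAl] at hk
    rw [hA, List.take_take, min_eq_left hk]
    exact hle k (by omega)
  have hRR : RP (flw R') := by
    intro y hy
    rw [mem_P_flw] at hy
    obtain ⟨k, hk, hk2⟩ := hy
    rw [hRl] at hk
    have h1 := hlt (i + 1 + k) (by omega) (by omega)
    rw [hbond, ← hk2, hvs] at h1
    simp at h1
    omega
  have sA : SA A := by rw [hsplit] at hS; exact SA_prefix hS
  have sR : SA (flw R') := by
    rw [SA_flw]
    rw [hsplit] at hS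
    have : SA (([s] : Word d) ++ R') := SA_suffix hS
    exact SA_suffix this
  have hDη : D η = D A - e + D R' := by
    conv_lhs => rw [hsplit]
    rw [D_append, D_cons, hvs]
    abel
  have hDw : D (A ++ upS :: flw R') 0 = 2 * D A 0 - D η 0 := by
    rw [hDη, D_append, D_cons, vec_upS, D_flw]
    simp
    ring
  have hlen : (A ++ upS :: flw R').length = N := by
    rw [List.length_append, List.length_cons, flw_length, hAl, hRl]
    omega
  obtain ⟨U₀, U₁, Xs, q, h1, h2, h3, h4⟩ := exists_dec (lam := lam) hLA hRR sA sR hlen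
    (by rw [hDw]; linarith) (by rw [hDw]; linarith)
  refine ⟨U₀, U₁, Xs, q, h1, h2, ?_, ?_⟩
  · rw [h3, hDw]
    linarith
  · rw [h4]
    conv_rhs => rw [hsplit]
    congr 1
    have h5 : flw (upS :: flw R') = (0, false) :: flw (flw R') := by
      simp [flw, upS]
    rw [h5, flw_flw, hs0]

theorem ind_sum_card {ι : Type} (s : Finset ι) (p : ι → Prop) [DecidablePred p] :
    ∑ i ∈ s, ind (p i) = ((s.filter p).card : ℝ) := by
  rw [Finset.card_filter]
  push_cast
  refine Finset.sum_congr rfl fun i _ => ?_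
  unfold ind
  by_cases h : p i <;> simp [h]

end DecExAux

open DecExAux DecUnAux

theorem near_le (d : ℕ) [NeZero d] (N lam D₀ : ℕ) (h : lam < D₀) :
    ((near d N lam D₀).card : ℝ) ≤
      ∑ K ∈ range (N + 1), ∑ t ∈ decF d N lam (2 * D₀ - lam) K, nF t := by
  classical
  have h1 : ∀ K (t : Word d × (Fin K → Word d) × Word d), nF t =
      (((range (K + 1)).filter fun q => SA (foldw t.1 (List.ofFn t.2.1) t.2.2 q)).card : ℝ) :=
    fun K t => ind_sum_card _ _
  have h2 : near d N lam D₀ ⊆ (range (N + 1)).biUnion fun K =>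
      (decF d N lam (2 * D₀ - lam) K).biUnion fun t =>
        ((range (K + 1)).filter fun q => SA (foldw t.1 (List.ofFn t.2.1) t.2.2 q)).image
          fun q => foldw t.1 (List.ofFn t.2.1) t.2.2 q := by
    intro η hη
    obtain ⟨U₀, U₁, Xs, q, g1, g2, g3, g4⟩ := near_fold h hη
    have hofn : List.ofFn (fun i : Fin Xs.length => Xs.get i) = Xs := List.ofFn_get Xs
    have hS : SA η := by
      unfold near at hη
      rw [Finset.mem_filter, mem_saF] at hη
      exact hη.1.2
    rw [Finset.mem_biUnion]
    refine ⟨Xs.length, ?_, ?_⟩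
    · rw [Finset.mem_range]
      have := (dec_card g1).2
      omega
    · rw [Finset.mem_biUnion]
      refine ⟨(U₀, (fun i : Fin Xs.length => Xs.get i), U₁), ?_, ?_⟩
      · rw [mem_decF]
        simp only [hofn]
        exact ⟨g1, g3⟩
      · rw [Finset.mem_image]
        refine ⟨q, ?_, ?_⟩
        · rw [Finset.mem_filter, Finset.mem_range]
          simp only [hofn]
          rw [g4]
          exact ⟨by omega, hS⟩
        · simp only [hofn]
          exact g4
  have h3 : (near d N lam D₀).card ≤ ∑ K ∈ range (N + 1), ∑ t ∈ decF d N lam (2 * D₀ - lam) K,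
      ((range (K + 1)).filter fun q => SA (foldw t.1 (List.ofFn t.2.1) t.2.2 q)).card := by
    refine (Finset.card_le_card h2).trans (Finset.card_biUnion_le.trans ?_)
    refine Finset.sum_le_sum fun K _ => Finset.card_biUnion_le.trans ?_
    exact Finset.sum_le_sum fun t _ => Finset.card_image_le
  have h4 : ((near d N lam D₀).card : ℝ) ≤ ((∑ K ∈ range (N + 1),
      ∑ t ∈ decF d N lam (2 * D₀ - lam) K,
      ((range (K + 1)).filter fun q => SA (foldw t.1 (List.ofFn t.2.1) t.2.2 q)).card : ℕ) : ℝ) :=
    by exact_mod_cast h3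
  refine h4.trans (le_of_eq ?_)
  push_cast
  exact Finset.sum_congr rfl fun K _ => Finset.sum_congr rfl fun t _ => (h1 K t).symm

end Pool.Agent.SawFold
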