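import Pool.Agent.SawFold.PSA

/-!
Module DecUn (uniqueness of decompositions, finiteness) of the project Pool.Agent.SawFold.
-/

set_option autoImplicit false
set_option linter.unusedSectionVars false

namespace Pool.Agent.SawFold

open Finset
open scoped BigOperators

variable {d : ℕ} [NeZero d]

namespace DecUnAux

/-- The word after the first upward bond of `jn Xs ++ upS :: U₁`. -/
def tw : List (Word d) → Word d → Word d
  | [], U => U
  | X :: Xs, U => X ++ upS :: tw Xs U

theorem jn_tw (Xs : List (Word d)) (U : Word d) : jn Xs ++ upS :: U = upS :: tw Xs U := by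
  induction Xs with
  | nil => rfl
  | cons X Xs ih =>
    show upS :: X ++ jn Xs ++ upS :: U = upS :: (X ++ upS :: tw Xs U)
    rw [List.append_assoc, ih]
    rfl

theorem wd_tw (U₀ : Word d) (Xs : List (Word d)) (U₁ : Word d) :
    wd U₀ Xs U₁ = U₀ ++ upS :: tw Xs U₁ := by
  unfold wd
  rw [List.append_assoc, jn_tw]

theorem RP_D {w : Word d} (h : RP w) : 0 ≤ D w 0 := h _ (D_mem_P w)

theorem LP_D {w : Word d} (h : LP w) : 0 ≤ D w 0 := h _ (zero_mem_P w)

theorem RP_bond {X R : Word d} (hX : RP X) (hR : RP R) : RP (X ++ upS :: R) := by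
  intro x hx
  rcases (mem_P_append _ _ _).1 hx with h | h
  · exact hX x h
  · have h0 := RP_D hX
    rcases (mem_P_cons _ _ _).1 h with h | h
    · have : x = D X := sub_eq_zero.1 h
      rw [this]; exact h0
    · have h1 := hR _ h
      rw [vec_upS] at h1
      simp at h1
      linarith

theorem LP_bond {X R : Word d} (hX : LP X) (hR : LP R) : LP (X ++ upS :: R) := by
  intro x hx
  rw [D_append, D_cons, vec_upS, Pi.add_apply, Pi.add_apply, e_zero']
  have h0 := LP_D hR
  rcases (mem_P_append _ _ _).1 hx with h | h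
  · have := hX x h
    linarith
  · rcases (mem_P_cons _ _ _).1 h with h | h
    · have : x = D X := sub_eq_zero.1 h
      rw [this]; linarith
    · have h1 := hR _ h
      rw [vec_upS] at h1
      simp at h1
      linarith

theorem RP_prefix {u v : Word d} (h : RP (u ++ v)) : RP u := fun x hx =>
  h x ((mem_P_append u v x).2 (Or.inl hx))

theorem LP_suffix {u v : Word d} (h : LP (u ++ v)) : LP v := by
  intro x hx
  have h1 := h (x + D u) ((mem_P_append u v _).2 (Or.inr (by simpa using hx)))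
  rw [D_append] at h1
  simp at h1
  linarith

theorem RP_tw {Xs : List (Word d)} {U : Word d} (hX : ∀ X ∈ Xs, RP X) (hU : RP U) :
    RP (tw Xs U) := by
  induction Xs with
  | nil => exact hU
  | cons X Xs ih =>
    exact RP_bond (hX X (by simp)) (ih fun Y hY => hX Y (by simp [hY]))

theorem SA_up {A R : Word d} (hA : LP A) (hR : RP R) (h1 : SA A) (h2 : SA R) :
    SA (A ++ upS :: R) := by
  rw [SA_bond]
  refine ⟨h1, h2, ?_⟩
  intro y hy hy2
  have h3 := hA y hy
  have h4 := hR _ hy2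
  rw [vec_upS] at h4
  simp at h4
  linarith

theorem SA_tw {Xs : List (Word d)} {U : Word d} (hX : ∀ X ∈ Xs, Blk X) (hU : RP U)
    (hs : SA U) : SA (tw Xs U) := by
  induction Xs with
  | nil => exact hs
  | cons X Xs ih =>
    have hb := hX X (by simp)
    exact SA_up hb.lp (RP_tw (fun Y hY => (hX Y (by simp [hY])).rp) hU) hb.sa
      (ih fun Y hY => hX Y (by simp [hY]))

theorem D_jn_cons (X : Word d) (Xs : List (Word d)) :
    D (jn (X :: Xs)) = e + D X + D (jn Xs) := by
  show D (upS :: X ++ jn Xs) = _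
  rw [D_append, D_cons, vec_upS]

theorem jn_append (Xs Ys : List (Word d)) : jn (Xs ++ Ys) = jn Xs ++ jn Ys := by
  induction Xs with
  | nil => rfl
  | cons X Xs ih =>
    show upS :: X ++ jn (Xs ++ Ys) = upS :: X ++ jn Xs ++ jn Ys
    rw [ih, List.append_assoc]

theorem D_jn_ge {Xs : List (Word d)} (hX : ∀ X ∈ Xs, RP X) :
    (Xs.length : ℤ) ≤ D (jn Xs) 0 := by
  induction Xs with
  | nil => simp [jn]
  | cons X Xs ih =>
    rw [D_jn_cons, Pi.add_apply, Pi.add_apply, e_zero', List.length_cons]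
    have h1 := RP_D (hX X (by simp))
    have h2 := ih fun Y hY => hX Y (by simp [hY])
    push_cast
    linarith

theorem jn_length (Xs : List (Word d)) : Xs.length ≤ (jn Xs).length := by
  induction Xs with
  | nil => simp
  | cons X Xs ih =>
    show _ ≤ (upS :: X ++ jn Xs).length
    rw [List.length_append, List.length_cons, List.length_cons]
    omega

/-- A comparison of two factorizations. -/
theorem split_lt {A R A' R' : Word d} (h : A ++ upS :: R = A' ++ upS :: R')
    (hl : A.length < A'.length) : ∃ Z, A' = A ++ upS :: Z ∧ R = Z ++ upS :: R' := by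
  rcases List.append_eq_append_iff.1 h with ⟨a, ha, hb⟩ | ⟨c, hc, hd⟩
  · cases a with
    | nil =>
      rw [ha] at hl
      simp at hl
    | cons s Z =>
      rw [List.cons_append] at hb
      have hb' := List.cons.inj hb
      refine ⟨Z, ?_, hb'.2⟩
      rw [ha, ← hb'.1]
  · exfalso
    rw [hc, List.length_append] at hl
    omega

/-- Two factorizations of the same length. -/
theorem split_eq {A R A' R' : Word d} (h : A ++ upS :: R = A' ++ upS :: R')
    (hl : A.length = A'.length) : A = A' ∧ R = R' := by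
  have h1 := List.append_inj h hl
  exact ⟨h1.1, (List.cons.inj h1.2).2⟩

/-- Decomposition of the tail of a word. -/
structure Tl (lam E : ℤ) (Z : Word d) (Xs : List (Word d)) (U : Word d) : Prop where
  rp : RP U
  blk : ∀ X ∈ Xs, Blk X
  hi : 2 * D (Z ++ jn Xs) 0 - E ≤ lam
  cut : ∀ A R : Word d, U = A ++ upS :: R → LP A → RP R →
    lam < 2 * D (Z ++ jn Xs ++ upS :: A) 0 - E

theorem Tl.step {lam E : ℤ} {Z X : Word d} {Xs : List (Word d)} {U : Word d}
    (h : Tl lam E Z (X :: Xs) U) : Tl lam E (Z ++ upS :: X) Xs U := by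
  have h0 : Z ++ upS :: X ++ jn Xs = Z ++ jn (X :: Xs) := by
    rw [List.append_assoc]; rfl
  refine ⟨h.rp, fun Y hY => h.blk Y (by simp [hY]), ?_, ?_⟩
  · rw [h0]; exact h.hi
  · intro A R hU hA hR
    rw [h0]
    exact h.cut A R hU hA hR

theorem Tl.rps {lam E : ℤ} {Z : Word d} {Xs : List (Word d)} {U : Word d}
    (h : Tl lam E Z Xs U) : ∀ X ∈ Xs, RP X := fun X hX => (h.blk X hX).rp

theorem Tl.nil_cons {lam E : ℤ} {Z Y : Word d} {Ys : List (Word d)} {U V : Word d}
    (h : Tl lam E Z [] U) (h' : Tl lam E Z (Y :: Ys) V) (he : U = Y ++ upS :: tw Ys V) : False := by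
  have h1 := h.cut Y (tw Ys V) he (h'.blk Y (by simp)).lp
    (RP_tw (fun X hX => h'.rps X (by simp [hX])) h'.rp)
  have h2 := h'.hi
  have h3 := D_jn_ge (Xs := Ys) (fun X hX => h'.rps X (by simp [hX]))
  have h4 : Z ++ jn ([] : List (Word d)) = Z := by simp [jn]
  rw [h4, D_append, D_cons, vec_upS] at h1
  rw [D_append, D_jn_cons] at h2
  simp only [Pi.add_apply] at h1 h2
  have h5 : (0 : ℤ) ≤ (Ys.length : ℤ) := by positivity
  linarith

theorem Tl.unique {lam E : ℤ} {U V : Word d} (Xs : List (Word d)) :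
    ∀ (Z : Word d) (Ys : List (Word d)), Tl lam E Z Xs U → Tl lam E Z Ys V →
      tw Xs U = tw Ys V → Xs = Ys ∧ U = V := by
  induction Xs with
  | nil =>
    intro Z Ys h h' he
    cases Ys with
    | nil => exact ⟨rfl, he⟩
    | cons Y Ys => exact (Tl.nil_cons h h' he).elim
  | cons X Xs ih =>
    intro Z Ys h h' he
    cases Ys with
    | nil => exact (Tl.nil_cons h' h he.symm).elim
    | cons Y Ys =>
      have he' : X ++ upS :: tw Xs U = Y ++ upS :: tw Ys V := he
      have hbX := h.blk X (by simp)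
      have hbY := h'.blk Y (by simp)
      have hrX : RP (tw Xs U) := RP_tw (fun W hW => h.rps W (by simp [hW])) h.rp
      have hrY : RP (tw Ys V) := RP_tw (fun W hW => h'.rps W (by simp [hW])) h'.rp
      rcases lt_trichotomy X.length Y.length with hl | hl | hl
      · obtain ⟨Q, hQ1, hQ2⟩ := split_lt he' hl
        rw [hQ2] at hrX
        exact (hbY.irr X Q hQ1 hbX.lp (RP_prefix hrX)).elim
      · obtain ⟨h1, h2⟩ := split_eq he' hl
        subst h1
        obtain ⟨h3, h4⟩ := ih (Z ++ upS :: X) Ys h.step h'.step h2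
        exact ⟨by rw [h3], h4⟩
      · obtain ⟨Q, hQ1, hQ2⟩ := split_lt he'.symm hl
        rw [hQ2] at hrY
        exact (hbX.irr Y Q hQ1 hbY.lp (RP_prefix hrY)).elim

theorem Dec_tl {N lam : ℕ} {U₀ U₁ : Word d} {Xs : List (Word d)} (h : Dec N lam U₀ Xs U₁) :
    Tl (lam : ℤ) (D (wd U₀ Xs U₁) 0) U₀ Xs U₁ := ⟨h.rp, h.blk, h.hi, h.cutR⟩

theorem Dec_rps {N lam : ℕ} {U₀ U₁ : Word d} {Xs : List (Word d)} (h : Dec N lam U₀ Xs U₁) :
    ∀ X ∈ Xs, RP X := fun X hX => (h.blk X hX).rp

theorem Dec_not_lt {N lam : ℕ} {U₀ U₁ V₀ V₁ : Word d} {Xs Ys : List (Word d)}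
    (h : Dec N lam U₀ Xs U₁) (h' : Dec N lam V₀ Ys V₁) (he : wd U₀ Xs U₁ = wd V₀ Ys V₁) :
    ¬ U₀.length < V₀.length := by
  intro hl
  have he' := he
  rw [wd_tw, wd_tw] at he'
  obtain ⟨Q, hQ1, hQ2⟩ := split_lt he' hl
  have hr : RP (tw Xs U₁) := RP_tw (Dec_rps h) h.rp
  rw [hQ2] at hr
  have h1 := h'.cutL U₀ Q hQ1 h.lp (RP_prefix hr)
  have h2 := h.lo
  rw [he] at h2
  linarith

end DecUnAux

open DecUnAux

theorem dec_unique {N lam : ℕ} {U₀ U₁ V₀ V₁ : Word d} {Xs Ys : List (Word d)}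
    (h : Dec N lam U₀ Xs U₁) (h' : Dec N lam V₀ Ys V₁) (he : wd U₀ Xs U₁ = wd V₀ Ys V₁) :
    U₀ = V₀ ∧ Xs = Ys ∧ U₁ = V₁ := by
  have h1 := Dec_not_lt h h' he
  have h2 := Dec_not_lt h' h he.symm
  have hl : U₀.length = V₀.length := by omega
  have he' := he
  rw [wd_tw, wd_tw] at he'
  obtain ⟨h3, h4⟩ := split_eq he' hl
  have ht := Dec_tl h
  have ht' := Dec_tl h'
  rw [← he, ← h3] at ht'
  obtain ⟨h5, h6⟩ := Tl.unique Xs U₀ Ys ht ht' h4
  exact ⟨h3, h5, h6⟩

theorem dec_SA {N lam : ℕ} {U₀ U₁ : Word d} {Xs : List (Word d)} (h : Dec N lam U₀ Xs U₁) :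
    SA (wd U₀ Xs U₁) := by
  rw [wd_tw]
  exact SA_up h.lp (RP_tw (Dec_rps h) h.rp) h.saL (SA_tw h.blk h.rp h.saR)

theorem dec_card {N lam : ℕ} {U₀ U₁ : Word d} {Xs : List (Word d)} (h : Dec N lam U₀ Xs U₁) :
    Xs.length ≤ lam ∧ Xs.length ≤ N := by
  constructor
  · have h1 := h.lo
    have h2 := h.hi
    have h3 := D_jn_ge (Dec_rps h)
    rw [D_append, Pi.add_apply] at h2
    have h4 : (Xs.length : ℤ) ≤ (lam : ℤ) := by linarith
    exact_mod_cast h4
  · have h1 := h.len
    unfold wd at h1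
    rw [List.length_append, List.length_append] at h1
    have h2 := jn_length Xs
    omega

namespace DecUnAux

theorem decS_finite (d : ℕ) [NeZero d] (N lam : ℕ) (E : ℤ) (K : ℕ) :
    (decS d N lam E K).Finite := by
  refine Set.Finite.of_injOn (f := fun t : Word d × (Fin K → Word d) × Word d =>
    wd t.1 (List.ofFn t.2.1) t.2.2) (t := {w : Word d | w.length = N}) ?_ ?_
    (List.finite_length_eq (Stp d) N)
  · intro t ht
    exact ht.1.len
  · intro t ht t' ht' he
    obtain ⟨h1, h2, h3⟩ := dec_unique ht.1 ht'.1 he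
    exact Prod.ext h1 (Prod.ext (List.ofFn_injective h2) h3)

theorem mem_wordsN {N : ℕ} (w : Word d) : w ∈ wordsN d N ↔ w.length = N := by
  classical
  unfold wordsN
  rw [Finset.mem_image]
  constructor
  · rintro ⟨f, _, rfl⟩
    simp
  · intro h
    subst h
    exact ⟨w.get, Finset.mem_univ _, List.ofFn_get w⟩

theorem mem_saF {N : ℕ} (w : Word d) : w ∈ saF d N ↔ w.length = N ∧ SA w := by
  classical
  unfold saF
  rw [Finset.mem_filter, mem_wordsN]

theorem mem_far {N : ℕ} {E : ℤ} (w : Word d) :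
    w ∈ far d N E ↔ w.length = N ∧ SA w ∧ E ≤ D w 0 := by
  classical
  unfold far
  rw [Finset.mem_filter, mem_saF, and_assoc]

end DecUnAux

theorem mem_decF {N lam : ℕ} {E : ℤ} {K : ℕ} (t : Word d × (Fin K → Word d) × Word d) :
    t ∈ decF d N lam E K ↔
      Dec N lam t.1 (List.ofFn t.2.1) t.2.2 ∧ E ≤ D (wd t.1 (List.ofFn t.2.1) t.2.2) 0 := by
  classical
  unfold decF
  rw [dif_pos (decS_finite d N lam E K), Set.Finite.mem_toFinset]
  exact Iff.rfl

theorem sum_decF_le (d : ℕ) [NeZero d] (N lam : ℕ) (E : ℤ) :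
    ∑ K ∈ range (N + 1), (decF d N lam E K).card ≤ (far d N E).card := by
  classical
  rw [← Finset.card_sigma]
  refine Finset.card_le_card_of_injOn
    (fun p : (Σ K : ℕ, (Word d × (Fin K → Word d) × Word d)) =>
      wd p.2.1 (List.ofFn p.2.2.1) p.2.2.2) ?_ ?_
  · rintro ⟨K, t⟩ hp
    have h1 := (Finset.mem_sigma.1 hp).2
    rw [mem_decF] at h1
    exact (mem_far _).2 ⟨h1.1.len, dec_SA h1.1, h1.2⟩
  · rintro ⟨K, t⟩ hp ⟨K', t'⟩ hp' he
    have h1 := (Finset.mem_sigma.1 hp).2
    have h1' := (Finset.mem_sigma.1 hp').2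
    rw [mem_decF] at h1 h1'
    obtain ⟨h2, h3, h4⟩ := dec_unique h1.1 h1'.1 he
    have h5 : K = K' := by
      have := congrArg List.length h3
      simpa using this
    subst h5
    have h6 := List.ofFn_injective h3
    have h7 : t = t' := Prod.ext h2 (Prod.ext h6 h4)
    rw [h7]

end Pool.Agent.SawFold
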