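import Mathlib

/-!
Improved lower bound for the displacement of self-avoiding walks: common definitions.

Part 1: block systems, strands, folds and zigzags, expectation over independent blocks.
-/

set_option autoImplicit false

namespace Pool.Agent.SawFold

open Finset
open scoped BigOperators

/-- Points of the lattice. -/
abbrev Pt (d : ℕ) : Type := Fin d → ℤ

/-- The first unit vector (the height direction). -/
def e {d : ℕ} [NeZero d] : Pt d := Pi.single 0 1

/-- The reflection of the height. -/
def fl {d : ℕ} [NeZero d] : Pt d →+ Pt d where
  toFun v := fun i => if i = 0 then - v i else v i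
  map_zero' := by ext i; simp
  map_add' := by
    intro a b
    ext i
    by_cases h : i = 0 <;> simp [h, add_comm]

/-- The indicator of a proposition, as a real number. -/
noncomputable def ind (P : Prop) : ℝ := by
  classical exact if P then 1 else 0

/-- A block system: finitely many blocks; the block `b` has the set of sites `S b` (relative to its
first site `0`), contained in the slab of the heights `0, ..., V b 0 - 1`, and the following block
starts at `V b`. The block `tl b` is the block `b` traversed backwards and reflected. -/
structure BlockSys (d : ℕ) [NeZero d] where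
  B : Type
  [fin : Fintype B]
  [ne : Nonempty B]
  S : B → Set (Pt d)
  V : B → Pt d
  tl : B → B
  tl_tl : ∀ b, tl (tl b) = b
  V_pos : ∀ b, 1 ≤ V b 0
  S_lo : ∀ b, ∀ x ∈ S b, 0 ≤ x 0
  S_hi : ∀ b, ∀ x ∈ S b, x 0 < V b 0
  V_tl : ∀ b, V (tl b) = - fl (V b)
  S_tl : ∀ b y, y ∈ S (tl b) ↔ fl y + V b - e ∈ S b

attribute [instance] BlockSys.fin BlockSys.ne

section Strands

variable {d : ℕ} [NeZero d] (W : BlockSys d)

/-- Displacement of a list of blocks. -/
def Vl (l : List W.B) : Pt d := (l.map W.V).sum

/-- The sites of the upward strand with blocks `l` starting at `x`. -/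
def up : Pt d → List W.B → Set (Pt d)
  | _, [] => ∅
  | x, b :: l => {y | y - x ∈ W.S b} ∪ up (x + W.V b) l

/-- The sites of the downward strand with blocks `l` starting at `x` (the mirror image of the
upward strand in the horizontal hyperplane through `x`). -/
def dn (x : Pt d) (l : List W.B) : Set (Pt d) := {y | x + fl (y - x) ∈ up W x l}

/-- The list of blocks traversed backwards. -/
def rv (l : List W.B) : List W.B := (l.map W.tl).reverse

/-- The fold event: the strand with blocks `a` starting at `0` avoids the strand with blocks `b`
starting at `e`. -/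
def Fold (a b : List W.B) : Prop := Disjoint (up W 0 a) (up W e b)

/-- The zigzag event: the upward strands `a` (from `0`) and `b` (from `e`) and the downward strand
`c`, which starts below the last site of `b`, are disjoint, and `a`, `c` are higher than `b`. -/
structure Zg (a b c : List W.B) : Prop where
  ab : Disjoint (up W 0 a) (up W e b)
  bc : Disjoint (up W e b) (dn W (Vl W b - e) c)
  ac : Disjoint (up W 0 a) (dn W (Vl W b - e) c)
  ha : Vl W b 0 < Vl W a 0
  hc : Vl W b 0 ≤ Vl W c 0

/-- Expectation over `k` independent uniform blocks. -/
noncomputable def EL (k : ℕ) (φ : List W.B → ℝ) : ℝ :=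
  (∑ x : Fin k → W.B, φ (List.ofFn x)) / (Fintype.card (Fin k → W.B) : ℝ)

/-- Probability of the fold event with `k` blocks on both sides. -/
noncomputable def pf (k : ℕ) : ℝ := EL W k fun a => EL W k fun b => ind (Fold W a b)

/-- Probability that two bonds at distance `n` (in blocks) are both foldable with `K` blocks on both
sides. -/
noncomputable def p2 (K n : ℕ) : ℝ :=
  EL W K fun a => EL W n fun b => EL W K fun c =>
    ind (Fold W (rv W a) ((b ++ c).take K) ∧ Fold W (rv W ((a ++ b).drop n)) c)

/-- Probability of the zigzag event for two bonds at distance `n`, with `K` blocks on the outer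
sides. -/
noncomputable def pz (K n : ℕ) : ℝ :=
  EL W K fun a => EL W n fun b => EL W K fun c => ind (Zg W (rv W a) b c)

/-- The law of the displacement of `n` independent blocks. -/
noncomputable def lawV (n : ℕ) (z : Pt d) : ℝ := EL W n fun l => ind (Vl W l = z)

/-- The Shannon entropy of the displacement of `n` independent blocks. -/
noncomputable def Hv (n : ℕ) : ℝ := - EL W n fun l => Real.log (lawV W n (Vl W l))

/-- The law of the difference of the displacements of `n` and `m` independent blocks. -/
noncomputable def lawD (n m : ℕ) (z : Pt d) : ℝ :=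
  EL W n fun l => EL W m fun l' => ind (Vl W l - Vl W l' = z)

/-- The Shannon entropy of the difference of the displacements of `n` and `m` blocks. -/
noncomputable def HD (n m : ℕ) : ℝ :=
  - EL W n fun l => EL W m fun l' => Real.log (lawD W n m (Vl W l - Vl W l'))

/-- The shift norm: the total variation distance between the law of the displacement of `n`
independent blocks and its translate by `z`. -/
noncomputable def shN (n : ℕ) (z : Pt d) : ℝ :=
  sSup {r : ℝ | ∃ φ : Pt d → ℝ, (∀ y, 0 ≤ φ y ∧ φ y ≤ 1) ∧
    r = EL W n (fun l => φ (Vl W l + z)) - EL W n (fun l => φ (Vl W l))}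

/-- Unnormalised mean shift norm of the difference of the displacements of the two arms of a
foldable bond, with `k` blocks on both sides and noise of `n` blocks. -/
noncomputable def etaF (k n : ℕ) : ℝ :=
  EL W k fun a => EL W k fun b => ind (Fold W a b) * shN W n (Vl W a - Vl W b)

/-- The quadratic form of the pair probabilities. -/
noncomputable def TT (K w : ℕ) : ℝ :=
  ∑ i ∈ range w, ∑ j ∈ range w, p2 W K (Nat.dist i j)

/-- Expectation over the inner arms (conditioned, unnormalised), the middle and the outer arms. -/
noncomputable def EE (k n N : ℕ)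
    (Φ : List W.B → List W.B → List W.B → List W.B → List W.B → List W.B → List W.B → ℝ) : ℝ :=
  EL W k fun a₁ => EL W k fun b₁ => EL W k fun a₂ => EL W k fun b₂ =>
    EL W n fun m => EL W N fun a => EL W N fun c =>
      ind (Fold W a₁ b₁) * ind (Fold W a₂ b₂) * Φ a₁ b₁ a₂ b₂ m a c

/-- The fold of the arms at the first bond. -/
def G1 (a₁ b₁ a₂ m a : List W.B) : Prop :=
  Disjoint (up W 0 (a₁ ++ a)) (up W e (b₁ ++ m ++ rv W a₂))

/-- The fold of the arms at the second bond. -/
def G2 (b₁ a₂ b₂ m c : List W.B) : Prop :=
  Disjoint (up W e (b₁ ++ m ++ rv W a₂)) (dn W (Vl W (b₁ ++ m ++ rv W a₂) - e) (b₂ ++ c))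

/-- The outer arms of the zigzag avoid each other. -/
def G3 (a₁ b₁ a₂ b₂ m a c : List W.B) : Prop :=
  Disjoint (up W 0 (a₁ ++ a)) (dn W (Vl W (b₁ ++ m ++ rv W a₂) - e) (b₂ ++ c))

/-- The probability that the outer arms of the zigzag meet, for independent blocks. -/
noncomputable def qz (n N : ℕ) : ℝ :=
  EL W N fun c => EL W n fun m => EL W N fun a =>
    ind (¬ Disjoint (up W 0 a) (up W (Vl W m - Vl W c) c))

/-- The probability that the outer arms of the fold meet, for independent blocks. -/
noncomputable def qr (n N : ℕ) : ℝ :=
  EL W N fun b => EL W n fun v => EL W N fun u => EL W N fun a =>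
    ind (¬ Disjoint (up W 0 a) (up W (Vl W v - Vl W u) b))

end Strands

/-! ### Finite uniform spaces -/

/-- The law of `f` on a finite uniform space. -/
noncomputable def lawU {X Z : Type} [Fintype X] (f : X → Z) (z : Z) : ℝ :=
  (∑ x, ind (f x = z)) / (Fintype.card X : ℝ)

/-- The mean on a finite uniform space. -/
noncomputable def mu {X : Type} [Fintype X] (F : X → ℝ) : ℝ := (∑ x, F x) / (Fintype.card X : ℝ)

/-- Relative entropy of the law of `f` with respect to the law of `g`. -/
noncomputable def KLU {X Y Z : Type} [Fintype X] [Fintype Y] (f : X → Z) (g : Y → Z) : ℝ :=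
  mu fun x => Real.log (lawU f (f x)) - Real.log (lawU g (f x))

end Pool.Agent.SawFold
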