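import Pool.Agent.SawFold.Defs

/-!
Improved lower bound for the displacement of self-avoiding walks: common definitions.

Part 2: words of unit steps, cut bonds, decompositions into blocks.
-/

set_option autoImplicit false

namespace Pool.Agent.SawFold

open Finset
open scoped BigOperators

/-- A unit step: an axis and a sign. -/
abbrev Stp (d : ℕ) : Type := Fin d × Bool

/-- A word of unit steps. -/
abbrev Word (d : ℕ) : Type := List (Stp d)

section Words

variable {d : ℕ} [NeZero d]

/-- The vector of a step. -/
def vec (s : Stp d) : Pt d := Pi.single s.1 (if s.2 then 1 else -1)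

/-- The displacement of a word. -/
def D (w : Word d) : Pt d := (w.map vec).sum

/-- The sites visited by a word, starting from `0`. -/
def P (w : Word d) : Set (Pt d) := {x | ∃ i ≤ w.length, x = D (w.take i)}

/-- Self-avoidance of a word. -/
def SA (w : Word d) : Prop :=
  ∀ i j, i ≤ w.length → j ≤ w.length → D (w.take i) = D (w.take j) → i = j

/-- The step upwards. -/
def upS : Stp d := (0, true)

/-- The mirror image of a word (reflection of the height). -/
def flw (w : Word d) : Word d := w.map fun s => if s.1 = 0 then (s.1, !s.2) else s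

/-- The word traversed backwards and reflected. -/
def tlw (w : Word d) : Word d := (w.map fun s => if s.1 = 0 then s else (s.1, !s.2)).reverse

/-- Left pieces: the last site has the greatest height. -/
def LP (w : Word d) : Prop := ∀ x ∈ P w, x 0 ≤ D w 0

/-- Right pieces: the first site has the least height. -/
def RP (w : Word d) : Prop := ∀ x ∈ P w, 0 ≤ x 0

/-- No cut bond inside. -/
def Irr (w : Word d) : Prop := ∀ A R : Word d, w = A ++ upS :: R → LP A → RP R → False

/-- Blocks. -/
structure Blk (w : Word d) : Prop where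
  sa : SA w
  lp : LP w
  rp : RP w
  irr : Irr w

/-- The blocks of the list, each preceded by an upward bond. -/
def jn : List (Word d) → Word d
  | [] => []
  | X :: Xs => upS :: X ++ jn Xs

/-- The word of a decomposition. -/
def wd (U₀ : Word d) (Xs : List (Word d)) (U₁ : Word d) : Word d := U₀ ++ jn Xs ++ upS :: U₁

/-- Decompositions of self-avoiding words of length `N` at all cut bonds whose height `h` satisfies
`|2 h - E| ≤ lam`, where `E` is the height of the last site. -/
structure Dec (N lam : ℕ) (U₀ : Word d) (Xs : List (Word d)) (U₁ : Word d) : Prop where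
  saL : SA U₀
  saR : SA U₁
  lp : LP U₀
  rp : RP U₁
  blk : ∀ X ∈ Xs, Blk X
  len : (wd U₀ Xs U₁).length = N
  lo : - (lam : ℤ) ≤ 2 * D U₀ 0 - D (wd U₀ Xs U₁) 0
  hi : 2 * D (U₀ ++ jn Xs) 0 - D (wd U₀ Xs U₁) 0 ≤ lam
  cutL : ∀ A R : Word d, U₀ = A ++ upS :: R → LP A → RP R →
    2 * D A 0 - D (wd U₀ Xs U₁) 0 < - (lam : ℤ)
  cutR : ∀ A R : Word d, U₁ = A ++ upS :: R → LP A → RP R →
    (lam : ℤ) < 2 * D (U₀ ++ jn Xs ++ upS :: A) 0 - D (wd U₀ Xs U₁) 0

/-- Decompositions with `K` blocks and height of the last site at least `E`. -/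
def decS (d : ℕ) [NeZero d] (N lam : ℕ) (E : ℤ) (K : ℕ) :
    Set (Word d × (Fin K → Word d) × Word d) :=
  {t | Dec N lam t.1 (List.ofFn t.2.1) t.2.2 ∧ E ≤ D (wd t.1 (List.ofFn t.2.1) t.2.2) 0}

open Classical in
/-- The finite set of the decompositions. -/
noncomputable def decF (d : ℕ) [NeZero d] (N lam : ℕ) (E : ℤ) (K : ℕ) :
    Finset (Word d × (Fin K → Word d) × Word d) :=
  if h : (decS d N lam E K).Finite then h.toFinset else ∅

/-- Words of length `N`. -/
noncomputable def wordsN (d N : ℕ) : Finset (Word d) := by
  classical exact (Finset.univ : Finset (Fin N → Stp d)).image List.ofFn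

/-- Self-avoiding words of length `N`. -/
noncomputable def saF (d : ℕ) [NeZero d] (N : ℕ) : Finset (Word d) := by
  classical exact (wordsN d N).filter SA

/-- Self-avoiding words of length `N` with last height at least `E`. -/
noncomputable def far (d : ℕ) [NeZero d] (N : ℕ) (E : ℤ) : Finset (Word d) := by
  classical exact (saF d N).filter fun w => E ≤ D w 0

/-- Self-avoiding words of length `N` with last height at most `lam` in absolute value, which reach
the height `D₀`. -/
noncomputable def near (d : ℕ) [NeZero d] (N lam D₀ : ℕ) : Finset (Word d) := by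
  classical exact (saF d N).filter fun w => |D w 0| ≤ lam ∧ ∃ x ∈ P w, (D₀ : ℤ) ≤ x 0

/-- The fold of a decomposition at the junction `q`. -/
def foldw (U₀ : Word d) (Xs : List (Word d)) (U₁ : Word d) (q : ℕ) : Word d :=
  U₀ ++ jn (Xs.take q) ++ flw (jn (Xs.drop q) ++ upS :: U₁)

/-- The zigzag of a decomposition at the junctions `i < j`. -/
def zigw (U₀ : Word d) (Xs : List (Word d)) (U₁ : Word d) (i j : ℕ) : Word d :=
  U₀ ++ jn (Xs.take i) ++ flw (jn ((Xs.drop i).take (j - i))) ++ jn (Xs.drop j) ++ upS :: U₁

/-- Number of foldable junctions. -/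
noncomputable def nF {K : ℕ} (t : Word d × (Fin K → Word d) × Word d) : ℝ :=
  ∑ q ∈ range (K + 1), ind (SA (foldw t.1 (List.ofFn t.2.1) t.2.2 q))

/-- Number of zigzags. -/
noncomputable def nZ {K : ℕ} (t : Word d × (Fin K → Word d) × Word d) : ℝ :=
  ∑ i ∈ range (K + 1), ∑ j ∈ Ico (i + 1) (K + 1),
    ind (SA (zigw t.1 (List.ofFn t.2.1) t.2.2 i j))

/-- Permutations and reversals of the blocks. -/
abbrev Gp (K : ℕ) : Type := Equiv.Perm (Fin K) × (Fin K → Bool)

/-- The block with orientation. -/
def orw (X : Word d) (s : Bool) : Word d := if s then tlw X else X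

/-- The action of permutations and reversals. -/
def act {K : ℕ} (g : Gp K) (t : Word d × (Fin K → Word d) × Word d) :
    Word d × (Fin K → Word d) × Word d :=
  (t.1, fun i => orw (t.2.1 (g.1 i)) (g.2 i), t.2.2)

/-- Mean over permutations and reversals. -/
noncomputable def avg {K : ℕ} (φ : Gp K → ℝ) : ℝ := (∑ g, φ g) / (Fintype.card (Gp K) : ℝ)

/-- The words of a list of oriented blocks. -/
def wl {K : ℕ} (X : Fin K → Word d) (l : List (Fin K × Bool)) : List (Word d) :=
  l.map fun b => orw (X b.1) b.2

/-- The list of oriented blocks of an element of the group. -/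
def seqB {K : ℕ} (g : Gp K) : List (Fin K × Bool) := List.ofFn fun i => (g.1 i, g.2 i)

open Classical in
/-- Number of blocks equal to `T`. -/
noncomputable def cnt {K : ℕ} (T : Word d) (X : Fin K → Word d) : ℕ :=
  (Finset.univ.filter fun i => X i = T).card

end Words

end Pool.Agent.SawFold
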