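import Pool.Agent.SawFold.Geo

/-!
Module ELb (expectation over lists of blocks) of the project Pool.Agent.SawFold.
-/

set_option autoImplicit false
set_option linter.unusedSectionVars false

namespace Pool.Agent.SawFold

open Finset
open scoped BigOperators

variable {d : ℕ} [NeZero d] (W : BlockSys d)

namespace ELbAux

theorem card_pos (k : ℕ) : (0 : ℝ) < (Fintype.card (Fin k → W.B) : ℝ) := by
  exact_mod_cast Fintype.card_pos

theorem cardB_pos : (0 : ℝ) < (Fintype.card W.B : ℝ) := by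
  exact_mod_cast Fintype.card_pos

/-- splitting off the first block -/
theorem EL_succ (k : ℕ) (φ : List W.B → ℝ) :
    EL W (k + 1) φ = (∑ b, EL W k (fun l => φ (b :: l))) / (Fintype.card W.B : ℝ) := by
  have h1 : ∑ x : Fin (k + 1) → W.B, φ (List.ofFn x)
      = ∑ b : W.B, ∑ y : Fin k → W.B, φ (b :: List.ofFn y) := by
    rw [← Fintype.sum_prod_type' (f := fun (b : W.B) (y : Fin k → W.B) => φ (b :: List.ofFn y))]
    symm
    refine Fintype.sum_equiv (Fin.consEquiv (fun _ : Fin (k + 1) => W.B)) _ _ ?_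
    rintro ⟨b, y⟩
    have h0 : List.ofFn (Fin.cons b y : Fin (k + 1) → W.B) = b :: List.ofFn y := by
      rw [List.ofFn_succ]
      rfl
    change φ (b :: List.ofFn y) = φ (List.ofFn (Fin.cons b y : Fin (k + 1) → W.B))
    rw [h0]
  have h2 : (Fintype.card (Fin (k + 1) → W.B) : ℝ)
      = (Fintype.card W.B : ℝ) * (Fintype.card (Fin k → W.B) : ℝ) := by
    rw [← Nat.cast_mul]
    congr 1
    simp only [Fintype.card_fun, Fintype.card_fin]
    ring
  unfold EL
  rw [h1, h2, ← Finset.sum_div, div_div, mul_comm (Fintype.card W.B : ℝ)]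

end ELbAux

open ELbAux

theorem EL_zero (φ : List W.B → ℝ) : EL W 0 φ = φ [] := by
  unfold EL
  rw [Fintype.sum_unique]
  simp

theorem EL_congr {k : ℕ} {φ ψ : List W.B → ℝ} (h : ∀ l, l.length = k → φ l = ψ l) :
    EL W k φ = EL W k ψ := by
  unfold EL
  congr 1
  exact Finset.sum_congr rfl fun x _ => h _ (List.length_ofFn)

theorem EL_mono {k : ℕ} {φ ψ : List W.B → ℝ} (h : ∀ l, l.length = k → φ l ≤ ψ l) :
    EL W k φ ≤ EL W k ψ := by
  unfold EL
  exact div_le_div_of_nonneg_right (Finset.sum_le_sum fun x _ => h _ (List.length_ofFn))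
    (card_pos W k).le

theorem EL_const (k : ℕ) (c : ℝ) : EL W k (fun _ => c) = c := by
  unfold EL
  rw [Finset.sum_const, Finset.card_univ, nsmul_eq_mul]
  exact mul_div_cancel_left₀ _ (card_pos W k).ne'

theorem EL_sum (k : ℕ) (φ ψ : List W.B → ℝ) :
    EL W k (fun l => φ l + ψ l) = EL W k φ + EL W k ψ := by
  unfold EL
  rw [Finset.sum_add_distrib, add_div]

theorem EL_sub (k : ℕ) (φ ψ : List W.B → ℝ) :
    EL W k (fun l => φ l - ψ l) = EL W k φ - EL W k ψ := by
  unfold EL
  rw [Finset.sum_sub_distrib, sub_div]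

theorem EL_mul_left (k : ℕ) (c : ℝ) (φ : List W.B → ℝ) :
    EL W k (fun l => c * φ l) = c * EL W k φ := by
  unfold EL
  rw [← Finset.mul_sum, mul_div_assoc]

theorem EL_mul_right (k : ℕ) (c : ℝ) (φ : List W.B → ℝ) :
    EL W k (fun l => φ l * c) = EL W k φ * c := by
  unfold EL
  rw [← Finset.sum_mul, mul_div_right_comm]

theorem EL_finsum {ι : Type} (s : Finset ι) (k : ℕ) (φ : ι → List W.B → ℝ) :
    EL W k (fun l => ∑ i ∈ s, φ i l) = ∑ i ∈ s, EL W k (φ i) := by
  unfold EL
  rw [Finset.sum_comm, Finset.sum_div]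

theorem EL_comm (a b : ℕ) (φ : List W.B → List W.B → ℝ) :
    EL W a (fun l => EL W b fun l' => φ l l') = EL W b fun l' => EL W a fun l => φ l l' := by
  unfold EL
  simp only [← Finset.sum_div]
  rw [Finset.sum_comm, div_div, div_div, mul_comm (Fintype.card (Fin b → W.B) : ℝ)]

theorem EL_add (a b : ℕ) (φ : List W.B → ℝ) :
    EL W (a + b) φ = EL W a fun l => EL W b fun l' => φ (l ++ l') := by
  induction a generalizing φ with
  | zero => rw [Nat.zero_add, EL_zero]; rfl
  | succ a ih =>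
    rw [show a + 1 + b = (a + b) + 1 by ring, EL_succ, EL_succ]
    congr 1
    refine Finset.sum_congr rfl fun x _ => ?_
    rw [ih]
    rfl

theorem EL_one (φ : List W.B → ℝ) :
    EL W 1 φ = (∑ b, φ [b]) / (Fintype.card W.B : ℝ) := by
  rw [show (1 : ℕ) = 0 + 1 by rfl, EL_succ]
  congr 1
  exact Finset.sum_congr rfl fun b _ => EL_zero W _

theorem EL_rv (k : ℕ) (φ : List W.B → ℝ) : EL W k (fun l => φ (rv W l)) = EL W k φ := by
  induction k generalizing φ with
  | zero => rw [EL_zero, EL_zero]; rfl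
  | succ k ih =>
    rw [EL_succ]
    have h1 : ∀ b : W.B, EL W k (fun l => φ (rv W (b :: l)))
        = EL W k (fun l => φ (l ++ [W.tl b])) := by
      intro b
      have h2 : ∀ l : List W.B, φ (rv W (b :: l)) = (fun l' => φ (l' ++ [W.tl b])) (rv W l) := by
        intro l
        simp only [GeoAux.rv_cons]
      simp_rw [h2]
      exact ih (fun l' => φ (l' ++ [W.tl b]))
    simp_rw [h1]
    have h3 : ∑ b : W.B, EL W k (fun l => φ (l ++ [W.tl b]))
        = ∑ b : W.B, EL W k (fun l => φ (l ++ [b])) :=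
      Fintype.sum_equiv (Function.Involutive.toPerm W.tl W.tl_tl) _ _ (fun b => rfl)
    rw [h3, ← EL_finsum, EL_add]
    rw [div_eq_mul_inv, ← EL_mul_right]
    refine EL_congr W fun l _ => ?_
    rw [EL_one, div_eq_mul_inv]

theorem EL_sq (k : ℕ) (φ : List W.B → ℝ) : (EL W k φ) ^ 2 ≤ EL W k fun l => (φ l) ^ 2 := by
  set c := EL W k φ with hc
  have h1 : 0 ≤ EL W k (fun l => (φ l - c) ^ 2) := by
    have := EL_mono W (k := k) (φ := fun _ => (0 : ℝ)) (ψ := fun l => (φ l - c) ^ 2)
      (fun l _ => sq_nonneg _)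
    rwa [EL_const] at this
  have h2 : EL W k (fun l => (φ l - c) ^ 2)
      = EL W k (fun l => (φ l) ^ 2) - 2 * c * EL W k φ + c ^ 2 := by
    rw [← EL_mul_left, ← EL_sub]
    conv_rhs => rw [← EL_const W k (c ^ 2)]
    rw [← EL_sum]
    refine EL_congr W fun l _ => ?_
    ring
  rw [h2, ← hc] at h1
  nlinarith

theorem EL_sub_list (L i k : ℕ) (h : i + k ≤ L) (φ : List W.B → ℝ) :
    EL W L (fun x => φ ((x.drop i).take k)) = EL W k φ := by
  obtain ⟨r, rfl⟩ := Nat.exists_eq_add_of_le h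
  rw [add_assoc, EL_add]
  have h1 : ∀ l : List W.B, l.length = i →
      EL W (k + r) (fun l' => φ (((l ++ l').drop i).take k)) = EL W k φ := by
    intro l hl
    have h2 : ∀ l' : List W.B, (l ++ l').drop i = l' := fun l' => by
      rw [← hl]; exact List.drop_left
    simp_rw [h2]
    rw [EL_add]
    refine EL_congr W fun u hu => ?_
    have h3 : ∀ l' : List W.B, (u ++ l').take k = u := fun l' => by
      rw [← hu]; exact List.take_left
    simp_rw [h3]
    rw [EL_const]
  rw [EL_congr W h1, EL_const]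

theorem EL_pos_of (k : ℕ) (φ : List W.B → ℝ) (h0 : ∀ l, 0 ≤ φ l) (l : List W.B)
    (hl : l.length = k) (hp : 0 < φ l) : 0 < EL W k φ := by
  subst hl
  unfold EL
  refine div_pos ?_ (card_pos W _)
  refine Finset.sum_pos' (fun x _ => h0 _) ⟨l.get, Finset.mem_univ _, ?_⟩
  rw [List.ofFn_get]
  exact hp

end Pool.Agent.SawFold
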