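import Pool.Agent.SawFold.Defs

/-!
Module Tool (finite uniform spaces: Kullback-Leibler) of the project Pool.Agent.SawFold.
-/

set_option autoImplicit false
set_option linter.unusedSectionVars false

namespace Pool.Agent.SawFold

open Finset
open scoped BigOperators

namespace ToolAux

section basic

variable {X : Type} [Fintype X]

theorem ind_t {P : Prop} (h : P) : ind P = 1 := by simp [ind, h]
theorem ind_f {P : Prop} (h : ¬ P) : ind P = 0 := by simp [ind, h]
theorem ind_nn (P : Prop) : 0 ≤ ind P := by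
  by_cases h : P
  · rw [ind_t h]; norm_num
  · rw [ind_f h]

theorem mu_add (F G : X → ℝ) : mu (fun x => F x + G x) = mu F + mu G := by
  unfold mu
  rw [Finset.sum_add_distrib, add_div]

theorem mu_sub (F G : X → ℝ) : mu (fun x => F x - G x) = mu F - mu G := by
  unfold mu
  rw [Finset.sum_sub_distrib, sub_div]

theorem mu_mul_left (c : ℝ) (F : X → ℝ) : mu (fun x => c * F x) = c * mu F := by
  unfold mu
  rw [← Finset.mul_sum, mul_div_assoc]

theorem mu_const [Nonempty X] (c : ℝ) : mu (fun _ : X => c) = c := by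
  unfold mu
  have h : (Fintype.card X : ℝ) ≠ 0 := by
    have := Fintype.card_pos (α := X)
    positivity
  rw [Finset.sum_const, nsmul_eq_mul, Finset.card_univ, mul_div_assoc, mul_comm,
    div_mul_cancel₀ _ h]

theorem mu_mono {F G : X → ℝ} (h : ∀ x, F x ≤ G x) : mu F ≤ mu G := by
  unfold mu
  apply div_le_div_of_nonneg_right _ (Nat.cast_nonneg _)
  exact Finset.sum_le_sum fun x _ => h x

theorem mu_nonneg {F : X → ℝ} (h : ∀ x, 0 ≤ F x) : 0 ≤ mu F := by
  unfold mu
  exact div_nonneg (Finset.sum_nonneg fun x _ => h x) (Nat.cast_nonneg _)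

variable {Z : Type}

theorem lawU_nonneg (f : X → Z) (z : Z) : 0 ≤ lawU f z := by
  unfold lawU
  exact div_nonneg (Finset.sum_nonneg fun x _ => ind_nn _) (Nat.cast_nonneg _)

theorem lawU_pos [Nonempty X] (f : X → Z) {z : Z} (h : ∃ x, f x = z) : 0 < lawU f z := by
  obtain ⟨x, hx⟩ := h
  unfold lawU
  have h0 : (0 : ℝ) < Fintype.card X := by
    have := Fintype.card_pos (α := X)
    positivity
  apply div_pos _ h0
  have h1 : ind (f x = z) ≤ ∑ x, ind (f x = z) :=
    Finset.single_le_sum (f := fun x => ind (f x = z)) (fun _ _ => ind_nn _) (Finset.mem_univ x)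
  rw [ind_t hx] at h1
  linarith

theorem lawU_zero (f : X → Z) {z : Z} (h : ∀ x, f x ≠ z) : lawU f z = 0 := by
  unfold lawU
  rw [Finset.sum_eq_zero fun x _ => ind_f (h x), zero_div]

theorem mu_eq_sum (f : X → Z) (S : Finset Z) (hS : ∀ x, f x ∈ S) (F : Z → ℝ) :
    mu (fun x => F (f x)) = ∑ z ∈ S, lawU f z * F z := by
  classical
  unfold mu lawU
  have h : ∀ x, F (f x) = ∑ z ∈ S, ind (f x = z) * F z := by
    intro x
    rw [Finset.sum_eq_single (f x)]
    · rw [ind_t rfl, one_mul]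
    · intro z _ hz
      rw [ind_f (fun h => hz h.symm), zero_mul]
    · intro h
      exact absurd (hS x) h
  simp_rw [h]
  rw [Finset.sum_comm, Finset.sum_div]
  apply Finset.sum_congr rfl
  intro z _
  rw [← Finset.sum_mul]
  ring

theorem sum_lawU [Nonempty X] (f : X → Z) (S : Finset Z) (hS : ∀ x, f x ∈ S) :
    ∑ z ∈ S, lawU f z = 1 := by
  have h := mu_eq_sum f S hS (fun _ => 1)
  rw [mu_const] at h
  simpa using h.symm

end basic

section two

variable {X Y Z : Type} [Fintype X] [Nonempty X] [Fintype Y] [Nonempty Y]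

/-- Change of variables. -/
theorem mu_ratio_le (f : X → Z) (g : Y → Z) (hac : ∀ x, ∃ y, g y = f x) (F : Z → ℝ)
    (hF : ∀ z, 0 ≤ F z) :
    mu (fun x => lawU g (f x) / lawU f (f x) * F (f x)) ≤ mu (fun y => F (g y)) := by
  classical
  set S : Finset Z := Finset.univ.image g with hS
  have hg : ∀ y, g y ∈ S := fun y => Finset.mem_image_of_mem g (Finset.mem_univ y)
  have hf : ∀ x, f x ∈ S := by
    intro x
    obtain ⟨y, hy⟩ := hac x
    rw [← hy]
    exact hg y
  rw [mu_eq_sum g S hg F, mu_eq_sum f S hf (fun z => lawU g z / lawU f z * F z)]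
  apply Finset.sum_le_sum
  intro z _
  by_cases hz : ∃ x, f x = z
  · have hp := lawU_pos f hz
    apply le_of_eq
    field_simp
  · push Not at hz
    rw [lawU_zero f hz, zero_mul]
    exact mul_nonneg (lawU_nonneg g z) (hF z)

theorem exp_conv (θ t : ℝ) (h0 : 0 ≤ t) (h1 : t ≤ 1) :
    Real.exp (θ * t) ≤ 1 + (Real.exp θ - 1) * t := by
  have h := convexOn_exp.2 (Set.mem_univ (0 : ℝ)) (Set.mem_univ θ) (by linarith : 0 ≤ 1 - t) h0
    (by ring)
  simp only [smul_eq_mul, mul_zero, zero_add, Real.exp_zero, mul_one] at h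
  rw [mul_comm θ t]
  linarith

end two

end ToolAux

open ToolAux

theorem dv {X Y Z : Type} [Fintype X] [Nonempty X] [Fintype Y] [Nonempty Y] (f : X → Z)
    (g : Y → Z) (hac : ∀ x, ∃ y, g y = f x) (φ : Z → ℝ) (h0 : ∀ z, 0 ≤ φ z) (h1 : ∀ z, φ z ≤ 1)
    (q : ℝ) (hq0 : 0 < q) (hq1 : q ≤ 1) (hq : mu (fun y => φ (g y)) ≤ q) :
    mu (fun x => φ (f x)) * Real.log (1 / q) ≤ KLU f g + Real.log 2 := by
  set θ := Real.log (1 / q) with hθ
  have hexp : Real.exp θ = 1 / q := Real.exp_log (by positivity)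
  have hpf : ∀ x, 0 < lawU f (f x) := fun x => lawU_pos f ⟨x, rfl⟩
  have hpg : ∀ x, 0 < lawU g (f x) := fun x => lawU_pos g (hac x)
  have key : ∀ x, θ * φ (f x) - (Real.log (lawU f (f x)) - Real.log (lawU g (f x))) ≤
      (1 / 2) * (lawU g (f x) / lawU f (f x) * Real.exp (θ * φ (f x))) + (Real.log 2 - 1) := by
    intro x
    have hr : 0 < lawU g (f x) / lawU f (f x) * Real.exp (θ * φ (f x)) :=
      mul_pos (div_pos (hpg x) (hpf x)) (Real.exp_pos _)
    have hlog : Real.log (lawU g (f x) / lawU f (f x) * Real.exp (θ * φ (f x))) =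
        Real.log (lawU g (f x)) - Real.log (lawU f (f x)) + θ * φ (f x) := by
      rw [Real.log_mul (div_pos (hpg x) (hpf x)).ne' (Real.exp_pos _).ne',
        Real.log_div (hpg x).ne' (hpf x).ne', Real.log_exp]
    have h2 := Real.log_le_sub_one_of_pos (half_pos hr)
    rw [Real.log_div hr.ne' (by norm_num), hlog] at h2
    linarith
  have h3 : mu (fun x => lawU g (f x) / lawU f (f x) * Real.exp (θ * φ (f x))) ≤ 2 := by
    refine (mu_ratio_le f g hac (fun z => Real.exp (θ * φ z)) fun z => (Real.exp_pos _).le).trans ?_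
    have h4 : mu (fun y => Real.exp (θ * φ (g y))) ≤
        mu (fun y => 1 + (Real.exp θ - 1) * φ (g y)) :=
      mu_mono fun y => exp_conv θ _ (h0 _) (h1 _)
    refine h4.trans ?_
    rw [mu_add, mu_const, mu_mul_left, hexp]
    have h5 : 0 ≤ 1 / q - 1 := by
      rw [sub_nonneg, le_div_iff₀ hq0]
      linarith
    have h6 : (1 / q - 1) * mu (fun y => φ (g y)) ≤ (1 / q - 1) * q :=
      mul_le_mul_of_nonneg_left hq h5
    have h7 : (1 / q - 1) * q = 1 - q := by
      field_simp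
    linarith
  have h8 := mu_mono key
  rw [mu_sub, mu_mul_left, mu_add, mu_mul_left, mu_const] at h8
  unfold KLU
  linarith [mul_comm θ (mu fun x => φ (f x))]

theorem KLU_nonneg {X Y Z : Type} [Fintype X] [Nonempty X] [Fintype Y] [Nonempty Y] (f : X → Z)
    (g : Y → Z) (hac : ∀ x, ∃ y, g y = f x) : 0 ≤ KLU f g := by
  have hpf : ∀ x, 0 < lawU f (f x) := fun x => lawU_pos f ⟨x, rfl⟩
  have hpg : ∀ x, 0 < lawU g (f x) := fun x => lawU_pos g (hac x)
  have h1 : mu (fun x => 1 - lawU g (f x) / lawU f (f x) * 1) ≤ KLU f g := by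
    unfold KLU
    apply mu_mono
    intro x
    have h2 := Real.log_le_sub_one_of_pos (div_pos (hpg x) (hpf x))
    rw [Real.log_div (hpg x).ne' (hpf x).ne'] at h2
    linarith
  have h3 := mu_ratio_le f g hac (fun _ => 1) (fun _ => by norm_num)
  rw [mu_const] at h3
  rw [mu_sub, mu_const] at h1
  linarith

/-- A Pinsker type inequality. -/
theorem pinsker {X Y Z : Type} [Fintype X] [Nonempty X] [Fintype Y] [Nonempty Y] (f : X → Z)
    (g : Y → Z) (hac : ∀ x, ∃ y, g y = f x) (φ : Z → ℝ) (h0 : ∀ z, 0 ≤ φ z) (h1 : ∀ z, φ z ≤ 1) :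
    |mu (fun x => φ (f x)) - mu (fun y => φ (g y))| ≤ Real.sqrt (KLU f g) := by
  classical
  have hpf : ∀ x, 0 < lawU f (f x) := fun x => lawU_pos f ⟨x, rfl⟩
  have hpg : ∀ x, 0 < lawU g (f x) := fun x => lawU_pos g (hac x)
  set S : Finset Z := Finset.univ.image g with hS
  have hg : ∀ y, g y ∈ S := fun y => Finset.mem_image_of_mem g (Finset.mem_univ y)
  have hf : ∀ x, f x ∈ S := by
    intro x
    obtain ⟨y, hy⟩ := hac x
    rw [← hy]
    exact hg y
  set p : Z → ℝ := lawU f with hp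
  set r : Z → ℝ := lawU g with hr
  have hp0 : ∀ z, 0 ≤ p z := lawU_nonneg f
  have hr0 : ∀ z, 0 ≤ r z := lawU_nonneg g
  have hp1 : ∑ z ∈ S, p z = 1 := sum_lawU f S hf
  have hr1 : ∑ z ∈ S, r z = 1 := sum_lawU g S hg
  set BC : ℝ := ∑ z ∈ S, Real.sqrt (p z) * Real.sqrt (r z) with hBC
  -- the relative entropy bounds the Hellinger distance
  have hKL : 2 * (1 - BC) ≤ KLU f g := by
    have h2 : mu (fun x => 2 - 2 * Real.sqrt (r (f x) / p (f x))) ≤ KLU f g := by
      unfold KLU
      apply mu_mono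
      intro x
      have h3 : 0 < r (f x) / p (f x) := div_pos (hpg x) (hpf x)
      have h4 := Real.log_le_sub_one_of_pos (Real.sqrt_pos.2 h3)
      rw [Real.log_sqrt h3.le, Real.log_div (hpg x).ne' (hpf x).ne'] at h4
      show 2 - 2 * Real.sqrt (r (f x) / p (f x)) ≤ Real.log (p (f x)) - Real.log (r (f x))
      linarith
    have h5 : mu (fun x => Real.sqrt (r (f x) / p (f x))) = BC := by
      rw [mu_eq_sum f S hf (fun z => Real.sqrt (r z / p z)), hBC]
      apply Finset.sum_congr rfl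
      intro z _
      show p z * Real.sqrt (r z / p z) = _
      rcases (hp0 z).eq_or_lt with h6 | h6
      · rw [← h6]; simp
      · have h7 : 0 < Real.sqrt (p z) := Real.sqrt_pos.2 h6
        rw [Real.sqrt_div' _ (hp0 z)]
        have h8 : p z = Real.sqrt (p z) * Real.sqrt (p z) := (Real.mul_self_sqrt (hp0 z)).symm
        conv_lhs => rw [h8]
        rw [Real.sqrt_mul_self h7.le]
        field_simp
    rw [mu_sub, mu_const, mu_mul_left, h5] at h2
    linarith
  have hsum1 : ∑ z ∈ S, (Real.sqrt (p z) - Real.sqrt (r z)) ^ 2 = 2 - 2 * BC := by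
    have : ∀ z ∈ S, (Real.sqrt (p z) - Real.sqrt (r z)) ^ 2 =
        p z + r z - 2 * (Real.sqrt (p z) * Real.sqrt (r z)) := by
      intro z _
      have h2 := Real.sq_sqrt (hp0 z)
      have h3 := Real.sq_sqrt (hr0 z)
      nlinarith
    rw [Finset.sum_congr rfl this, Finset.sum_sub_distrib, Finset.sum_add_distrib, hp1, hr1,
      ← Finset.mul_sum, ← hBC]
    ring
  have hsum2 : ∑ z ∈ S, (Real.sqrt (p z) + Real.sqrt (r z)) ^ 2 = 2 + 2 * BC := by
    have : ∀ z ∈ S, (Real.sqrt (p z) + Real.sqrt (r z)) ^ 2 =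
        p z + r z + 2 * (Real.sqrt (p z) * Real.sqrt (r z)) := by
      intro z _
      have h2 := Real.sq_sqrt (hp0 z)
      have h3 := Real.sq_sqrt (hr0 z)
      nlinarith
    rw [Finset.sum_congr rfl this, Finset.sum_add_distrib, Finset.sum_add_distrib, hp1, hr1,
      ← Finset.mul_sum, ← hBC]
    ring
  have hBC1 : BC ≤ 1 := by
    have : 0 ≤ ∑ z ∈ S, (Real.sqrt (p z) - Real.sqrt (r z)) ^ 2 :=
      Finset.sum_nonneg fun z _ => sq_nonneg _
    linarith
  have hCS : (∑ z ∈ S, |p z - r z|) ^ 2 ≤ (2 - 2 * BC) * (2 + 2 * BC) := by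
    have h2 := Finset.sum_mul_sq_le_sq_mul_sq S
      (fun z => |Real.sqrt (p z) - Real.sqrt (r z)|) (fun z => Real.sqrt (p z) + Real.sqrt (r z))
    simp only [sq_abs] at h2
    rw [hsum1, hsum2] at h2
    refine le_trans (le_of_eq ?_) h2
    congr 1
    apply Finset.sum_congr rfl
    intro z _
    have h3 : 0 ≤ Real.sqrt (p z) + Real.sqrt (r z) :=
      add_nonneg (Real.sqrt_nonneg _) (Real.sqrt_nonneg _)
    rw [← abs_of_nonneg h3, ← abs_mul]
    congr 1
    have h4 := Real.sq_sqrt (hp0 z)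
    have h5 := Real.sq_sqrt (hr0 z)
    nlinarith
  have hdiff : mu (fun x => φ (f x)) - mu (fun y => φ (g y)) =
      ∑ z ∈ S, (p z - r z) * (φ z - 1 / 2) := by
    rw [mu_eq_sum f S hf φ, mu_eq_sum g S hg φ]
    have : ∀ z ∈ S, (p z - r z) * (φ z - 1 / 2) =
        (p z * φ z - r z * φ z) - (1 / 2) * (p z - r z) := by
      intro z _; ring
    rw [Finset.sum_congr rfl this, Finset.sum_sub_distrib, Finset.sum_sub_distrib,
      ← Finset.mul_sum, Finset.sum_sub_distrib, hp1, hr1]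
    ring
  have habs : |mu (fun x => φ (f x)) - mu (fun y => φ (g y))| ≤
      (1 / 2) * ∑ z ∈ S, |p z - r z| := by
    rw [hdiff, Finset.mul_sum]
    refine (Finset.abs_sum_le_sum_abs _ _).trans (Finset.sum_le_sum fun z _ => ?_)
    rw [abs_mul, mul_comm]
    apply mul_le_mul_of_nonneg_right _ (abs_nonneg _)
    rw [abs_le]
    constructor <;> linarith [h0 z, h1 z]
  apply Real.le_sqrt_of_sq_le
  have h9 : |mu (fun x => φ (f x)) - mu (fun y => φ (g y))| ^ 2 ≤
      ((1 / 2) * ∑ z ∈ S, |p z - r z|) ^ 2 := by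
    gcongr
  have h10 : (2 - 2 * BC) * (2 + 2 * BC) ≤ (2 - 2 * BC) * 4 := by
    apply mul_le_mul_of_nonneg_left <;> linarith
  nlinarith

end Pool.Agent.SawFold
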