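import Pool.Agent.SawFold.ELb
import Pool.Agent.SawFold.Tool

/-!
Module Ent (entropy of the displacement) of the project Pool.Agent.SawFold.
-/

set_option autoImplicit false
set_option linter.unusedSectionVars false

namespace Pool.Agent.SawFold

open Finset
open scoped BigOperators

namespace EntAux

open ToolAux

/-- Shannon entropy of a function on a finite uniform space. -/
noncomputable def Hf {X Z : Type} [Fintype X] (f : X → Z) : ℝ :=
  - mu fun x => Real.log (lawU f (f x))

section one

variable {X : Type} [Fintype X] {Z Z' : Type}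

theorem lawU_eq_mu (f : X → Z) (z : Z) : lawU f z = mu fun x => ind (f x = z) := rfl

theorem mu_congr {F G : X → ℝ} (h : ∀ x, F x = G x) : mu F = mu G := by
  rw [show F = G from funext h]

theorem lawU_le_one [Nonempty X] (f : X → Z) (z : Z) : lawU f z ≤ 1 := by
  rw [lawU_eq_mu]
  calc mu (fun x => ind (f x = z)) ≤ mu (fun _ : X => 1) := mu_mono fun x => by
        by_cases h : f x = z
        · rw [ind_t h]
        · rw [ind_f h]; norm_num
    _ = 1 := mu_const 1

theorem Hf_nonneg [Nonempty X] (f : X → Z) : 0 ≤ Hf f := by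
  unfold Hf
  rw [neg_nonneg]
  have h : mu (fun x => Real.log (lawU f (f x))) ≤ mu (fun _ : X => 0) := mu_mono fun x =>
    Real.log_nonpos (lawU_nonneg f _) (lawU_le_one f _)
  rwa [mu_const] at h

theorem Hf_law {Y : Type} [Fintype Y] (f : X → Z) (g : Y → Z)
    (h : ∀ z, lawU f z = lawU g z) : Hf f = Hf g := by
  classical
  unfold Hf
  have h1 := mu_eq_sum f (Finset.univ.image f ∪ Finset.univ.image g)
    (fun x => Finset.mem_union_left _ (Finset.mem_image_of_mem f (Finset.mem_univ x)))
    (fun z => Real.log (lawU f z))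
  have h2 := mu_eq_sum g (Finset.univ.image f ∪ Finset.univ.image g)
    (fun x => Finset.mem_union_right _ (Finset.mem_image_of_mem g (Finset.mem_univ x)))
    (fun z => Real.log (lawU g z))
  rw [h1, h2]
  congr 1
  exact Finset.sum_congr rfl fun z _ => by rw [h z]

theorem Hf_rel (f : X → Z) (g : X → Z') (h : ∀ x x', f x = f x' ↔ g x = g x') :
    Hf f = Hf g := by
  unfold Hf
  congr 1
  apply mu_congr
  intro x
  congr 1
  rw [lawU_eq_mu, lawU_eq_mu]
  apply mu_congr
  intro x'
  rw [show (f x' = f x) = (g x' = g x) from propext (h x' x)]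

theorem Hf_le_rel [Nonempty X] (f : X → Z) (g : X → Z')
    (h : ∀ x x', f x = f x' → g x = g x') : Hf g ≤ Hf f := by
  unfold Hf
  rw [neg_le_neg_iff]
  apply mu_mono
  intro x
  apply Real.log_le_log (lawU_pos f ⟨x, rfl⟩)
  rw [lawU_eq_mu, lawU_eq_mu]
  apply mu_mono
  intro x'
  by_cases h1 : f x' = f x
  · rw [ind_t h1, ind_t (h x' x h1)]
  · rw [ind_f h1]
    exact ind_nn _

theorem Hf_equiv {A B : Type} [Fintype A] [Fintype B] (e : A ≃ B) (f : B → Z) :
    Hf (fun a => f (e a)) = Hf f := by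
  apply Hf_law
  intro z
  unfold lawU
  rw [Fintype.card_congr e]
  congr 1
  exact Equiv.sum_comp e fun b => ind (f b = z)

theorem Hf_le_log [Nonempty X] (f : X → Z) (S : Finset Z) (hS : ∀ x, f x ∈ S) :
    Hf f ≤ Real.log S.card := by
  classical
  have x0 : X := Classical.arbitrary X
  have hc : (0 : ℝ) < S.card := by
    have : 0 < S.card := Finset.card_pos.2 ⟨f x0, hS x0⟩
    positivity
  have hp : ∀ x, 0 < lawU f (f x) := fun x => lawU_pos f ⟨x, rfl⟩
  have key : ∀ x, - Real.log (lawU f (f x)) - Real.log S.card ≤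
      1 / (lawU f (f x) * S.card) - 1 := by
    intro x
    have h1 : 0 < 1 / (lawU f (f x) * S.card) := by
      have := hp x
      positivity
    have h2 := Real.log_le_sub_one_of_pos h1
    rw [one_div, Real.log_inv, Real.log_mul (hp x).ne' hc.ne'] at h2
    rw [one_div]
    linarith
  have h3 : mu (fun x => 1 / (lawU f (f x) * S.card)) ≤ 1 := by
    rw [mu_eq_sum f S hS (fun z => 1 / (lawU f z * S.card))]
    calc ∑ z ∈ S, lawU f z * (1 / (lawU f z * S.card)) ≤ ∑ z ∈ S, (1 / (S.card : ℝ)) := by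
          apply Finset.sum_le_sum
          intro z _
          rcases (lawU_nonneg f z).eq_or_lt with h | h
          · rw [← h, zero_mul]; positivity
          · apply le_of_eq
            field_simp
      _ = 1 := by
          rw [Finset.sum_const, nsmul_eq_mul]
          field_simp
  have h4 := mu_mono key
  rw [mu_sub, mu_const, mu_sub, mu_const] at h4
  have h5 : mu (fun x => - Real.log (lawU f (f x))) = Hf f := by
    unfold Hf
    have := mu_mul_left (X := X) (-1) (fun x => Real.log (lawU f (f x)))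
    simp only [neg_mul, one_mul] at this
    exact this
  rw [h5] at h4
  linarith

end one

section prod

variable {A B C : Type} [Fintype A] [Fintype B] [Fintype C]

theorem mu_prod (F : A × B → ℝ) : mu F = mu fun a => mu fun b => F (a, b) := by
  unfold mu
  rw [Fintype.sum_prod_type, Fintype.card_prod, Nat.cast_mul]
  rw [← Finset.sum_div, div_div, mul_comm]

theorem lawU_prod {Z Z' : Type} (f : A → Z) (g : B → Z') (z : Z) (w : Z') :
    lawU (fun p : A × B => (f p.1, g p.2)) (z, w) = lawU f z * lawU g w := by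
  rw [lawU_eq_mu, mu_prod, lawU_eq_mu, lawU_eq_mu]
  have h : ∀ a, (mu fun b => ind ((f (a, b).1, g (a, b).2) = (z, w))) =
      (mu fun b => ind (g b = w)) * ind (f a = z) := by
    intro a
    rw [mul_comm, ← mu_mul_left]
    apply mu_congr
    intro b
    by_cases h1 : f a = z <;> by_cases h2 : g b = w
    · rw [ind_t (by rw [← h1, ← h2]), ind_t h1, ind_t h2, one_mul]
    · rw [ind_f (P := (f (a, b).1, g (a, b).2) = (z, w)) (fun h => h2 (Prod.mk.inj h).2),
        ind_f h2, mul_zero]
    · rw [ind_f (P := (f (a, b).1, g (a, b).2) = (z, w)) (fun h => h1 (Prod.mk.inj h).1),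
        ind_f h1, zero_mul]
    · rw [ind_f (P := (f (a, b).1, g (a, b).2) = (z, w)) (fun h => h1 (Prod.mk.inj h).1),
        ind_f h1, zero_mul]
  rw [mu_congr h, mu_mul_left, mul_comm]

variable [Nonempty A] [Nonempty B] [Nonempty C]

theorem Hf_prod {Z Z' : Type} (f : A → Z) (g : B → Z') :
    Hf (fun p : A × B => (f p.1, g p.2)) = Hf f + Hf g := by
  unfold Hf
  rw [mu_prod]
  have h : ∀ a, (mu fun b => Real.log
      (lawU (fun p : A × B => (f p.1, g p.2)) (f (a, b).1, g (a, b).2))) =
      Real.log (lawU f (f a)) + mu fun b => Real.log (lawU g (g b)) := by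
    intro a
    have h1 : ∀ b, Real.log
      (lawU (fun p : A × B => (f p.1, g p.2)) (f (a, b).1, g (a, b).2)) =
      Real.log (lawU f (f a)) + Real.log (lawU g (g b)) := by
      intro b
      rw [lawU_prod, Real.log_mul (lawU_pos f ⟨a, rfl⟩).ne' (lawU_pos g ⟨b, rfl⟩).ne']
    rw [mu_congr h1, mu_add, mu_const]
  rw [mu_congr h, mu_add, mu_const]
  ring

theorem Hf_fst {Z : Type} (f : A → Z) : Hf (fun p : A × B => f p.1) = Hf f := by
  have h := Hf_prod (A := A) (B := B) f (fun _ => ())
  have h2 : Hf (fun _ : B => ()) = 0 := by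
    unfold Hf
    have : ∀ b : B, Real.log (lawU (fun _ : B => ()) ((fun _ : B => ()) b)) = 0 := by
      intro b
      have h3 : lawU (fun _ : B => ()) () = 1 := by
        rw [lawU_eq_mu]
        rw [mu_congr (G := fun _ => 1) fun x => ind_t rfl, mu_const]
      rw [show (fun _ : B => ()) b = () from rfl, h3, Real.log_one]
    rw [mu_congr this, mu_const, neg_zero]
  rw [h2, add_zero] at h
  rw [← h]
  apply Hf_rel
  intro x x'
  simp

end prod

section sub

variable {X U V T : Type} [Fintype X] [Nonempty X]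

/-- Submodularity of entropy. -/
theorem submod (u : X → U) (v : X → V) (w : X → T) :
    Hf (fun x => (u x, v x, w x)) + Hf w ≤ Hf (fun x => (u x, w x)) + Hf (fun x => (v x, w x)) := by
  classical
  set f : X → U × V × T := fun x => (u x, v x, w x) with hf
  set uw : X → U × T := fun x => (u x, w x) with huw
  set vw : X → V × T := fun x => (v x, w x) with hvw
  have pf' : ∀ x, 0 < lawU f (f x) := fun x => lawU_pos f ⟨x, rfl⟩
  have puw : ∀ x, 0 < lawU uw (uw x) := fun x => lawU_pos uw ⟨x, rfl⟩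
  have pvw : ∀ x, 0 < lawU vw (vw x) := fun x => lawU_pos vw ⟨x, rfl⟩
  have pw : ∀ x, 0 < lawU w (w x) := fun x => lawU_pos w ⟨x, rfl⟩
  have key : ∀ x, (Real.log (lawU uw (uw x)) + Real.log (lawU vw (vw x))) -
      (Real.log (lawU f (f x)) + Real.log (lawU w (w x))) ≤
      lawU uw (uw x) * lawU vw (vw x) / (lawU f (f x) * lawU w (w x)) - 1 := by
    intro x
    have h1 : 0 < lawU uw (uw x) * lawU vw (vw x) / (lawU f (f x) * lawU w (w x)) :=
      div_pos (mul_pos (puw x) (pvw x)) (mul_pos (pf' x) (pw x))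
    have h2 := Real.log_le_sub_one_of_pos h1
    rw [Real.log_div (mul_pos (puw x) (pvw x)).ne' (mul_pos (pf' x) (pw x)).ne',
      Real.log_mul (puw x).ne' (pvw x).ne', Real.log_mul (pf' x).ne' (pw x).ne'] at h2
    exact h2
  set SU : Finset U := Finset.univ.image u with hSU
  set SV : Finset V := Finset.univ.image v with hSV
  set ST : Finset T := Finset.univ.image w with hST
  have hS : ∀ x, f x ∈ SU ×ˢ (SV ×ˢ ST) := by
    intro x
    rw [Finset.mem_product, Finset.mem_product]
    exact ⟨Finset.mem_image_of_mem u (Finset.mem_univ x),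
      Finset.mem_image_of_mem v (Finset.mem_univ x), Finset.mem_image_of_mem w (Finset.mem_univ x)⟩
  have marg1 : ∀ c, ∑ a ∈ SU, lawU uw (a, c) = lawU w c := by
    intro c
    unfold lawU
    rw [← Finset.sum_div, Finset.sum_comm]
    congr 1
    apply Finset.sum_congr rfl
    intro x _
    rw [Finset.sum_eq_single (u x)]
    · by_cases h : w x = c
      · rw [ind_t h, ind_t (by rw [huw, ← h])]
      · rw [ind_f h, ind_f fun h2 => h (Prod.mk.inj h2).2]
    · intro a _ ha
      exact ind_f fun h2 => ha (Prod.mk.inj h2).1.symm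
    · intro h
      exact absurd (Finset.mem_image_of_mem u (Finset.mem_univ x)) h
  have marg2 : ∀ c, ∑ b ∈ SV, lawU vw (b, c) = lawU w c := by
    intro c
    unfold lawU
    rw [← Finset.sum_div, Finset.sum_comm]
    congr 1
    apply Finset.sum_congr rfl
    intro x _
    rw [Finset.sum_eq_single (v x)]
    · by_cases h : w x = c
      · rw [ind_t h, ind_t (by rw [hvw, ← h])]
      · rw [ind_f h, ind_f fun h2 => h (Prod.mk.inj h2).2]
    · intro a _ ha
      exact ind_f fun h2 => ha (Prod.mk.inj h2).1.symm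
    · intro h
      exact absurd (Finset.mem_image_of_mem v (Finset.mem_univ x)) h
  have h3 : mu (fun x => lawU uw (uw x) * lawU vw (vw x) / (lawU f (f x) * lawU w (w x))) ≤ 1 := by
    have h4 := mu_eq_sum f (SU ×ˢ (SV ×ˢ ST)) hS
      (fun z => lawU uw (z.1, z.2.2) * lawU vw (z.2.1, z.2.2) / (lawU f z * lawU w z.2.2))
    have h5 : mu (fun x => lawU uw (uw x) * lawU vw (vw x) / (lawU f (f x) * lawU w (w x))) =
      ∑ z ∈ SU ×ˢ (SV ×ˢ ST), lawU f z *
        (lawU uw (z.1, z.2.2) * lawU vw (z.2.1, z.2.2) / (lawU f z * lawU w z.2.2)) := h4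
    rw [h5]
    calc ∑ z ∈ SU ×ˢ (SV ×ˢ ST), lawU f z *
        (lawU uw (z.1, z.2.2) * lawU vw (z.2.1, z.2.2) / (lawU f z * lawU w z.2.2))
        ≤ ∑ z ∈ SU ×ˢ (SV ×ˢ ST),
          lawU uw (z.1, z.2.2) * lawU vw (z.2.1, z.2.2) / lawU w z.2.2 := by
          apply Finset.sum_le_sum
          intro z _
          have n1 := lawU_nonneg uw (z.1, z.2.2)
          have n2 := lawU_nonneg vw (z.2.1, z.2.2)
          have n3 := lawU_nonneg w z.2.2
          rcases (lawU_nonneg f z).eq_or_lt with h | h
          · rw [← h, zero_mul]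
            exact div_nonneg (mul_nonneg n1 n2) n3
          · rw [← div_div]
            apply le_of_eq
            rw [← mul_div_assoc, mul_div_cancel₀ _ h.ne']
      _ = ∑ c ∈ ST, lawU w c := by
          rw [Finset.sum_product]
          simp_rw [Finset.sum_product]
          have : ∀ a ∈ SU, ∑ b ∈ SV, ∑ c ∈ ST, lawU uw (a, c) * lawU vw (b, c) / lawU w c =
              ∑ c ∈ ST, ∑ b ∈ SV, lawU uw (a, c) * lawU vw (b, c) / lawU w c := by
            intro a _
            exact Finset.sum_comm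
          rw [Finset.sum_congr rfl this, Finset.sum_comm]
          apply Finset.sum_congr rfl
          intro c _
          have h6 : ∀ a ∈ SU, ∑ b ∈ SV, lawU uw (a, c) * lawU vw (b, c) / lawU w c =
              lawU uw (a, c) * (lawU w c / lawU w c) := by
            intro a _
            rw [← Finset.sum_div, ← Finset.mul_sum, marg2, mul_div_assoc]
          rw [Finset.sum_congr rfl h6, ← Finset.sum_mul, marg1]
          rcases (lawU_nonneg w c).eq_or_lt with h | h
          · rw [← h]; simp
          · rw [div_self h.ne', mul_one]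
      _ = 1 := sum_lawU w ST fun x => Finset.mem_image_of_mem w (Finset.mem_univ x)
  have h7 := mu_mono key
  rw [mu_sub, mu_add, mu_add, mu_sub, mu_const] at h7
  unfold Hf
  linarith

theorem subadd (u : X → U) (v : X → V) : Hf (fun x => (u x, v x)) ≤ Hf u + Hf v := by
  have h := submod u v (fun _ => ())
  have h1 : Hf (fun x => (u x, v x, ())) = Hf (fun x => (u x, v x)) :=
    Hf_rel _ _ fun x x' => by simp
  have h2 : Hf (fun x => (u x, ())) = Hf u := Hf_rel _ _ fun x x' => by simp
  have h3 : Hf (fun x => (v x, ())) = Hf v := Hf_rel _ _ fun x x' => by simp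
  have h4 := Hf_nonneg (fun _ : X => ())
  rw [h1, h2, h3] at h
  linarith

end sub

section grp

variable {A B C G : Type} [Fintype A] [Fintype B] [Fintype C] [Nonempty A] [Nonempty B]
  [Nonempty C] [AddCommGroup G]

theorem H_sum_ge (f : A → G) (g : B → G) :
    Hf f ≤ Hf (fun p : A × B => f p.1 + g p.2) := by
  have h1 := subadd (fun p : A × B => f p.1 + g p.2) (fun p : A × B => g p.2)
  have h2 : Hf (fun p : A × B => (f p.1 + g p.2, g p.2)) = Hf f + Hf g := by
    rw [← Hf_prod]
    apply Hf_rel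
    intro x x'
    constructor
    · intro h
      obtain ⟨h3, h4⟩ := Prod.mk.inj h
      rw [h4] at h3
      rw [add_right_cancel h3, h4]
    · intro h
      obtain ⟨h3, h4⟩ := Prod.mk.inj h
      rw [h3, h4]
  have h3 : Hf (fun p : A × B => g p.2) = Hf g := by
    rw [← Hf_fst (A := B) (B := A) g, ← Hf_equiv (Equiv.prodComm A B) (fun p : B × A => g p.1)]
    rfl
  rw [h2, h3] at h1
  linarith

theorem H_conc (f : A → G) (g : B → G) (h : C → G) :
    Hf (fun p : A × B × C => f p.1 + g p.2.1 + h p.2.2) + Hf f ≤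
      Hf (fun p : A × B => f p.1 + g p.2) + Hf (fun p : A × C => f p.1 + h p.2) := by
  have h1 := submod (fun p : A × B × C => g p.2.1) (fun p : A × B × C => h p.2.2)
    (fun p : A × B × C => f p.1 + g p.2.1 + h p.2.2)
  have h2 : Hf (fun p : A × B × C => (g p.2.1, h p.2.2, f p.1 + g p.2.1 + h p.2.2)) =
      Hf f + (Hf g + Hf h) := by
    rw [← Hf_prod (A := B) (B := C) g h, ← Hf_prod]
    apply Hf_rel
    intro x x'
    constructor
    · intro hh
      simp only [Prod.mk.injEq] at hh ⊢
      obtain ⟨e1, e2, e3⟩ := hh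
      rw [e1, e2] at e3
      exact ⟨add_right_cancel (add_right_cancel e3), e1, e2⟩
    · intro hh
      simp only [Prod.mk.injEq] at hh ⊢
      obtain ⟨e1, e2, e3⟩ := hh
      exact ⟨e2, e3, by rw [e1, e2, e3]⟩
  have h3 : Hf (fun p : A × B × C => (g p.2.1, f p.1 + g p.2.1 + h p.2.2)) =
      Hf g + Hf (fun p : A × C => f p.1 + h p.2) := by
    rw [← Hf_prod]
    let e : A × B × C ≃ B × A × C :=
      { toFun := fun p => (p.2.1, p.1, p.2.2)
        invFun := fun p => (p.2.1, p.1, p.2.2)
        left_inv := fun p => rfl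
        right_inv := fun p => rfl }
    rw [← Hf_equiv e]
    apply Hf_rel
    intro x x'
    show (g x.2.1, f x.1 + g x.2.1 + h x.2.2) = (g x'.2.1, f x'.1 + g x'.2.1 + h x'.2.2) ↔
      (g x.2.1, f x.1 + h x.2.2) = (g x'.2.1, f x'.1 + h x'.2.2)
    simp only [Prod.mk.injEq]
    constructor
    · rintro ⟨e1, e2⟩
      rw [e1] at e2
      refine ⟨e1, ?_⟩
      rw [add_right_comm, add_right_comm (f x'.1)] at e2
      exact add_right_cancel e2
    · rintro ⟨e1, e2⟩
      refine ⟨e1, ?_⟩
      rw [add_right_comm, e2, e1, add_right_comm]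
  have h4 : Hf (fun p : A × B × C => (h p.2.2, f p.1 + g p.2.1 + h p.2.2)) =
      Hf h + Hf (fun p : A × B => f p.1 + g p.2) := by
    rw [← Hf_prod]
    let e : A × B × C ≃ C × A × B :=
      { toFun := fun p => (p.2.2, p.1, p.2.1)
        invFun := fun p => (p.2.1, p.2.2, p.1)
        left_inv := fun p => rfl
        right_inv := fun p => rfl }
    rw [← Hf_equiv e]
    apply Hf_rel
    intro x x'
    show (h x.2.2, f x.1 + g x.2.1 + h x.2.2) = (h x'.2.2, f x'.1 + g x'.2.1 + h x'.2.2) ↔
      (h x.2.2, f x.1 + g x.2.1) = (h x'.2.2, f x'.1 + g x'.2.1)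
    simp only [Prod.mk.injEq]
    constructor
    · rintro ⟨e1, e2⟩
      rw [e1] at e2
      exact ⟨e1, add_right_cancel e2⟩
    · rintro ⟨e1, e2⟩
      exact ⟨e1, by rw [e1, e2]⟩
  rw [h2, h3, h4] at h1
  linarith

theorem H_tri (f : A → G) (g : B → G) (h : C → G) :
    Hf (fun p : A × C => f p.1 - h p.2) + Hf g ≤
      Hf (fun p : A × B => f p.1 - g p.2) + Hf (fun p : B × C => g p.1 - h p.2) := by
  have h1 := submod (fun p : A × B × C => (f p.1, h p.2.2))
    (fun p : A × B × C => (f p.1 - g p.2.1, g p.2.1 - h p.2.2))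
    (fun p : A × B × C => f p.1 - h p.2.2)
  have h2 : Hf (fun p : A × B × C => ((f p.1, h p.2.2), (f p.1 - g p.2.1, g p.2.1 - h p.2.2),
      f p.1 - h p.2.2)) = Hf f + (Hf g + Hf h) := by
    rw [← Hf_prod (A := B) (B := C) g h, ← Hf_prod]
    apply Hf_rel
    intro x x'
    simp only [Prod.mk.injEq]
    constructor
    · rintro ⟨⟨e1, e2⟩, ⟨e3, e4⟩, e5⟩
      rw [e1] at e3
      exact ⟨e1, sub_right_injective e3, e2⟩
    · rintro ⟨e1, e2, e3⟩
      rw [e1, e2, e3]
      exact ⟨⟨rfl, rfl⟩, ⟨rfl, rfl⟩, rfl⟩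
  have h3 : Hf (fun p : A × B × C => ((f p.1, h p.2.2), f p.1 - h p.2.2)) = Hf f + Hf h := by
    have e1 : Hf (fun p : A × B × C => ((f p.1, h p.2.2), f p.1 - h p.2.2)) =
        Hf (fun p : A × B × C => (f p.1, h p.2.2)) := by
      apply Hf_rel
      intro x x'
      simp only [Prod.mk.injEq]
      constructor
      · rintro ⟨e1, _⟩
        exact e1
      · rintro ⟨e1, e2⟩
        rw [e1, e2]
        exact ⟨⟨rfl, rfl⟩, rfl⟩
    rw [e1, ← Hf_prod (A := A) (B := C) f h]
    let e : A × B × C ≃ (A × C) × B :=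
      { toFun := fun p => ((p.1, p.2.2), p.2.1)
        invFun := fun p => (p.1.1, p.2, p.1.2)
        left_inv := fun p => rfl
        right_inv := fun p => rfl }
    rw [← Hf_fst (A := A × C) (B := B) (fun p : A × C => (f p.1, h p.2)), ← Hf_equiv e]
    rfl
  have h4 : Hf (fun p : A × B × C => ((f p.1 - g p.2.1, g p.2.1 - h p.2.2), f p.1 - h p.2.2)) ≤
      Hf (fun p : A × B => f p.1 - g p.2) + Hf (fun p : B × C => g p.1 - h p.2) := by
    have e1 : Hf (fun p : A × B × C =>
        ((f p.1 - g p.2.1, g p.2.1 - h p.2.2), f p.1 - h p.2.2)) =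
        Hf (fun p : A × B × C => (f p.1 - g p.2.1, g p.2.1 - h p.2.2)) := by
      apply Hf_rel
      intro x x'
      simp only [Prod.mk.injEq]
      constructor
      · rintro ⟨e1, _⟩
        exact e1
      · rintro ⟨e1, e2⟩
        refine ⟨⟨e1, e2⟩, ?_⟩
        rw [← sub_add_sub_cancel (f x.1) (g x.2.1), e1, e2, sub_add_sub_cancel]
    rw [e1]
    refine (subadd _ _).trans ?_
    have e2 : Hf (fun p : A × B × C => f p.1 - g p.2.1) = Hf (fun p : A × B => f p.1 - g p.2) := by
      let e : A × B × C ≃ (A × B) × C :=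
        { toFun := fun p => ((p.1, p.2.1), p.2.2)
          invFun := fun p => (p.1.1, p.1.2, p.2)
          left_inv := fun p => rfl
          right_inv := fun p => rfl }
      rw [← Hf_fst (A := A × B) (B := C) (fun p : A × B => f p.1 - g p.2), ← Hf_equiv e]
      rfl
    have e3 : Hf (fun p : A × B × C => g p.2.1 - h p.2.2) =
        Hf (fun p : B × C => g p.1 - h p.2) := by
      let e : A × B × C ≃ (B × C) × A :=
        { toFun := fun p => (p.2, p.1)
          invFun := fun p => (p.2, p.1)
          left_inv := fun p => rfl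
          right_inv := fun p => rfl }
      rw [← Hf_fst (A := B × C) (B := A) (fun p : B × C => g p.1 - h p.2), ← Hf_equiv e]
      rfl
    rw [e2, e3]
  have h5 : Hf (fun p : A × B × C => f p.1 - h p.2.2) =
      Hf (fun p : A × C => f p.1 - h p.2) := by
    let e : A × B × C ≃ (A × C) × B :=
      { toFun := fun p => ((p.1, p.2.2), p.2.1)
        invFun := fun p => (p.1.1, p.2, p.1.2)
        left_inv := fun p => rfl
        right_inv := fun p => rfl }
    rw [← Hf_fst (A := A × C) (B := B) (fun p : A × C => f p.1 - h p.2), ← Hf_equiv e]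
    rfl
  rw [h2, h3, h5] at h1
  linarith

end grp

end EntAux

open EntAux ToolAux

variable {d : ℕ} [NeZero d] (W : BlockSys d)

/-- Displacement of a sequence of blocks. -/
private noncomputable def fV (n : ℕ) (x : Fin n → W.B) : Pt d := Vl W (List.ofFn x)

private theorem EL_mu (n : ℕ) (φ : List W.B → ℝ) :
    EL W n φ = mu fun x : Fin n → W.B => φ (List.ofFn x) := rfl

private theorem lawV_eq (n : ℕ) (z : Pt d) : lawV W n z = lawU (fV W n) z := rfl

private theorem Hv_eq (n : ℕ) : Hv W n = Hf (fV W n) := rfl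

private theorem law_add (a b : ℕ) (z : Pt d) :
    lawU (fV W (a + b)) z =
      lawU (fun p : (Fin a → W.B) × (Fin b → W.B) => fV W a p.1 + fV W b p.2) z := by
  rw [← lawV_eq]
  unfold lawV
  rw [EL_add, lawU_eq_mu, mu_prod]
  show EL W a (fun l => EL W b fun l' => ind (Vl W (l ++ l') = z)) =
    EL W a (fun l => EL W b fun l' => ind (Vl W l + Vl W l' = z))
  simp_rw [Vl_append]

private theorem law_add3 (a b c : ℕ) (z : Pt d) :
    lawU (fV W (a + b + c)) z =
      lawU (fun p : (Fin a → W.B) × (Fin b → W.B) × (Fin c → W.B) =>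
        fV W a p.1 + fV W b p.2.1 + fV W c p.2.2) z := by
  rw [← lawV_eq]
  unfold lawV
  rw [EL_add, EL_add, lawU_eq_mu, mu_prod]
  have h : ∀ x : Fin a → W.B, (mu fun q : (Fin b → W.B) × (Fin c → W.B) =>
      ind (fV W a (x, q).1 + fV W b (x, q).2.1 + fV W c (x, q).2.2 = z)) =
      EL W b fun l' => EL W c fun l'' => ind (Vl W (List.ofFn x) + Vl W l' + Vl W l'' = z) := by
    intro x
    rw [mu_prod]
    rfl
  rw [mu_congr h]
  show _ = EL W a (fun l => EL W b fun l' => EL W c fun l'' =>
    ind (Vl W l + Vl W l' + Vl W l'' = z))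
  simp_rw [Vl_append]

private theorem Hv_add (a b : ℕ) : Hv W (a + b) =
    Hf (fun p : (Fin a → W.B) × (Fin b → W.B) => fV W a p.1 + fV W b p.2) := by
  rw [Hv_eq]
  exact Hf_law _ _ (law_add W a b)

theorem Hv_nonneg (n : ℕ) : 0 ≤ Hv W n := by
  rw [Hv_eq]
  exact Hf_nonneg _

theorem Hv_mono {n m : ℕ} (h : n ≤ m) : Hv W n ≤ Hv W m := by
  obtain ⟨k, rfl⟩ := Nat.exists_eq_add_of_le h
  rw [Hv_add, Hv_eq]
  exact H_sum_ge _ _

theorem Hv_concave (a b c : ℕ) :
    Hv W (a + b + c) + Hv W a ≤ Hv W (a + b) + Hv W (a + c) := by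
  rw [Hv_add W a b, Hv_add W a c, Hv_eq W (a + b + c), Hf_law _ _ (law_add3 W a b c), Hv_eq W a]
  exact H_conc _ _ _

theorem Hv_le (n : ℕ) (R : ℕ) (hR : ∀ b i, |W.V b i| ≤ R) :
    Hv W n ≤ d * Real.log (2 * n * R + 1) := by
  classical
  rw [Hv_eq]
  have hb : ∀ l : List W.B, ∀ i, |Vl W l i| ≤ (l.length * R : ℕ) := by
    intro l i
    induction l with
    | nil => simp [Vl]
    | cons b l ih =>
      have h1 : Vl W (b :: l) i = W.V b i + Vl W l i := by simp [Vl]
      rw [h1]
      calc |W.V b i + Vl W l i| ≤ |W.V b i| + |Vl W l i| := abs_add_le _ _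
        _ ≤ R + (l.length * R : ℕ) := add_le_add (hR b i) ih
        _ = ((b :: l).length * R : ℕ) := by
            push_cast [List.length_cons]
            ring
  have hS : ∀ x : Fin n → W.B, fV W n x ∈
      Fintype.piFinset (fun _ : Fin d => Finset.Icc (-((n * R : ℕ) : ℤ)) ((n * R : ℕ) : ℤ)) := by
    intro x
    rw [Fintype.mem_piFinset]
    intro i
    rw [Finset.mem_Icc, ← abs_le]
    have := hb (List.ofFn x) i
    rwa [List.length_ofFn] at this
  refine (Hf_le_log _ _ hS).trans (le_of_eq ?_)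
  rw [Fintype.card_piFinset]
  simp only [Int.card_Icc, Finset.prod_const, Finset.card_univ, Fintype.card_fin]
  have h2 : ((n * R : ℕ) : ℤ) + 1 - -((n * R : ℕ) : ℤ) = ((2 * n * R + 1 : ℕ) : ℤ) := by
    push_cast
    ring
  rw [h2, Int.toNat_natCast]
  push_cast
  rw [Real.log_pow]

theorem HD_le (n m : ℕ) : HD W n m ≤ Hv W (2 * n) + Hv W (n + m) - Hv W n := by
  have h0 : HD W n m =
      Hf (fun p : (Fin n → W.B) × (Fin m → W.B) => fV W n p.1 - fV W m p.2) := by
    have hl : ∀ z, lawD W n m z =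
        lawU (fun p : (Fin n → W.B) × (Fin m → W.B) => fV W n p.1 - fV W m p.2) z := by
      intro z
      rw [lawU_eq_mu, mu_prod]
      rfl
    unfold HD Hf
    rw [mu_prod]
    simp_rw [hl]
    rfl
  have h1 := H_tri (fV W n) (fun x => - fV W n x) (fV W m)
  rw [h0, two_mul, Hv_add W n n, Hv_add W n m, Hv_eq W n]
  have h2 : Hf (fun x => - fV W n x) = Hf (fV W n) := Hf_rel _ _ fun x x' => neg_inj
  have h3 : Hf (fun p : (Fin n → W.B) × (Fin n → W.B) => fV W n p.1 - - fV W n p.2) =
      Hf (fun p : (Fin n → W.B) × (Fin n → W.B) => fV W n p.1 + fV W n p.2) := by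
    simp_rw [sub_neg_eq_add]
  have h4 : Hf (fun p : (Fin n → W.B) × (Fin m → W.B) => - fV W n p.1 - fV W m p.2) =
      Hf (fun p : (Fin n → W.B) × (Fin m → W.B) => fV W n p.1 + fV W m p.2) := by
    apply Hf_rel
    intro x x'
    rw [← neg_add', ← neg_add', neg_inj]
  rw [h2, h3, h4] at h1
  linarith

theorem Hv_slope (a n s : ℕ) (ha : 0 < a) (h : 2 * a ≤ n) :
    Hv W (n + s) - Hv W n ≤ (s / a : ℝ) * (Hv W (2 * a) - Hv W a) := by
  have hd : ∀ k, Hv W (k + 2) - Hv W (k + 1) ≤ Hv W (k + 1) - Hv W k := by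
    intro k
    have := Hv_concave W k 1 1
    rw [add_assoc, show (1 + 1 : ℕ) = 2 from rfl] at this
    linarith
  have hanti : Antitone fun k => Hv W (k + 1) - Hv W k := antitone_nat_of_succ_le hd
  set δ := Hv W (2 * a + 1) - Hv W (2 * a) with hδ
  have h1 : ∀ t, Hv W (n + t) - Hv W n ≤ t * δ := by
    intro t
    induction t with
    | zero => simp
    | succ t ih =>
      have h2 : Hv W (n + t + 1) - Hv W (n + t) ≤ δ := hanti (by omega : 2 * a ≤ n + t)
      push_cast
      rw [← add_assoc]
      linarith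
  have h3 : ∀ t, t ≤ a → t * δ ≤ Hv W (a + t) - Hv W a := by
    intro t ht
    induction t with
    | zero => simp
    | succ t ih =>
      have h2 : δ ≤ Hv W (a + t + 1) - Hv W (a + t) := hanti (by omega : a + t ≤ 2 * a)
      have := ih (by omega)
      push_cast
      rw [← add_assoc]
      linarith
  have h4 := h3 a le_rfl
  rw [← two_mul] at h4
  have ha' : (0 : ℝ) < a := by exact_mod_cast ha
  calc Hv W (n + s) - Hv W n ≤ s * δ := h1 s
    _ = (s / a : ℝ) * (a * δ) := by field_simp
    _ ≤ (s / a : ℝ) * (Hv W (2 * a) - Hv W a) := by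
        apply mul_le_mul_of_nonneg_left h4
        positivity

end Pool.Agent.SawFold
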