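import Pool.Agent.SawFold.CS

/-!
Module FarP (pairs at large distance) of the project Pool.Agent.SawFold.
-/

set_option autoImplicit false
set_option linter.unusedSectionVars false

namespace Pool.Agent.SawFold

open Finset
open scoped BigOperators

variable {d : ℕ} [NeZero d] (W : BlockSys d)

namespace FarPAux

theorem exp_small (κ : ℝ) (h1 : κ ≤ 1 / 100) : Real.exp κ ≤ 102 / 100 := by
  have h2 : Real.exp κ ≤ Real.exp (1 / 100) := Real.exp_le_exp.2 h1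
  have h3 : |Real.exp (1 / 100) - 1 - 1 / 100| ≤ (1 / 100 : ℝ) ^ 2 :=
    Real.abs_exp_sub_one_sub_id_le (by norm_num [abs_of_pos])
  have h4 := (abs_le.1 h3).2
  norm_num at h4
  linarith

end FarPAux

theorem far_pairs (m : ℕ) (hm : 4 ≤ m) (κ : ℝ) (h0 : 0 ≤ κ) (h1 : κ ≤ 1 / 100)
    (h : TT W (2 ^ (m + 5)) (2 ^ (m - 3)) / 4 ^ (m - 3) ≤
      Real.exp κ * (TT W (2 ^ (m + 9)) (2 ^ (m + 1)) / 4 ^ (m + 1))) :
    (15 / 16 : ℝ) * 4 ^ m * (pf W (2 ^ (m + 9))) ^ 2 ≤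
      ∑ i ∈ range (2 ^ m), ∑ j ∈ (Ico (2 ^ m) (2 ^ (m + 1))).filter (fun j => 2 ^ (m - 4) < j - i),
        p2 W (2 ^ (m + 9)) (j - i) := by
  obtain ⟨n, rfl⟩ := Nat.exists_eq_add_of_le hm
  have e3 : 4 + n - 3 = n + 1 := by omega
  have e4 : 4 + n - 4 = n := by omega
  rw [e3] at h
  rw [e4]
  set K1 : ℕ := 2 ^ (4 + n + 9) with hK1
  set K0 : ℕ := 2 ^ (4 + n + 5) with hK0
  have hK : K0 ≤ K1 := Nat.pow_le_pow_right (by norm_num) (by omega)
  set x := TT W K0 (2 ^ (n + 1)) with hx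
  set T1 := TT W K1 (2 ^ (4 + n + 1)) with hT1
  set y := TT W K1 (2 ^ (4 + n)) with hy
  have hexp := FarPAux.exp_small κ h1
  have hP : (0 : ℝ) < 4 ^ n := by positivity
  -- bounds
  have b1 : x * 256 ≤ Real.exp κ * T1 := by
    have p1 : (4 : ℝ) ^ (n + 1) = 4 * 4 ^ n := by rw [pow_succ]; ring
    have p2 : (4 : ℝ) ^ (4 + n + 1) = 1024 * 4 ^ n := by
      rw [pow_succ, pow_add]; norm_num; ring
    rw [p1, p2] at h
    rw [div_le_iff₀ (by positivity)] at h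
    have h' : Real.exp κ * (T1 / (1024 * 4 ^ n)) * (4 * 4 ^ n) = Real.exp κ * T1 / 256 := by
      field_simp
      ring
    rw [h'] at h
    rw [le_div_iff₀ (by norm_num)] at h
    exact h
  have b2 : y ≤ 64 * x := by
    have c1 : y ≤ TT W K0 (2 ^ (4 + n)) := TT_anti W hK _
    have c2 : TT W K0 (2 ^ (4 + n)) ≤ 4 * TT W K0 (2 ^ (n + 3)) := by
      have := TT_double W K0 (2 ^ (n + 3))
      have e : 2 * 2 ^ (n + 3) = 2 ^ (4 + n) := by rw [← pow_succ']; congr 1; omega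
      rw [e] at this
      exact this
    have c3 : TT W K0 (2 ^ (n + 3)) ≤ 4 * TT W K0 (2 ^ (n + 2)) := by
      have := TT_double W K0 (2 ^ (n + 2))
      have e : 2 * 2 ^ (n + 2) = 2 ^ (n + 3) := by rw [← pow_succ']
      rw [e] at this
      exact this
    have c4 : TT W K0 (2 ^ (n + 2)) ≤ 4 * x := by
      have := TT_double W K0 (2 ^ (n + 1))
      have e : 2 * 2 ^ (n + 1) = 2 ^ (n + 2) := by rw [← pow_succ']
      rw [e] at this
      exact this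
    linarith
  have b3 : T1 = 2 * y + 2 * ∑ i ∈ range (2 ^ (4 + n)),
      ∑ j ∈ Ico (2 ^ (4 + n)) (2 ^ (4 + n + 1)), p2 W K1 (j - i) := by
    have := TT_split W K1 (2 ^ (4 + n))
    have e : 2 * 2 ^ (4 + n) = 2 ^ (4 + n + 1) := by rw [← pow_succ']
    rw [e] at this
    exact this
  have b4 : ∑ i ∈ range (2 ^ (4 + n)),
      ∑ j ∈ (Ico (2 ^ (4 + n)) (2 ^ (4 + n + 1))).filter (fun j => j - i ≤ 2 ^ n),
        p2 W K1 (j - i) ≤ x := by
    have h5 := TT_near W K1 (2 ^ n) (2 ^ (4 + n)) (Nat.pow_le_pow_right (by norm_num) (by omega))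
    have e : 2 * 2 ^ (4 + n) = 2 ^ (4 + n + 1) := by rw [← pow_succ']
    have e' : 2 * 2 ^ n = 2 ^ (n + 1) := by rw [← pow_succ']
    rw [e, e'] at h5
    exact h5.trans (TT_anti W hK _)
  have b5 : ∑ i ∈ range (2 ^ (4 + n)),
      ∑ j ∈ Ico (2 ^ (4 + n)) (2 ^ (4 + n + 1)), p2 W K1 (j - i) =
      ∑ i ∈ range (2 ^ (4 + n)),
      ∑ j ∈ (Ico (2 ^ (4 + n)) (2 ^ (4 + n + 1))).filter (fun j => j - i ≤ 2 ^ n),
        p2 W K1 (j - i) +
      ∑ i ∈ range (2 ^ (4 + n)),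
      ∑ j ∈ (Ico (2 ^ (4 + n)) (2 ^ (4 + n + 1))).filter (fun j => 2 ^ n < j - i),
        p2 W K1 (j - i) := by
    rw [← Finset.sum_add_distrib]
    apply Finset.sum_congr rfl
    intro i _
    rw [← Finset.sum_filter_add_sum_filter_not (Ico (2 ^ (4 + n)) (2 ^ (4 + n + 1)))
      (fun j => j - i ≤ 2 ^ n)]
    congr 1
    apply Finset.sum_congr _ (fun _ _ => rfl)
    ext j
    simp only [Finset.mem_filter, not_le]
  have b6 : 1024 * 4 ^ n * (pf W K1) ^ 2 ≤ T1 := by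
    have h6 := TT_lower W K1 (2 ^ (4 + n + 1))
    have e : (((2 ^ (4 + n + 1) : ℕ) : ℝ)) ^ 2 = 1024 * 4 ^ n := by
      push_cast
      rw [← pow_mul, mul_comm, pow_mul]
      rw [pow_succ, pow_add]; norm_num; ring
    rw [e] at h6
    exact h6
  have hT0 : 0 ≤ T1 := le_trans (by positivity) b6
  have b7 : Real.exp κ * T1 ≤ 102 / 100 * T1 := mul_le_mul_of_nonneg_right hexp hT0
  have p4 : (4 : ℝ) ^ (4 + n) = 256 * 4 ^ n := by rw [pow_add]; norm_num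
  rw [p4]
  have b8 : 15 / 16 * (256 * 4 ^ n) * (pf W K1) ^ 2 = 15 / 64 * (1024 * 4 ^ n * (pf W K1) ^ 2) := by
    ring
  rw [b8]
  linarith

end Pool.Agent.SawFold
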