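import Pool.Agent.SawFold.PSA

/-!
Module Range (symmetries and range of a self-avoiding walk) of the project Pool.Agent.SawFold.
-/

set_option autoImplicit false
set_option linter.unusedSectionVars false

namespace Pool.Agent.SawFold

open Finset
open scoped BigOperators

variable {d : ℕ} [NeZero d]

namespace RangeAux

/-- The symmetry of the steps that exchanges the axes `0` and `i` and flips the sign of axis `i`
if `σ` is true. -/
def gs (i : Fin d) (σ : Bool) (s : Stp d) : Stp d :=
  (Equiv.swap 0 i s.1, if s.1 = i then xor s.2 σ else s.2)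

/-- The corresponding symmetry of the lattice. -/
def gT (i : Fin d) (σ : Bool) (x : Pt d) : Pt d :=
  fun j => if j = 0 then (if σ then - x i else x i) else x (Equiv.swap 0 i j)

theorem gT_zero (i : Fin d) (σ : Bool) : gT i σ (0 : Pt d) = 0 := by
  funext j
  cases σ <;> simp [gT]

theorem gT_add (i : Fin d) (σ : Bool) (x y : Pt d) : gT i σ (x + y) = gT i σ x + gT i σ y := by
  funext j
  by_cases hj : j = 0
  · cases σ
    · simp [gT, hj]
    · simp [gT, hj]
      ring
  · simp [gT, hj]

theorem gT_inj (i : Fin d) (σ : Bool) : Function.Injective (gT i σ : Pt d → Pt d) := by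
  intro x y h
  funext k
  by_cases hk : k = i
  · have h1 := congrFun h 0
    simp only [gT, if_true] at h1
    rw [hk]
    cases σ
    · simpa using h1
    · simpa using h1
  · have h1 := congrFun h (Equiv.swap 0 i k)
    have h2 : Equiv.swap 0 i k ≠ 0 := by
      intro h3
      apply hk
      have h4 := congrArg (Equiv.swap 0 i) h3
      rw [Equiv.swap_apply_self, Equiv.swap_apply_left] at h4
      exact h4
    simp only [gT, if_neg h2, Equiv.swap_apply_self] at h1
    exact h1

theorem vec_gs (i : Fin d) (σ : Bool) (s : Stp d) : vec (gs i σ s) = gT i σ (vec s) := by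
  obtain ⟨k, b⟩ := s
  funext j
  by_cases hj : j = 0
  · subst hj
    by_cases hk : k = i
    · subst hk
      cases σ <;> cases b <;> simp [gs, gT, vec]
    · have h1 : (0 : Fin d) ≠ Equiv.swap 0 i k := by
        intro h3
        apply hk
        have h4 := congrArg (Equiv.swap 0 i) h3
        rw [Equiv.swap_apply_self, Equiv.swap_apply_left] at h4
        exact h4.symm
      have h2 : i ≠ k := fun h => hk h.symm
      cases σ <;> simp [gs, gT, vec, h1, h2]
  · have e1 : Equiv.swap 0 i j ≠ i := by
      intro h3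
      apply hj
      have h4 := congrArg (Equiv.swap 0 i) h3
      rw [Equiv.swap_apply_self, Equiv.swap_apply_right] at h4
      exact h4
    by_cases hk : k = Equiv.swap 0 i j
    · have h2 : k ≠ i := by rw [hk]; exact e1
      subst hk
      simp [gs, gT, vec, hj, h2]
    · have h1 : j ≠ Equiv.swap 0 i k := by
        intro h3
        apply hk
        rw [h3, Equiv.swap_apply_self]
      have h2 : Equiv.swap 0 i j ≠ k := fun h => hk h.symm
      simp [gs, gT, vec, hj, h1, h2]

theorem D_gs (i : Fin d) (σ : Bool) (w : Word d) : D (w.map (gs i σ)) = gT i σ (D w) := by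
  induction w with
  | nil => simp [gT_zero]
  | cons s w ih => rw [List.map_cons, D_cons, D_cons, ih, vec_gs, gT_add]

theorem gs_inj (i : Fin d) (σ : Bool) : Function.Injective (gs i σ : Stp d → Stp d) := by
  rintro ⟨k, b⟩ ⟨k', b'⟩ h
  have h1 : Equiv.swap 0 i k = Equiv.swap 0 i k' := congrArg Prod.fst h
  have h2 : k = k' := (Equiv.swap 0 i).injective h1
  subst h2
  have h3 := congrArg Prod.snd h
  simp only [gs] at h3
  by_cases hk : k = i
  · simp only [if_pos hk] at h3
    cases σ <;> cases b <;> cases b' <;> simp_all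
  · simp only [if_neg hk] at h3
    rw [h3]

theorem SA_gs (i : Fin d) (σ : Bool) {w : Word d} (h : SA w) : SA (w.map (gs i σ)) := by
  intro a b ha hb hab
  rw [List.length_map] at ha hb
  rw [← List.map_take, ← List.map_take, D_gs, D_gs] at hab
  exact h a b ha hb (gT_inj i σ hab)

theorem P_gs (i : Fin d) (σ : Bool) {w : Word d} {x : Pt d} (h : x ∈ P w) :
    gT i σ x ∈ P (w.map (gs i σ)) := by
  obtain ⟨a, ha, rfl⟩ := h
  exact ⟨a, by rw [List.length_map]; exact ha, by rw [← List.map_take, D_gs]⟩

theorem mem_wordsN' {N : ℕ} (w : Word d) : w ∈ wordsN d N ↔ w.length = N := by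
  classical
  unfold wordsN
  rw [Finset.mem_image]
  constructor
  · rintro ⟨f, _, rfl⟩
    simp
  · intro h
    subst h
    exact ⟨w.get, Finset.mem_univ _, List.ofFn_get w⟩

theorem mem_saF' {N : ℕ} (w : Word d) : w ∈ saF d N ↔ w.length = N ∧ SA w := by
  classical
  unfold saF
  rw [Finset.mem_filter, mem_wordsN']

/-- A long self-avoiding walk leaves the box. -/
theorem exists_far {N D₀ : ℕ} (h0 : 0 < D₀) (h : (2 * D₀ - 1) ^ d < N + 1) {w : Word d}
    (hw : w.length = N) (hs : SA w) :
    ∃ x ∈ P w, ∃ i : Fin d, (D₀ : ℤ) ≤ x i ∨ (D₀ : ℤ) ≤ - x i := by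
  classical
  by_contra hcon
  push Not at hcon
  have hbox : ∀ k ∈ range (N + 1), D (w.take k) ∈
      Fintype.piFinset (fun _ : Fin d => Finset.Ioo (-(D₀ : ℤ)) D₀) := by
    intro k hk
    rw [Finset.mem_range] at hk
    rw [Fintype.mem_piFinset]
    intro i
    have h1 := hcon (D (w.take k)) ⟨k, by omega, rfl⟩ i
    rw [Finset.mem_Ioo]
    constructor
    · linarith [h1.2]
    · exact h1.1
  have hinj : Set.InjOn (fun k => D (w.take k)) (range (N + 1) : Set ℕ) := by
    intro a ha b hb hab
    rw [Finset.mem_coe, Finset.mem_range] at ha hb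
    exact hs a b (by omega) (by omega) hab
  have h1 := Finset.card_le_card_of_injOn _ hbox hinj
  rw [Finset.card_range, Fintype.card_piFinset_const, Int.card_Ioo] at h1
  have h2 : ((D₀ : ℤ) - -(D₀ : ℤ) - 1).toNat = 2 * D₀ - 1 := by omega
  rw [h2] at h1
  omega

end RangeAux

open RangeAux

open Classical in
theorem reach_ge (d : ℕ) [NeZero d] (N D₀ : ℕ) (h0 : 0 < D₀) (h : (2 * D₀ - 1) ^ d < N + 1) :
    (saF d N).card ≤ 2 * d * ((saF d N).filter fun w => ∃ x ∈ P w, (D₀ : ℤ) ≤ x 0).card := by
  set R := (saF d N).filter fun w => ∃ x ∈ P w, (D₀ : ℤ) ≤ x 0 with hR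
  have hsub : saF d N ⊆ (Finset.univ : Finset (Fin d × Bool)).biUnion fun p =>
      (saF d N).filter fun w => w.map (gs p.1 p.2) ∈ R := by
    intro w hw
    have hw' := (mem_saF' w).1 hw
    obtain ⟨x, hx, i, hi⟩ := exists_far h0 h hw'.1 hw'.2
    rw [Finset.mem_biUnion]
    rcases hi with hi | hi
    · refine ⟨(i, false), Finset.mem_univ _, ?_⟩
      refine Finset.mem_filter.2 ⟨hw, Finset.mem_filter.2 ⟨(mem_saF' _).2
        ⟨by rw [List.length_map]; exact hw'.1, SA_gs _ _ hw'.2⟩, gT i false x,
        P_gs _ _ hx, ?_⟩⟩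
      simpa [gT] using hi
    · refine ⟨(i, true), Finset.mem_univ _, ?_⟩
      refine Finset.mem_filter.2 ⟨hw, Finset.mem_filter.2 ⟨(mem_saF' _).2
        ⟨by rw [List.length_map]; exact hw'.1, SA_gs _ _ hw'.2⟩, gT i true x,
        P_gs _ _ hx, ?_⟩⟩
      simpa [gT] using hi
  have hcard : ∀ p : Fin d × Bool,
      ((saF d N).filter fun w => w.map (gs p.1 p.2) ∈ R).card ≤ R.card := by
    intro p
    refine Finset.card_le_card_of_injOn (fun w => w.map (gs p.1 p.2)) ?_ ?_
    · intro w hw
      exact (Finset.mem_filter.1 hw).2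
    · intro w _ w' _ hww
      exact List.map_injective_iff.2 (gs_inj p.1 p.2) hww
  calc (saF d N).card ≤ _ := Finset.card_le_card hsub
    _ ≤ ∑ p : Fin d × Bool, ((saF d N).filter fun w => w.map (gs p.1 p.2) ∈ R).card :=
        Finset.card_biUnion_le
    _ ≤ ∑ _p : Fin d × Bool, R.card := Finset.sum_le_sum fun p _ => hcard p
    _ = 2 * d * R.card := by
        rw [Finset.sum_const, Finset.card_univ, Fintype.card_prod, Fintype.card_fin,
          Fintype.card_bool, smul_eq_mul]
        ring

end Pool.Agent.SawFold
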