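import Pool.Agent.SawFold.NearFar
import Pool.Agent.SawFold.Range

/-!
Module Final  of the project Pool.Agent.SawFold.
-/

set_option autoImplicit false
set_option linter.unusedSectionVars false

namespace Pool.Agent.SawFold

open Finset
open scoped BigOperators

namespace FinalAux

/-- the sum of the squared displacements -/
noncomputable def Ssq (d : ℕ) [NeZero d] (N : ℕ) : ℝ :=
  ∑ w ∈ saF d N, ∑ i : Fin d, ((D w i : ℤ) : ℝ) ^ 2

theorem sq_term_nonneg {d : ℕ} [NeZero d] (w : Word d) :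
    0 ≤ ∑ i : Fin d, ((D w i : ℤ) : ℝ) ^ 2 := Finset.sum_nonneg fun _ _ => sq_nonneg _

theorem sq_le_term {d : ℕ} [NeZero d] (w : Word d) :
    ((D w 0 : ℤ) : ℝ) ^ 2 ≤ ∑ i : Fin d, ((D w i : ℤ) : ℝ) ^ 2 :=
  Finset.single_le_sum (f := fun i : Fin d => ((D w i : ℤ) : ℝ) ^ 2)
    (fun _ _ => sq_nonneg _) (Finset.mem_univ 0)

theorem Ssq_ge {d : ℕ} [NeZero d] (N : ℕ) (T : Finset (Word d)) (hT : T ⊆ saF d N) (r : ℝ)
    (h : ∀ w ∈ T, r ≤ ((D w 0 : ℤ) : ℝ) ^ 2) : r * (T.card : ℝ) ≤ Ssq d N := by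
  calc r * (T.card : ℝ) = ∑ w ∈ T, r := by rw [Finset.sum_const, nsmul_eq_mul, mul_comm]
    _ ≤ ∑ w ∈ T, ∑ i : Fin d, ((D w i : ℤ) : ℝ) ^ 2 :=
        Finset.sum_le_sum fun w hw => (h w hw).trans (sq_le_term w)
    _ ≤ Ssq d N := Finset.sum_le_sum_of_subset_of_nonneg hT fun w _ _ => sq_term_nonneg w

theorem wordsN_card_le (d N : ℕ) : (wordsN d N).card ≤ (2 * d) ^ N := by
  classical
  unfold wordsN
  refine (Finset.card_image_le).trans ?_
  simp [Finset.card_univ, mul_comm]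

theorem saF_card_le (d : ℕ) [NeZero d] (N : ℕ) : (saF d N).card ≤ (2 * d) ^ N := by
  classical
  unfold saF
  exact (Finset.card_filter_le _ _).trans (wordsN_card_le d N)

theorem D_replicate {d : ℕ} [NeZero d] (n : ℕ) :
    D (List.replicate n (upS : Stp d)) 0 = n := by
  induction n with
  | zero => simp
  | succ n ih =>
    rw [List.replicate_succ, D_cons, Pi.add_apply, ih, vec_upS, e_zero']
    push_cast; ring

theorem straight_mem (d : ℕ) [NeZero d] (N : ℕ) :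
    List.replicate N (upS : Stp d) ∈ saF d N := by
  classical
  unfold saF
  rw [Finset.mem_filter]
  constructor
  · unfold wordsN
    rw [Finset.mem_image]
    exact ⟨fun _ => upS, Finset.mem_univ _, by simp⟩
  · intro i j hi hj h
    rw [List.length_replicate] at hi hj
    have h0 := congrFun h 0
    rw [List.take_replicate, List.take_replicate, D_replicate, D_replicate] at h0
    have : min i N = min j N := by exact_mod_cast h0
    omega

theorem one_le_Ssq (d : ℕ) [NeZero d] (N : ℕ) (hN : 1 ≤ N) : 1 ≤ Ssq d N := by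
  have h := Ssq_ge (d := d) N {List.replicate N (upS : Stp d)}
    (by simpa using straight_mem d N) ((N : ℝ) ^ 2) (by
      intro w hw
      rw [Finset.mem_singleton] at hw
      rw [hw, D_replicate]
      simp)
  rw [Finset.card_singleton] at h
  have hN' : (1 : ℝ) ≤ N := by exact_mod_cast hN
  have : (1 : ℝ) ≤ (N : ℝ) ^ 2 := by nlinarith
  push_cast at h
  linarith

/-- the combination of the two cases -/
theorem main_step (d : ℕ) [NeZero d] (N lam D₀ : ℕ) (K r : ℝ) (hr : 0 ≤ r)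
    (hreach : (saF d N).card ≤
      2 * d * (haveI := Classical.decPred fun w : Word d => ∃ x ∈ P w, (D₀ : ℤ) ≤ x 0
        ((saF d N).filter fun w => ∃ x ∈ P w, (D₀ : ℤ) ≤ x 0).card))
    (hnear : ((near d N lam D₀).card : ℝ) ≤ K * ((far d N (2 * D₀ - 3 * lam - 8)).card : ℝ))
    (hD : 3 * lam + 8 ≤ D₀) (h1 : r ≤ (lam : ℝ) ^ 2) (h2 : r * K ≤ (D₀ : ℝ) ^ 2) :
    r * ((saF d N).card : ℝ) ≤ 4 * d * Ssq d N := by
  classical
  set T := (saF d N).filter fun w => ∃ x ∈ P w, (D₀ : ℤ) ≤ x 0 with hT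
  set U := (saF d N).filter fun w => (lam : ℤ) < |D w 0| with hU
  have hsub : T ⊆ near d N lam D₀ ∪ U := by
    intro w hw
    rw [hT, Finset.mem_filter] at hw
    rw [Finset.mem_union]
    by_cases hl : |D w 0| ≤ (lam : ℤ)
    · left
      unfold near
      rw [Finset.mem_filter]
      exact ⟨hw.1, hl, hw.2⟩
    · right
      rw [hU, Finset.mem_filter]
      exact ⟨hw.1, by omega⟩
  have hcard : T.card ≤ (near d N lam D₀).card + U.card :=
    (Finset.card_le_card hsub).trans (Finset.card_union_le _ _)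
  have hUs : r * (U.card : ℝ) ≤ Ssq d N := by
    refine Ssq_ge N U (Finset.filter_subset _ _) r ?_
    intro w hw
    rw [hU, Finset.mem_filter] at hw
    refine h1.trans ?_
    have h3 : ((lam : ℤ) : ℝ) < |((D w 0 : ℤ) : ℝ)| := by
      rw [← Int.cast_abs]; exact_mod_cast hw.2
    have h4 : (0 : ℝ) ≤ lam := Nat.cast_nonneg _
    rw [← sq_abs ((D w 0 : ℤ) : ℝ)]
    push_cast at h3
    nlinarith [abs_nonneg ((D w 0 : ℤ) : ℝ)]
  have hFs : (D₀ : ℝ) ^ 2 * ((far d N (2 * D₀ - 3 * lam - 8)).card : ℝ) ≤ Ssq d N := by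
    refine Ssq_ge N _ (by unfold far; exact Finset.filter_subset _ _) _ ?_
    intro w hw
    unfold far at hw
    rw [Finset.mem_filter] at hw
    have h3 : (D₀ : ℤ) ≤ D w 0 := by
      have := hw.2
      omega
    have h4 : ((D₀ : ℤ) : ℝ) ≤ ((D w 0 : ℤ) : ℝ) := by exact_mod_cast h3
    push_cast at h4
    have h5 : (0 : ℝ) ≤ D₀ := Nat.cast_nonneg _
    nlinarith
  have hNs : r * ((near d N lam D₀).card : ℝ) ≤ Ssq d N := by
    calc r * ((near d N lam D₀).card : ℝ)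
        ≤ r * (K * ((far d N (2 * D₀ - 3 * lam - 8)).card : ℝ)) :=
          mul_le_mul_of_nonneg_left hnear hr
      _ = (r * K) * ((far d N (2 * D₀ - 3 * lam - 8)).card : ℝ) := by ring
      _ ≤ (D₀ : ℝ) ^ 2 * ((far d N (2 * D₀ - 3 * lam - 8)).card : ℝ) :=
          mul_le_mul_of_nonneg_right h2 (Nat.cast_nonneg _)
      _ ≤ Ssq d N := hFs
  have hreach' : ((saF d N).card : ℝ) ≤ 2 * d * (T.card : ℝ) := by
    have h6 : (saF d N).card ≤ 2 * d * T.card := by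
      convert hreach using 3
    exact_mod_cast h6
  have hcard' : (T.card : ℝ) ≤ ((near d N lam D₀).card : ℝ) + (U.card : ℝ) := by
    exact_mod_cast hcard
  have hd0 : (0 : ℝ) ≤ d := Nat.cast_nonneg _
  calc r * ((saF d N).card : ℝ) ≤ r * (2 * d * (T.card : ℝ)) :=
        mul_le_mul_of_nonneg_left hreach' hr
    _ ≤ r * (2 * d * (((near d N lam D₀).card : ℝ) + (U.card : ℝ))) := by
        refine mul_le_mul_of_nonneg_left ?_ hr
        exact mul_le_mul_of_nonneg_left hcard' (by positivity)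
    _ = 2 * d * (r * ((near d N lam D₀).card : ℝ) + r * (U.card : ℝ)) := by ring
    _ ≤ 2 * d * (Ssq d N + Ssq d N) := by
        refine mul_le_mul_of_nonneg_left ?_ (by positivity)
        linarith
    _ = 4 * d * Ssq d N := by ring

/-- numerics of the scales -/
theorem scales (d : ℕ) (hd : 3 ≤ d) (lam₀ : ℕ) (θ x : ℝ) (hθ : 2 / 3 ≤ θ) (hθ' : θ ≤ 4 / 5)
    (N : ℕ) (hx0 : 0 ≤ x) (hxN : x ^ d = N) (hx : 131072 ≤ x)
    (hx2 : 4 * ((lam₀ : ℝ) + 1) ^ 2 ≤ x) :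
    ∃ D₀ lam : ℕ, 0 < D₀ ∧ (2 * D₀ - 1) ^ d < N + 1 ∧ lam₀ ≤ lam ∧ N + 1 ≤ lam ^ (2 * d) ∧
      lam < D₀ ∧ 3 * lam + 8 ≤ D₀ ∧ x / 4 ≤ D₀ ∧ (lam : ℝ) ≤ (D₀ : ℝ) ^ θ ∧
      (D₀ : ℝ) ^ θ ≤ 2 * lam ∧ 1 ≤ lam := by
  set D₀ : ℕ := ⌊x / 2⌋₊ with hD₀
  have hDx : (D₀ : ℝ) ≤ x / 2 := Nat.floor_le (by linarith)
  have hDx' : x / 2 < D₀ + 1 := Nat.lt_floor_add_one _
  have hD4 : x / 4 ≤ D₀ := by linarith
  have hDbig : (32768 : ℝ) ≤ D₀ := by linarith
  have hDpos : (0 : ℝ) < D₀ := by linarith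
  have hD1 : (1 : ℝ) ≤ D₀ := by linarith
  set lam : ℕ := ⌊(D₀ : ℝ) ^ θ⌋₊ with hlam
  have hpow0 : (0 : ℝ) ≤ (D₀ : ℝ) ^ θ := Real.rpow_nonneg hDpos.le _
  have hl1 : (lam : ℝ) ≤ (D₀ : ℝ) ^ θ := Nat.floor_le hpow0
  have hl2 : (D₀ : ℝ) ^ θ < lam + 1 := Nat.lt_floor_add_one _
  have hone : (1 : ℝ) ≤ (D₀ : ℝ) ^ θ := Real.one_le_rpow hD1 (by linarith)
  have hlam1 : 1 ≤ lam := by
    rw [hlam, Nat.one_le_floor_iff]; exact hone
  have hlam1' : (1 : ℝ) ≤ lam := by exact_mod_cast hlam1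
  have hl3 : (D₀ : ℝ) ^ θ ≤ 2 * lam := by linarith
  -- upper bound on lam
  have hup : (D₀ : ℝ) ^ θ ≤ (D₀ : ℝ) / 4 := by
    have h1 : (D₀ : ℝ) ^ θ ≤ (D₀ : ℝ) ^ (4 / 5 : ℝ) := Real.rpow_le_rpow_of_exponent_le hD1 hθ'
    have h2 : (D₀ : ℝ) ^ (4 / 5 : ℝ) * (D₀ : ℝ) ^ (1 / 5 : ℝ) = D₀ := by
      rw [← Real.rpow_add hDpos]; norm_num
    have h3 : (4 : ℝ) ≤ (D₀ : ℝ) ^ (1 / 5 : ℝ) := by
      have h4 : ((1024 : ℝ)) ^ (1 / 5 : ℝ) ≤ (D₀ : ℝ) ^ (1 / 5 : ℝ) :=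
        Real.rpow_le_rpow (by norm_num) (by linarith) (by norm_num)
      have h5 : ((1024 : ℝ)) ^ (1 / 5 : ℝ) = 4 := by
        rw [show (1024 : ℝ) = 4 ^ (5 : ℝ) by norm_num, ← Real.rpow_mul (by norm_num)]
        norm_num
      linarith
    have h6 : 0 ≤ (D₀ : ℝ) ^ (4 / 5 : ℝ) := Real.rpow_nonneg hDpos.le _
    nlinarith
  have h38 : 3 * lam + 8 ≤ D₀ := by
    have : (3 * (lam : ℝ) + 8) ≤ D₀ := by linarith
    exact_mod_cast this
  -- lower bound on lam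
  have hlow : (D₀ : ℝ) ^ 2 ≤ 8 * (lam : ℝ) ^ 3 := by
    have h1 : (D₀ : ℝ) ^ (2 / 3 : ℝ) ≤ (D₀ : ℝ) ^ θ := Real.rpow_le_rpow_of_exponent_le hD1 hθ
    have h2 : (D₀ : ℝ) ^ (2 / 3 : ℝ) ≤ 2 * lam := h1.trans hl3
    have h3 : ((D₀ : ℝ) ^ (2 / 3 : ℝ)) ^ (3 : ℕ) = (D₀ : ℝ) ^ 2 := by
      rw [← Real.rpow_natCast, ← Real.rpow_mul hDpos.le, ← Real.rpow_natCast]; norm_num
    rw [← h3]
    calc ((D₀ : ℝ) ^ (2 / 3 : ℝ)) ^ (3 : ℕ) ≤ (2 * (lam : ℝ)) ^ 3 :=
          pow_le_pow_left₀ (Real.rpow_nonneg hDpos.le _) h2 3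
      _ = 8 * (lam : ℝ) ^ 3 := by ring
  have hlam2 : 2 * x ≤ (lam : ℝ) ^ 2 := by
    have h1 : x ^ 2 ≤ 128 * (lam : ℝ) ^ 3 := by nlinarith
    have h2 : x ^ 4 ≤ 16384 * (lam : ℝ) ^ 6 := by
      calc x ^ 4 = (x ^ 2) ^ 2 := by ring
        _ ≤ (128 * (lam : ℝ) ^ 3) ^ 2 := pow_le_pow_left₀ (sq_nonneg x) h1 2
        _ = 16384 * (lam : ℝ) ^ 6 := by ring
    have h3 : (2 * x) ^ 3 ≤ ((lam : ℝ) ^ 2) ^ 3 := by
      have h4 : 131072 * x ^ 3 ≤ x ^ 4 := by
        have : x ^ 4 = x * x ^ 3 := by ring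
        rw [this]
        exact mul_le_mul_of_nonneg_right hx (by positivity)
      nlinarith
    exact le_of_pow_le_pow_left₀ (by norm_num) (by positivity) h3
  have hN : N + 1 ≤ lam ^ (2 * d) := by
    have h1 : (2 * x) ^ d ≤ ((lam : ℝ) ^ 2) ^ d := pow_le_pow_left₀ (by linarith) hlam2 d
    have h2 : (2 : ℝ) ≤ 2 ^ d := by
      calc (2 : ℝ) = 2 ^ 1 := by norm_num
        _ ≤ 2 ^ d := pow_le_pow_right₀ (by norm_num) (by omega)
    have h3 : (1 : ℝ) ≤ N := by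
      rw [← hxN]; exact one_le_pow₀ (by linarith)
    have h4 : ((N : ℝ) + 1) ≤ (lam : ℝ) ^ (2 * d) := by
      rw [pow_mul]
      refine le_trans ?_ h1
      rw [mul_pow, hxN]
      nlinarith
    exact_mod_cast h4
  have hl0 : lam₀ ≤ lam := by
    have h1 : ((lam₀ : ℝ) + 1) ^ 2 ≤ D₀ := by linarith
    have h2 : ((D₀ : ℝ)) ^ (1 / 2 : ℝ) ≤ (D₀ : ℝ) ^ θ :=
      Real.rpow_le_rpow_of_exponent_le hD1 (by linarith)
    have h3 : (lam₀ : ℝ) + 1 ≤ ((D₀ : ℝ)) ^ (1 / 2 : ℝ) := by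
      rw [← Real.sqrt_eq_rpow]
      exact Real.le_sqrt_of_sq_le h1
    have h4 : (lam₀ : ℝ) < lam + 1 - 1 + 1 := by linarith
    have h5 : (lam₀ : ℝ) + 1 < lam + 1 := by linarith
    have h6 : lam₀ + 1 < lam + 1 := by exact_mod_cast h5
    omega
  have hDp : 0 < D₀ := by exact_mod_cast hDpos
  have hpowlt : (2 * D₀ - 1) ^ d < N + 1 := by
    have h1 : ((2 * D₀ - 1 : ℕ) : ℝ) ≤ x := by
      have : (2 * D₀ - 1 : ℕ) ≤ 2 * D₀ := Nat.sub_le _ _
      have h2 : ((2 * D₀ - 1 : ℕ) : ℝ) ≤ ((2 * D₀ : ℕ) : ℝ) := by exact_mod_cast this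
      push_cast at h2
      linarith
    have h2 : (((2 * D₀ - 1 : ℕ) : ℝ)) ^ d ≤ N := by
      rw [← hxN]
      exact pow_le_pow_left₀ (Nat.cast_nonneg _) h1 d
    have h3 : (2 * D₀ - 1) ^ d ≤ N := by exact_mod_cast h2
    omega
  exact ⟨D₀, lam, hDp, hpowlt, hl0, hN, by omega, h38, hD4, hl1, hl3, hlam1⟩

end FinalAux

open FinalAux in
theorem msd_words (d : ℕ) [NeZero d] (hd : 3 ≤ d) : ∃ c > (0 : ℝ), ∃ C > (0 : ℝ), ∀ N : ℕ, 1 ≤ N →
    C * (N : ℝ) ^ (4 / (3 * d) + c : ℝ) * ((saF d N).card : ℝ) ≤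
      ∑ w ∈ saF d N, ∑ i : Fin d, ((D w i : ℤ) : ℝ) ^ 2 := by
  obtain ⟨c, hc, C, hC, lam₀, hnf⟩ := near_far d hd
  set c₁ : ℝ := min c (1 / 2) with hc₁
  have hc₁0 : 0 < c₁ := lt_min hc (by norm_num)
  have hc₁c : c₁ ≤ c := min_le_left _ _
  have hc₁h : c₁ ≤ 1 / 2 := min_le_right _ _
  set θ : ℝ := 2 / (3 - c₁) with hθ
  have h3c : 0 < 3 - c₁ := by linarith
  have hθ1 : 2 / 3 ≤ θ := by
    rw [hθ, div_le_div_iff₀ (by norm_num) h3c]; linarith
  have hθ2 : θ ≤ 4 / 5 := by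
    rw [hθ, div_le_div_iff₀ h3c (by norm_num)]; linarith
  have hθc : θ * (3 - c₁) = 2 := by rw [hθ]; field_simp
  have hd0 : (0 : ℝ) < d := by
    have : 0 < d := by omega
    exact_mod_cast this
  set p : ℝ := 2 * θ / d with hp
  set c₂ : ℝ := p - 4 / (3 * d) with hc₂
  have hc₂0 : 0 < c₂ := by
    have hlt : 2 / 3 < θ := by
      rw [hθ, div_lt_div_iff₀ (by norm_num) h3c]; linarith
    have h1 : 4 / (3 * (d : ℝ)) = (2 * (2 / 3)) / d := by field_simp; norm_num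
    rw [hc₂, hp, h1, ← sub_div]
    apply div_pos _ hd0
    linarith
  have hp0 : 0 ≤ p := by
    have : 0 < 4 / (3 * (d : ℝ)) := by positivity
    linarith
  -- the threshold
  set X₀ : ℝ := max 131072 (4 * ((lam₀ : ℝ) + 1) ^ 2) with hX₀
  obtain ⟨N₀, hN₀⟩ := exists_nat_ge (X₀ ^ d)
  set K : ℝ := max C 1 with hK
  have hK0 : 0 < K := lt_of_lt_of_le one_pos (le_max_right _ _)
  have hK1 : 1 ≤ K := le_max_right _ _
  set A : ℝ := 1 / (4 * d) * (1 / (4 * K)) * (1 / 4) ^ (2 * θ) with hA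
  have hA0 : 0 < A := by positivity
  set B : ℝ := 1 / (((2 * d : ℕ) : ℝ) ^ (N₀ + 1) * ((N₀ : ℝ) + 1) ^ p) with hB
  have hB0 : 0 < B := by
    have h1 : (0 : ℝ) < ((2 * d : ℕ) : ℝ) := by
      have : 0 < 2 * d := by omega
      exact_mod_cast this
    positivity
  refine ⟨c₂, hc₂0, min A B, lt_min hA0 hB0, ?_⟩
  intro N hN
  have hexp : (4 / (3 * d) + c₂ : ℝ) = p := by rw [hc₂]; ring
  rw [hexp]
  change min A B * (N : ℝ) ^ p * ((saF d N).card : ℝ) ≤ Ssq d N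
  have hNpos : (0 : ℝ) < N := by exact_mod_cast hN
  have hNp0 : 0 ≤ (N : ℝ) ^ p := Real.rpow_nonneg hNpos.le _
  have hcard0 : (0 : ℝ) ≤ ((saF d N).card : ℝ) := Nat.cast_nonneg _
  by_cases hbig : N₀ < N
  · -- large N
    have hstep : A * (N : ℝ) ^ p * ((saF d N).card : ℝ) ≤ Ssq d N := by
      set x : ℝ := (N : ℝ) ^ (1 / d : ℝ) with hx
      have hx0 : 0 ≤ x := Real.rpow_nonneg hNpos.le _
      have hxN : x ^ d = N := by
        rw [hx, ← Real.rpow_natCast, ← Real.rpow_mul hNpos.le]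
        rw [one_div, inv_mul_cancel₀ hd0.ne', Real.rpow_one]
      have hX0 : 0 ≤ X₀ := le_trans (by norm_num) (le_max_left _ _)
      have hxX : X₀ ≤ x := by
        by_contra hcon
        push Not at hcon
        have h1 : x ^ d < X₀ ^ d := pow_lt_pow_left₀ hcon hx0 (by omega)
        rw [hxN] at h1
        have h2 : (N₀ : ℝ) < N := by exact_mod_cast hbig
        linarith
      obtain ⟨D₀, lam, hDp, hpow, hl0, hN1, hlD, h38, hD4, hl1, hl2, hlam1⟩ :=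
        scales d hd lam₀ θ x hθ1 hθ2 N hx0 hxN ((le_max_left _ _).trans hxX)
          ((le_max_right _ _).trans hxX)
      have hreach := reach_ge d N D₀ hDp hpow
      have hnear := hnf N lam D₀ hl0 hN1 hlD
      have hDpos : (0 : ℝ) < D₀ := by exact_mod_cast hDp
      have hD1 : (1 : ℝ) ≤ D₀ := by exact_mod_cast hDp
      have hlam1' : (1 : ℝ) ≤ lam := by exact_mod_cast hlam1
      have hlampos : (0 : ℝ) < lam := by linarith
      -- exponent of lam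
      have hle : C * (lam : ℝ) ^ (1 - c) ≤ K * (D₀ : ℝ) ^ (θ * (1 - c₁)) := by
        have h1 : (lam : ℝ) ^ (1 - c) ≤ (lam : ℝ) ^ (1 - c₁) :=
          Real.rpow_le_rpow_of_exponent_le hlam1' (by linarith)
        have h2 : (lam : ℝ) ^ (1 - c₁) ≤ ((D₀ : ℝ) ^ θ) ^ (1 - c₁) :=
          Real.rpow_le_rpow hlampos.le hl1 (by linarith)
        rw [← Real.rpow_mul hDpos.le] at h2
        have h3 : 0 ≤ (lam : ℝ) ^ (1 - c) := Real.rpow_nonneg hlampos.le _
        calc C * (lam : ℝ) ^ (1 - c) ≤ K * (lam : ℝ) ^ (1 - c) :=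
              mul_le_mul_of_nonneg_right (le_max_left _ _) h3
          _ ≤ K * (D₀ : ℝ) ^ (θ * (1 - c₁)) :=
              mul_le_mul_of_nonneg_left (h1.trans h2) hK0.le
      have hDq : 0 < (D₀ : ℝ) ^ (θ * (1 - c₁)) := Real.rpow_pos_of_pos hDpos _
      have hKpos : 0 < K * (D₀ : ℝ) ^ (θ * (1 - c₁)) := mul_pos hK0 hDq
      have hnear' : ((near d N lam D₀).card : ℝ) ≤
          (K * (D₀ : ℝ) ^ (θ * (1 - c₁))) * ((far d N (2 * D₀ - 3 * lam - 8)).card : ℝ) :=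
        hnear.trans (mul_le_mul_of_nonneg_right hle (Nat.cast_nonneg _))
      set r : ℝ := (1 / (4 * K)) * (D₀ : ℝ) ^ (2 * θ) with hr
      have hDr0 : 0 ≤ (D₀ : ℝ) ^ (2 * θ) := Real.rpow_nonneg hDpos.le _
      have hr0 : 0 ≤ r := by positivity
      have hr1 : r ≤ (lam : ℝ) ^ 2 := by
        have h1 : (D₀ : ℝ) ^ (2 * θ) ≤ (2 * (lam : ℝ)) ^ 2 := by
          have h2 : (D₀ : ℝ) ^ (2 * θ) = ((D₀ : ℝ) ^ θ) ^ 2 := by
            rw [← Real.rpow_natCast, ← Real.rpow_mul hDpos.le]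
            congr 1
            push_cast; ring
          rw [h2]
          exact pow_le_pow_left₀ (Real.rpow_nonneg hDpos.le _) hl2 2
        have h3 : r ≤ (1 / 4) * (D₀ : ℝ) ^ (2 * θ) := by
          rw [hr]
          refine mul_le_mul_of_nonneg_right ?_ hDr0
          exact one_div_le_one_div_of_le (by norm_num) (by linarith)
        nlinarith
      have hr2 : r * (K * (D₀ : ℝ) ^ (θ * (1 - c₁))) ≤ (D₀ : ℝ) ^ 2 := by
        have h1 : (D₀ : ℝ) ^ (2 * θ) * (D₀ : ℝ) ^ (θ * (1 - c₁)) = (D₀ : ℝ) ^ 2 := by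
          rw [← Real.rpow_add hDpos, ← Real.rpow_natCast]
          congr 1
          push_cast
          linarith [hθc]
        have h2 : r * (K * (D₀ : ℝ) ^ (θ * (1 - c₁))) =
            (1 / 4) * ((D₀ : ℝ) ^ (2 * θ) * (D₀ : ℝ) ^ (θ * (1 - c₁))) := by
          rw [hr]; field_simp
        rw [h2, h1]
        nlinarith [sq_nonneg (D₀ : ℝ)]
      have hms := main_step d N lam D₀ (K * (D₀ : ℝ) ^ (θ * (1 - c₁))) r hr0
        (by convert hreach using 3) hnear' h38 hr1 hr2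
      -- lower bound for r
      have hrlow : (1 / (4 * K)) * ((1 / 4) ^ (2 * θ) * (N : ℝ) ^ p) ≤ r := by
        rw [hr]
        refine mul_le_mul_of_nonneg_left ?_ (by positivity)
        have h1 : (N : ℝ) ^ p = x ^ (2 * θ) := by
          rw [hx, ← Real.rpow_mul hNpos.le, hp]
          congr 1
          ring
        rw [h1, ← Real.mul_rpow (by norm_num) hx0]
        exact Real.rpow_le_rpow (by positivity) (by linarith) (by linarith)
      have h4d : (0 : ℝ) < 4 * d := by linarith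
      calc A * (N : ℝ) ^ p * ((saF d N).card : ℝ)
          = 1 / (4 * d) * (((1 / (4 * K)) * ((1 / 4) ^ (2 * θ) * (N : ℝ) ^ p)) *
              ((saF d N).card : ℝ)) := by rw [hA]; ring
        _ ≤ 1 / (4 * d) * (r * ((saF d N).card : ℝ)) := by
            refine mul_le_mul_of_nonneg_left ?_ (by positivity)
            exact mul_le_mul_of_nonneg_right hrlow hcard0
        _ ≤ 1 / (4 * d) * (4 * d * Ssq d N) :=
            mul_le_mul_of_nonneg_left hms (by positivity)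
        _ = Ssq d N := by field_simp
    refine le_trans ?_ hstep
    have : min A B * (N : ℝ) ^ p ≤ A * (N : ℝ) ^ p :=
      mul_le_mul_of_nonneg_right (min_le_left _ _) hNp0
    exact mul_le_mul_of_nonneg_right this hcard0
  · -- small N
    push Not at hbig
    have h1 : ((saF d N).card : ℝ) ≤ ((2 * d : ℕ) : ℝ) ^ (N₀ + 1) := by
      have h2 : (saF d N).card ≤ (2 * d) ^ (N₀ + 1) :=
        (saF_card_le d N).trans (Nat.pow_le_pow_right (by omega) (by omega))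
      exact_mod_cast h2
    have h2 : (N : ℝ) ^ p ≤ ((N₀ : ℝ) + 1) ^ p := by
      refine Real.rpow_le_rpow hNpos.le ?_ hp0
      have : (N : ℝ) ≤ N₀ := by exact_mod_cast hbig
      linarith
    have h3 : (0 : ℝ) < ((2 * d : ℕ) : ℝ) ^ (N₀ + 1) * ((N₀ : ℝ) + 1) ^ p := by
      have h1 : (0 : ℝ) < ((2 * d : ℕ) : ℝ) := by
        have : 0 < 2 * d := by omega
        exact_mod_cast this
      positivity
    calc min A B * (N : ℝ) ^ p * ((saF d N).card : ℝ)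
        ≤ B * (N : ℝ) ^ p * ((saF d N).card : ℝ) := by
          refine mul_le_mul_of_nonneg_right ?_ hcard0
          exact mul_le_mul_of_nonneg_right (min_le_right _ _) hNp0
      _ = B * (((saF d N).card : ℝ) * (N : ℝ) ^ p) := by ring
      _ ≤ B * (((2 * d : ℕ) : ℝ) ^ (N₀ + 1) * ((N₀ : ℝ) + 1) ^ p) := by
          refine mul_le_mul_of_nonneg_left ?_ hB0.le
          exact mul_le_mul h1 h2 hNp0 (by positivity)
      _ = 1 := by rw [hB]; field_simp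
      _ ≤ Ssq d N := one_le_Ssq d N hN

end Pool.Agent.SawFold
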