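import Pool.Agent.SawFold.Defs

/-!
Module Scale (real sequences only) of the project Pool.Agent.SawFold.
-/

set_option autoImplicit false
set_option linter.unusedSectionVars false

namespace Pool.Agent.SawFold

open Finset
open scoped BigOperators

namespace ScaleAux

/-- Increments of a monotone sequence. -/
theorem sum_inc (f : ℕ → ℝ) (M : ℕ) (hf : ∀ q, q < M → f q ≤ f (q + 1)) (h0 : 0 ≤ f 0)
    (T : Finset ℕ) (hT : ∀ i ∈ T, i < M) : ∑ i ∈ T, (f (i + 1) - f i) ≤ f M := by
  have h1 : ∑ i ∈ T, (f (i + 1) - f i) ≤ ∑ i ∈ range M, (f (i + 1) - f i) := by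
    apply Finset.sum_le_sum_of_subset_of_nonneg
    · intro i hi
      exact Finset.mem_range.2 (hT i hi)
    · intro i hi _
      have := hf i (Finset.mem_range.1 hi)
      linarith
  rw [Finset.sum_range_sub] at h1
  linarith

theorem tele (f : ℕ → ℝ) (M : ℕ) (hf : ∀ q, q < M → f q ≤ f (q + 1)) (h0 : 0 ≤ f 0)
    (S : Finset ℕ) (p q : ℕ) (hS : ∀ m ∈ S, q ≤ m ∧ m + p ≤ M) :
    ∑ m ∈ S, (f (m + p) - f (m - q)) ≤ ((p + q : ℕ) : ℝ) * f M := by
  have h1 : ∑ m ∈ S, (f (m + p) - f (m - q)) =
      ∑ m ∈ S, ∑ t ∈ range (p + q), (f (m - q + t + 1) - f (m - q + t)) := by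
    apply Finset.sum_congr rfl
    intro m hm
    obtain ⟨h2, h3⟩ := hS m hm
    have h4 := Finset.sum_range_sub (fun t => f (m - q + t)) (p + q)
    have e1 : m - q + (p + q) = m + p := by omega
    simp only [e1, add_zero, ← add_assoc] at h4
    exact h4.symm
  rw [h1, Finset.sum_comm]
  have h5 : ∀ t ∈ range (p + q), ∑ m ∈ S, (f (m - q + t + 1) - f (m - q + t)) ≤ f M := by
    intro t ht
    rw [Finset.mem_range] at ht
    have h6 : ∑ m ∈ S, (f (m - q + t + 1) - f (m - q + t)) =
        ∑ i ∈ S.image (fun m => m - q + t), (f (i + 1) - f i) := by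
      rw [Finset.sum_image]
      intro x hx y hy hxy
      have := hS x hx
      have := hS y hy
      simp only at hxy
      omega
    rw [h6]
    apply sum_inc f M hf h0
    intro i hi
    rw [Finset.mem_image] at hi
    obtain ⟨m, hm, rfl⟩ := hi
    have := hS m hm
    omega
  calc _ ≤ ∑ _t ∈ range (p + q), f M := Finset.sum_le_sum h5
    _ = _ := by rw [Finset.sum_const, Finset.card_range, nsmul_eq_mul]

open Classical in
theorem markov (S : Finset ℕ) (g : ℕ → ℝ) (hg : ∀ m ∈ S, 0 ≤ g m) (c : ℝ) :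
    c * ((S.filter fun m => c < g m).card : ℝ) ≤ ∑ m ∈ S, g m := by
  calc c * ((S.filter fun m => c < g m).card : ℝ) = ∑ _m ∈ S.filter fun m => c < g m, c := by
        rw [Finset.sum_const, nsmul_eq_mul, mul_comm]
    _ ≤ ∑ m ∈ S.filter fun m => c < g m, g m := by
        apply Finset.sum_le_sum
        intro m hm
        exact (Finset.mem_filter.1 hm).2.le
    _ ≤ _ := by
        apply Finset.sum_le_sum_of_subset_of_nonneg (Finset.filter_subset _ _)
        intro m hm _
        exact hg m hm

/-- Bad positions. -/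
def Bad (κ : ℝ) (a : ℕ → ℝ) (x : ℕ) : Prop :=
  (∃ s ≤ x, κ * ((x : ℝ) - s) < a x - a s) ∨ κ * ((x : ℝ) + 1) < a x

open Classical in
theorem bad_card (κ : ℝ) (hκ : 0 < κ) (a : ℕ → ℝ) (M : ℕ) (ha : ∀ q, q < M → a q ≤ a (q + 1))
    (h0 : 0 ≤ a 0) : ∀ x, x ≤ M → κ * (((range (x + 1)).filter (Bad κ a)).card : ℝ) ≤ a x := by
  intro x
  induction x using Nat.strong_induction_on with
  | _ x ih =>
    intro hx
    by_cases hb : Bad κ a x
    · rcases hb with ⟨s, hs, h1⟩ | h1
      · have hs' : s < x := by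
          rcases Nat.lt_or_ge s x with h | h
          · exact h
          · have : s = x := le_antisymm hs h
            subst this
            simp at h1
        have h2 := ih s hs' (by omega)
        have h3 : ((range (x + 1)).filter (Bad κ a)).card ≤
            ((range (s + 1)).filter (Bad κ a)).card + (x - s) := by
          have h4 : (range (x + 1)).filter (Bad κ a) ⊆
              (range (s + 1)).filter (Bad κ a) ∪ Ico (s + 1) (x + 1) := by
            intro y hy
            rw [Finset.mem_filter, Finset.mem_range] at hy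
            rw [Finset.mem_union, Finset.mem_filter, Finset.mem_range, Finset.mem_Ico]
            rcases Nat.lt_or_ge y (s + 1) with h | h
            · exact Or.inl ⟨h, hy.2⟩
            · exact Or.inr ⟨h, hy.1⟩
          refine (Finset.card_le_card h4).trans ((Finset.card_union_le _ _).trans ?_)
          rw [Nat.card_Ico]
          omega
        have h5 : (((range (x + 1)).filter (Bad κ a)).card : ℝ) ≤
            (((range (s + 1)).filter (Bad κ a)).card : ℝ) + ((x : ℝ) - s) := by
          have : (((range (x + 1)).filter (Bad κ a)).card : ℝ) ≤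
            ((((range (s + 1)).filter (Bad κ a)).card + (x - s) : ℕ) : ℝ) := by
            exact_mod_cast h3
          rw [Nat.cast_add, Nat.cast_sub hs] at this
          exact this
        have h6 := mul_le_mul_of_nonneg_left h5 hκ.le
        rw [mul_add] at h6
        linarith
      · have h3 : ((range (x + 1)).filter (Bad κ a)).card ≤ x + 1 := by
          refine (Finset.card_filter_le _ _).trans ?_
          rw [Finset.card_range]
        have h4 : (((range (x + 1)).filter (Bad κ a)).card : ℝ) ≤ (x : ℝ) + 1 := by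
          exact_mod_cast h3
        have h5 := mul_le_mul_of_nonneg_left h4 hκ.le
        linarith
    · have h1 : (range (x + 1)).filter (Bad κ a) = (range x).filter (Bad κ a) := by
        rw [Finset.range_add_one, Finset.filter_insert, if_neg hb]
      rw [h1]
      rcases Nat.eq_zero_or_pos x with h2 | h2
      · subst h2
        simpa using h0
      · obtain ⟨y, rfl⟩ := Nat.exists_eq_succ_of_ne_zero h2.ne'
        have h3 := ih y (Nat.lt_succ_self y) (by omega)
        have h4 := ha y (by omega)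
        simp only [Nat.succ_eq_add_one]
        linarith

end ScaleAux

theorem scale_select (C₂ κ : ℝ) (hC₂ : 0 < C₂) (hκ : 0 < κ) : ∃ ε > (0 : ℝ), ∃ M₀ : ℕ, ∀ M ≥ M₀,
    ∀ a b h : ℕ → ℝ, (∀ q, q < M → a q ≤ a (q + 1)) → (∀ q, q < M → b q ≤ b (q + 1)) →
      (∀ q, q < M → h q ≤ h (q + 1)) → 0 ≤ a 0 → 0 ≤ b 0 → 0 ≤ h 0 →
      a M ≤ ε * M → b M ≤ 2 * ε * M → h M ≤ C₂ * M →
      ∃ m : ℕ, 12 ≤ m ∧ M ≤ 2 * m ∧ m + 10 ≤ M ∧
        (∀ s ≤ m + 10, a (m + 10) - a s ≤ κ * ((m : ℝ) + 10 - s)) ∧
        a (m + 10) ≤ κ * (m + 11) ∧ b (m + 1) - b (m - 3) ≤ κ ∧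
        h (m + 10) - h (m - 6) ≤ 128 * C₂ := by
  classical
  refine ⟨κ / 200, by positivity, 100, ?_⟩
  intro M hM a b h ha hb hh ha0 hb0 hh0 haM hbM hhM
  by_contra hcon
  push Not at hcon
  obtain ⟨S, hSdef⟩ : ∃ S : Finset ℕ, S = Icc ((M + 1) / 2) (M - 10) := ⟨_, rfl⟩
  have hS : ∀ m ∈ S, 12 ≤ m ∧ M ≤ 2 * m ∧ m + 10 ≤ M := by
    intro m hm
    rw [hSdef, Finset.mem_Icc] at hm
    omega
  have hScard : M ≤ 2 * S.card + 20 := by
    rw [hSdef, Nat.card_Icc]
    omega
  -- the three bad sets
  obtain ⟨B1, hB1⟩ : ∃ B : Finset ℕ, B = S.filter (fun m => ScaleAux.Bad κ a (m + 10)) := ⟨_, rfl⟩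
  obtain ⟨B2, hB2⟩ : ∃ B : Finset ℕ, B = S.filter (fun m => κ < b (m + 1) - b (m - 3)) := ⟨_, rfl⟩
  obtain ⟨B3, hB3⟩ : ∃ B : Finset ℕ, B = S.filter (fun m => 128 * C₂ < h (m + 10) - h (m - 6)) :=
    ⟨_, rfl⟩
  have hcover : S ⊆ B1 ∪ B2 ∪ B3 := by
    intro m hm
    obtain ⟨h1, h2, h3⟩ := hS m hm
    rw [Finset.mem_union, Finset.mem_union, hB1, hB2, hB3, Finset.mem_filter, Finset.mem_filter,
      Finset.mem_filter]
    by_cases g1 : ScaleAux.Bad κ a (m + 10)
    · exact Or.inl (Or.inl ⟨hm, g1⟩)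
    by_cases g2 : κ < b (m + 1) - b (m - 3)
    · exact Or.inl (Or.inr ⟨hm, g2⟩)
    right
    refine ⟨hm, ?_⟩
    unfold ScaleAux.Bad at g1
    push Not at g1
    obtain ⟨g3, g4⟩ := g1
    push_cast at g3 g4
    refine hcon m h1 h2 h3 ?_ ?_ (not_lt.1 g2)
    · intro s hs
      exact g3 s hs
    · have : κ * ((m : ℝ) + 10 + 1) = κ * (m + 11) := by ring
      rw [← this]
      exact g4
  have hcard : S.card ≤ B1.card + B2.card + B3.card :=
    (Finset.card_le_card hcover).trans ((Finset.card_union_le _ _).trans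
      (Nat.add_le_add_right (Finset.card_union_le _ _) _))
  have c1 : κ * (B1.card : ℝ) ≤ κ / 200 * M := by
    have h1 := ScaleAux.bad_card κ hκ a M ha ha0 M le_rfl
    have h2 : B1.card ≤ ((range (M + 1)).filter (ScaleAux.Bad κ a)).card := by
      rw [hB1]
      apply Finset.card_le_card_of_injOn (fun m => m + 10)
      · intro m hm
        rw [Finset.mem_coe, Finset.mem_filter] at hm
        rw [Finset.mem_coe, Finset.mem_filter, Finset.mem_range]
        have := hS m hm.1
        refine ⟨?_, hm.2⟩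
        show m + 10 < M + 1
        omega
      · intro x _ y _ hxy
        simp only at hxy
        omega
    have h3 : (B1.card : ℝ) ≤ (((range (M + 1)).filter (ScaleAux.Bad κ a)).card : ℝ) := by
      exact_mod_cast h2
    have h4 := mul_le_mul_of_nonneg_left h3 hκ.le
    linarith
  have mono : ∀ f : ℕ → ℝ, (∀ q, q < M → f q ≤ f (q + 1)) → ∀ u v, u ≤ v → v ≤ M →
      f u ≤ f v := by
    intro f hf u v huv
    induction v, huv using Nat.le_induction with
    | base => intro _; exact le_rfl
    | succ v _ ih =>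
      intro hv
      exact (ih (by omega)).trans (hf v (by omega))
  have c2 : κ * (B2.card : ℝ) ≤ 4 * (2 * (κ / 200) * M) := by
    have h1 := ScaleAux.markov S (fun m => b (m + 1) - b (m - 3)) (by
      intro m hm
      have := hS m hm
      have := mono b hb (m - 3) (m + 1) (by omega) (by omega)
      linarith) κ
    have h2 := ScaleAux.tele b M hb hb0 S 1 3 (by
      intro m hm
      have := hS m hm
      omega)
    rw [← hB2] at h1
    push_cast at h2
    linarith
  have c3 : 128 * C₂ * (B3.card : ℝ) ≤ 16 * (C₂ * M) := by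
    have h1 := ScaleAux.markov S (fun m => h (m + 10) - h (m - 6)) (by
      intro m hm
      have := hS m hm
      have := mono h hh (m - 6) (m + 10) (by omega) (by omega)
      linarith) (128 * C₂)
    have h2 := ScaleAux.tele h M hh hh0 S 10 6 (by
      intro m hm
      have := hS m hm
      omega)
    rw [← hB3] at h1
    push_cast at h2
    linarith
  have d1 : (B1.card : ℝ) ≤ M / 200 := by
    have : κ / 200 * M = κ * (M / 200) := by ring
    rw [this] at c1
    exact le_of_mul_le_mul_left c1 hκ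
  have d2 : (B2.card : ℝ) ≤ M / 25 := by
    have : 4 * (2 * (κ / 200) * M) = κ * (M / 25) := by ring
    rw [this] at c2
    exact le_of_mul_le_mul_left c2 hκ
  have d3 : (B3.card : ℝ) ≤ M / 8 := by
    have : 16 * (C₂ * M) = 128 * C₂ * (M / 8) := by ring
    rw [this] at c3
    exact le_of_mul_le_mul_left c3 (by positivity)
  have e1 : (S.card : ℝ) ≤ B1.card + B2.card + B3.card := by exact_mod_cast hcard
  have e2 : (M : ℝ) ≤ 2 * S.card + 20 := by exact_mod_cast hScard
  have e3 : (100 : ℝ) ≤ M := by exact_mod_cast hM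
  linarith

end Pool.Agent.SawFold
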