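import Pool.Agent.SawFold.Comb
import Pool.Agent.SawFold.FarP
import Pool.Agent.SawFold.Scale

/-!
Module IID (main theorem for independent blocks) of the project Pool.Agent.SawFold.
-/

set_option autoImplicit false
set_option linter.unusedSectionVars false
set_option linter.unusedVariables false

namespace Pool.Agent.SawFold

open Finset
open scoped BigOperators

namespace IIDAux

variable {d : ℕ} [NeZero d] (W : BlockSys d)

theorem slope_bound (m n s : ℕ) (hm : 12 ≤ m) (hn : 2 ^ (m - 5) ≤ n) (C : ℝ)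
    (hC : Hv W (2 ^ (m + 10)) - Hv W (2 ^ (m - 6)) ≤ C) :
    Hv W (n + s) - Hv W n ≤ (s : ℝ) / 2 ^ m * (64 * C) := by
  have h5 : 2 * 2 ^ (m - 6) = 2 ^ (m - 5) := by
    have : m - 5 = (m - 6) + 1 := by omega
    rw [this, pow_succ]; ring
  have h1 := Hv_slope W (2 ^ (m - 6)) n s (by positivity) (by rw [h5]; exact hn)
  have h2 : Hv W (2 * 2 ^ (m - 6)) ≤ Hv W (2 ^ (m + 10)) := by
    apply Hv_mono
    rw [h5]
    exact Nat.pow_le_pow_right (by norm_num) (by omega)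
  have h6 : (2 : ℝ) ^ m = 2 ^ (m - 6) * 64 := by
    have : m = (m - 6) + 6 := by omega
    conv_lhs => rw [this]
    rw [pow_add]; norm_num
  refine h1.trans ?_
  have h3 : ((2 ^ (m - 6) : ℕ) : ℝ) = 2 ^ (m - 6) := by push_cast; rfl
  have h4 : (s : ℝ) / 2 ^ m * (64 * C) = (s : ℝ) / 2 ^ (m - 6) * C := by
    rw [h6]
    field_simp
  rw [h4, h3]
  apply mul_le_mul_of_nonneg_left _ (by positivity)
  linarith

theorem exp_sqrt (κ : ℝ) (h0 : 0 ≤ κ) (h1 : κ ≤ 1 / 20) : Real.exp κ * Real.sqrt (1 / 2) ≤ 3 / 4 := by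
  have he : Real.exp κ ≤ 1 / (1 - κ) := by
    have := Real.one_sub_le_exp_neg κ
    rw [Real.exp_neg] at this
    have hp := Real.exp_pos κ
    rw [le_div_iff₀ (by linarith)]
    have h2 : (1 - κ) * Real.exp κ ≤ (Real.exp κ)⁻¹ * Real.exp κ :=
      mul_le_mul_of_nonneg_right this hp.le
    rw [inv_mul_cancel₀ hp.ne'] at h2
    linarith
  have he' : Real.exp κ ≤ 20 / 19 := by
    refine he.trans ?_
    rw [div_le_div_iff₀ (by linarith) (by norm_num)]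
    linarith
  have hs : Real.sqrt (1 / 2) ≤ 71 / 100 := by
    rw [Real.sqrt_le_left (by norm_num)]
    norm_num
  calc Real.exp κ * Real.sqrt (1 / 2) ≤ (20 / 19) * (71 / 100) := by
        apply mul_le_mul he' hs (Real.sqrt_nonneg _) (by norm_num)
    _ ≤ 3 / 4 := by norm_num

theorem geo_term (κ : ℝ) (h0 : 0 ≤ κ) (h1 : κ ≤ 1 / 20) (m s : ℕ) (h : s ≤ m) :
    Real.exp (κ * ((m : ℝ) - s)) * Real.sqrt (2 ^ s / 2 ^ m) ≤ (3 / 4) ^ (m - s) := by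
  obtain ⟨u, rfl⟩ : ∃ u, m = s + u := ⟨m - s, by omega⟩
  have h2 : (2 : ℝ) ^ s / 2 ^ (s + u) = (1 / 2) ^ u := by
    rw [pow_add, div_pow, one_pow]
    field_simp
  have h3 : Real.sqrt ((1 / 2 : ℝ) ^ u) = (Real.sqrt (1 / 2)) ^ u := by
    rw [Real.sqrt_eq_iff_mul_self_eq (by positivity) (by positivity)]
    rw [← mul_pow, Real.mul_self_sqrt (by norm_num)]
  have h4 : Real.exp (κ * (((s + u : ℕ) : ℝ) - s)) = (Real.exp κ) ^ u := by
    rw [← Real.exp_nat_mul]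
    congr 1
    push_cast
    ring
  rw [h2, h3, h4, ← mul_pow, Nat.add_sub_cancel_left]
  exact pow_le_pow_left₀ (by positivity) (exp_sqrt κ h0 h1) u

theorem geo_sum (j : ℕ) : ∑ s ∈ range j, (3 / 4 : ℝ) ^ (j - s) ≤ 3 := by
  induction j with
  | zero => simp
  | succ j ih =>
    rw [sum_range_succ]
    have : ∑ s ∈ range j, (3 / 4 : ℝ) ^ (j + 1 - s) = (3 / 4) * ∑ s ∈ range j, (3 / 4 : ℝ) ^ (j - s) := by
      rw [mul_sum]
      apply sum_congr rfl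
      intro s hs
      have hs' := mem_range.mp hs
      have : j + 1 - s = (j - s) + 1 := by omega
      rw [this, pow_succ]; ring
    rw [this, Nat.add_sub_cancel_left]
    linarith

theorem geo_sum' (j t : ℕ) :
    ∑ s ∈ range j, (3 / 4 : ℝ) ^ (j + t - s) ≤ 3 * (3 / 4) ^ t := by
  have : ∑ s ∈ range j, (3 / 4 : ℝ) ^ (j + t - s) =
      (∑ s ∈ range j, (3 / 4 : ℝ) ^ (j - s)) * (3 / 4) ^ t := by
    rw [sum_mul]
    apply sum_congr rfl
    intro s hs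
    have hs' := mem_range.mp hs
    have : j + t - s = (j - s) + t := by omega
    rw [this, pow_add]
  rw [this]
  exact mul_le_mul_of_nonneg_right (geo_sum j) (by positivity)

/-- The hypotheses on a scale. -/
structure Sc (κ C : ℝ) (m : ℕ) : Prop where
  h0 : 0 ≤ κ
  h1 : κ ≤ 1 / 20
  hC : 0 ≤ C
  hm : 12 ≤ m
  pos : 0 < pf W (2 ^ (m + 10))
  a : ∀ s ≤ m + 10, pf W (2 ^ s) ≤ Real.exp (κ * ((m : ℝ) + 10 - s)) * pf W (2 ^ (m + 10))
  b : 1 ≤ Real.exp (κ * ((m : ℝ) + 11)) * pf W (2 ^ (m + 10))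
  c : Hv W (2 ^ (m + 10)) - Hv W (2 ^ (m - 6)) ≤ C

variable {W}

theorem Sc.e11 {κ C : ℝ} {m : ℕ} (H : Sc W κ C m) : Real.exp (κ * 11) ≤ 2 := by
  have h := H.h0
  have h' := H.h1
  have h2 : Real.exp (κ * 11) ≤ Real.exp (Real.log 2) := by
    apply Real.exp_le_exp.mpr
    have := Real.log_two_gt_d9
    linarith
  rw [Real.exp_log (by norm_num)] at h2
  exact h2

/-- `pf (2 ^ s) * sqrt (2 ^ s / 2 ^ m)` is small. -/
theorem Sc.term {κ C : ℝ} {m : ℕ} (H : Sc W κ C m) (k : ℕ) (hk : k ≤ m + 10) (s : ℕ)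
    (hs : s ≤ m) : pf W (2 ^ s) * Real.sqrt (2 ^ s / 2 ^ m) ≤ 2 * (3 / 4) ^ (m - s) * pf W (2 ^ k) := by
  have h1 := H.a s (by omega)
  have h2 := geo_term κ H.h0 H.h1 m s hs
  have h3 : pf W (2 ^ (m + 10)) ≤ pf W (2 ^ k) :=
    pf_anti W (Nat.pow_le_pow_right (by norm_num) hk)
  have h4 : Real.exp (κ * ((m : ℝ) + 10 - s)) ≤ 2 * Real.exp (κ * ((m : ℝ) - s)) := by
    have : κ * ((m : ℝ) + 10 - s) = κ * 10 + κ * ((m : ℝ) - s) := by ring
    rw [this, Real.exp_add]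
    apply mul_le_mul_of_nonneg_right _ (Real.exp_pos _).le
    refine le_trans ?_ H.e11
    apply Real.exp_le_exp.mpr
    have := H.h0
    linarith
  have h5 := H.pos
  have h6 := Real.sqrt_nonneg ((2 : ℝ) ^ s / 2 ^ m)
  have hE := Real.exp_pos (κ * ((m : ℝ) - s))
  calc pf W (2 ^ s) * Real.sqrt (2 ^ s / 2 ^ m)
      ≤ (2 * Real.exp (κ * ((m : ℝ) - s)) * pf W (2 ^ k)) * Real.sqrt (2 ^ s / 2 ^ m) := by
        apply mul_le_mul_of_nonneg_right _ h6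
        refine h1.trans ?_
        exact mul_le_mul h4 h3 h5.le (by positivity)
    _ = 2 * (Real.exp (κ * ((m : ℝ) - s)) * Real.sqrt (2 ^ s / 2 ^ m)) * pf W (2 ^ k) := by ring
    _ ≤ 2 * (3 / 4) ^ (m - s) * pf W (2 ^ k) := by
        apply mul_le_mul_of_nonneg_right _ (h5.le.trans h3)
        linarith

theorem Sc.term0 {κ C : ℝ} {m : ℕ} (H : Sc W κ C m) (k : ℕ) (hk : k ≤ m + 10) :
    Real.sqrt (1 / 2 ^ m) ≤ 2 * (3 / 4) ^ m * pf W (2 ^ k) := by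
  have h1 := H.b
  have h2 := geo_term κ H.h0 H.h1 m 0 (by omega)
  have h3 : pf W (2 ^ (m + 10)) ≤ pf W (2 ^ k) :=
    pf_anti W (Nat.pow_le_pow_right (by norm_num) hk)
  have h4 : Real.exp (κ * ((m : ℝ) + 11)) ≤ 2 * Real.exp (κ * ((m : ℝ) - (0 : ℕ))) := by
    have : κ * ((m : ℝ) + 11) = κ * 11 + κ * ((m : ℝ) - (0 : ℕ)) := by push_cast; ring
    rw [this, Real.exp_add]
    exact mul_le_mul_of_nonneg_right H.e11 (Real.exp_pos _).le
  have h5 := H.pos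
  rw [pow_zero, Nat.sub_zero] at h2
  have h6 := Real.sqrt_nonneg ((1 : ℝ) / 2 ^ m)
  have hE := Real.exp_pos (κ * ((m : ℝ) - (0 : ℕ)))
  calc Real.sqrt (1 / 2 ^ m) = 1 * Real.sqrt (1 / 2 ^ m) := by ring
    _ ≤ (2 * Real.exp (κ * ((m : ℝ) - (0 : ℕ))) * pf W (2 ^ k)) * Real.sqrt (1 / 2 ^ m) := by
        apply mul_le_mul_of_nonneg_right _ h6
        refine h1.trans ?_
        exact mul_le_mul h4 h3 h5.le (by positivity)
    _ = 2 * (Real.exp (κ * ((m : ℝ) - (0 : ℕ))) * Real.sqrt (1 / 2 ^ m)) * pf W (2 ^ k) := by ring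
    _ ≤ 2 * (3 / 4) ^ m * pf W (2 ^ k) := by
        apply mul_le_mul_of_nonneg_right _ (h5.le.trans h3)
        linarith

theorem Sc.sum {κ C : ℝ} {m : ℕ} (H : Sc W κ C m) (k : ℕ) (hk : k ≤ m + 10) (j t : ℕ)
    (hj : j + t = m) : Real.sqrt (1 / 2 ^ m) + ∑ s ∈ range j, pf W (2 ^ s) * Real.sqrt (2 ^ s / 2 ^ m) ≤
      8 * (3 / 4) ^ t * pf W (2 ^ k) := by
  have hp : 0 ≤ pf W (2 ^ k) := pf_nonneg W _
  have h1 : ∑ s ∈ range j, pf W (2 ^ s) * Real.sqrt (2 ^ s / 2 ^ m) ≤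
      ∑ s ∈ range j, 2 * (3 / 4) ^ (j + t - s) * pf W (2 ^ k) := by
    apply sum_le_sum
    intro s hs
    have hs' := mem_range.mp hs
    rw [hj]
    exact H.term k hk s (by omega)
  have h2 : ∑ s ∈ range j, 2 * (3 / 4) ^ (j + t - s) * pf W (2 ^ k) =
      2 * (∑ s ∈ range j, (3 / 4 : ℝ) ^ (j + t - s)) * pf W (2 ^ k) := by
    rw [mul_sum, sum_mul]
  have h3 := geo_sum' j t
  have h4 := H.term0 k hk
  have h5 : (3 / 4 : ℝ) ^ m ≤ (3 / 4) ^ t :=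
    pow_le_pow_of_le_one (by norm_num) (by norm_num) (by omega)
  have h6 : 2 * (∑ s ∈ range j, (3 / 4 : ℝ) ^ (j + t - s)) * pf W (2 ^ k) ≤
      2 * (3 * (3 / 4) ^ t) * pf W (2 ^ k) := by
    apply mul_le_mul_of_nonneg_right _ hp
    linarith
  have h7 : 2 * (3 / 4) ^ m * pf W (2 ^ k) ≤ 2 * (3 / 4) ^ t * pf W (2 ^ k) := by
    apply mul_le_mul_of_nonneg_right _ hp
    linarith
  calc _ ≤ 2 * (3 / 4) ^ t * pf W (2 ^ k) + 2 * (3 * (3 / 4) ^ t) * pf W (2 ^ k) := by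
        linarith
    _ = 8 * (3 / 4) ^ t * pf W (2 ^ k) := by ring

theorem Sc.eta {κ C : ℝ} {m : ℕ} (H : Sc W κ C m) (j t : ℕ) (hj : j + t = m) (n : ℕ)
    (hn : 2 ^ (m - 5) ≤ n) :
    etaF W (2 ^ j) n ≤ 16 * Real.sqrt (64 * C) * (3 / 4) ^ t * pf W (2 ^ j) := by
  have h1 := etaF_le W j n
  have h2 : ∀ s : ℕ, Real.sqrt (Hv W (n + s) - Hv W n) ≤
      Real.sqrt ((s : ℝ) / 2 ^ m) * Real.sqrt (64 * C) := by
    intro s
    rw [← Real.sqrt_mul (by positivity)]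
    exact Real.sqrt_le_sqrt (slope_bound W m n s H.hm hn C H.c)
  have h3 := h2 1
  have h4 : ∑ s ∈ range j, 2 * pf W (2 ^ s) * Real.sqrt (Hv W (n + 2 ^ s) - Hv W n) ≤
      ∑ s ∈ range j, 2 * pf W (2 ^ s) * (Real.sqrt ((2 : ℝ) ^ s / 2 ^ m) * Real.sqrt (64 * C)) := by
    apply sum_le_sum
    intro s _
    have := h2 (2 ^ s)
    push_cast at this
    exact mul_le_mul_of_nonneg_left this (by have := pf_nonneg W (2 ^ s); positivity)
  have h5 : ∑ s ∈ range j, 2 * pf W (2 ^ s) * (Real.sqrt ((2 : ℝ) ^ s / 2 ^ m) * Real.sqrt (64 * C)) =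
      2 * Real.sqrt (64 * C) * ∑ s ∈ range j, pf W (2 ^ s) * Real.sqrt ((2 : ℝ) ^ s / 2 ^ m) := by
    rw [mul_sum]
    apply sum_congr rfl
    intro s _
    ring
  have h6 := H.sum j (by omega) j t hj
  push_cast at h3
  have hs := Real.sqrt_nonneg (64 * C)
  calc etaF W (2 ^ j) n ≤ 2 * Real.sqrt (64 * C) * (Real.sqrt (1 / 2 ^ m) +
        ∑ s ∈ range j, pf W (2 ^ s) * Real.sqrt ((2 : ℝ) ^ s / 2 ^ m)) := by
        rw [mul_add, ← h5]
        linarith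
    _ ≤ 2 * Real.sqrt (64 * C) * (8 * (3 / 4) ^ t * pf W (2 ^ j)) := by
        apply mul_le_mul_of_nonneg_left h6 (by positivity)
    _ = _ := by ring

theorem Sc.arm {κ C : ℝ} {m : ℕ} (H : Sc W κ C m) (j t : ℕ) (hj : j + t = m) (n : ℕ)
    (hn : 2 ^ (m - 5) ≤ n) :
    armA W j n ≤ 1024 * (3 / 4) ^ t * pf W (2 ^ j) := by
  have hn' : (2 : ℝ) ^ m / 32 ≤ n := by
    have h : ((2 ^ (m - 5) : ℕ) : ℝ) ≤ n := by exact_mod_cast hn
    push_cast at h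
    refine le_trans (le_of_eq ?_) h
    have hm := H.hm
    have : m = (m - 5) + 5 := by omega
    conv_lhs => rw [this]
    rw [pow_add]; norm_num
  have hm0 : (0 : ℝ) < 2 ^ m := by positivity
  have hsq : ∀ x : ℝ, 0 ≤ x → x ≤ 1 → x ≤ Real.sqrt x := by
    intro x hx0 hx1
    apply Real.le_sqrt_of_sq_le
    nlinarith
  have h1 : 4 / (1 + n : ℝ) ≤ 128 * Real.sqrt (1 / 2 ^ m) := by
    have h2 : (1 : ℝ) / 2 ^ m ≤ Real.sqrt (1 / 2 ^ m) := by
      apply hsq _ (by positivity)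
      rw [div_le_one hm0]
      exact one_le_pow₀ (by norm_num)
    have h3 : 4 / (1 + n : ℝ) ≤ 128 * (1 / 2 ^ m) := by
      rw [mul_one_div, div_le_div_iff₀ (by positivity) hm0]
      linarith
    linarith
  have h2 : ∀ s ∈ range j, pf W (2 ^ s) * (4 * 2 ^ s / (2 ^ s + n : ℝ)) ≤
      128 * (pf W (2 ^ s) * Real.sqrt (2 ^ s / 2 ^ m)) := by
    intro s hs
    have hs' := mem_range.mp hs
    have hs2 : (0 : ℝ) < 2 ^ s := by positivity
    have h3 : (2 : ℝ) ^ s / 2 ^ m ≤ Real.sqrt (2 ^ s / 2 ^ m) := by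
      apply hsq _ (by positivity)
      rw [div_le_one hm0]
      exact pow_le_pow_right₀ (by norm_num) (by omega)
    have h4 : 4 * 2 ^ s / (2 ^ s + n : ℝ) ≤ 128 * (2 ^ s / 2 ^ m) := by
      rw [← mul_div_assoc, div_le_div_iff₀ (by positivity) hm0]
      nlinarith
    calc pf W (2 ^ s) * (4 * 2 ^ s / (2 ^ s + n : ℝ)) ≤
          pf W (2 ^ s) * (128 * Real.sqrt (2 ^ s / 2 ^ m)) := by
          apply mul_le_mul_of_nonneg_left _ (pf_nonneg W _)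
          linarith
      _ = _ := by ring
  have h3 := sum_le_sum h2
  rw [← mul_sum] at h3
  have h6 := H.sum j (by omega) j t hj
  unfold armA
  calc _ ≤ 128 * (Real.sqrt (1 / 2 ^ m) +
        ∑ s ∈ range j, pf W (2 ^ s) * Real.sqrt ((2 : ℝ) ^ s / 2 ^ m)) := by
        rw [mul_add]
        linarith
    _ ≤ 128 * (8 * (3 / 4) ^ t * pf W (2 ^ j)) := by
        apply mul_le_mul_of_nonneg_left h6 (by norm_num)
    _ = _ := by ring

theorem Sc.pf_ge {κ C : ℝ} {m : ℕ} (H : Sc W κ C m) (t : ℕ) (ht : t ≤ m) (s : ℕ) (hs : s ≤ m + 10) :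
    (1 - κ * (t + 10)) * pf W (2 ^ (m - t)) ≤ pf W (2 ^ s) := by
  have h1 := H.a (m - t) (by omega)
  have h2 : pf W (2 ^ (m + 10)) ≤ pf W (2 ^ s) :=
    pf_anti W (Nat.pow_le_pow_right (by norm_num) hs)
  have h3 : κ * ((m : ℝ) + 10 - ((m - t : ℕ) : ℝ)) = κ * (t + 10) := by
    rw [Nat.cast_sub ht]; ring
  rw [h3] at h1
  have h4 := Real.one_sub_le_exp_neg (κ * (t + 10))
  have h5 : Real.exp (-(κ * (t + 10))) * (Real.exp (κ * (t + 10)) * pf W (2 ^ (m + 10))) =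
      pf W (2 ^ (m + 10)) := by
    rw [← mul_assoc, ← Real.exp_add]; simp
  have hp : 0 ≤ pf W (2 ^ (m - t)) := pf_nonneg W _
  calc (1 - κ * (t + 10)) * pf W (2 ^ (m - t)) ≤
        Real.exp (-(κ * (t + 10))) * pf W (2 ^ (m - t)) := mul_le_mul_of_nonneg_right h4 hp
    _ ≤ Real.exp (-(κ * (t + 10))) * (Real.exp (κ * (t + 10)) * pf W (2 ^ (m + 10))) :=
        mul_le_mul_of_nonneg_left h1 (Real.exp_pos _).le
    _ = pf W (2 ^ (m + 10)) := h5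
    _ ≤ _ := h2

theorem Sc.pair {κ C : ℝ} {m : ℕ} (H : Sc W κ C m) (t : ℕ) (ht : 6 ≤ t) (htm : t ≤ m) (q : ℝ)
    (hq0 : 0 < q) (hq3 : q ≤ 1 / 50) (h1 : 16 * Real.sqrt (64 * C) * (3 / 4) ^ t ≤ q / 3)
    (h1a : 16 * Real.sqrt (64 * C) * (3 / 4) ^ t ≤ 1 / 400)
    (h1b : 1024 * (3 / 4 : ℝ) ^ t ≤ 1 / 200) (h2 : κ * (t + 10) ≤ q / 3)
    (h3 : ∀ n, 2 ^ (m - 5) ≤ n → shN W n e ≤ q / 3)
    (h4 : 2 * C + Real.log 2 ≤ (1 / 20) * Real.log (1 / q)) (n : ℕ) (hn1 : 2 ^ (m - 4) < n)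
    (hn2 : n < 2 ^ (m + 1)) :
    3 * p2 W (2 ^ (m + 9)) n - (2 + 1 / 4) * pf W (2 ^ (m - t)) ^ 2 ≤ pz W (2 ^ (m + 9)) n := by
  have hm := H.hm
  obtain ⟨j, hj⟩ : ∃ j, m - t = j := ⟨_, rfl⟩
  have hjt : j + t = m := by omega
  have hk2 : 2 * 2 ^ j ≤ 2 ^ (m - 5) := by
    rw [← pow_succ']
    exact Nat.pow_le_pow_right (by norm_num) (by omega)
  have h54 : 2 ^ (m - 4) = 2 * 2 ^ (m - 5) := by
    rw [← pow_succ']
    congr 1; omega
  have h9 : 2 ^ (m + 9) = 256 * 2 ^ (m + 1) := by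
    rw [show m + 9 = (m + 1) + 8 by omega, pow_add]; ring
  have h10 : 2 ^ (m + 10) = 2 * 2 ^ (m + 9) := by
    rw [show m + 10 = (m + 9) + 1 by omega, pow_succ]; ring
  have h5m : 2 ^ (m + 1) = 64 * 2 ^ (m - 5) := by
    rw [show m + 1 = (m - 5) + 6 by omega, pow_add]; ring
  have h65 : 2 ^ (m - 5) = 2 * 2 ^ (m - 6) := by
    rw [← pow_succ']
    congr 1; omega
  have hpos6 : 0 < 2 ^ (m - 6) := by positivity
  obtain ⟨n', hn'⟩ : ∃ n', n = n' + 2 * 2 ^ j := ⟨n - 2 * 2 ^ j, by omega⟩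
  obtain ⟨N, hN⟩ : ∃ N, 2 ^ (m + 9) = 2 ^ j + N := ⟨2 ^ (m + 9) - 2 ^ j, by omega⟩
  have hn'5 : 2 ^ (m - 5) ≤ n' := by omega
  have hn'0 : 0 < n' := by omega
  have key := pz_lower W j n' N hn'0 (by omega)
  rw [← hN, ← hn'] at key
  set p := pf W (2 ^ j) with hp
  have hp0 : 0 < p := by
    have := H.pos
    have h' : pf W (2 ^ (m + 10)) ≤ pf W (2 ^ j) :=
      pf_anti W (Nat.pow_le_pow_right (by norm_num) (by omega))
    linarith
  have heta := H.eta j t hjt n' hn'5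
  have harm := H.arm j t hjt n' hn'5
  rw [← hp] at heta harm
  have hsh := h3 n' hn'5
  -- the outer arms
  have hqr : qr W n' N ≤ q := by
    have h' := ref_est W (2 ^ j) n' N (2 ^ (m + 10)) (by omega) (by omega)
    rw [← hp] at h'
    have h'' := H.pf_ge t htm (m + 10) le_rfl
    rw [hj, ← hp] at h''
    have h5 : 16 * Real.sqrt (64 * C) * (3 / 4) ^ t * p ≤ q / 3 * p :=
      mul_le_mul_of_nonneg_right h1 hp0.le
    have h6 : p * shN W n' e ≤ p * (q / 3) := mul_le_mul_of_nonneg_left hsh hp0.le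
    have h7 : κ * (t + 10) * p ≤ q / 3 * p := mul_le_mul_of_nonneg_right h2 hp0.le
    have h8 : p * qr W n' N ≤ p * q := by nlinarith
    exact le_of_mul_le_mul_left h8 hp0
  have hqz : qz W n' N ≤ 1 / 20 := by
    have h5 := qz_le W n' N q hq0 (by linarith) hqr
    have h6 := HD_le W n' N
    have h7 : Hv W (2 * n') ≤ Hv W (2 ^ (m + 10)) := Hv_mono W (by omega)
    have h8 : Hv W (n' + N) ≤ Hv W (2 ^ (m + 10)) := Hv_mono W (by omega)
    have h9' : Hv W (2 ^ (m - 6)) ≤ Hv W n' := Hv_mono W (by omega)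
    have h10' := H.c
    have hl : 0 < Real.log (1 / q) := by
      apply Real.log_pos
      rw [lt_div_iff₀ hq0]
      linarith
    have h11 : qz W n' N * Real.log (1 / q) ≤ (1 / 20) * Real.log (1 / q) := by linarith
    exact le_of_mul_le_mul_right h11 hl
  have hfrac : 6 * (n' : ℝ) / (n' + N : ℝ) ≤ 3 / 100 := by
    have hNn : 200 * n' ≤ n' + N := by omega
    have hNn' : 200 * (n' : ℝ) ≤ n' + N := by exact_mod_cast hNn
    have h0' : (0 : ℝ) < n' := by exact_mod_cast hn'0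
    rw [div_le_div_iff₀ (by positivity) (by norm_num)]
    linarith
  have hE : p ^ 2 * (2 + 2 * shN W n' e + qz W n' N + 6 * n' / (n' + N : ℝ)) ≤
      p ^ 2 * (2 + 1 / 75 + 1 / 20 + 3 / 100) := by
    apply mul_le_mul_of_nonneg_left _ (by positivity)
    linarith
  have hF : p * (8 * etaF W (2 ^ j) n' + 4 * armA W j n') ≤ p * (1 / 50 * p + 1 / 50 * p) := by
    apply mul_le_mul_of_nonneg_left _ hp0.le
    have h5 : 16 * Real.sqrt (64 * C) * (3 / 4) ^ t * p ≤ 1 / 400 * p :=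
      mul_le_mul_of_nonneg_right h1a hp0.le
    have h6 : 1024 * (3 / 4 : ℝ) ^ t * p ≤ 1 / 200 * p :=
      mul_le_mul_of_nonneg_right h1b hp0.le
    linarith
  rw [hj, ← hp]
  nlinarith

theorem pz_nonneg (K n : ℕ) : 0 ≤ pz W K n := by
  unfold pz
  have h : ∀ (k : ℕ) (φ : List W.B → ℝ), (∀ l, 0 ≤ φ l) → 0 ≤ EL W k φ := by
    intro k φ h
    have := EL_mono W (k := k) (φ := fun _ => 0) (ψ := φ) (fun l _ => h l)
    rwa [EL_const] at this
  exact h _ _ fun _ => h _ _ fun _ => h _ _ fun _ => ind_nonneg _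

theorem p2_le_one (K n : ℕ) : p2 W K n ≤ 1 := by
  unfold p2
  have h : ∀ (k : ℕ) (φ : List W.B → ℝ), (∀ l, φ l ≤ 1) → EL W k φ ≤ 1 := by
    intro k φ h
    have := EL_mono W (k := k) (φ := φ) (ψ := fun _ => 1) (fun l _ => h l)
    rwa [EL_const] at this
  exact h _ _ fun _ => h _ _ fun _ => h _ _ fun _ => ind_le_one _

theorem Sc.total {κ C : ℝ} {m : ℕ} (H : Sc W κ C m) (t : ℕ) (ht : 6 ≤ t) (htm : t ≤ m) (q : ℝ)
    (hq0 : 0 < q) (hq3 : q ≤ 1 / 50) (h1 : 16 * Real.sqrt (64 * C) * (3 / 4) ^ t ≤ q / 3)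
    (h1a : 16 * Real.sqrt (64 * C) * (3 / 4) ^ t ≤ 1 / 400)
    (h1b : 1024 * (3 / 4 : ℝ) ^ t ≤ 1 / 200) (h2 : κ * (t + 10) ≤ q / 3)
    (h3 : ∀ n, 2 ^ (m - 5) ≤ n → shN W n e ≤ q / 3)
    (h4 : 2 * C + Real.log 2 ≤ (1 / 20) * Real.log (1 / q)) (hκ : κ ≤ 1 / 100)
    (hT : TT W (2 ^ (m + 5)) (2 ^ (m - 3)) / 4 ^ (m - 3) ≤
      Real.exp κ * (TT W (2 ^ (m + 9)) (2 ^ (m + 1)) / 4 ^ (m + 1))) :
    (1 / 2 : ℝ) * 4 ^ m * (pf W (2 ^ (m - t))) ^ 2 ≤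
      ∑ i ∈ range (2 ^ m), ∑ j ∈ Ico (2 ^ m) (2 ^ (m + 1)), pz W (2 ^ (m + 9)) (j - i) := by
  have hm := H.hm
  have hfar := far_pairs W m (by omega) κ H.h0 hκ hT
  set p := pf W (2 ^ (m - t)) with hp
  have hp0 : 0 ≤ p := pf_nonneg W _
  have hκt : κ * (t + 10) ≤ 1 / 150 := by linarith
  have hpf : (149 / 150) * p ≤ pf W (2 ^ (m + 9)) := by
    have := H.pf_ge t htm (m + 9) (by omega)
    rw [← hp] at this
    nlinarith
  have hpf2 : ((149 / 150) * p) ^ 2 ≤ pf W (2 ^ (m + 9)) ^ 2 :=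
    pow_le_pow_left₀ (by positivity) hpf 2
  have hsum : ∑ i ∈ range (2 ^ m), ∑ j ∈ (Ico (2 ^ m) (2 ^ (m + 1))).filter
      (fun j => 2 ^ (m - 4) < j - i), (3 * p2 W (2 ^ (m + 9)) (j - i) - (2 + 1 / 4) * p ^ 2) ≤
      ∑ i ∈ range (2 ^ m), ∑ j ∈ Ico (2 ^ m) (2 ^ (m + 1)), pz W (2 ^ (m + 9)) (j - i) := by
    apply sum_le_sum
    intro i hi
    refine le_trans (sum_le_sum (g := fun j => pz W (2 ^ (m + 9)) (j - i)) ?_)
      (sum_le_sum_of_subset_of_nonneg (filter_subset _ _) fun _ _ _ => pz_nonneg _ _)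
    intro j hj
    rw [mem_filter, mem_Ico] at hj
    exact H.pair t ht htm q hq0 hq3 h1 h1a h1b h2 h3 h4 (j - i) hj.2 (by omega)
  have hcount : ∑ i ∈ range (2 ^ m), ∑ j ∈ (Ico (2 ^ m) (2 ^ (m + 1))).filter
      (fun j => 2 ^ (m - 4) < j - i), ((2 + 1 / 4) * p ^ 2) ≤ 4 ^ m * ((2 + 1 / 4) * p ^ 2) := by
    have h5 : ∀ i ∈ range (2 ^ m), ∑ j ∈ (Ico (2 ^ m) (2 ^ (m + 1))).filter
        (fun j => 2 ^ (m - 4) < j - i), ((2 + 1 / 4) * p ^ 2) ≤ 2 ^ m * ((2 + 1 / 4) * p ^ 2) := by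
      intro i _
      rw [sum_const, nsmul_eq_mul]
      apply mul_le_mul_of_nonneg_right _ (by positivity)
      have h6 : ((Ico (2 ^ m) (2 ^ (m + 1))).filter (fun j => 2 ^ (m - 4) < j - i)).card ≤ 2 ^ m := by
        refine (card_filter_le _ _).trans ?_
        rw [Nat.card_Ico, pow_succ]
        omega
      exact_mod_cast h6
    refine (sum_le_sum h5).trans ?_
    rw [sum_const, card_range, nsmul_eq_mul]
    push_cast
    have : (4 : ℝ) ^ m = 2 ^ m * 2 ^ m := by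
      rw [← mul_pow]; norm_num
    rw [this]
    exact le_of_eq (by ring)
  have hexp : ∑ i ∈ range (2 ^ m), ∑ j ∈ (Ico (2 ^ m) (2 ^ (m + 1))).filter
      (fun j => 2 ^ (m - 4) < j - i), (3 * p2 W (2 ^ (m + 9)) (j - i) - (2 + 1 / 4) * p ^ 2) =
      3 * ∑ i ∈ range (2 ^ m), ∑ j ∈ (Ico (2 ^ m) (2 ^ (m + 1))).filter
      (fun j => 2 ^ (m - 4) < j - i), p2 W (2 ^ (m + 9)) (j - i) -
      ∑ i ∈ range (2 ^ m), ∑ j ∈ (Ico (2 ^ m) (2 ^ (m + 1))).filter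
      (fun j => 2 ^ (m - 4) < j - i), ((2 + 1 / 4) * p ^ 2) := by
    rw [mul_sum, ← sum_sub_distrib]
    apply sum_congr rfl
    intro i _
    rw [mul_sum, ← sum_sub_distrib]
  rw [hexp] at hsum
  have h4m : (0 : ℝ) < 4 ^ m := by positivity
  have h7 : (15 / 16 : ℝ) * 4 ^ m * ((149 / 150) * p) ^ 2 ≤
      (15 / 16 : ℝ) * 4 ^ m * (pf W (2 ^ (m + 9))) ^ 2 :=
    mul_le_mul_of_nonneg_left hpf2 (by positivity)
  have h8 : (1 / 2 : ℝ) * 4 ^ m * p ^ 2 ≤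
      3 * ((15 / 16 : ℝ) * 4 ^ m * ((149 / 150) * p) ^ 2) - 4 ^ m * ((2 + 1 / 4) * p ^ 2) := by
    have h9 : 0 ≤ (4 : ℝ) ^ m * p ^ 2 := by positivity
    have : 3 * ((15 / 16 : ℝ) * 4 ^ m * ((149 / 150) * p) ^ 2) - 4 ^ m * ((2 + 1 / 4) * p ^ 2) -
        (1 / 2 : ℝ) * 4 ^ m * p ^ 2 =
        (4 ^ m * p ^ 2) * (3 * (15 / 16) * (149 / 150) ^ 2 - (2 + 1 / 4) - 1 / 2) := by ring
    have h10 : (0 : ℝ) ≤ 3 * (15 / 16) * (149 / 150) ^ 2 - (2 + 1 / 4) - 1 / 2 := by norm_num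
    have := mul_nonneg h9 h10
    linarith
  linarith

theorem tau_anti (W : BlockSys d) (s : ℕ) :
    TT W (2 ^ (s + 1 + 8)) (2 ^ (s + 1)) / 4 ^ (s + 1) ≤ TT W (2 ^ (s + 8)) (2 ^ s) / 4 ^ s := by
  have h1 := TT_double W (2 ^ (s + 1 + 8)) (2 ^ s)
  have h2 : TT W (2 ^ (s + 1 + 8)) (2 ^ s) ≤ TT W (2 ^ (s + 8)) (2 ^ s) :=
    TT_anti W (Nat.pow_le_pow_right (by norm_num) (by omega)) _
  rw [← pow_succ'] at h1
  rw [div_le_div_iff₀ (by positivity) (by positivity), pow_succ (4 : ℝ)]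
  have : (0 : ℝ) < 4 ^ s := by positivity
  nlinarith

theorem tau_ge (W : BlockSys d) (s M : ℕ) (h : s + 8 ≤ M) :
    pf W (2 ^ M) ^ 2 ≤ TT W (2 ^ (s + 8)) (2 ^ s) / 4 ^ s := by
  have h1 := TT_lower W (2 ^ (s + 8)) (2 ^ s)
  have h2 : pf W (2 ^ M) ≤ pf W (2 ^ (s + 8)) :=
    pf_anti W (Nat.pow_le_pow_right (by norm_num) h)
  have h3 : pf W (2 ^ M) ^ 2 ≤ pf W (2 ^ (s + 8)) ^ 2 := pow_le_pow_left₀ (pf_nonneg W _) h2 2
  rw [le_div_iff₀ (by positivity)]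
  push_cast at h1
  have h4 : ((2 : ℝ) ^ s) ^ 2 = 4 ^ s := by
    rw [← pow_mul, mul_comm s 2, pow_mul]; norm_num
  rw [h4] at h1
  have : (0 : ℝ) < 4 ^ s := by positivity
  nlinarith

theorem two_pow_ge (x : ℝ) : x * (2 / 3) ≤ (2 : ℝ) ^ x ∨ x < 0 := by
  by_cases hx : x < 0
  · exact Or.inr hx
  · left
    push Not at hx
    rw [Real.rpow_def_of_pos (by norm_num)]
    have h1 := Real.add_one_le_exp (Real.log 2 * x)
    have h2 := Real.log_two_gt_d9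
    nlinarith

theorem sh_small (W : BlockSys d) (m M : ℕ) (hm : 12 ≤ m) (hM : M ≤ 2 * m) (C q ρ : ℝ)
    (hC0 : 0 ≤ C) (hq0 : 0 < q) (hM2 : 9216 * C / q ^ 2 ≤ M)
    (hC : Hv W (2 ^ (m + 10)) - Hv W (2 ^ (m - 6)) ≤ C)
    (hρ : (2 : ℝ) ^ (-(M : ℝ) / 8) ≤ ρ) (h1 : ρ ≤ EL W 1 (fun l => ind (Vl W l = e)))
    (h2 : ρ ≤ EL W 1 (fun l => ind (Vl W l = e + e))) (n : ℕ) (hn : 2 ^ (m - 5) ≤ n) :
    shN W n e ≤ q / 3 := by
  have hρ0 : 0 < ρ := lt_of_lt_of_le (by positivity) hρ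
  have h3 := shN_e W n ρ hρ0 h1 h2
  have h4 := slope_bound W m n 1 hm hn C hC
  have h5 : (Hv W (n + 1) - Hv W n) / ρ ≤ (q / 6) ^ 2 := by
    rw [div_le_iff₀ hρ0]
    refine h4.trans ?_
    push_cast
    rw [div_mul_eq_mul_div, div_le_iff₀ (by positivity), one_mul]
    have h6 : (M : ℝ) / 4 ≤ ρ * 2 ^ m := by
      have h7 : (2 : ℝ) ^ (3 * (M : ℝ) / 8) ≤ ρ * 2 ^ m := by
        have h8 : (3 * (M : ℝ) / 8) ≤ -(M : ℝ) / 8 + m := by
          have : (M : ℝ) ≤ 2 * m := by exact_mod_cast hM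
          linarith
        calc (2 : ℝ) ^ (3 * (M : ℝ) / 8) ≤ (2 : ℝ) ^ (-(M : ℝ) / 8 + m) :=
              Real.rpow_le_rpow_of_exponent_le (by norm_num) h8
          _ = (2 : ℝ) ^ (-(M : ℝ) / 8) * 2 ^ m := by
              rw [Real.rpow_add (by norm_num), Real.rpow_natCast]
          _ ≤ ρ * 2 ^ m := mul_le_mul_of_nonneg_right hρ (by positivity)
      rcases two_pow_ge (3 * (M : ℝ) / 8) with h | h
      · linarith
      · have : (0 : ℝ) ≤ M := by positivity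
        linarith
    have h9 : 64 * C ≤ (q / 6) ^ 2 * (M / 4) := by
      rw [div_le_iff₀ (by positivity)] at hM2
      nlinarith
    calc 64 * C ≤ (q / 6) ^ 2 * (M / 4) := h9
      _ ≤ (q / 6) ^ 2 * (ρ * 2 ^ m) := mul_le_mul_of_nonneg_left h6 (by positivity)
      _ = (q / 6) ^ 2 * ρ * 2 ^ m := by ring
  have h6 : Real.sqrt ((Hv W (n + 1) - Hv W n) / ρ) ≤ q / 6 := by
    rw [Real.sqrt_le_left (by positivity)]
    exact h5
  linarith

theorem main_scale (W : BlockSys d) (κ C q ρ : ℝ) (t M m R : ℕ) (C₂ : ℝ) (hC₂ : 0 ≤ C₂)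
    (hCC : C = 128 * C₂) (hκ0 : 0 < κ)
    (hq : q = (1 / 2) ^ 20 * Real.exp (-(40 * C))) (ht : 6 ≤ t) (htM : 2 * t ≤ M)
    (ht2 : (16 * Real.sqrt (64 * C) + 204800) * (3 / 4) ^ t ≤ q / 3)
    (hκ : κ * (t + 10) ≤ q / 3) (hM2 : 9216 * C / q ^ 2 ≤ M)
    (hρ : (2 : ℝ) ^ (-(M : ℝ) / 8) ≤ ρ) (h1 : ρ ≤ EL W 1 (fun l => ind (Vl W l = e)))
    (h2 : ρ ≤ EL W 1 (fun l => ind (Vl W l = e + e))) (hpos : 0 < pf W (2 ^ M))
    (hm : 12 ≤ m) (hmM : M ≤ 2 * m) (hmM2 : m + 10 ≤ M)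
    (ha : ∀ s ≤ m + 10, -Real.log (pf W (2 ^ (m + 10))) - -Real.log (pf W (2 ^ s)) ≤
      κ * ((m : ℝ) + 10 - s))
    (ha2 : -Real.log (pf W (2 ^ (m + 10))) ≤ κ * (m + 11))
    (hb : -Real.log (TT W (2 ^ (m + 1 + 8)) (2 ^ (m + 1)) / 4 ^ (m + 1)) -
      -Real.log (TT W (2 ^ (m - 3 + 8)) (2 ^ (m - 3)) / 4 ^ (m - 3)) ≤ κ)
    (hh : Hv W (2 ^ (m + 10)) - Hv W (2 ^ (m - 6)) ≤ 128 * C₂) :
    (1 / 2 : ℝ) * 4 ^ m * (pf W (2 ^ M)) ^ 2 ≤
      ∑ i ∈ range (2 ^ m), ∑ j ∈ Ico (2 ^ m) (2 ^ (m + 1)), pz W (2 ^ (m + 9)) (j - i) := by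
  have hC0 : 0 ≤ C := by rw [hCC]; positivity
  have hq0 : 0 < q := by rw [hq]; positivity
  have hqs : q ≤ (1 / 2) ^ 20 := by
    rw [hq]
    have : Real.exp (-(40 * C)) ≤ 1 := by
      rw [Real.exp_le_one_iff]; linarith
    have h20 : (0 : ℝ) < (1 / 2) ^ 20 := by positivity
    nlinarith
  have hq50 : q ≤ 1 / 3000 := hqs.trans (by norm_num)
  have htR : (6 : ℝ) ≤ t := by exact_mod_cast ht
  have hκ1 : κ ≤ 1 / 100 := by nlinarith
  have hposs : ∀ s ≤ M, 0 < pf W (2 ^ s) := fun s hs =>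
    lt_of_lt_of_le hpos (pf_anti W (Nat.pow_le_pow_right (by norm_num) hs))
  have hp10 := hposs (m + 10) hmM2
  have H : Sc W κ C m :=
    { h0 := hκ0.le
      h1 := by linarith
      hC := hC0
      hm := hm
      pos := hp10
      a := by
        intro s hs
        have h3 := ha s hs
        have hps := hposs s (by omega)
        calc pf W (2 ^ s) = Real.exp (Real.log (pf W (2 ^ s))) := (Real.exp_log hps).symm
          _ ≤ Real.exp (κ * ((m : ℝ) + 10 - s) + Real.log (pf W (2 ^ (m + 10)))) := by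
              apply Real.exp_le_exp.mpr
              linarith
          _ = _ := by rw [Real.exp_add, Real.exp_log hp10]
      b := by
        calc (1 : ℝ) = Real.exp 0 := Real.exp_zero.symm
          _ ≤ Real.exp (κ * ((m : ℝ) + 11) + Real.log (pf W (2 ^ (m + 10)))) := by
              apply Real.exp_le_exp.mpr
              linarith
          _ = _ := by rw [Real.exp_add, Real.exp_log hp10]
      c := by rw [hCC]; exact hh }
  have hsqrt := Real.sqrt_nonneg (64 * C)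
  have h34 : (0 : ℝ) < (3 / 4) ^ t := by positivity
  have e1 : 16 * Real.sqrt (64 * C) * (3 / 4) ^ t ≤ q / 3 := by nlinarith
  have e2 : 16 * Real.sqrt (64 * C) * (3 / 4) ^ t ≤ 1 / 400 := by linarith
  have e3 : 1024 * (3 / 4 : ℝ) ^ t ≤ 1 / 200 := by
    have : 204800 * (3 / 4 : ℝ) ^ t ≤ q / 3 := by nlinarith
    linarith
  have e4 : 2 * C + Real.log 2 ≤ (1 / 20) * Real.log (1 / q) := by
    have : Real.log (1 / q) = 20 * Real.log 2 + 40 * C := by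
      rw [hq, one_div, Real.log_inv, Real.log_mul (by positivity) (Real.exp_pos _).ne',
        Real.log_exp, Real.log_pow, one_div, Real.log_inv]
      push_cast
      ring
    rw [this]
    linarith
  have hτ : TT W (2 ^ (m + 5)) (2 ^ (m - 3)) / 4 ^ (m - 3) ≤
      Real.exp κ * (TT W (2 ^ (m + 9)) (2 ^ (m + 1)) / 4 ^ (m + 1)) := by
    have g1 : m - 3 + 8 = m + 5 := by omega
    have g2 : m + 1 + 8 = m + 9 := by omega
    have g3 := tau_ge W (m + 1) M (by omega)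
    have g4 := tau_ge W (m - 3) M (by omega)
    have hpp : 0 < pf W (2 ^ M) ^ 2 := by positivity
    rw [g1] at hb g4
    rw [g2] at hb g3
    have g5 := lt_of_lt_of_le hpp g3
    have g6 := lt_of_lt_of_le hpp g4
    calc TT W (2 ^ (m + 5)) (2 ^ (m - 3)) / 4 ^ (m - 3) =
          Real.exp (Real.log (TT W (2 ^ (m + 5)) (2 ^ (m - 3)) / 4 ^ (m - 3))) :=
          (Real.exp_log g6).symm
      _ ≤ Real.exp (κ + Real.log (TT W (2 ^ (m + 9)) (2 ^ (m + 1)) / 4 ^ (m + 1))) := by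
          apply Real.exp_le_exp.mpr
          linarith
      _ = _ := by rw [Real.exp_add, Real.exp_log g5]
  have hfin := H.total t ht (by omega) q hq0 (by linarith) e1 e2 e3 hκ
    (fun n hn => sh_small W m M hm hmM C q ρ hC0 hq0 hM2 H.c hρ h1 h2 n hn) e4 hκ1 hτ
  refine le_trans ?_ hfin
  apply mul_le_mul_of_nonneg_left _ (by positivity)
  exact pow_le_pow_left₀ (pf_nonneg W _)
    (pf_anti W (Nat.pow_le_pow_right (by norm_num) (by omega))) 2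

end IIDAux

theorem iid_main (d : ℕ) [NeZero d] (C₀ : ℝ) (hC₀ : 0 < C₀) : ∃ ε > (0 : ℝ), ∃ M₀ : ℕ,
    ∀ (W : BlockSys d) (M R : ℕ) (ρ : ℝ), M₀ ≤ M → (∀ b i, |W.V b i| ≤ R) →
      Real.log (R + 1) ≤ C₀ * M → (2 : ℝ) ^ (-(M : ℝ) / 8) ≤ ρ →
      ρ ≤ EL W 1 (fun l => ind (Vl W l = e)) → ρ ≤ EL W 1 (fun l => ind (Vl W l = e + e)) →
      (2 : ℝ) ^ (-(ε * M)) ≤ pf W (2 ^ M) →
      ∃ m : ℕ, M ≤ 2 * m ∧ m + 10 ≤ M ∧
        (1 / 2 : ℝ) * 4 ^ m * (pf W (2 ^ M)) ^ 2 ≤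
          ∑ i ∈ range (2 ^ m), ∑ j ∈ Ico (2 ^ m) (2 ^ (m + 1)), pz W (2 ^ (m + 9)) (j - i) := by
  have hd : (0 : ℝ) < d := by
    have := Nat.pos_of_ne_zero (NeZero.ne d)
    exact_mod_cast this
  obtain ⟨C₂, hC₂⟩ : ∃ C₂ : ℝ, C₂ = d * (C₀ + 2) := ⟨_, rfl⟩
  have hC₂0 : 0 < C₂ := by rw [hC₂]; positivity
  obtain ⟨C, hC⟩ : ∃ C : ℝ, C = 128 * C₂ := ⟨_, rfl⟩
  have hC0 : 0 < C := by rw [hC]; positivity
  obtain ⟨q, hq⟩ : ∃ q : ℝ, q = (1 / 2) ^ 20 * Real.exp (-(40 * C)) := ⟨_, rfl⟩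
  have hq0 : 0 < q := by rw [hq]; positivity
  have hA : 0 < 16 * Real.sqrt (64 * C) + 204800 := by
    have := Real.sqrt_nonneg (64 * C)
    linarith
  obtain ⟨t₀, ht₀⟩ := exists_pow_lt_of_lt_one
    (show 0 < q / 3 / (16 * Real.sqrt (64 * C) + 204800) by positivity)
    (show (3 / 4 : ℝ) < 1 by norm_num)
  obtain ⟨t, ht, ht6⟩ : ∃ t, t₀ ≤ t ∧ 6 ≤ t := ⟨max t₀ 6, le_max_left _ _, le_max_right _ _⟩
  have ht2 : (16 * Real.sqrt (64 * C) + 204800) * (3 / 4) ^ t ≤ q / 3 := by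
    have h1 : (3 / 4 : ℝ) ^ t ≤ (3 / 4) ^ t₀ :=
      pow_le_pow_of_le_one (by norm_num) (by norm_num) ht
    have h2 := h1.trans ht₀.le
    rw [le_div_iff₀ hA] at h2
    linarith
  obtain ⟨κ, hκ⟩ : ∃ κ : ℝ, κ = q / 3 / (t + 10) := ⟨_, rfl⟩
  have hκ0 : 0 < κ := by rw [hκ]; positivity
  have hκt : κ * (t + 10) ≤ q / 3 := by
    rw [hκ, div_mul_cancel₀ _ (by positivity)]
  obtain ⟨ε, hε, M₁, hM₁⟩ := scale_select C₂ κ hC₂0 hκ0
  refine ⟨ε, hε, max (max M₁ (2 * t)) (max (⌈9216 * C / q ^ 2⌉₊) 10), ?_⟩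
  intro W M R ρ hM hR hlogR hρ h1 h2 hpf
  have hMM₁ : M₁ ≤ M := (le_max_left _ _).trans ((le_max_left _ _).trans hM)
  have hMt : 2 * t ≤ M := (le_max_right _ _).trans ((le_max_left _ _).trans hM)
  have hMc : ⌈9216 * C / q ^ 2⌉₊ ≤ M := (le_max_left _ _).trans ((le_max_right _ _).trans hM)
  have hM10 : 10 ≤ M := (le_max_right _ _).trans ((le_max_right _ _).trans hM)
  have hM2 : 9216 * C / q ^ 2 ≤ M := (Nat.le_ceil _).trans (by exact_mod_cast hMc)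
  have hM10R : (10 : ℝ) ≤ M := by exact_mod_cast hM10
  have hpos : 0 < pf W (2 ^ M) := lt_of_lt_of_le (by positivity) hpf
  have hposs : ∀ s ≤ M, 0 < pf W (2 ^ s) := fun s hs =>
    lt_of_lt_of_le hpos (pf_anti W (Nat.pow_le_pow_right (by norm_num) hs))
  have hpf' : -Real.log (pf W (2 ^ M)) ≤ ε * M := by
    have h3 := Real.log_le_log (by positivity) hpf
    rw [Real.log_rpow (by norm_num)] at h3
    have h4 := Real.log_two_lt_d9
    have h5 : 0 ≤ ε * M := by positivity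
    nlinarith
  have hττ : ∀ s, s + 8 ≤ M → 0 < TT W (2 ^ (s + 8)) (2 ^ s) / 4 ^ s := fun s hs =>
    lt_of_lt_of_le (by positivity) (IIDAux.tau_ge W s M hs)
  obtain ⟨m, hm12, hmM, hmM2, ha, ha2, hb, hh⟩ := hM₁ M hMM₁
    (fun s => -Real.log (pf W (2 ^ s)))
    (fun s => -Real.log (TT W (2 ^ (min s (M - 9) + 8)) (2 ^ (min s (M - 9))) /
      4 ^ (min s (M - 9))))
    (fun s => Hv W (2 ^ s))
    (by
      intro s hs
      have h3 := Real.log_le_log (hposs (s + 1) (by omega))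
        (pf_anti W (Nat.pow_le_pow_right (show 0 < 2 by norm_num) (show s ≤ s + 1 by omega)))
      linarith)
    (by
      intro s hs
      by_cases h : s + 1 ≤ M - 9
      · rw [min_eq_left h, min_eq_left (show s ≤ M - 9 by omega)]
        have h3 := Real.log_le_log (hττ (s + 1) (by omega)) (IIDAux.tau_anti W s)
        linarith
      · rw [min_eq_right (show M - 9 ≤ s + 1 by omega), min_eq_right (show M - 9 ≤ s by omega)])
    (by
      intro s hs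
      exact Hv_mono W (Nat.pow_le_pow_right (by norm_num) (by omega)))
    (by
      have h3 := Real.log_nonpos (pf_nonneg W (2 ^ 0)) (pf_le_one W _)
      linarith)
    (by
      rw [min_eq_left (Nat.zero_le _)]
      have h3 : TT W (2 ^ (0 + 8)) (2 ^ 0) / 4 ^ 0 = p2 W (2 ^ (0 + 8)) 0 := by
        unfold TT
        simp
      rw [h3]
      have h4 := Real.log_nonpos (p2_nonneg W (2 ^ (0 + 8)) 0) (IIDAux.p2_le_one _ _)
      linarith)
    (Hv_nonneg W _)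
    hpf'
    (by
      rw [min_eq_right (Nat.sub_le _ _)]
      have h3 := Real.log_le_log (by positivity) (IIDAux.tau_ge W (M - 9) M (by omega))
      rw [Real.log_pow] at h3
      push_cast at h3
      linarith)
    (by
      have h3 := Hv_le W (2 ^ M) R hR
      have h4 : Real.log (2 * ((2 ^ M : ℕ) : ℝ) * R + 1) ≤ (C₀ + 2) * M := by
        have h5 : 2 * ((2 ^ M : ℕ) : ℝ) * R + 1 ≤ 2 ^ (M + 1) * ((R : ℝ) + 1) := by
          push_cast
          rw [pow_succ]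
          have : (1 : ℝ) ≤ 2 ^ M := one_le_pow₀ (by norm_num)
          nlinarith
        have h6 := Real.log_le_log (by positivity) h5
        rw [Real.log_mul (by positivity) (by positivity), Real.log_pow] at h6
        have h7 := Real.log_two_lt_d9
        push_cast at h6 ⊢
        have h8 : ((M : ℝ) + 1) * Real.log 2 ≤ 2 * M := by nlinarith
        linarith
      rw [hC₂]
      refine h3.trans ?_
      calc (d : ℝ) * Real.log (2 * ((2 ^ M : ℕ) : ℝ) * R + 1) ≤ d * ((C₀ + 2) * M) :=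
            mul_le_mul_of_nonneg_left h4 hd.le
        _ = _ := by ring)
  rw [min_eq_left (show m + 1 ≤ M - 9 by omega), min_eq_left (show m - 3 ≤ M - 9 by omega)] at hb
  exact ⟨m, hmM, hmM2, IIDAux.main_scale W κ C q ρ t M m R C₂ hC₂0.le hC hκ0 hq ht6 hMt ht2 hκt
    hM2 hρ h1 h2 hpos hm12 hmM hmM2 ha ha2 hb hh⟩

end Pool.Agent.SawFold
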