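import Pool.Agent.SawFold.DecUn
import Pool.Agent.SawFold.CutAux

/-!
Module Ins (insertion of a fixed block) of the project Pool.Agent.SawFold.
-/

set_option autoImplicit false
set_option linter.unusedSectionVars false

namespace Pool.Agent.SawFold

open Finset
open scoped BigOperators

variable {d : ℕ} [NeZero d]

namespace InsAux

open CutAux

/-- The word with the block `T` inserted at the junction `q`. -/
def insw (T U₀ : Word d) (Xs : List (Word d)) (U₁ : Word d) (q : ℕ) : Word d :=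
  (U₀ ++ jn (Xs.take q)) ++ upS :: (T ++ upS :: rem (Xs.drop q) U₁)

/-- A further copy of `T` in the window gives a block equal to `T`. -/
theorem block_T {N lam : ℕ} {U₀ U₁ : Word d} {Xs : List (Word d)} (h : Dec N lam U₀ Xs U₁)
    {T : Word d} (hT : Blk T) {q : ℕ} {A' R' : Word d} (hA' : LP A') (hR' : RP R')
    (he : insw T U₀ Xs U₁ q = A' ++ upS :: (T ++ upS :: R'))
    (hlen : (U₀ ++ jn (Xs.take q)).length < A'.length)
    (hlev : 2 * D A' 0 - D (wd U₀ Xs U₁) 0 ≤ lam) :
    ∃ i, ∃ hi : i < Xs.length, Xs[i] = T ∧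
      A'.length = (U₀ ++ jn (Xs.take i)).length + T.length + 1 := by
  have hRT : RP (T ++ upS :: R') := RP_join hT.rp hR'
  obtain ⟨G, hG, hGl, hGD, hGw, hGA⟩ : ∃ G : Word d, LP G ∧
      A'.length = G.length + T.length + 1 ∧ D A' 0 = D G 0 + D T 0 + 1 ∧
      wd U₀ Xs U₁ = G ++ upS :: (T ++ upS :: R') ∧ D (U₀ ++ jn (Xs.take q)) 0 ≤ D G 0 := by
    unfold insw at he
    rcases cut_cases he with ⟨h1, -⟩ | ⟨M, h1, h2⟩ | ⟨M, h1, -⟩
    · rw [h1] at hlen
      omega
    · rcases cut_cases h2 with ⟨h3, h4⟩ | ⟨M', h3, h4⟩ | ⟨M', h3, h4⟩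
      · refine ⟨U₀ ++ jn (Xs.take q), CutAux.Dec.LPq h q, ?_, ?_, ?_, le_rfl⟩
        · rw [h1, List.length_append, List.length_cons, ← h3]; omega
        · rw [h1, D_cut0, ← h3]; ring
        · rw [wd_eq U₀ Xs U₁ q, h4]
      · refine ⟨(U₀ ++ jn (Xs.take q)) ++ upS :: M', ?_, ?_, ?_, ?_, ?_⟩
        · refine LP_join (CutAux.Dec.LPq h q) ?_
          rw [h1, h3] at hA'
          exact LP_of_cons (LP_right (LP_of_cons (LP_right hA')))
        · rw [h1, h3]
          simp only [List.length_append, List.length_cons]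
          omega
        · rw [h1, h3, D_cut0, D_cut0, D_cut0]; ring
        · rw [wd_eq U₀ Xs U₁ q, h4]; simp
        · rw [D_cut0]
          have h5 : LP M' := by
            rw [h1, h3] at hA'
            exact LP_of_cons (LP_right (LP_of_cons (LP_right hA')))
          have := LP.nonneg h5
          omega
      · exfalso
        refine hT.irr M M' h3 ?_ ?_
        · rw [h1] at hA'
          exact LP_of_cons (LP_right hA')
        · rw [h4] at hRT
          exact RP_left hRT
    · rw [h1, List.length_append, List.length_cons] at hlen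
      omega
  have hT0 := LP.nonneg hT.lp
  have hlo := (CutAux.Dec.lev h q).1
  obtain ⟨i, hi, hGi⟩ := junction h hGw hG hRT (by omega) (by omega)
  rcases hi.lt_or_eq with hi' | hi'
  · refine ⟨i, hi', ?_, by rw [hGl, hGi]⟩
    have h1 := wd_eq U₀ Xs U₁ i
    rw [hGw, hGi] at h1
    have h2 : T ++ upS :: R' = Xs[i] ++ upS :: rem (Xs.drop (i + 1)) U₁ := by
      have h3 := List.append_cancel_left h1
      rw [List.cons.injEq] at h3
      rw [h3.2, List.drop_eq_getElem_cons hi', rem, jn_rem]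
    have hb := h.blk Xs[i] (List.getElem_mem hi')
    rcases cut_cases h2 with ⟨h3, -⟩ | ⟨M, h3, h4⟩ | ⟨M, h3, h4⟩
    · exact h3.symm
    · exfalso
      rw [h4] at hR'
      exact hb.irr T M h3 hT.lp (RP_left hR')
    · exfalso
      have h5 := CutAux.Dec.RPq h (i + 1)
      rw [h4] at h5
      exact hT.irr Xs[i] M h3 hb.lp (RP_left h5)
  · exfalso
    subst hi'
    rw [List.take_length] at hGi
    have h1 : U₁ = T ++ upS :: R' := by
      have h2 : (U₀ ++ jn Xs) ++ upS :: U₁ = (U₀ ++ jn Xs) ++ upS :: (T ++ upS :: R') := by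
        rw [← hGi, ← hGw, hGi]; rfl
      have h3 := List.append_cancel_left h2
      rw [List.cons.injEq] at h3
      exact h3.2
    have h2 := h.cutR T R' h1 hT.lp hR'
    rw [D_cut0, ← hGi] at h2
    omega

theorem insw_length {T U₀ U₁ : Word d} {Xs : List (Word d)} {q : ℕ} :
    (insw T U₀ Xs U₁ q).length = (wd U₀ Xs U₁).length + T.length + 1 := by
  rw [wd_eq U₀ Xs U₁ q]
  unfold insw
  simp only [List.length_append, List.length_cons]
  omega

theorem insw_mem {N lam : ℕ} {U₀ U₁ : Word d} {Xs : List (Word d)} (h : Dec N lam U₀ Xs U₁)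
    {T : Word d} (hT : Blk T) {E : ℤ} (hE : E ≤ D (wd U₀ Xs U₁) 0) (q : ℕ) :
    insw T U₀ Xs U₁ q ∈ far d (N + T.length + 1) E := by
  rw [mem_far]
  refine ⟨by rw [insw_length, h.len], ?_, ?_⟩
  · unfold insw
    refine SA_join (CutAux.Dec.SAj h.saL h.lp fun X hX => h.blk X (List.mem_of_mem_take hX))
      (SA_join hT.sa (SA_rem h.saR h.rp fun X hX => h.blk X (List.mem_of_mem_drop hX)) hT.lp
        (CutAux.Dec.RPq h q)) (CutAux.Dec.LPq h q) (RP_join hT.rp (CutAux.Dec.RPq h q))
  · have h1 := LP.nonneg hT.lp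
    rw [wd_eq U₀ Xs U₁ q, D_cut0] at hE
    unfold insw
    rw [D_cut0, D_cut0]
    omega

theorem same_pos {N lam : ℕ} {U₀ U₁ V₀ V₁ : Word d} {Xs Ys : List (Word d)}
    (h : Dec N lam U₀ Xs U₁) (h' : Dec N lam V₀ Ys V₁) {T : Word d} {q q' : ℕ}
    (hq : q ≤ Xs.length) (hq' : q' ≤ Ys.length)
    (he : insw T U₀ Xs U₁ q = insw T V₀ Ys V₁ q')
    (hl : (U₀ ++ jn (Xs.take q)).length = (V₀ ++ jn (Ys.take q')).length) :
    U₀ = V₀ ∧ Xs = Ys ∧ U₁ = V₁ ∧ q = q' := by
  unfold insw at he
  obtain ⟨h1, h2⟩ := List.append_inj he hl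
  rw [List.cons.injEq] at h2
  have h3 := List.append_cancel_left h2.2
  rw [List.cons.injEq] at h3
  have h4 : wd U₀ Xs U₁ = wd V₀ Ys V₁ := by
    rw [wd_eq U₀ Xs U₁ q, wd_eq V₀ Ys V₁ q', h1, h3.2]
  obtain ⟨rfl, rfl, rfl⟩ := dec_unique h h' h4
  exact ⟨rfl, rfl, rfl, take_length_inj hq hq' hl⟩

/-- The index set. -/
abbrev Idx (d : ℕ) : Type := Σ K : ℕ, (Word d × (Fin K → Word d) × Word d) × ℕ

/-- The left part of the word before the junction. -/
def lef (x : Idx d) : Word d := x.2.1.1 ++ jn ((List.ofFn x.2.1.2.1).take x.2.2)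

def insI (T : Word d) (x : Idx d) : Word d :=
  insw T x.2.1.1 (List.ofFn x.2.1.2.1) x.2.1.2.2 x.2.2

theorem Idx.ext' {N lam : ℕ} {x y : Idx d} (hx : Dec N lam x.2.1.1 (List.ofFn x.2.1.2.1) x.2.1.2.2)
    (hy : Dec N lam y.2.1.1 (List.ofFn y.2.1.2.1) y.2.1.2.2) (hxq : x.2.2 ≤ x.1)
    (hyq : y.2.2 ≤ y.1) {T : Word d} (he : insI T x = insI T y)
    (hl : (lef x).length = (lef y).length) : x = y := by
  obtain ⟨K, ⟨U₀, X, U₁⟩, q⟩ := x
  obtain ⟨K', ⟨V₀, Y, V₁⟩, q'⟩ := y
  obtain ⟨h1, h2, h3, h4⟩ := same_pos hx hy (by rw [List.length_ofFn]; exact hxq)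
    (by rw [List.length_ofFn]; exact hyq) he hl
  have hK : K = K' := by
    have := congrArg List.length h2
    simpa using this
  subst hK
  have hX : X = Y := List.ofFn_injective h2
  simp only at h1 h3 h4
  subst h1 h3 h4 hX
  rfl

open Classical in
theorem fiber_card {N lam r : ℕ} {T : Word d} (hT : Blk T) {w' : Word d} (F : Finset (Idx d))
    (hF : ∀ x ∈ F, Dec N lam x.2.1.1 (List.ofFn x.2.1.2.1) x.2.1.2.2 ∧ x.2.2 ≤ x.1 ∧
      cnt T x.2.1.2.1 < r ∧ insI T x = w') : F.card ≤ r := by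
  rcases F.eq_empty_or_nonempty with rfl | hne
  · simp
  obtain ⟨x₁, hx₁, hmin⟩ := F.exists_min_image (fun x => (lef x).length) hne
  obtain ⟨hd₁, hq₁, hc₁, he₁⟩ := hF x₁ hx₁
  have key : ∀ x ∈ F.erase x₁, ∃ i : ℕ, (∃ hi : i < x₁.1, x₁.2.1.2.1 ⟨i, hi⟩ = T) ∧
      (lef x).length = (x₁.2.1.1 ++ jn ((List.ofFn x₁.2.1.2.1).take i)).length + T.length + 1 := by
    intro x hx
    rw [Finset.mem_erase] at hx
    obtain ⟨hd, hq, hc, he⟩ := hF x hx.2
    have hlt : (lef x₁).length < (lef x).length := by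
      refine lt_of_le_of_ne (hmin x hx.2) fun h => hx.1 ?_
      exact (Idx.ext' hd₁ hd hq₁ hq (he₁.trans he.symm) h).symm
    have hDD : D (wd x.2.1.1 (List.ofFn x.2.1.2.1) x.2.1.2.2) 0 =
        D (wd x₁.2.1.1 (List.ofFn x₁.2.1.2.1) x₁.2.1.2.2) 0 := by
      have h1 : ∀ y : Idx d, D (insI T y) 0 =
          D (wd y.2.1.1 (List.ofFn y.2.1.2.1) y.2.1.2.2) 0 + D T 0 + 1 := by
        intro y
        rw [wd_eq _ _ _ y.2.2]
        unfold insI insw
        rw [D_cut0, D_cut0, D_cut0]
        ring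
      have h2 := h1 x
      have h3 := h1 x₁
      rw [he] at h2
      rw [he₁] at h3
      omega
    have hlev := (CutAux.Dec.lev hd x.2.2).2
    rw [hDD] at hlev
    obtain ⟨i, hi, h1, h2⟩ := block_T hd₁ hT (CutAux.Dec.LPq hd x.2.2) (CutAux.Dec.RPq hd x.2.2)
      (q := x₁.2.2) (by
        have := he₁.trans he.symm
        exact this) hlt hlev
    have hi' : i < x₁.1 := by simpa using hi
    refine ⟨i, ⟨hi', ?_⟩, h2⟩
    rw [List.getElem_ofFn] at h1
    exact h1
  choose! I hI1 hI2 using key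
  have h1 : (F.erase x₁).card ≤ (Finset.univ.filter fun i : Fin x₁.1 => x₁.2.1.2.1 i = T).card := by
    refine le_trans (Finset.card_le_card_of_injOn (t := (Finset.univ.filter fun i : Fin x₁.1 =>
      x₁.2.1.2.1 i = T).image (fun i : Fin x₁.1 => (i : ℕ))) I (fun x hx => ?_) ?_) Finset.card_image_le
    · obtain ⟨hi, h1⟩ := hI1 x hx
      exact Finset.mem_image.2 ⟨⟨I x, hi⟩, Finset.mem_filter.2 ⟨Finset.mem_univ _, h1⟩, rfl⟩
    · intro x hx y hy hxy
      have h2 := hI2 x hx
      have h3 := hI2 y hy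
      rw [hxy] at h2
      have hxF := hF x (Finset.mem_of_mem_erase hx)
      have hyF := hF y (Finset.mem_of_mem_erase hy)
      exact Idx.ext' hxF.1 hyF.1 hxF.2.1 hyF.2.1 (hxF.2.2.2.trans hyF.2.2.2.symm)
        (h2.trans h3.symm)
  rw [Finset.card_erase_of_mem hx₁] at h1
  have h2 : (Finset.univ.filter fun i : Fin x₁.1 => x₁.2.1.2.1 i = T).card = cnt T x₁.2.1.2.1 := rfl
  rw [h2] at h1
  omega

end InsAux

open InsAux CutAux

open Classical in
theorem ins_count (d : ℕ) [NeZero d] (T : Word d) (hT : Blk T) (N lam r κ₀ : ℕ) (E : ℤ) :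
    κ₀ * ∑ K ∈ (range (N + 1)).filter (fun K => κ₀ ≤ K + 1),
      ((decF d N lam E K).filter fun t => cnt T t.2.1 < r).card ≤
      r * (far d (N + T.length + 1) E).card := by
  let S : Finset (Idx d) := ((range (N + 1)).filter (fun K => κ₀ ≤ K + 1)).sigma fun K =>
    ((decF d N lam E K).filter fun t => cnt T t.2.1 < r) ×ˢ range (K + 1)
  have h1 : κ₀ * ∑ K ∈ (range (N + 1)).filter (fun K => κ₀ ≤ K + 1),
      ((decF d N lam E K).filter fun t => cnt T t.2.1 < r).card ≤ S.card := by
    rw [Finset.card_sigma, Finset.mul_sum]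
    refine Finset.sum_le_sum fun K hK => ?_
    rw [Finset.card_product, Finset.card_range, mul_comm]
    exact Nat.mul_le_mul_left _ (Finset.mem_filter.1 hK).2
  refine h1.trans ?_
  have hS : ∀ x ∈ S, Dec N lam x.2.1.1 (List.ofFn x.2.1.2.1) x.2.1.2.2 ∧
      E ≤ D (wd x.2.1.1 (List.ofFn x.2.1.2.1) x.2.1.2.2) 0 ∧ x.2.2 ≤ x.1 ∧
      cnt T x.2.1.2.1 < r := by
    intro x hx
    obtain ⟨ht', hq⟩ := Finset.mem_product.1 (Finset.mem_sigma.1 hx).2
    obtain ⟨ht, hc⟩ := Finset.mem_filter.1 ht'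
    obtain ⟨h2, h3⟩ := (mem_decF _).1 ht
    exact ⟨h2, h3, Nat.lt_succ_iff.1 (Finset.mem_range.1 hq), hc⟩
  refine Finset.card_le_mul_card_image_of_maps_to (f := insI T) (fun x hx => ?_) r
    (fun w' _ => ?_)
  · obtain ⟨h2, h3, -, -⟩ := hS x hx
    exact insw_mem h2 hT h3 _
  · refine fiber_card (N := N) (lam := lam) hT (w' := w') _ fun x hx => ?_
    rw [Finset.mem_filter] at hx
    obtain ⟨h2, -, h4, h5⟩ := hS x hx.1
    exact ⟨h2, h4, h5, hx.2⟩

theorem far_trunc (d : ℕ) [NeZero d] (N m : ℕ) (E : ℤ) :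
    (far d (N + m) E).card ≤ (2 * d) ^ m * (far d N (E - m)).card := by
  classical
  have hW : (wordsN d m).card ≤ (2 * d) ^ m := by
    unfold wordsN
    refine Finset.card_image_le.trans ?_
    rw [Finset.card_univ, Fintype.card_fun, Fintype.card_fin, Fintype.card_prod, Fintype.card_fin,
      Fintype.card_bool, mul_comm d 2]
  have hv : ∀ s : Stp d, vec s 0 ≤ 1 := by
    rintro ⟨i, b⟩
    by_cases hi : i = 0
    · subst hi
      cases b <;> simp [vec]
    · have : (0 : Fin d) ≠ i := fun h => hi h.symm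
      simp [vec, this]
  have hD : ∀ w : Word d, D w 0 ≤ w.length := by
    intro w
    induction w with
    | nil => simp
    | cons s w ih =>
      rw [D_cons, Pi.add_apply, List.length_cons]
      have := hv s
      push_cast
      omega
  have h1 : (far d (N + m) E).card ≤ (far d N (E - m) ×ˢ wordsN d m).card := by
    refine Finset.card_le_card_of_injOn (fun w => (w.take N, w.drop N)) (fun w hw => ?_) ?_
    · obtain ⟨h1, h2, h3⟩ := mem_far.1 hw
      rw [Finset.mem_coe, Finset.mem_product, mem_far, mem_wordsN]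
      refine ⟨⟨?_, ?_, ?_⟩, ?_⟩
      · rw [List.length_take]; omega
      · intro i j hi hj hij
        rw [List.length_take] at hi hj
        rw [List.take_take, List.take_take, min_eq_left (by omega), min_eq_left (by omega)] at hij
        exact h2 i j (by omega) (by omega) hij
      · have h4 := hD (w.drop N)
        have h5 : D w 0 = D (w.take N) 0 + D (w.drop N) 0 := by
          conv_lhs => rw [← List.take_append_drop N w, D_append]
          rfl
        rw [List.length_drop] at h4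
        have h6 : ((w.length - N : ℕ) : ℤ) = m := by rw [h1]; simp
        rw [h6] at h4
        change E - (m : ℤ) ≤ D (w.take N) 0
        omega
      · rw [List.length_drop]; omega
    · intro w _ w' _ hww
      simp only [Prod.mk.injEq] at hww
      rw [← List.take_append_drop N w, ← List.take_append_drop N w', hww.1, hww.2]
  refine h1.trans ?_
  rw [Finset.card_product, mul_comm]
  exact Nat.mul_le_mul_right _ hW

theorem Blk_nil : Blk ([] : Word d) where
  sa := by
    intro i j hi hj _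
    simp at hi hj
    omega
  lp := by
    rintro x ⟨i, hi, rfl⟩
    simp
  rp := by
    rintro x ⟨i, hi, rfl⟩
    simp
  irr := by
    intro A R h
    simp at h

theorem exists_T2 (d : ℕ) [NeZero d] (hd : 3 ≤ d) : ∃ T : Word d, Blk T ∧ D T = e ∧ T.length = 7 := by
  obtain ⟨a, b, ha, hb, hab⟩ : ∃ a b : Fin d, a ≠ 0 ∧ b ≠ 0 ∧ a ≠ b := by
    refine ⟨⟨1, by omega⟩, ⟨2, by omega⟩, ?_, ?_, ?_⟩
    · intro h
      have := congrArg Fin.val h
      simp at this
    · intro h
      have := congrArg Fin.val h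
      simp at this
    · intro h
      have := congrArg Fin.val h
      simp at this
  let T : Word d := [(a, true), (0, true), (b, true), (0, false), (a, false), (0, true), (b, false)]
  have hv : ∀ (s : Stp d) (i : Fin d), vec s i = if i = s.1 then (if s.2 then 1 else -1) else 0 :=
    fun s i => by rw [vec, Pi.single_apply]
  have h0a : (0 : Fin d) ≠ a := ha.symm
  have h0b : (0 : Fin d) ≠ b := hb.symm
  have hba : b ≠ a := hab.symm
  have hc : ∀ i ≤ 7, (D (T.take i) 0, D (T.take i) a, D (T.take i) b) =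
      ([(0, 0, 0), (0, 1, 0), (1, 1, 0), (1, 1, 1), (0, 1, 1), (0, 0, 1), (1, 0, 1),
        (1, 0, 0)] : List (ℤ × ℤ × ℤ)).getD i (0, 0, 0) := by
    intro i hi
    interval_cases i <;> simp [T, D, hv, ha, hb, hab, h0a, h0b, hba]
  have hT0 : D T 0 = 1 := by
    have := congrArg Prod.fst (hc 7 le_rfl)
    simpa [T] using this
  have hh : ∀ i ≤ 7, 0 ≤ D (T.take i) 0 ∧ D (T.take i) 0 ≤ 1 := by
    intro i hi
    have := congrArg Prod.fst (hc i hi)
    simp only at this
    rw [this]
    interval_cases i <;> simp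
  refine ⟨T, ⟨?_, ?_, ?_, ?_⟩, ?_, rfl⟩
  · intro i j hi hj hij
    have hi' : i ≤ 7 := hi
    have hj' : j ≤ 7 := hj
    have h1 := hc i hi'
    have h2 := hc j hj'
    rw [hij] at h1
    rw [h1] at h2
    interval_cases i <;> interval_cases j <;> first | rfl | (exfalso; revert h2; decide)
  · rintro x ⟨i, hi, rfl⟩
    rw [hT0]
    exact (hh i hi).2
  · rintro x ⟨i, hi, rfl⟩
    exact (hh i hi).1
  · intro A R hAR hA hR
    have hlen : A.length ≤ 6 := by
      have := congrArg List.length hAR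
      simp [T] at this
      omega
    have hA' : A = T.take A.length := by rw [hAR, List.take_left]
    have hR' : R = T.drop (A.length + 1) := by
      rw [hAR, List.drop_length_add_append]
      rfl
    have hs : T[A.length]? = some upS := by
      rw [hAR, List.getElem?_append_right le_rfl]
      simp
    generalize hn : A.length = n at *
    have h3 := hh 2 (by norm_num)
    interval_cases n
    · simp [T, upS] at hs
      exact ha hs
    · have h4 := hR (D (R.take 3)) ⟨3, by rw [hR']; simp [T], rfl⟩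
      rw [hR'] at h4
      simp [T, D, hv, h0a, h0b] at h4
    · simp [T, upS] at hs
      exact hb hs
    · simp [T, upS] at hs
    · simp [T, upS] at hs
    · have h4 := hA (D (A.take 3)) ⟨3, by rw [hn]; norm_num, rfl⟩
      rw [hA'] at h4
      simp [T, D, hv, h0a, h0b] at h4
    · simp [T, upS] at hs
  · ext i
    rw [e, Pi.single_apply]
    by_cases h1 : i = 0
    · subst h1
      rw [hT0]; simp
    · by_cases h2 : i = a
      · subst h2
        simp [T, D, hv, h1, hab]
      · by_cases h3 : i = b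
        · subst h3
          simp [T, D, hv, h1, h2]
        · simp [T, D, hv, h1, h2, h3]

end Pool.Agent.SawFold
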