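import Pool.Agent.SawFold.DecUn
import Pool.Agent.SawFold.CutAux

/-!
Module ZigCount  of the project Pool.Agent.SawFold.
-/

set_option autoImplicit false
set_option linter.unusedSectionVars false

namespace Pool.Agent.SawFold

open Finset
open scoped BigOperators

variable {d : ℕ} [NeZero d]

namespace ZigAux

open CutAux

/-- The three parts of a zigzag are determined by the zigzag and one height. -/
theorem recover {A A' M M' C C' : Word d}
    (h : A ++ flw (upS :: M) ++ upS :: C = A' ++ flw (upS :: M') ++ upS :: C')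
    (hg : D (A ++ flw (upS :: M)) 0 = D (A' ++ flw (upS :: M')) 0)
    (hA : LP A) (hA' : LP A') (hM : RP M) (hM' : RP M') (hC : RP C) (hC' : RP C') :
    A = A' ∧ M = M' ∧ C = C' := by
  obtain ⟨h1, h2⟩ : A ++ flw (upS :: M) = A' ++ flw (upS :: M') ∧ C = C' := by
    rcases cut_cases h with h1 | ⟨N, h1, h2⟩ | ⟨N, h1, h2⟩
    · exact h1
    · exfalso
      rw [h1, D_cut0] at hg
      have : 0 ≤ D N 0 := RP.nonneg (by rw [h2] at hC; exact RP_left hC)
      omega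
    · exfalso
      rw [h1, D_cut0] at hg
      have : 0 ≤ D N 0 := RP.nonneg (by rw [h2] at hC'; exact RP_left hC')
      omega
  have key : ∀ {A A' M M' : Word d}, flw A ++ upS :: M = flw A' ++ upS :: M' → LP A' → RP M →
      ¬ ∃ N, flw A' = flw A ++ upS :: N ∧ M = N ++ upS :: M' := by
    rintro A A' M M' - hA' hM ⟨N, h3, h4⟩
    have h5 : 0 ≤ D N 0 := RP.nonneg (by rw [h4] at hM; exact RP_left hM)
    have h6 : A' = A ++ flw (upS :: N) := by
      rw [← flw_flw A', h3, flw_append, flw_flw]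
    have h7 : D A ∈ P A' := by rw [h6]; exact mem_P_left (D_mem_P A)
    have h8 := hA' _ h7
    have h9 : D (flw A') 0 = D (flw A) 0 + 1 + D N 0 := by rw [h3, D_cut0]
    rw [D_flw, D_flw] at h9
    simp only [fl_apply, if_true] at h9
    omega
  have h3 : flw A ++ upS :: M = flw A' ++ upS :: M' := by
    have := congrArg flw h1
    rwa [flw_append, flw_append, flw_flw, flw_flw] at this
  rcases cut_cases h3 with ⟨h4, h5⟩ | h4 | h4
  · refine ⟨?_, h5, h2⟩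
    rw [← flw_flw A, h4, flw_flw]
  · exact absurd h4 (key h3 hA' hM)
  · exact absurd h4 (key h3.symm hA hM')

/-- The middle part. -/
theorem mid {N lam : ℕ} {U₀ U₁ : Word d} {Xs : List (Word d)} (h : Dec N lam U₀ Xs U₁)
    {i j : ℕ} (hij : i < j) (hj : j ≤ Xs.length) :
    ∃ M, jn ((Xs.drop i).take (j - i)) = upS :: M ∧ RP M := by
  have h1 : ((Xs.drop i).take (j - i)).length = j - i := by
    rw [List.length_take, List.length_drop]; omega
  cases hL : (Xs.drop i).take (j - i) with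
  | nil => rw [hL] at h1; simp at h1; omega
  | cons X L =>
    refine ⟨X ++ jn L, by simp [jn], ?_⟩
    have h2 : ∀ Y ∈ X :: L, RP Y := fun Y hY =>
      (h.blk Y (List.mem_of_mem_drop (List.mem_of_mem_take (by rw [hL]; exact hY)))).rp
    have h3 := RP_rem h.rp h2
    rw [rem, ← List.append_assoc] at h3
    exact RP_left h3

theorem zigw_eq {U₀ U₁ : Word d} {Xs : List (Word d)} {i j : ℕ} {M : Word d}
    (hM : jn ((Xs.drop i).take (j - i)) = upS :: M) :
    zigw U₀ Xs U₁ i j =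
      (U₀ ++ jn (Xs.take i)) ++ flw (upS :: M) ++ upS :: rem (Xs.drop j) U₁ := by
  unfold zigw
  rw [hM, ← jn_rem]
  simp

theorem split_jn {Xs : List (Word d)} {i j : ℕ} (hij : i ≤ j) :
    jn (Xs.take j) = jn (Xs.take i) ++ jn ((Xs.drop i).take (j - i)) := by
  rw [← jn_append, ← List.take_add]
  congr 2
  omega

theorem wd_eq' {U₀ U₁ : Word d} {Xs : List (Word d)} {i j : ℕ} (hij : i ≤ j) {M : Word d}
    (hM : jn ((Xs.drop i).take (j - i)) = upS :: M) :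
    wd U₀ Xs U₁ = (U₀ ++ jn (Xs.take i)) ++ (upS :: M) ++ upS :: rem (Xs.drop j) U₁ := by
  rw [wd_eq U₀ Xs U₁ j, split_jn hij, hM]
  simp

theorem zig_inj {N lam : ℕ} {U₀ U₁ V₀ V₁ : Word d} {Xs Ys : List (Word d)}
    (h : Dec N lam U₀ Xs U₁) (h' : Dec N lam V₀ Ys V₁) {i j i' j' : ℕ} (hij : i < j)
    (hj : j ≤ Xs.length) (hij' : i' < j') (hj' : j' ≤ Ys.length)
    (he : zigw U₀ Xs U₁ i j = zigw V₀ Ys V₁ i' j')
    (hg : 2 * D (U₀ ++ jn (Xs.take i)) 0 - D (wd U₀ Xs U₁) 0 =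
      2 * D (V₀ ++ jn (Ys.take i')) 0 - D (wd V₀ Ys V₁) 0) :
    U₀ = V₀ ∧ Xs = Ys ∧ U₁ = V₁ ∧ i = i' ∧ j = j' := by
  obtain ⟨M, hM, hMr⟩ := mid h hij hj
  obtain ⟨M', hM', hMr'⟩ := mid h' hij' hj'
  have hz := zigw_eq (U₀ := U₀) (U₁ := U₁) hM
  have hz' := zigw_eq (U₀ := V₀) (U₁ := V₁) hM'
  have hw := wd_eq' (U₀ := U₀) (U₁ := U₁) hij.le hM
  have hw' := wd_eq' (U₀ := V₀) (U₁ := V₁) hij'.le hM'
  have hD : ∀ (A M C : Word d), D (A ++ flw (upS :: M) ++ upS :: C) 0 =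
      2 * D (A ++ flw (upS :: M)) 0 - (2 * D A 0 - D (A ++ (upS :: M) ++ upS :: C) 0) := by
    intro A M C
    rw [D_cut0, D_cut0, D_append, D_append, D_flw]
    simp only [Pi.add_apply, fl_apply, if_true]
    ring
  have hg2 : D (U₀ ++ jn (Xs.take i) ++ flw (upS :: M)) 0 =
      D (V₀ ++ jn (Ys.take i') ++ flw (upS :: M')) 0 := by
    have h1 := hD (U₀ ++ jn (Xs.take i)) M (rem (Xs.drop j) U₁)
    have h2 := hD (V₀ ++ jn (Ys.take i')) M' (rem (Ys.drop j') V₁)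
    rw [← hz, ← hw] at h1
    rw [← hz', ← hw'] at h2
    rw [he] at h1
    omega
  obtain ⟨h1, h2, h3⟩ := recover (hz.symm.trans (he.trans hz')) hg2 (CutAux.Dec.LPq h i) (CutAux.Dec.LPq h' i')
    hMr hMr' (CutAux.Dec.RPq h j) (CutAux.Dec.RPq h' j')
  have hww : wd U₀ Xs U₁ = wd V₀ Ys V₁ := by rw [hw, hw', h1, h2, h3]
  obtain ⟨rfl, rfl, rfl⟩ := dec_unique h h' hww
  refine ⟨rfl, rfl, rfl, ?_, ?_⟩
  · exact take_length_inj (hij.le.trans hj) (hij'.le.trans hj') (congrArg List.length h1)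
  · refine take_length_inj (U₀ := U₀) hj hj' ?_
    rw [split_jn hij.le, split_jn hij'.le, ← List.append_assoc, ← List.append_assoc, h1, hM, hM',
      h2]

theorem zig_mem {N lam : ℕ} {U₀ U₁ : Word d} {Xs : List (Word d)} (h : Dec N lam U₀ Xs U₁)
    {E : ℤ} (hE : E ≤ D (wd U₀ Xs U₁) 0) {i j : ℕ} (hij : i < j) (hj : j ≤ Xs.length)
    (hs : SA (zigw U₀ Xs U₁ i j)) : zigw U₀ Xs U₁ i j ∈ far d N (E - 2 * lam) := by
  obtain ⟨M, hM, -⟩ := mid h hij hj
  have hz := zigw_eq (U₀ := U₀) (U₁ := U₁) hM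
  have hw := wd_eq' (U₀ := U₀) (U₁ := U₁) hij.le hM
  rw [mem_far]
  refine ⟨?_, hs, ?_⟩
  · rw [← h.len, hz, hw]
    simp only [List.length_append, flw_length]
  · have h1 := (CutAux.Dec.lev h i).1
    have h2 := (CutAux.Dec.lev h j).2
    have h3 : D (U₀ ++ jn (Xs.take j)) 0 = D (U₀ ++ jn (Xs.take i)) 0 + D (upS :: M) 0 := by
      rw [split_jn hij.le, hM, ← List.append_assoc, D_append (U₀ ++ jn (Xs.take i))]
      rfl
    have h4 : D (zigw U₀ Xs U₁ i j) 0 = D (wd U₀ Xs U₁) 0 - 2 * D (upS :: M) 0 := by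
      rw [hz, hw, D_cut0, D_cut0, D_append, D_append _ (upS :: M), D_flw]
      simp only [Pi.add_apply, fl_apply, if_true]
      ring
    rw [h4]
    omega

end ZigAux

open ZigAux CutAux

theorem zig_count (d : ℕ) [NeZero d] (N lam : ℕ) (E : ℤ) :
    ∑ K ∈ range (N + 1), ∑ t ∈ decF d N lam E K, nZ t ≤
      (4 * lam + 2) * ((far d N (E - 2 * lam)).card : ℝ) := by
  classical
  let S : Finset (Σ K : ℕ, (Word d × (Fin K → Word d) × Word d) × (Σ _ : ℕ, ℕ)) :=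
    (range (N + 1)).sigma fun K =>
      (decF d N lam E K ×ˢ ((range (K + 1)).sigma fun i => Ico (i + 1) (K + 1))).filter
        fun x => SA (zigw x.1.1 (List.ofFn x.1.2.1) x.1.2.2 x.2.1 x.2.2)
  have hS : ∑ K ∈ range (N + 1), ∑ t ∈ decF d N lam E K, nZ t = (S.card : ℝ) := by
    rw [Finset.card_sigma, Nat.cast_sum]
    refine Finset.sum_congr rfl fun K _ => ?_
    rw [Finset.card_filter, Nat.cast_sum, Finset.sum_product]
    refine Finset.sum_congr rfl fun t _ => ?_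
    rw [Finset.sum_sigma]
    unfold nZ
    refine Finset.sum_congr rfl fun i _ => Finset.sum_congr rfl fun j _ => ?_
    rw [ind_eq_ite]
    push_cast
    rfl
  rw [hS]
  have hmaps : ∀ x ∈ S, (zigw x.2.1.1 (List.ofFn x.2.1.2.1) x.2.1.2.2 x.2.2.1 x.2.2.2,
      2 * D (x.2.1.1 ++ jn ((List.ofFn x.2.1.2.1).take x.2.2.1)) 0 -
        D (wd x.2.1.1 (List.ofFn x.2.1.2.1) x.2.1.2.2) 0) ∈
      far d N (E - 2 * lam) ×ˢ Icc (-(lam : ℤ)) lam := by
    rintro ⟨K, t, i, j⟩ hx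
    rw [Finset.mem_sigma, Finset.mem_filter, Finset.mem_product, Finset.mem_sigma] at hx
    obtain ⟨-, ⟨ht, hi, hj⟩, hs⟩ := hx
    obtain ⟨h1, h2⟩ := (mem_decF t).1 ht
    rw [Finset.mem_Ico] at hj
    rw [Finset.mem_product]
    refine ⟨zig_mem h1 h2 (by simpa using hj.1) (by rw [List.length_ofFn]; exact Nat.lt_succ_iff.1 hj.2)
      hs, ?_⟩
    rw [Finset.mem_Icc]
    exact CutAux.Dec.lev h1 i
  have hinj : Set.InjOn (fun x : (Σ K : ℕ, (Word d × (Fin K → Word d) × Word d) × (Σ _ : ℕ, ℕ)) =>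
      (zigw x.2.1.1 (List.ofFn x.2.1.2.1) x.2.1.2.2 x.2.2.1 x.2.2.2,
      2 * D (x.2.1.1 ++ jn ((List.ofFn x.2.1.2.1).take x.2.2.1)) 0 -
        D (wd x.2.1.1 (List.ofFn x.2.1.2.1) x.2.1.2.2) 0)) S := by
    rintro ⟨K, ⟨U₀, X, U₁⟩, i, j⟩ hx ⟨K', ⟨V₀, Y, V₁⟩, i', j'⟩ hy hxy
    rw [Finset.mem_coe, Finset.mem_sigma, Finset.mem_filter, Finset.mem_product,
      Finset.mem_sigma] at hx hy
    obtain ⟨-, ⟨ht, hi, hj⟩, hs⟩ := hx
    obtain ⟨-, ⟨ht', hi', hj'⟩, hs'⟩ := hy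
    obtain ⟨h1, h2⟩ := (mem_decF _).1 ht
    obtain ⟨h1', h2'⟩ := (mem_decF _).1 ht'
    rw [Finset.mem_Ico] at hj hj'
    simp only [Prod.mk.injEq] at hxy
    obtain ⟨he, hg⟩ := hxy
    obtain ⟨r1, r2, r3, r4, r5⟩ := zig_inj h1 h1' (by simpa using hj.1)
      (by rw [List.length_ofFn]; exact Nat.lt_succ_iff.1 hj.2) (by simpa using hj'.1)
      (by rw [List.length_ofFn]; exact Nat.lt_succ_iff.1 hj'.2) he hg
    have hK : K = K' := by
      have := congrArg List.length r2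
      simpa using this
    subst hK
    have hX : X = Y := List.ofFn_injective r2
    simp only at r1 r3 r4 r5
    subst r1 r3 r4 r5 hX
    rfl
  have hcard := Finset.card_le_card_of_injOn _ hmaps hinj
  rw [Finset.card_product, Int.card_Icc] at hcard
  have h5 : ((lam : ℤ) + 1 - -(lam : ℤ)).toNat = 2 * lam + 1 := by omega
  rw [h5] at hcard
  have h6 : (S.card : ℝ) ≤ ((far d N (E - 2 * lam)).card : ℝ) * (2 * lam + 1) := by
    exact_mod_cast hcard
  have h7 : (0 : ℝ) ≤ ((far d N (E - 2 * lam)).card : ℝ) := Nat.cast_nonneg _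
  have h8 : (0 : ℝ) ≤ (lam : ℝ) := Nat.cast_nonneg _
  nlinarith

end Pool.Agent.SawFold
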