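import Pool.Agent.SawFold.IID
import Pool.Agent.SawFold.DecEx
import Pool.Agent.SawFold.Act
import Pool.Agent.SawFold.ZigCount
import Pool.Agent.SawFold.Ins
import Pool.Agent.SawFold.Avg

/-!
Module NearFar  of the project Pool.Agent.SawFold.
-/

set_option autoImplicit false
set_option linter.unusedSectionVars false
set_option linter.unusedVariables false

namespace Pool.Agent.SawFold

open Finset
open scoped BigOperators

namespace NearFarAux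

theorem rp {L : ℝ} (hL : 1 ≤ L) (hB : 1024 ≤ L ^ (1 / 25 : ℝ)) {a b : ℝ} (h : a + 1 / 25 ≤ b) :
    1024 * L ^ a ≤ L ^ b := by
  have h0 : 0 < L := by linarith
  calc 1024 * L ^ a ≤ L ^ (1 / 25 : ℝ) * L ^ a :=
        mul_le_mul_of_nonneg_right hB (by positivity)
    _ = L ^ (1 / 25 + a) := (Real.rpow_add h0 _ _).symm
    _ ≤ L ^ b := Real.rpow_le_rpow_of_exponent_le hL (by linarith)

theorem big {lam n : ℕ} (h : 2 ^ (25 * n) ≤ lam) : (2 : ℝ) ^ n ≤ (lam : ℝ) ^ (1 / 25 : ℝ) := by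
  have h1 : (2 : ℝ) ^ (25 * n) ≤ lam := by exact_mod_cast h
  have h2 : ((2 : ℝ) ^ (25 * n)) ^ (1 / 25 : ℝ) ≤ (lam : ℝ) ^ (1 / 25 : ℝ) :=
    Real.rpow_le_rpow (by positivity) h1 (by norm_num)
  refine le_trans (le_of_eq ?_) h2
  rw [← Real.rpow_natCast, ← Real.rpow_natCast, ← Real.rpow_mul (by norm_num)]
  congr 1
  push_cast
  ring

variable {d : ℕ} [NeZero d]

theorem mem_length {U₀ U₁ : Word d} {Xs : List (Word d)} {X : Word d} (h : X ∈ Xs) :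
    X.length + 1 ≤ (wd U₀ Xs U₁).length := by
  have h1 : X.length ≤ (jn Xs).length := by
    induction Xs with
    | nil => simp at h
    | cons Y Ys ih =>
      rcases List.mem_cons.mp h with h2 | h2
      · subst h2
        simp [jn]
        omega
      · have := ih h2
        simp [jn]
        omega
  unfold wd
  simp
  omega

theorem nF_nonneg {K : ℕ} (t : Word d × (Fin K → Word d) × Word d) : 0 ≤ nF t :=
  sum_nonneg fun _ _ => ind_nonneg _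

theorem nZ_nonneg {K : ℕ} (t : Word d × (Fin K → Word d) × Word d) : 0 ≤ nZ t :=
  sum_nonneg fun _ _ => sum_nonneg fun _ _ => ind_nonneg _

theorem nF_le {K : ℕ} (t : Word d × (Fin K → Word d) × Word d) : nF t ≤ K + 1 := by
  unfold nF
  refine (sum_le_sum fun _ _ => ind_le_one _).trans ?_
  simp

theorem avg_mono {K : ℕ} {φ ψ : Gp K → ℝ} (h : ∀ g, φ g ≤ ψ g) : avg φ ≤ avg ψ :=
  div_le_div_of_nonneg_right (sum_le_sum fun g _ => h g) (by positivity)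

theorem card_Gp_pos (K : ℕ) : (0 : ℝ) < (Fintype.card (Gp K) : ℝ) := by
  have : 0 < Fintype.card (Gp K) := Fintype.card_pos
  exact_mod_cast this

theorem avg_const {K : ℕ} (c : ℝ) : avg (fun _ : Gp K => c) = c := by
  unfold avg
  rw [sum_const, nsmul_eq_mul, card_univ]
  rw [mul_div_assoc, mul_div_cancel₀]
  exact (card_Gp_pos K).ne'

theorem sum_avg {N lam : ℕ} {E : ℤ} {K : ℕ} (f : Word d × (Fin K → Word d) × Word d → ℝ) :
    ∑ t ∈ decF d N lam E K, avg (fun g => f (act g t)) = ∑ t ∈ decF d N lam E K, f t := by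
  unfold avg
  rw [← sum_div, sum_comm]
  rw [sum_congr rfl fun g _ => sum_act g f]
  rw [sum_const, nsmul_eq_mul, card_univ, mul_comm, mul_div_assoc, div_self, mul_one]
  exact (card_Gp_pos K).ne'

/-- The numerical parameters. -/
structure Num (L h : ℝ) (M K : ℕ) : Prop where
  hL : 1 ≤ L
  hB : 1024 ≤ L ^ (1 / 25 : ℝ)
  hh : h = 2 ^ M
  h1 : h ≤ L ^ (1 / 4 : ℝ)
  h2 : L ^ (1 / 4 : ℝ) ≤ 2 * h
  hK : L ^ (99 / 100 : ℝ) ≤ K + 1
  hKL : (K : ℝ) ≤ L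

theorem Num.K2 {L h : ℝ} {M K : ℕ} (H : Num L h M K) : L ^ (99 / 100 : ℝ) / 2 ≤ K := by
  have h1 := H.hK
  have h2 : 1024 * L ^ (0 : ℝ) ≤ L ^ (99 / 100 : ℝ) := rp H.hL H.hB (by norm_num)
  rw [Real.rpow_zero] at h2
  linarith

theorem Num.Kbig {L h : ℝ} {M K : ℕ} (H : Num L h M K) : 100 * h ≤ K := by
  have h1 := H.K2
  have h2 : 1024 * L ^ (1 / 4 : ℝ) ≤ L ^ (99 / 100 : ℝ) := rp H.hL H.hB (by norm_num)
  have h3 := H.h1
  have h4 : 0 < L ^ (1 / 4 : ℝ) := Real.rpow_pos_of_pos (by linarith [H.hL]) _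
  linarith

theorem Num.hpos {L h : ℝ} {M K : ℕ} (H : Num L h M K) : 0 < h := by
  rw [H.hh]; positivity

theorem Num.hsq {L h : ℝ} {M K : ℕ} (H : Num L h M K) : h ^ 2 ≤ L ^ (1 / 2 : ℝ) := by
  have h1 := pow_le_pow_left₀ H.hpos.le H.h1 2
  refine h1.trans (le_of_eq ?_)
  rw [← Real.rpow_natCast, ← Real.rpow_mul (by linarith [H.hL])]
  norm_num

/-- The error of the replacement of permutations by independent blocks. -/
theorem Num.err {L h : ℝ} {M K : ℕ} (H : Num L h M K) (a : ℝ) (ha : 1 / 2 + 1 / 25 + a ≤ 99 / 100) :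
    (2 * h) ^ 2 / K ≤ L ^ (-a) / 128 := by
  have hK := H.K2
  have hL0 : 0 < L := by linarith [H.hL]
  have hp : 0 < L ^ (99 / 100 : ℝ) := Real.rpow_pos_of_pos hL0 _
  have hK0 : (0 : ℝ) < K := by linarith
  have h1 : 1024 * L ^ (1 / 2 : ℝ) ≤ L ^ (99 / 100 - a : ℝ) := rp H.hL H.hB (by linarith)
  have h2 : L ^ (99 / 100 - a : ℝ) = L ^ (99 / 100 : ℝ) * L ^ (-a) := by
    rw [← Real.rpow_add hL0]; ring_nf
  have h3 := H.hsq
  have h4 : 0 < L ^ (-a) := Real.rpow_pos_of_pos hL0 _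
  rw [h2] at h1
  rw [div_le_iff₀ hK0]
  have h5 : L ^ (99 / 100 : ℝ) * L ^ (-a) ≤ 2 * K * L ^ (-a) :=
    mul_le_mul_of_nonneg_right (by linarith) h4.le
  nlinarith

theorem pf_of_avg {L h : ℝ} {M K : ℕ} (H : Num L h M K) (δ A p : ℝ) (hδ : δ ≤ 1 / 160)
    (hA : L ^ (-δ) * (K + 1) ≤ A) (hf : (1 - (2 * h) ^ 2 / K) * A ≤ 2 * h + (K + 1) * p) :
    L ^ (-δ) / 4 ≤ p := by
  have hL0 : 0 < L := by linarith [H.hL]
  have h0 := H.err 0 (by norm_num)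
  rw [neg_zero, Real.rpow_zero] at h0
  have hθ : 0 < L ^ (-δ) := Real.rpow_pos_of_pos hL0 _
  have hK1 : (0 : ℝ) < K + 1 := by positivity
  have hA0 : 0 ≤ A := le_trans (by positivity) hA
  have h1 : A / 2 ≤ 2 * h + (K + 1) * p := by
    refine le_trans ?_ hf
    nlinarith
  have h2 : 2 * h ≤ L ^ (-δ) * (K + 1) / 4 := by
    have h3 : 1024 * L ^ (1 / 4 : ℝ) ≤ L ^ (99 / 100 - δ : ℝ) := rp H.hL H.hB (by linarith)
    have h4 : L ^ (99 / 100 - δ : ℝ) = L ^ (99 / 100 : ℝ) * L ^ (-δ) := by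
      rw [← Real.rpow_add hL0]; ring_nf
    rw [h4] at h3
    have h5 := H.h1
    have h6 : L ^ (99 / 100 : ℝ) * L ^ (-δ) ≤ (K + 1) * L ^ (-δ) :=
      mul_le_mul_of_nonneg_right H.hK hθ.le
    have h7 := H.hpos
    nlinarith
  have h3 : L ^ (-δ) / 4 * (K + 1) ≤ p * (K + 1) := by nlinarith
  exact le_of_mul_le_mul_right h3 hK1

theorem pf_pow {L h : ℝ} {M K : ℕ} (H : Num L h M K) (δ ε p : ℝ) (hε : 0 < ε) (hδ0 : 0 < δ)
    (hδ : δ ≤ ε / 8) (hM : 1 + 4 / ε ≤ M) (hp : L ^ (-δ) / 4 ≤ p) : (2 : ℝ) ^ (-(ε * M)) ≤ p := by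
  have hL0 : 0 < L := by linarith [H.hL]
  refine le_trans ?_ hp
  have h1 : L ≤ (2 : ℝ) ^ (4 * (M + 1)) := by
    have h2 := pow_le_pow_left₀ (by positivity) H.h2 4
    rw [H.hh, ← pow_succ', ← pow_mul] at h2
    refine le_trans (le_of_eq ?_) (h2.trans (le_of_eq ?_))
    · rw [← Real.rpow_natCast, ← Real.rpow_mul hL0.le]
      norm_num
    · congr 1; ring
  have h2 : ((2 : ℝ) ^ (4 * (M + 1))) ^ (-δ) ≤ L ^ (-δ) :=
    Real.rpow_le_rpow_of_nonpos hL0 h1 (by linarith)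
  have h3 : ((2 : ℝ) ^ (4 * (M + 1))) ^ (-δ) = (2 : ℝ) ^ (-(4 * (M + 1) * δ)) := by
    rw [← Real.rpow_natCast, ← Real.rpow_mul (by norm_num)]
    congr 1
    push_cast
    ring
  have h4 : (2 : ℝ) ^ (-(ε * M)) * 4 ≤ (2 : ℝ) ^ (-(4 * (M + 1) * δ)) := by
    have h5 : (4 : ℝ) = (2 : ℝ) ^ (2 : ℝ) := by norm_num
    conv_lhs => rw [h5]
    rw [← Real.rpow_add (by norm_num)]
    apply Real.rpow_le_rpow_of_exponent_le (by norm_num)
    have h6 : ε * (1 + 4 / ε) ≤ ε * M := mul_le_mul_of_nonneg_left hM hε.le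
    have h7 : ε * (1 + 4 / ε) = ε + 4 := by field_simp
    have h8 : 4 * ((M : ℝ) + 1) * δ ≤ 4 * (M + 1) * (ε / 8) := by
      apply mul_le_mul_of_nonneg_left hδ (by positivity)
    nlinarith
  linarith

theorem rho_pow {L h : ℝ} {M K : ℕ} (H : Num L h M K) (hM : 4 ≤ M) :
    (2 : ℝ) ^ (-(M : ℝ) / 8) ≤ L ^ (-(1 / 40) : ℝ) := by
  have hL0 : 0 < L := by linarith [H.hL]
  have h1 : L ≤ (2 : ℝ) ^ (4 * (M + 1)) := by
    have h2 := pow_le_pow_left₀ (by positivity) H.h2 4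
    rw [H.hh, ← pow_succ', ← pow_mul] at h2
    refine le_trans (le_of_eq ?_) (h2.trans (le_of_eq ?_))
    · rw [← Real.rpow_natCast, ← Real.rpow_mul hL0.le]
      norm_num
    · congr 1; ring
  have h2 : ((2 : ℝ) ^ (4 * (M + 1))) ^ (-(1 / 40) : ℝ) ≤ L ^ (-(1 / 40) : ℝ) :=
    Real.rpow_le_rpow_of_nonpos hL0 h1 (by norm_num)
  refine le_trans ?_ h2
  rw [← Real.rpow_natCast, ← Real.rpow_mul (by norm_num)]
  apply Real.rpow_le_rpow_of_exponent_le (by norm_num)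
  push_cast
  have : (4 : ℝ) ≤ M := by exact_mod_cast hM
  linarith

theorem fin_num {L h : ℝ} {M K : ℕ} (H : Num L h M K) (m F : ℕ) (p S Z x : ℝ) (hm : M ≤ 2 * m)
    (hp : L ^ (-(1 / 160) : ℝ) / 4 ≤ p)
    (hS : (1 / 2 : ℝ) * 4 ^ m * p ^ 2 ≤ S) (hx0 : 0 ≤ x) (hx : x ≤ 2 * h)
    (hF : (K : ℝ) ≤ 2 * (F * 2 ^ (m + 1))) (hZ : (F : ℝ) * (S - 4 ^ m * x ^ 2 / K) ≤ Z) :
    L ^ (21 / 20 : ℝ) ≤ Z := by
  have hL0 : 0 < L := by linarith [H.hL]
  have hK2 := H.K2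
  have hp99 : 0 < L ^ (99 / 100 : ℝ) := Real.rpow_pos_of_pos hL0 _
  have hK0 : (0 : ℝ) < K := by linarith
  have hθ : 0 < L ^ (-(1 / 160) : ℝ) := Real.rpow_pos_of_pos hL0 _
  have hθ2 : (L ^ (-(1 / 160) : ℝ)) ^ 2 = L ^ (-(1 / 80) : ℝ) := by
    rw [← Real.rpow_natCast, ← Real.rpow_mul hL0.le]
    norm_num
  have hp2 : L ^ (-(1 / 80) : ℝ) / 16 ≤ p ^ 2 := by
    have := pow_le_pow_left₀ (by positivity) hp 2
    rw [div_pow, hθ2] at this
    linarith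
  have h4m : (0 : ℝ) < 4 ^ m := by positivity
  have herr : x ^ 2 / K ≤ L ^ (-(1 / 80) : ℝ) / 128 := by
    refine le_trans ?_ (H.err (1 / 80) (by norm_num))
    apply div_le_div_of_nonneg_right _ hK0.le
    exact pow_le_pow_left₀ hx0 hx 2
  have h1 : 4 ^ m * (L ^ (-(1 / 80) : ℝ) / 64) ≤ S - 4 ^ m * x ^ 2 / K := by
    have h2 : (4 : ℝ) ^ m * x ^ 2 / K = 4 ^ m * (x ^ 2 / K) := by ring
    rw [h2]
    have h3 : (4 : ℝ) ^ m * (x ^ 2 / K) ≤ 4 ^ m * (L ^ (-(1 / 80) : ℝ) / 128) :=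
      mul_le_mul_of_nonneg_left herr h4m.le
    have h5 : (4 : ℝ) ^ m * (L ^ (-(1 / 80) : ℝ) / 16) ≤ 4 ^ m * p ^ 2 :=
      mul_le_mul_of_nonneg_left hp2 h4m.le
    nlinarith
  have h80 : 0 < L ^ (-(1 / 80) : ℝ) := Real.rpow_pos_of_pos hL0 _
  have h2 : (F : ℝ) * (4 ^ m * (L ^ (-(1 / 80) : ℝ) / 64)) ≤ Z :=
    (mul_le_mul_of_nonneg_left h1 (by positivity)).trans hZ
  refine le_trans ?_ h2
  -- the scale
  have h2m : L ^ (1 / 8 : ℝ) / 2 ≤ 2 ^ m := by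
    have h3 : (L ^ (1 / 8 : ℝ) / 2) ^ 2 ≤ ((2 : ℝ) ^ m) ^ 2 := by
      have h4 : (L ^ (1 / 8 : ℝ) / 2) ^ 2 = L ^ (1 / 4 : ℝ) / 4 := by
        rw [div_pow, ← Real.rpow_natCast, ← Real.rpow_mul hL0.le]
        norm_num
      rw [h4, ← pow_mul]
      have h5 : (2 : ℝ) ^ M ≤ 2 ^ (m * 2) := pow_le_pow_right₀ (by norm_num) (by omega)
      have h6 := H.h2
      rw [H.hh] at h6
      have h7 : (0 : ℝ) < 2 ^ M := by positivity
      linarith
    exact (abs_le_of_sq_le_sq' h3 (by positivity)).2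
  have h4 : (4 : ℝ) ^ m = 2 ^ m * 2 ^ m := by rw [← mul_pow]; norm_num
  have h5 : (K : ℝ) / 4 * (2 ^ m * (L ^ (-(1 / 80) : ℝ) / 64)) ≤
      (F : ℝ) * (4 ^ m * (L ^ (-(1 / 80) : ℝ) / 64)) := by
    rw [h4]
    rw [pow_succ] at hF
    have h6 : (K : ℝ) / 4 ≤ F * 2 ^ m := by linarith
    have h7 : (F : ℝ) * (2 ^ m * 2 ^ m * (L ^ (-(1 / 80) : ℝ) / 64)) =
        (F * 2 ^ m) * (2 ^ m * (L ^ (-(1 / 80) : ℝ) / 64)) := by ring
    rw [h7]
    exact mul_le_mul_of_nonneg_right h6 (by positivity)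
  refine le_trans ?_ h5
  have h18 : 0 < L ^ (1 / 8 : ℝ) := Real.rpow_pos_of_pos hL0 _
  have h6 : (L ^ (99 / 100 : ℝ) / 2) / 4 * ((L ^ (1 / 8 : ℝ) / 2) * (L ^ (-(1 / 80) : ℝ) / 64)) ≤
      (K : ℝ) / 4 * (2 ^ m * (L ^ (-(1 / 80) : ℝ) / 64)) := by
    apply mul_le_mul (by linarith) _ (by positivity) (by positivity)
    exact mul_le_mul_of_nonneg_right h2m (by positivity)
  refine le_trans ?_ h6
  have h7 : 1024 * L ^ (21 / 20 : ℝ) ≤ L ^ (99 / 100 + 1 / 8 + -(1 / 80) : ℝ) :=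
    rp H.hL H.hB (by norm_num)
  rw [Real.rpow_add hL0, Real.rpow_add hL0] at h7
  linarith

theorem num_of {lam M₁ : ℕ} (h1 : 2 ^ 250 ≤ lam) (h2 : 2 ^ (4 * M₁) ≤ lam) (K : ℕ)
    (hK : (lam : ℝ) ^ (99 / 100 : ℝ) ≤ K + 1) (hKL : K ≤ lam) :
    ∃ M, M₁ ≤ M ∧ Num (lam : ℝ) (2 ^ M) M K := by
  have hlam1 : 1 ≤ lam := le_trans (Nat.one_le_two_pow) h1
  have hlam0 : lam ≠ 0 := by omega
  have hL : (1 : ℝ) ≤ lam := by exact_mod_cast hlam1
  refine ⟨Nat.log 2 lam / 4, ?_, ?_⟩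
  · have := Nat.le_log_of_pow_le (by norm_num : 1 < 2) h2
    omega
  · have hb := big (n := 10) (lam := lam) h1
    have ha : (2 : ℝ) ^ (4 * (Nat.log 2 lam / 4)) ≤ lam := by
      have h3 : 2 ^ (4 * (Nat.log 2 lam / 4)) ≤ lam := by
        refine le_trans (Nat.pow_le_pow_right (by norm_num) (Nat.mul_div_le _ _)) ?_
        exact Nat.pow_log_le_self 2 hlam0
      exact_mod_cast h3
    have hc : (lam : ℝ) ≤ 2 ^ (4 * (Nat.log 2 lam / 4) + 4) := by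
      have h3 : lam ≤ 2 ^ (4 * (Nat.log 2 lam / 4) + 4) := by
        have h4 := Nat.lt_pow_succ_log_self (by norm_num : 1 < 2) lam
        refine h4.le.trans (Nat.pow_le_pow_right (by norm_num) ?_)
        omega
      exact_mod_cast h3
    have hq : ∀ n : ℕ, ((2 : ℝ) ^ (4 * n)) ^ (1 / 4 : ℝ) = 2 ^ n := by
      intro n
      rw [← Real.rpow_natCast, ← Real.rpow_mul (by norm_num), ← Real.rpow_natCast]
      congr 1
      push_cast
      ring
    exact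
      { hL := hL
        hB := by norm_num at hb; norm_num; exact hb
        hh := rfl
        h1 := by
          have h3 := Real.rpow_le_rpow (by positivity) ha (show (0 : ℝ) ≤ 1 / 4 by norm_num)
          rw [hq] at h3
          exact h3
        h2 := by
          have h3 := Real.rpow_le_rpow (by positivity) hc (show (0 : ℝ) ≤ 1 / 4 by norm_num)
          have h4 : 4 * (Nat.log 2 lam / 4) + 4 = 4 * (Nat.log 2 lam / 4 + 1) := by ring
          rw [h4, hq, pow_succ'] at h3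
          exact h3
        hK := hK
        hKL := by exact_mod_cast hKL }

theorem point (d : ℕ) [NeZero d] (T : Word d) (hT : D T = e) : ∃ δ > (0 : ℝ), δ ≤ 1 / 160 ∧
    ∃ lam₀ : ℕ, ∀ (N lam : ℕ) (E : ℤ) (K : ℕ) (t : Word d × (Fin K → Word d) × Word d),
      t ∈ decF d N lam E K → lam₀ ≤ lam → N + 1 ≤ lam ^ (2 * d) →
      (lam : ℝ) ^ (99 / 100 : ℝ) ≤ K + 1 → (lam : ℝ) ^ (39 / 40 : ℝ) ≤ cnt [] t.2.1 →
      (lam : ℝ) ^ (39 / 40 : ℝ) ≤ cnt T t.2.1 →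
      (lam : ℝ) ^ (-δ) * (K + 1) ≤ avg (fun g => nF (act g t)) →
      (lam : ℝ) ^ (21 / 20 : ℝ) ≤ avg (fun g => nZ (act g t)) := by
  obtain ⟨ε, hε, M₀, hM₀⟩ := iid_main d (16 * d + 1) (by positivity)
  obtain ⟨δ, hδ⟩ : ∃ δ : ℝ, δ = min ε (1 / 20) / 8 := ⟨_, rfl⟩
  have hδ0 : 0 < δ := by
    rw [hδ]
    have : 0 < min ε (1 / 20) := lt_min hε (by norm_num)
    positivity
  have hδε : δ ≤ ε / 8 := by
    rw [hδ]
    have := min_le_left ε (1 / 20 : ℝ)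
    linarith
  have hδ160 : δ ≤ 1 / 160 := by
    rw [hδ]
    have := min_le_right ε (1 / 20 : ℝ)
    linarith
  obtain ⟨M₁, hM₁⟩ : ∃ M₁, M₁ = max M₀ (max 4 ⌈1 + 4 / ε⌉₊) := ⟨_, rfl⟩
  refine ⟨δ, hδ0, hδ160, max (2 ^ 250) (2 ^ (4 * M₁)), ?_⟩
  intro N lam E K t ht hlam hN hKb hc1 hc2 hF
  have ht' := (mem_decF t).mp ht
  have hcard := dec_card ht'.1
  rw [List.length_ofFn] at hcard
  obtain ⟨M, hMM, H⟩ := num_of (le_trans (le_max_left _ _) hlam) (le_trans (le_max_right _ _) hlam)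
    K hKb hcard.1
  have hM0 : M₀ ≤ M := le_trans (by rw [hM₁]; exact le_max_left _ _) hMM
  have hM4 : 4 ≤ M :=
    le_trans (by rw [hM₁]; exact (le_max_left _ _).trans (le_max_right _ _)) hMM
  have hMc : 1 + 4 / ε ≤ (M : ℝ) := by
    have h1 : ⌈1 + 4 / ε⌉₊ ≤ M :=
      le_trans (by rw [hM₁]; exact (le_max_right _ _).trans (le_max_right _ _)) hMM
    exact (Nat.le_ceil _).trans (by exact_mod_cast h1)
  have hL0 : (0 : ℝ) < lam := by linarith [H.hL]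
  have hKbig := H.Kbig
  have hh0 := H.hpos
  have hKR : (0 : ℝ) < K := by linarith
  have hK : 0 < K := by exact_mod_cast hKR
  have hKnat : 100 * 2 ^ M ≤ K := by exact_mod_cast hKbig
  -- the block system
  have hblk : ∀ i, Blk (t.2.1 i) := fun i => ht'.1.blk _ ((List.mem_ofFn' _ _).2 ⟨i, rfl⟩)
  have hr : ∀ i, RP (t.2.1 i) := fun i => (hblk i).rp
  have hl : ∀ i, LP (t.2.1 i) := fun i => (hblk i).lp
  -- folds
  have hfold := fold_avg hK t ht hr hl (2 ^ M) (by omega)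
  have hp : (lam : ℝ) ^ (-δ) / 4 ≤ pf (bsys hK t.2.1 hr hl) (2 ^ M) := by
    refine pf_of_avg H δ _ _ hδ160 hF ?_
    push_cast at hfold
    exact hfold
  -- independent blocks
  obtain ⟨m, hm1, hm2, hm3⟩ := hM₀ (bsys hK t.2.1 hr hl) M (N + 1) ((lam : ℝ) ^ (-(1 / 40) : ℝ)) hM0
    (by
      intro b' i
      obtain ⟨b, hb'⟩ : ∃ b : Fin K × Bool, b = b' := ⟨b', rfl⟩
      rw [← hb']
      show |(D (orw (t.2.1 b.1) b.2) + e : Pt d) i| ≤ _
      have h1 := abs_D_le (orw (t.2.1 b.1) b.2) i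
      rw [orw_length] at h1
      have h2 := mem_length (U₀ := t.1) (U₁ := t.2.2) (Xs := List.ofFn t.2.1) (X := t.2.1 b.1)
        ((List.mem_ofFn' _ _).2 ⟨b.1, rfl⟩)
      rw [ht'.1.len] at h2
      have h3 : |(e : Pt d) i| ≤ 1 := by
        by_cases hi : i = 0
        · subst hi; simp [e]
        · simp [e, hi]
      have h4 := abs_add_le (D (orw (t.2.1 b.1) b.2) i) ((e : Pt d) i)
      rw [Pi.add_apply]
      push_cast
      have h5 : ((t.2.1 b.1).length : ℤ) + 1 ≤ N := by exact_mod_cast h2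
      linarith)
    (by
      have h1 : (((N + 1 : ℕ) : ℝ) + 1) ≤ 2 * 2 ^ (8 * d * (M + 1)) := by
        have h2 : (lam : ℝ) ≤ 2 ^ (4 * (M + 1)) := by
          have h2 := pow_le_pow_left₀ (by positivity) H.h2 4
          rw [← pow_succ', ← pow_mul] at h2
          refine le_trans (le_of_eq ?_) (h2.trans (le_of_eq ?_))
          · rw [← Real.rpow_natCast, ← Real.rpow_mul hL0.le]
            norm_num
          · congr 1; ring
        have h3 : ((N + 1 : ℕ) : ℝ) ≤ 2 ^ (8 * d * (M + 1)) := by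
          have h4 : ((N + 1 : ℕ) : ℝ) ≤ (lam : ℝ) ^ (2 * d) := by exact_mod_cast hN
          refine h4.trans ?_
          refine (pow_le_pow_left₀ hL0.le h2 (2 * d)).trans (le_of_eq ?_)
          rw [← pow_mul]
          congr 1; ring
        have h5 : (1 : ℝ) ≤ 2 ^ (8 * d * (M + 1)) := one_le_pow₀ (by norm_num)
        linarith
      have h2 := Real.log_le_log (by positivity) h1
      rw [Real.log_mul (by norm_num) (by positivity), Real.log_pow] at h2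
      have h3 := Real.log_two_lt_d9
      have h3' := Real.log_two_gt_d9
      push_cast at h2 ⊢
      have hM4R : (4 : ℝ) ≤ M := by exact_mod_cast hM4
      have hd0 : (0 : ℝ) ≤ d := by positivity
      have h4 : 8 * (d : ℝ) * (M + 1) * Real.log 2 ≤ 8 * d * (M + 1) := by
        have : (0 : ℝ) ≤ 8 * d * (M + 1) := by positivity
        nlinarith
      have h5 : (d : ℝ) * 8 ≤ d * (8 * M) := mul_le_mul_of_nonneg_left (by linarith) hd0
      linarith)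
    (rho_pow H hM4)
    (by
      have h1 := rho_ge hK t.2.1 hr hl [] e (by simp) (by simp [tlw])
      refine le_trans ?_ h1
      rw [le_div_iff₀ hKR]
      refine le_trans ?_ hc1
      have h2 : (lam : ℝ) ^ (39 / 40 : ℝ) = (lam : ℝ) ^ (-(1 / 40) : ℝ) * lam := by
        conv_rhs => rw [← Real.rpow_one (lam : ℝ)]
        rw [Real.rpow_one, ← Real.rpow_add_one hL0.ne']
        norm_num
      rw [h2]
      exact mul_le_mul_of_nonneg_left H.hKL (by positivity))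
    (by
      have h1 := rho_ge hK t.2.1 hr hl T (e + e) (by rw [hT]) (by rw [D_tlw, hT, fl_e', neg_neg])
      refine le_trans ?_ h1
      rw [le_div_iff₀ hKR]
      refine le_trans ?_ hc2
      have h2 : (lam : ℝ) ^ (39 / 40 : ℝ) = (lam : ℝ) ^ (-(1 / 40) : ℝ) * lam := by
        rw [← Real.rpow_add_one hL0.ne']
        norm_num
      rw [h2]
      exact mul_le_mul_of_nonneg_left H.hKL (by positivity))
    (pf_pow H δ ε _ hε hδ0 hδε hMc hp)
  -- zigzags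
  have h9 : 2 * 2 ^ (m + 9) ≤ 2 ^ M := by
    rw [← pow_succ']
    exact Nat.pow_le_pow_right (by norm_num) (by omega)
  have h8 : 2 ^ (m + 1) ≤ 2 ^ M := Nat.pow_le_pow_right (by norm_num) (by omega)
  have hzig := zig_avg hK t ht hr hl m (2 ^ (m + 9)) (by omega)
  refine fin_num H m ((K - 2 * 2 ^ (m + 9)) / 2 ^ (m + 1)) (pf (bsys hK t.2.1 hr hl) (2 ^ M)) _ _
    (2 * 2 ^ (m + 9) + 2 ^ (m + 1)) hm1 ?_ hm3 (by positivity) ?_ ?_ ?_
  · refine le_trans ?_ hp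
    apply div_le_div_of_nonneg_right _ (by norm_num)
    exact Real.rpow_le_rpow_of_exponent_le H.hL (by linarith)
  · have h1 : (2 * 2 ^ (m + 9) + 2 ^ (m + 1) : ℝ) ≤ 2 ^ M + 2 ^ M := by
      have h1 : 2 * 2 ^ (m + 9) + 2 ^ (m + 1) ≤ 2 ^ M + 2 ^ M := by omega
      exact_mod_cast h1
    linarith
  · have h1 := Nat.div_add_mod (K - 2 * 2 ^ (m + 9)) (2 ^ (m + 1))
    have h2 := Nat.mod_lt (K - 2 * 2 ^ (m + 9)) (show 0 < 2 ^ (m + 1) by positivity)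
    have h3 : K ≤ 2 * ((K - 2 * 2 ^ (m + 9)) / 2 ^ (m + 1) * 2 ^ (m + 1)) := by
      rw [mul_comm ((K - 2 * 2 ^ (m + 9)) / 2 ^ (m + 1)) (2 ^ (m + 1))]
      omega
    exact_mod_cast h3
  · refine le_trans (le_of_eq ?_) hzig
    push_cast
    rfl

theorem far_mono (N : ℕ) {E E' : ℤ} (h : E' ≤ E) :
    ((far d N E).card : ℝ) ≤ ((far d N E').card : ℝ) := by
  have h1 : (far d N E).card ≤ (far d N E').card := by
    classical
    apply card_le_card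
    intro w hw
    unfold far at hw ⊢
    rw [mem_filter] at hw ⊢
    exact ⟨hw.1, h.trans hw.2⟩
  exact_mod_cast h1

open Classical in
/-- The contribution of the decompositions with few blocks equal to `T`. -/
theorem few (T : Word d) (hT : Blk T) (N lam r κ₀ : ℕ) (E : ℤ) :
    (κ₀ : ℝ) * ∑ K ∈ range (N + 1), ∑ t ∈ decF d N lam E K,
      (if κ₀ ≤ K + 1 ∧ cnt T t.2.1 < r then (1 : ℝ) else 0) ≤
      r * ((2 * d) ^ (T.length + 1) * ((far d N (E - (T.length + 1 : ℕ))).card : ℝ)) := by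
  have h1 := ins_count d T hT N lam r κ₀ E
  have h2 := far_trunc d N (T.length + 1) E
  have h3 : ∑ K ∈ range (N + 1), ∑ t ∈ decF d N lam E K,
      (if κ₀ ≤ K + 1 ∧ cnt T t.2.1 < r then (1 : ℝ) else 0) =
      ((∑ K ∈ (range (N + 1)).filter (fun K => κ₀ ≤ K + 1),
        ((decF d N lam E K).filter fun t => cnt T t.2.1 < r).card : ℕ) : ℝ) := by
    rw [sum_filter]
    push_cast
    apply sum_congr rfl
    intro K _
    by_cases hK : κ₀ ≤ K + 1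
    · rw [if_pos hK]
      rw [card_filter]
      push_cast
      apply sum_congr rfl
      intro t _
      by_cases ht : cnt T t.2.1 < r
      · rw [if_pos ⟨hK, ht⟩, if_pos ht]
      · rw [if_neg (fun h => ht h.2), if_neg ht]
    · rw [if_neg hK]
      apply sum_eq_zero
      intro t _
      rw [if_neg (fun h => hK h.1)]
  rw [h3]
  have h4 : κ₀ * ∑ K ∈ (range (N + 1)).filter (fun K => κ₀ ≤ K + 1),
      ((decF d N lam E K).filter fun t => cnt T t.2.1 < r).card ≤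
      r * ((2 * d) ^ (T.length + 1) * (far d N (E - (T.length + 1 : ℕ))).card) := by
    refine h1.trans ?_
    exact Nat.mul_le_mul_left _ h2
  exact_mod_cast h4

open Classical in
theorem pointwise (d : ℕ) [NeZero d] (T : Word d) (hT : D T = e) : ∃ δ > (0 : ℝ), δ ≤ 1 / 160 ∧
    ∃ lam₀ : ℕ, ∀ (N lam : ℕ) (E : ℤ) (K : ℕ) (t : Word d × (Fin K → Word d) × Word d),
      t ∈ decF d N lam E K → lam₀ ≤ lam → N + 1 ≤ lam ^ (2 * d) → ∀ κ₀ r : ℕ,
      (lam : ℝ) ^ (99 / 100 : ℝ) ≤ κ₀ → (lam : ℝ) ^ (39 / 40 : ℝ) ≤ r →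
      avg (fun g => nF (act g t)) ≤ κ₀ + (lam + 1) *
        ((if κ₀ ≤ K + 1 ∧ cnt [] t.2.1 < r then (1 : ℝ) else 0) +
          (if κ₀ ≤ K + 1 ∧ cnt T t.2.1 < r then (1 : ℝ) else 0)) +
        (lam : ℝ) ^ (-δ) * (lam + 1) +
        (lam + 1) / (lam : ℝ) ^ (21 / 20 : ℝ) * avg (fun g => nZ (act g t)) := by
  obtain ⟨δ, hδ, hδ2, lam₀, h⟩ := point d T hT
  refine ⟨δ, hδ, hδ2, max lam₀ 1, ?_⟩
  intro N lam E K t ht hlam hN κ₀ r hκ hr
  have hlam0 := (le_max_left lam₀ 1).trans hlam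
  have hlam1 : (1 : ℝ) ≤ lam := by exact_mod_cast (le_max_right lam₀ 1).trans hlam
  have ht' := (mem_decF t).mp ht
  have hcard := dec_card ht'.1
  rw [List.length_ofFn] at hcard
  have hKL : (K : ℝ) ≤ lam := by exact_mod_cast hcard.1
  have hA : avg (fun g => nF (act g t)) ≤ K + 1 := by
    have := avg_mono (K := K) (φ := fun g => nF (act g t)) (ψ := fun _ => (K : ℝ) + 1)
      (fun g => nF_le _)
    rwa [avg_const] at this
  have hZ : 0 ≤ avg (fun g => nZ (act g t)) := by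
    have := avg_mono (K := K) (φ := fun _ => (0 : ℝ)) (ψ := fun g => nZ (act g t))
      (fun g => nZ_nonneg _)
    rwa [avg_const] at this
  have hθ : 0 < (lam : ℝ) ^ (-δ) := by positivity
  have hζ : 0 < (lam : ℝ) ^ (21 / 20 : ℝ) := by positivity
  have hi1 : (0 : ℝ) ≤ (if κ₀ ≤ K + 1 ∧ cnt [] t.2.1 < r then (1 : ℝ) else 0) := by
    split_ifs <;> norm_num
  have hi2 : (0 : ℝ) ≤ (if κ₀ ≤ K + 1 ∧ cnt T t.2.1 < r then (1 : ℝ) else 0) := by
    split_ifs <;> norm_num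
  have ht1 : (0 : ℝ) ≤ (lam + 1) *
        ((if κ₀ ≤ K + 1 ∧ cnt [] t.2.1 < r then (1 : ℝ) else 0) +
          (if κ₀ ≤ K + 1 ∧ cnt T t.2.1 < r then (1 : ℝ) else 0)) := by positivity
  have ht2 : 0 ≤ (lam : ℝ) ^ (-δ) * (lam + 1) := by positivity
  have ht3 : 0 ≤ (lam + 1) / (lam : ℝ) ^ (21 / 20 : ℝ) * avg (fun g => nZ (act g t)) := by
    positivity
  have ht0 : (0 : ℝ) ≤ κ₀ := by positivity
  by_cases hK : K + 1 < κ₀
  · have : (K : ℝ) + 1 ≤ κ₀ := by exact_mod_cast hK.le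
    linarith
  push Not at hK
  by_cases hc1 : cnt [] t.2.1 < r
  · have e1 : (if κ₀ ≤ K + 1 ∧ cnt [] t.2.1 < r then (1 : ℝ) else 0) = 1 := if_pos ⟨hK, hc1⟩
    rw [e1] at ht1 ⊢
    have : ((lam : ℝ) + 1) ≤ (lam + 1) *
        (1 + (if κ₀ ≤ K + 1 ∧ cnt T t.2.1 < r then (1 : ℝ) else 0)) := by
      have h5 : (0 : ℝ) ≤ lam + 1 := by linarith
      nlinarith
    linarith
  by_cases hc2 : cnt T t.2.1 < r
  · have e1 : (if κ₀ ≤ K + 1 ∧ cnt T t.2.1 < r then (1 : ℝ) else 0) = 1 := if_pos ⟨hK, hc2⟩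
    rw [e1] at ht1 ⊢
    have : ((lam : ℝ) + 1) ≤ (lam + 1) *
        ((if κ₀ ≤ K + 1 ∧ cnt [] t.2.1 < r then (1 : ℝ) else 0) + 1) := by
      have h5 : (0 : ℝ) ≤ lam + 1 := by linarith
      nlinarith
    linarith
  by_cases hA2 : (lam : ℝ) ^ (-δ) * (K + 1) ≤ avg (fun g => nF (act g t))
  · push Not at hc1 hc2
    have hKR : (κ₀ : ℝ) ≤ K + 1 := by exact_mod_cast hK
    have hc1R : (r : ℝ) ≤ cnt [] t.2.1 := by exact_mod_cast hc1
    have hc2R : (r : ℝ) ≤ cnt T t.2.1 := by exact_mod_cast hc2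
    have h6 := h N lam E K t ht hlam0 hN (hκ.trans hKR) (hr.trans hc1R) (hr.trans hc2R) hA2
    have h7 : ((lam : ℝ) + 1) ≤
        (lam + 1) / (lam : ℝ) ^ (21 / 20 : ℝ) * avg (fun g => nZ (act g t)) := by
      rw [div_mul_eq_mul_div, le_div_iff₀ hζ]
      exact mul_le_mul_of_nonneg_left h6 (by linarith)
    linarith
  · push Not at hA2
    have h7 : (lam : ℝ) ^ (-δ) * (K + 1) ≤ (lam : ℝ) ^ (-δ) * (lam + 1) :=
      mul_le_mul_of_nonneg_left (by linarith) hθ.le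
    linarith

theorem sums (T : Word d) (hT : Blk T) (hTl : T.length = 7) (hTe : D T = e) :
    ∃ δ > (0 : ℝ), δ ≤ 1 / 160 ∧ ∃ lam₀ : ℕ, ∀ N lam D₀ : ℕ,
      lam₀ ≤ lam → N + 1 ≤ lam ^ (2 * d) → lam < D₀ → ∀ κ₀ r : ℕ, 0 < κ₀ →
      (lam : ℝ) ^ (99 / 100 : ℝ) ≤ κ₀ → (lam : ℝ) ^ (39 / 40 : ℝ) ≤ r →
      ((near d N lam D₀).card : ℝ) ≤ (κ₀ + (lam + 1) * (r / κ₀ * ((2 * d) ^ 1 + (2 * d) ^ 8)) +
        (lam : ℝ) ^ (-δ) * (lam + 1) +
        (lam + 1) / (lam : ℝ) ^ (21 / 20 : ℝ) * (4 * lam + 2)) *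
        ((far d N (2 * D₀ - 3 * lam - 8)).card : ℝ) := by
  classical
  obtain ⟨δ, hδ, hδ2, lam₀, h⟩ := pointwise d T hTe
  refine ⟨δ, hδ, hδ2, max lam₀ 1, ?_⟩
  intro N lam D₀ hlam hN hD κ₀ r hκ0 hκ hr
  have hlam0 := (le_max_left lam₀ 1).trans hlam
  have hlam1 : (1 : ℝ) ≤ lam := by exact_mod_cast (le_max_right lam₀ 1).trans hlam
  obtain ⟨E, hE⟩ : ∃ E : ℤ, E = 2 * D₀ - lam := ⟨_, rfl⟩
  have h1 := near_le d N lam D₀ hD
  rw [← hE] at h1
  refine h1.trans ?_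
  rw [sum_congr rfl fun K _ => (sum_avg nF).symm]
  refine (sum_le_sum fun K _ => sum_le_sum fun t ht => h N lam E K t ht hlam0 hN κ₀ r hκ hr).trans ?_
  have hF : ∀ E' : ℤ, E - 2 * lam - 8 ≤ E' →
      ((far d N E').card : ℝ) ≤ ((far d N (2 * D₀ - 3 * lam - 8)).card : ℝ) := by
    intro E' hE'
    apply far_mono
    rw [hE] at hE'
    linarith
  set F := ((far d N (2 * D₀ - 3 * lam - 8)).card : ℝ) with hFdef
  have hF0 : 0 ≤ F := by positivity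
  have hlamZ : (0 : ℤ) ≤ lam := by positivity
  -- the four sums
  have hcardsum : ∑ K ∈ range (N + 1), ((decF d N lam E K).card : ℝ) ≤ F := by
    have h2 := sum_decF_le d N lam E
    have h3 : ∑ K ∈ range (N + 1), ((decF d N lam E K).card : ℝ) ≤ ((far d N E).card : ℝ) := by
      exact_mod_cast h2
    exact h3.trans (hF E (by linarith))
  have hconst : ∀ c : ℝ, 0 ≤ c → ∑ K ∈ range (N + 1), ∑ t ∈ decF d N lam E K, c ≤ c * F := by
    intro c hc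
    have : ∑ K ∈ range (N + 1), ∑ t ∈ decF d N lam E K, c =
        c * ∑ K ∈ range (N + 1), ((decF d N lam E K).card : ℝ) := by
      rw [mul_sum]
      apply sum_congr rfl
      intro K _
      rw [sum_const, nsmul_eq_mul, mul_comm]
    rw [this]
    exact mul_le_mul_of_nonneg_left hcardsum hc
  have hκR : (0 : ℝ) < κ₀ := by exact_mod_cast hκ0
  have hfew1 : ∑ K ∈ range (N + 1), ∑ t ∈ decF d N lam E K,
      (if κ₀ ≤ K + 1 ∧ cnt [] t.2.1 < r then (1 : ℝ) else 0) ≤ r / κ₀ * ((2 * d) ^ 1 * F) := by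
    have h2 := few (d := d) [] Blk_nil N lam r κ₀ E
    rw [div_mul_eq_mul_div, le_div_iff₀ hκR, mul_comm _ (κ₀ : ℝ)]
    refine h2.trans ?_
    apply mul_le_mul_of_nonneg_left _ (by positivity)
    apply mul_le_mul_of_nonneg_left _ (by positivity)
    apply hF
    simp
    linarith
  have hfew2 : ∑ K ∈ range (N + 1), ∑ t ∈ decF d N lam E K,
      (if κ₀ ≤ K + 1 ∧ cnt T t.2.1 < r then (1 : ℝ) else 0) ≤ r / κ₀ * ((2 * d) ^ 8 * F) := by
    have h2 := few (d := d) T hT N lam r κ₀ E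
    rw [hTl] at h2
    rw [div_mul_eq_mul_div, le_div_iff₀ hκR, mul_comm _ (κ₀ : ℝ)]
    refine h2.trans ?_
    apply mul_le_mul_of_nonneg_left _ (by positivity)
    apply mul_le_mul_of_nonneg_left _ (by positivity)
    apply hF
    push_cast
    linarith
  have hzig : ∑ K ∈ range (N + 1), ∑ t ∈ decF d N lam E K, avg (fun g => nZ (act g t)) ≤
      (4 * lam + 2) * F := by
    rw [sum_congr rfl fun K _ => sum_avg nZ]
    refine (zig_count d N lam E).trans ?_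
    apply mul_le_mul_of_nonneg_left _ (by positivity)
    apply hF
    linarith
  have hsplit : ∀ (a b c : ℝ), ∑ K ∈ range (N + 1), ∑ t ∈ decF d N lam E K,
      (a + (lam + 1) *
        ((if κ₀ ≤ K + 1 ∧ cnt [] t.2.1 < r then (1 : ℝ) else 0) +
          (if κ₀ ≤ K + 1 ∧ cnt T t.2.1 < r then (1 : ℝ) else 0)) + b +
        c * avg (fun g => nZ (act g t))) =
      ∑ K ∈ range (N + 1), ∑ t ∈ decF d N lam E K, a +
      (lam + 1) * (∑ K ∈ range (N + 1), ∑ t ∈ decF d N lam E K,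
        (if κ₀ ≤ K + 1 ∧ cnt [] t.2.1 < r then (1 : ℝ) else 0) +
        ∑ K ∈ range (N + 1), ∑ t ∈ decF d N lam E K,
        (if κ₀ ≤ K + 1 ∧ cnt T t.2.1 < r then (1 : ℝ) else 0)) +
      ∑ K ∈ range (N + 1), ∑ t ∈ decF d N lam E K, b +
      c * ∑ K ∈ range (N + 1), ∑ t ∈ decF d N lam E K, avg (fun g => nZ (act g t)) := by
    intro a b c
    rw [mul_add, mul_sum, mul_sum, mul_sum, ← sum_add_distrib, ← sum_add_distrib,
      ← sum_add_distrib, ← sum_add_distrib]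
    apply sum_congr rfl
    intro K _
    rw [mul_sum, mul_sum, mul_sum, ← sum_add_distrib, ← sum_add_distrib, ← sum_add_distrib,
      ← sum_add_distrib]
    apply sum_congr rfl
    intro t _
    ring
  rw [hsplit]
  have hζ : 0 < (lam : ℝ) ^ (21 / 20 : ℝ) := by positivity
  have hθ : 0 < (lam : ℝ) ^ (-δ) := by positivity
  have g1 := hconst κ₀ hκR.le
  have g2 := hconst ((lam : ℝ) ^ (-δ) * (lam + 1)) (by positivity)
  have g3 := mul_le_mul_of_nonneg_left (add_le_add hfew1 hfew2) (show (0 : ℝ) ≤ lam + 1 by linarith)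
  have g4 := mul_le_mul_of_nonneg_left hzig
    (show (0 : ℝ) ≤ (lam + 1) / (lam : ℝ) ^ (21 / 20 : ℝ) by positivity)
  refine (add_le_add (add_le_add (add_le_add g1 g3) g2) g4).trans (le_of_eq ?_)
  ring

end NearFarAux

theorem near_far (d : ℕ) [NeZero d] (hd : 3 ≤ d) : ∃ c > (0 : ℝ), ∃ C > (0 : ℝ), ∃ lam₀ : ℕ,
    ∀ N lam D₀ : ℕ, lam₀ ≤ lam → N + 1 ≤ lam ^ (2 * d) → lam < D₀ →
      ((near d N lam D₀).card : ℝ) ≤
        C * (lam : ℝ) ^ (1 - c) * ((far d N (2 * D₀ - 3 * lam - 8)).card : ℝ) := by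
  obtain ⟨T, hT, hTe, hTl⟩ := exists_T2 d hd
  obtain ⟨δ, hδ, hδ2, lam₀, h⟩ := NearFarAux.sums T hT hTl hTe
  refine ⟨δ, hδ, 16 + 4 * ((2 * d) ^ 1 + (2 * d) ^ 8), by positivity, max lam₀ 1, ?_⟩
  intro N lam D₀ hlam hN hD
  have hlam0 := (le_max_left lam₀ 1).trans hlam
  have hL : (1 : ℝ) ≤ lam := by exact_mod_cast (le_max_right lam₀ 1).trans hlam
  have hL0 : (0 : ℝ) < lam := by linarith
  set L := (lam : ℝ) with hLdef
  have hcκ : 1 ≤ L ^ (99 / 100 : ℝ) := Real.one_le_rpow hL (by norm_num)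
  have hcr : 1 ≤ L ^ (39 / 40 : ℝ) := Real.one_le_rpow hL (by norm_num)
  have hκ1 := Nat.le_ceil (L ^ (99 / 100 : ℝ))
  have hr1 := Nat.le_ceil (L ^ (39 / 40 : ℝ))
  have hκ2 := Nat.ceil_lt_add_one (show 0 ≤ L ^ (99 / 100 : ℝ) by positivity)
  have hr2 := Nat.ceil_lt_add_one (show 0 ≤ L ^ (39 / 40 : ℝ) by positivity)
  have hκ0 : 0 < ⌈L ^ (99 / 100 : ℝ)⌉₊ := Nat.ceil_pos.mpr (by positivity)
  have main := h N lam D₀ hlam0 hN hD ⌈L ^ (99 / 100 : ℝ)⌉₊ ⌈L ^ (39 / 40 : ℝ)⌉₊ hκ0 hκ1 hr1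
  refine main.trans ?_
  apply mul_le_mul_of_nonneg_right _ (by positivity)
  set κ₀ := (⌈L ^ (99 / 100 : ℝ)⌉₊ : ℝ) with hκdef
  set r := (⌈L ^ (39 / 40 : ℝ)⌉₊ : ℝ) with hrdef
  have hmono : ∀ a : ℝ, a ≤ 1 - δ → L ^ a ≤ L ^ (1 - δ) := fun a ha =>
    Real.rpow_le_rpow_of_exponent_le hL ha
  have hκpos : 0 < κ₀ := by linarith
  have t1 : κ₀ ≤ 2 * L ^ (1 - δ) := by
    have := hmono (99 / 100) (by linarith)
    linarith
  have t2 : (L + 1) * (r / κ₀ * ((2 * d) ^ 1 + (2 * d) ^ 8)) ≤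
      4 * ((2 * d) ^ 1 + (2 * d) ^ 8) * L ^ (1 - δ) := by
    have h1 : r / κ₀ ≤ 2 * L ^ (39 / 40 - 99 / 100 : ℝ) := by
      rw [div_le_iff₀ hκpos]
      have h2 : L ^ (39 / 40 : ℝ) = L ^ (39 / 40 - 99 / 100 : ℝ) * L ^ (99 / 100 : ℝ) := by
        rw [← Real.rpow_add hL0]; ring_nf
      have h3 : L ^ (39 / 40 - 99 / 100 : ℝ) * L ^ (99 / 100 : ℝ) ≤
          L ^ (39 / 40 - 99 / 100 : ℝ) * κ₀ := mul_le_mul_of_nonneg_left hκ1 (by positivity)
      linarith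
    have h4 : (L + 1) * (r / κ₀) ≤ 4 * L ^ (1 - δ) := by
      have h5 : (L + 1) * (r / κ₀) ≤ (2 * L) * (2 * L ^ (39 / 40 - 99 / 100 : ℝ)) := by
        apply mul_le_mul (by linarith) h1 (by positivity) (by positivity)
      have h6 : L * L ^ (39 / 40 - 99 / 100 : ℝ) = L ^ (1 + (39 / 40 - 99 / 100) : ℝ) := by
        rw [Real.rpow_add hL0, Real.rpow_one]
      have h7 := hmono (1 + (39 / 40 - 99 / 100)) (by linarith)
      rw [← h6] at h7
      nlinarith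
    have h8 : (0 : ℝ) ≤ (2 * d) ^ 1 + (2 * d) ^ 8 := by positivity
    calc (L + 1) * (r / κ₀ * ((2 * d) ^ 1 + (2 * d) ^ 8)) =
          ((L + 1) * (r / κ₀)) * ((2 * d) ^ 1 + (2 * d) ^ 8) := by ring
      _ ≤ (4 * L ^ (1 - δ)) * ((2 * d) ^ 1 + (2 * d) ^ 8) := mul_le_mul_of_nonneg_right h4 h8
      _ = _ := by ring
  have t3 : L ^ (-δ) * (L + 1) ≤ 2 * L ^ (1 - δ) := by
    have h1 : L ^ (1 - δ) = L ^ (-δ) * L := by
      rw [← Real.rpow_add_one hL0.ne']; ring_nf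
    rw [h1]
    have : 0 < L ^ (-δ) := by positivity
    nlinarith
  have t4 : (L + 1) / L ^ (21 / 20 : ℝ) * (4 * L + 2) ≤ 12 * L ^ (1 - δ) := by
    rw [div_mul_eq_mul_div, div_le_iff₀ (by positivity)]
    have h1 : L ^ (1 - δ) * L ^ (21 / 20 : ℝ) = L ^ (1 - δ + 21 / 20) := by
      rw [← Real.rpow_add hL0]
    have h2 : L ^ (2 : ℝ) ≤ L ^ (1 - δ + 21 / 20) :=
      Real.rpow_le_rpow_of_exponent_le hL (by linarith)
    have h3 : L ^ (2 : ℝ) = L ^ 2 := by norm_num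
    rw [mul_assoc, h1]
    rw [h3] at h2
    nlinarith
  calc _ ≤ 2 * L ^ (1 - δ) + 4 * ((2 * d) ^ 1 + (2 * d) ^ 8) * L ^ (1 - δ) + 2 * L ^ (1 - δ) +
        12 * L ^ (1 - δ) := by linarith
    _ = _ := by ring

end Pool.Agent.SawFold
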