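import Pool.Agent.SawFold.Word0

/-!
Module PSA (sites and self-avoidance of words) of the project Pool.Agent.SawFold.
-/

set_option autoImplicit false
set_option linter.unusedSectionVars false

namespace Pool.Agent.SawFold

open Finset
open scoped BigOperators

variable {d : ℕ} [NeZero d]

namespace PSAAux

theorem D_take_left (u v : Word d) (i : ℕ) (h : i ≤ u.length) :
    D ((u ++ v).take i) = D (u.take i) := by
  rw [List.take_append_of_le_length h]

theorem D_take_right (u v : Word d) (j : ℕ) :
    D ((u ++ v).take (u.length + j)) = D u + D (v.take j) := by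
  rw [List.take_length_add_append, D_append]

theorem D_take_bond (u : Word d) (s : Stp d) (v : Word d) (j : ℕ) :
    D ((u ++ s :: v).take (u.length + 1 + j)) = D u + vec s + D (v.take j) := by
  have h : u.length + 1 + j = u.length + (j + 1) := by omega
  rw [h, D_take_right, List.take_succ_cons, D_cons, add_assoc]

theorem take_flw (w : Word d) (i : ℕ) : (flw w).take i = flw (w.take i) := by
  unfold flw
  rw [List.map_take]

theorem take_tlw (w : Word d) (i : ℕ) (hi : i ≤ w.length) :
    (tlw w).take i = tlw (w.drop (w.length - i)) := by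
  conv_lhs => rw [← List.take_append_drop (w.length - i) w, tlw_append]
  rw [List.take_left']
  rw [tlw_length, List.length_drop]
  omega

theorem fl_inj {x y : Pt d} (h : fl x = fl y) : x = y := by
  rw [← fl_fl' x, h, fl_fl']

theorem D_take_tlw (w : Word d) (i : ℕ) (hi : i ≤ w.length) :
    D ((tlw w).take i) = - fl (D w - D (w.take (w.length - i))) := by
  rw [take_tlw w i hi, D_tlw]
  have h : D w = D (w.take (w.length - i)) + D (w.drop (w.length - i)) := by
    rw [← D_append, List.take_append_drop]
  have h2 : D w - D (w.take (w.length - i)) = D (w.drop (w.length - i)) := by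
    rw [h]; abel
  rw [h2]

theorem SA_tlw_of (w : Word d) (h : SA w) : SA (tlw w) := by
  intro i j hi hj hij
  rw [tlw_length] at hi hj
  rw [D_take_tlw w i hi, D_take_tlw w j hj] at hij
  have h1 := fl_inj (neg_injective hij)
  have h2 := h (w.length - i) (w.length - j) (by omega) (by omega) (sub_right_injective h1)
  omega

theorem abs_vec_le (s : Stp d) (i : Fin d) : |vec s i| ≤ 1 := by
  obtain ⟨k, b⟩ := s
  by_cases h : i = k
  · subst h
    cases b <;> simp [vec]
  · simp [vec, h]

end PSAAux

open PSAAux

theorem mem_P_append (u v : Word d) (y : Pt d) : y ∈ P (u ++ v) ↔ y ∈ P u ∨ y - D u ∈ P v := by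
  constructor
  · rintro ⟨i, hi, rfl⟩
    by_cases h : i ≤ u.length
    · left
      exact ⟨i, h, D_take_left u v i h⟩
    · right
      have h1 : i = u.length + (i - u.length) := by omega
      refine ⟨i - u.length, ?_, ?_⟩
      · rw [List.length_append] at hi; omega
      · rw [h1, D_take_right]
        simp
  · rintro (⟨i, hi, rfl⟩ | ⟨j, hj, hy⟩)
    · exact ⟨i, by rw [List.length_append]; omega, (D_take_left u v i hi).symm⟩
    · refine ⟨u.length + j, by rw [List.length_append]; omega, ?_⟩
      rw [D_take_right, ← hy]
      abel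

theorem mem_P_cons (s : Stp d) (w : Word d) (y : Pt d) :
    y ∈ P (s :: w) ↔ y = 0 ∨ y - vec s ∈ P w := by
  have h := mem_P_append [s] w y
  have h0 : D [s] = vec s := by simp [D]
  rw [List.singleton_append, h0] at h
  rw [h]
  constructor
  · rintro (⟨i, hi, rfl⟩ | h1)
    · have hi' : i ≤ 1 := by simpa using hi
      interval_cases i
      · left; simp
      · right
        rw [List.take_of_length_le (by simp), h0, sub_self]
        exact zero_mem_P w
    · exact Or.inr h1
  · rintro (rfl | h1)
    · exact Or.inl (zero_mem_P _)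
    · exact Or.inr h1

theorem mem_P_flw (w : Word d) (y : Pt d) : y ∈ P (flw w) ↔ fl y ∈ P w := by
  constructor
  · rintro ⟨i, hi, rfl⟩
    rw [flw_length] at hi
    exact ⟨i, hi, by rw [take_flw, D_flw, fl_fl']⟩
  · rintro ⟨i, hi, hy⟩
    refine ⟨i, by rw [flw_length]; exact hi, ?_⟩
    rw [take_flw, D_flw, ← hy, fl_fl']

theorem SA_prefix {u v : Word d} (h : SA (u ++ v)) : SA u := by
  intro i j hi hj hij
  refine h i j (by rw [List.length_append]; omega) (by rw [List.length_append]; omega) ?_
  rw [D_take_left u v i hi, D_take_left u v j hj, hij]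

theorem SA_suffix {u v : Word d} (h : SA (u ++ v)) : SA v := by
  intro i j hi hj hij
  have h1 := h (u.length + i) (u.length + j) (by rw [List.length_append]; omega)
    (by rw [List.length_append]; omega) (by rw [D_take_right, D_take_right, hij])
  omega

theorem SA_bond (u : Word d) (s : Stp d) (v : Word d) : SA (u ++ s :: v) ↔
    SA u ∧ SA v ∧ ∀ y ∈ P u, y - (D u + vec s) ∉ P v := by
  constructor
  · intro h
    refine ⟨SA_prefix h, ?_, ?_⟩
    · have h1 : SA (([s] : Word d) ++ v) := SA_suffix h
      exact SA_suffix h1
    · rintro y ⟨i, hi, rfl⟩ ⟨j, hj, hy⟩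
      have h1 := h i (u.length + 1 + j) (by rw [List.length_append]; omega)
        (by rw [List.length_append, List.length_cons]; omega) (by
          rw [D_take_left _ _ i hi, D_take_bond, ← hy]; abel)
      omega
  · rintro ⟨hu, hv, huv⟩ i j hi hj hij
    rw [List.length_append, List.length_cons] at hi hj
    by_cases h1 : i ≤ u.length
    · rw [D_take_left _ _ i h1] at hij
      by_cases h2 : j ≤ u.length
      · rw [D_take_left _ _ j h2] at hij
        exact hu i j h1 h2 hij
      · exfalso
        have h3 : j = u.length + 1 + (j - u.length - 1) := by omega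
        rw [h3, D_take_bond] at hij
        refine huv _ ⟨i, h1, rfl⟩ ⟨j - u.length - 1, by omega, ?_⟩
        rw [hij]; abel
    · have h3 : i = u.length + 1 + (i - u.length - 1) := by omega
      rw [h3, D_take_bond] at hij
      by_cases h2 : j ≤ u.length
      · exfalso
        rw [D_take_left _ _ j h2] at hij
        refine huv _ ⟨j, h2, rfl⟩ ⟨i - u.length - 1, by omega, ?_⟩
        rw [← hij]; abel
      · have h4 : j = u.length + 1 + (j - u.length - 1) := by omega
        rw [h4, D_take_bond] at hij
        have h5 := hv (i - u.length - 1) (j - u.length - 1) (by omega) (by omega)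
          (add_left_cancel hij)
        omega

theorem SA_flw (w : Word d) : SA (flw w) ↔ SA w := by
  constructor
  · intro h i j hi hj hij
    refine h i j (by rw [flw_length]; exact hi) (by rw [flw_length]; exact hj) ?_
    rw [take_flw, take_flw, D_flw, D_flw, hij]
  · intro h i j hi hj hij
    rw [flw_length] at hi hj
    rw [take_flw, take_flw, D_flw, D_flw] at hij
    exact h i j hi hj (fl_inj hij)

theorem SA_tlw (w : Word d) : SA (tlw w) ↔ SA w := by
  constructor
  · intro h
    have := SA_tlw_of (tlw w) h
    rwa [tlw_tlw] at this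
  · exact SA_tlw_of w

theorem LP_tlw (w : Word d) : LP (tlw w) ↔ RP w := by
  constructor
  · intro h x hx
    have h1 := h (fl (x - D w)) (by
      rw [mem_P_tlw, fl_fl', sub_add_cancel]; exact hx)
    rw [D_tlw] at h1
    simp at h1
    exact h1
  · intro h x hx
    have h1 := h _ ((mem_P_tlw w x).1 hx)
    rw [D_tlw]
    simp at h1 ⊢
    linarith

theorem RP_tlw (w : Word d) : RP (tlw w) ↔ LP w := by
  have h := LP_tlw (tlw w)
  rw [tlw_tlw] at h
  exact h.symm

theorem Blk_orw {X : Word d} (h : Blk X) (s : Bool) : Blk (orw X s) := by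
  cases s
  · exact h
  · refine ⟨(SA_tlw X).2 h.sa, (LP_tlw X).2 h.rp, (RP_tlw X).2 h.lp, ?_⟩
    intro A R hAR hA hR
    have h1 : X = tlw R ++ upS :: tlw A := by
      have h2 : tlw (tlw X) = tlw (A ++ upS :: R) := by
        have h3 : orw X true = tlw X := rfl
        rw [h3] at hAR
        rw [hAR]
      rw [tlw_tlw] at h2
      rw [h2]
      simp [tlw, upS]
    exact h.irr (tlw R) (tlw A) h1 ((LP_tlw R).2 hR) ((RP_tlw A).2 hA)

theorem abs_D_le (w : Word d) (i : Fin d) : |D w i| ≤ w.length := by
  induction w with
  | nil => simp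
  | cons s w ih =>
    rw [D_cons, Pi.add_apply, List.length_cons]
    have h1 := abs_add_le (vec s i) (D w i)
    have h2 := abs_vec_le s i
    push_cast
    linarith

theorem orw_orw (X : Word d) (s : Bool) : orw (orw X s) s = X := by
  cases s
  · rfl
  · exact tlw_tlw X

theorem orw_length (X : Word d) (s : Bool) : (orw X s).length = X.length := by
  cases s
  · rfl
  · exact tlw_length X

end Pool.Agent.SawFold
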