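import Pool.Agent.SawFold.Ent

/-!
Module Shift (the shift norm and forgetting) of the project Pool.Agent.SawFold.
-/

set_option autoImplicit false
set_option linter.unusedSectionVars false

namespace Pool.Agent.SawFold

open Finset
open scoped BigOperators

variable {d : ℕ} [NeZero d] (W : BlockSys d)

namespace ShiftAux

/-- the set of the differences -/
def SS (n : ℕ) (z : Pt d) : Set ℝ :=
  {r : ℝ | ∃ φ : Pt d → ℝ, (∀ y, 0 ≤ φ y ∧ φ y ≤ 1) ∧
    r = EL W n (fun l => φ (Vl W l + z)) - EL W n (fun l => φ (Vl W l))}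

theorem mem_le_one (n : ℕ) (z : Pt d) {r : ℝ} (h : r ∈ SS W n z) : r ≤ 1 := by
  obtain ⟨φ, hφ, rfl⟩ := h
  have h1 : EL W n (fun l => φ (Vl W l + z)) ≤ EL W n (fun _ => 1) :=
    EL_mono W fun l _ => (hφ _).2
  have h2 : EL W n (fun _ => 0) ≤ EL W n (fun l => φ (Vl W l)) :=
    EL_mono W fun l _ => (hφ _).1
  rw [EL_const] at h1 h2
  linarith

theorem zero_mem (n : ℕ) (z : Pt d) : (0 : ℝ) ∈ SS W n z := by
  refine ⟨fun _ => 0, fun _ => ⟨le_rfl, zero_le_one⟩, ?_⟩
  simp only [sub_self]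

theorem bdd (n : ℕ) (z : Pt d) : BddAbove (SS W n z) := ⟨1, fun _ h => mem_le_one W n z h⟩

theorem le_shN (n : ℕ) (z : Pt d) (φ : Pt d → ℝ) (h : ∀ y, 0 ≤ φ y ∧ φ y ≤ 1) :
    EL W n (fun l => φ (Vl W l + z)) - EL W n (fun l => φ (Vl W l)) ≤ shN W n z :=
  le_csSup (bdd W n z) ⟨φ, h, rfl⟩

theorem shN_le (n : ℕ) (z : Pt d) {c : ℝ} (h : ∀ φ : Pt d → ℝ, (∀ y, 0 ≤ φ y ∧ φ y ≤ 1) →
    EL W n (fun l => φ (Vl W l + z)) - EL W n (fun l => φ (Vl W l)) ≤ c) : shN W n z ≤ c := by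
  refine csSup_le ⟨0, zero_mem W n z⟩ ?_
  rintro r ⟨φ, hφ, rfl⟩
  exact h φ hφ

end ShiftAux

open ShiftAux

theorem shN_nonneg (n : ℕ) (z : Pt d) : 0 ≤ shN W n z :=
  le_csSup (bdd W n z) (zero_mem W n z)

theorem shN_le_one (n : ℕ) (z : Pt d) : shN W n z ≤ 1 :=
  csSup_le ⟨0, zero_mem W n z⟩ fun _ h => mem_le_one W n z h

theorem shN_spec (n : ℕ) (φ : Pt d → ℝ) (h : ∀ y, 0 ≤ φ y ∧ φ y ≤ 1) (z z' : Pt d) :
    EL W n (fun l => φ (Vl W l + z)) ≤ EL W n (fun l => φ (Vl W l + z')) + shN W n (z - z') := by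
  have h1 := le_shN W n (z - z') (fun y => φ (y + z')) (fun y => h _)
  have h2 : ∀ l : List W.B, Vl W l + (z - z') + z' = Vl W l + z := fun l => by abel
  simp only [h2] at h1
  linarith

theorem shN_add (n : ℕ) (z z' : Pt d) : shN W n (z + z') ≤ shN W n z + shN W n z' := by
  refine shN_le W n _ fun φ hφ => ?_
  have h1 := shN_spec W n φ hφ (z + z') z'
  have h2 := le_shN W n z' φ hφ
  rw [add_sub_cancel_right] at h1
  linarith

theorem ShiftAux.shN_neg_le (n : ℕ) (z : Pt d) : shN W n (-z) ≤ shN W n z := by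
  refine shN_le W n _ fun φ hφ => ?_
  have h1 := le_shN W n z (fun y => 1 - φ (y - z))
    (fun y => ⟨by linarith [(hφ (y - z)).2], by linarith [(hφ (y - z)).1]⟩)
  have h2 : ∀ l : List W.B, Vl W l + z - z = Vl W l := fun l => by abel
  simp only [h2] at h1
  rw [EL_sub, EL_sub] at h1
  have h3 : ∀ l : List W.B, Vl W l - z = Vl W l + -z := fun l => sub_eq_add_neg _ _
  simp only [h3] at h1
  linarith

theorem shN_neg (n : ℕ) (z : Pt d) : shN W n (-z) = shN W n z := by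
  refine le_antisymm (shN_neg_le W n z) ?_
  have := shN_neg_le W n (-z)
  rwa [neg_neg] at this

theorem ShiftAux.shN_fl_le (n : ℕ) (z : Pt d) : shN W n (fl z) ≤ shN W n z := by
  rw [← shN_neg W n z]
  refine shN_le W n _ fun φ hφ => ?_
  have h1 := le_shN W n (-z) (fun y => φ (- fl y)) (fun y => hφ _)
  have h2 : EL W n (fun l => φ (Vl W l + fl z)) = EL W n (fun l => φ (- fl (Vl W l + -z))) := by
    rw [← EL_rv]
    refine EL_congr W fun l _ => ?_
    rw [Vl_rv]
    congr 1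
    simp only [map_add, map_neg]
    abel
  have h3 : EL W n (fun l => φ (Vl W l)) = EL W n (fun l => φ (- fl (Vl W l))) := by
    rw [← EL_rv]
    refine EL_congr W fun l _ => ?_
    rw [Vl_rv]
  rw [h2, h3]
  exact h1

theorem shN_fl (n : ℕ) (z : Pt d) : shN W n (fl z) = shN W n z := by
  refine le_antisymm (shN_fl_le W n z) ?_
  have := shN_fl_le W n (fl z)
  rwa [fl_fl] at this

namespace ShiftAux

/-- the entropy density -/
noncomputable def KL (s n : ℕ) (v : Pt d) : ℝ :=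
  EL W n (fun l => Real.log (lawV W n (Vl W l)) - Real.log (lawV W (s + n) (v + Vl W l)))

theorem lawU_f (n : ℕ) (v z : Pt d) :
    lawU (fun x : Fin n → W.B => v + Vl W (List.ofFn x)) (v + z) = lawV W n z := by
  unfold lawU lawV EL
  congr 1
  refine Finset.sum_congr rfl fun x _ => ?_
  rw [add_right_inj]

theorem lawU_g (n : ℕ) (z : Pt d) :
    lawU (fun x : Fin n → W.B => Vl W (List.ofFn x)) z = lawV W n z := rfl

theorem KL_eq (s n : ℕ) (v : Pt d) :
    KLU (fun x : Fin n → W.B => v + Vl W (List.ofFn x))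
      (fun x : Fin (s + n) → W.B => Vl W (List.ofFn x)) = KL W s n v := by
  unfold KLU KL mu EL
  congr 1
  refine Finset.sum_congr rfl fun x _ => ?_
  beta_reduce
  rw [lawU_f, lawU_g]

theorem exists_ofFn (l : List W.B) {k : ℕ} (h : l.length = k) :
    ∃ x : Fin k → W.B, List.ofFn x = l := by
  subst h
  exact ⟨l.get, List.ofFn_get l⟩

theorem hac {s : ℕ} {v : Pt d} (hv : ∃ a : List W.B, a.length = s ∧ Vl W a = v) (n : ℕ)
    (x : Fin n → W.B) :
    ∃ y : Fin (s + n) → W.B, Vl W (List.ofFn y) = v + Vl W (List.ofFn x) := by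
  obtain ⟨a, ha, rfl⟩ := hv
  obtain ⟨y, hy⟩ := exists_ofFn W (a ++ List.ofFn x) (k := s + n) (by
    rw [List.length_append, ha, List.length_ofFn])
  exact ⟨y, by rw [hy, Vl_append]⟩

theorem KL_nonneg {s : ℕ} {v : Pt d} (hv : ∃ a : List W.B, a.length = s ∧ Vl W a = v) (n : ℕ) :
    0 ≤ KL W s n v := by
  rw [← KL_eq]
  exact KLU_nonneg _ _ (hac W hv n)

theorem pin {s : ℕ} {v : Pt d} (hv : ∃ a : List W.B, a.length = s ∧ Vl W a = v) (n : ℕ)
    (φ : Pt d → ℝ) (h : ∀ y, 0 ≤ φ y ∧ φ y ≤ 1) :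
    |EL W n (fun l => φ (v + Vl W l)) - EL W (s + n) (fun l => φ (Vl W l))|
      ≤ Real.sqrt (KL W s n v) := by
  rw [← KL_eq]
  exact pinsker (fun x : Fin n → W.B => v + Vl W (List.ofFn x))
    (fun x : Fin (s + n) → W.B => Vl W (List.ofFn x)) (hac W hv n) φ
    (fun z => (h z).1) (fun z => (h z).2)

theorem KL_mean (s n : ℕ) : EL W s (fun l => KL W s n (Vl W l)) = Hv W (s + n) - Hv W n := by
  unfold KL Hv
  simp only [EL_sub]
  rw [EL_const, EL_add]
  simp only [Vl_append]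
  ring

open Classical in
/-- the function `g` -/
noncomputable def gg (s n : ℕ) (v : Pt d) : ℝ :=
  if (∃ a : List W.B, a.length = s ∧ Vl W a = v) then min 1 (Real.sqrt (KL W s n v)) else 1

theorem gg_nonneg (s n : ℕ) (v : Pt d) : 0 ≤ gg W s n v := by
  unfold gg
  split_ifs
  · exact le_min zero_le_one (Real.sqrt_nonneg _)
  · exact zero_le_one

theorem gg_le_one (s n : ℕ) (v : Pt d) : gg W s n v ≤ 1 := by
  unfold gg
  split_ifs
  · exact min_le_left _ _
  · exact le_rfl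

theorem shN_le_gg (s n : ℕ) (v v' : Pt d) : shN W n (v - v') ≤ gg W s n v + gg W s n v' := by
  have h0 := shN_le_one W n (v - v')
  have g1 := gg_nonneg W s n v
  have g2 := gg_nonneg W s n v'
  by_cases hv : ∃ a : List W.B, a.length = s ∧ Vl W a = v
  · by_cases hv' : ∃ a : List W.B, a.length = s ∧ Vl W a = v'
    · have e1 : gg W s n v = min 1 (Real.sqrt (KL W s n v)) := by unfold gg; rw [if_pos hv]
      have e2 : gg W s n v' = min 1 (Real.sqrt (KL W s n v')) := by unfold gg; rw [if_pos hv']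
      rcases le_total 1 (Real.sqrt (KL W s n v)) with c1 | c1
      · rw [min_eq_left c1] at e1
        linarith
      rcases le_total 1 (Real.sqrt (KL W s n v')) with c2 | c2
      · rw [min_eq_left c2] at e2
        linarith
      rw [min_eq_right c1] at e1
      rw [min_eq_right c2] at e2
      rw [e1, e2]
      refine shN_le W n _ fun φ hφ => ?_
      have p1 := pin W hv n (fun y => φ (y - v')) (fun y => hφ _)
      have p2 := pin W hv' n (fun y => φ (y - v')) (fun y => hφ _)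
      have e3 : ∀ l : List W.B, v + Vl W l - v' = Vl W l + (v - v') := fun l => by abel
      have e4 : ∀ l : List W.B, v' + Vl W l - v' = Vl W l := fun l => by abel
      simp only [e3] at p1
      simp only [e4] at p2
      have q1 := (abs_le.1 p1).2
      have q2 := (abs_le.1 p2).1
      linarith
    · have e2 : gg W s n v' = 1 := by unfold gg; rw [if_neg hv']
      linarith
  · have e1 : gg W s n v = 1 := by unfold gg; rw [if_neg hv]
    linarith

theorem gg_mean (s n : ℕ) : EL W s (fun l => (gg W s n (Vl W l)) ^ 2) ≤ Hv W (s + n) - Hv W n := by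
  rw [← KL_mean]
  refine EL_mono W fun l hl => ?_
  have hv : ∃ a : List W.B, a.length = s ∧ Vl W a = Vl W l := ⟨l, hl, rfl⟩
  have e1 : gg W s n (Vl W l) = min 1 (Real.sqrt (KL W s n (Vl W l))) := by
    unfold gg; rw [if_pos hv]
  have h1 : gg W s n (Vl W l) ≤ Real.sqrt (KL W s n (Vl W l)) := by
    rw [e1]; exact min_le_right _ _
  calc (gg W s n (Vl W l)) ^ 2 ≤ (Real.sqrt (KL W s n (Vl W l))) ^ 2 :=
        pow_le_pow_left₀ (gg_nonneg W s n _) h1 2
    _ = KL W s n (Vl W l) := Real.sq_sqrt (KL_nonneg W hv n)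

end ShiftAux

theorem forget (s n : ℕ) : ∃ g : Pt d → ℝ, (∀ v, 0 ≤ g v ∧ g v ≤ 1) ∧
    (∀ v v', shN W n (v - v') ≤ g v + g v') ∧
    EL W s (fun l => (g (Vl W l)) ^ 2) ≤ Hv W (s + n) - Hv W n :=
  ⟨gg W s n, fun v => ⟨gg_nonneg W s n v, gg_le_one W s n v⟩, shN_le_gg W s n, gg_mean W s n⟩

theorem shN_e (n : ℕ) (ρ : ℝ) (hρ : 0 < ρ) (h1 : ρ ≤ EL W 1 fun l => ind (Vl W l = e))
    (h2 : ρ ≤ EL W 1 fun l => ind (Vl W l = e + e)) :
    shN W n e ≤ 2 * Real.sqrt ((Hv W (n + 1) - Hv W n) / ρ) := by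
  obtain ⟨g, hg, hg2, hg3⟩ := forget W 1 n
  rw [add_comm 1 n] at hg3
  have key : ∀ v : Pt d, ρ ≤ EL W 1 (fun l => ind (Vl W l = v)) →
      g v ≤ Real.sqrt ((Hv W (n + 1) - Hv W n) / ρ) := by
    intro v hv
    refine Real.le_sqrt_of_sq_le ?_
    rw [le_div_iff₀ hρ]
    refine le_trans ?_ hg3
    calc g v ^ 2 * ρ ≤ g v ^ 2 * EL W 1 (fun l => ind (Vl W l = v)) :=
          mul_le_mul_of_nonneg_left hv (sq_nonneg _)
      _ = EL W 1 (fun l => g v ^ 2 * ind (Vl W l = v)) := (EL_mul_left W _ _ _).symm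
      _ ≤ EL W 1 (fun l => (g (Vl W l)) ^ 2) := by
          refine EL_mono W fun l _ => ?_
          by_cases hl : Vl W l = v
          · rw [ind_true hl, hl, mul_one]
          · rw [ind_false hl, mul_zero]; exact sq_nonneg _
  have h3 := hg2 (e + e) e
  rw [add_sub_cancel_right] at h3
  have h4 := key e h1
  have h5 := key (e + e) h2
  linarith

end Pool.Agent.SawFold
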