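import Pool.Agent.SawFold.ELb

/-!
Module Zig (change of variables for pairs of foldable bonds and for zigzags) of the project
Pool.Agent.SawFold.
-/

set_option autoImplicit false
set_option linter.unusedSectionVars false

namespace Pool.Agent.SawFold

open Finset
open scoped BigOperators

variable {d : ℕ} [NeZero d] (W : BlockSys d)

namespace ZigAux

/-- Splitting the middle list into three parts, the last one reversed. -/
theorem split3 (k n : ℕ) (φ : List W.B → ℝ) :
    EL W (n + 2 * k) φ = EL W k fun b₁ => EL W n fun m => EL W k fun a₂ =>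
      φ (b₁ ++ m ++ rv W a₂) := by
  rw [show n + 2 * k = k + (n + k) by ring, EL_add]
  congr 1
  funext b₁
  rw [EL_add]
  congr 1
  funext m
  rw [← EL_rv W k]
  congr 1
  funext a₂
  rw [List.append_assoc]

/-- Reordering of the seven expectations. -/
theorem perm7 (k n N : ℕ)
    (φ : List W.B → List W.B → List W.B → List W.B → List W.B → List W.B → List W.B → ℝ) :
    (EL W k fun a₁ => EL W N fun a => EL W k fun b₁ => EL W n fun m => EL W k fun a₂ =>
      EL W k fun b₂ => EL W N fun c => φ a₁ b₁ a₂ b₂ m a c) =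
    EL W k fun a₁ => EL W k fun b₁ => EL W k fun a₂ => EL W k fun b₂ =>
      EL W n fun m => EL W N fun a => EL W N fun c => φ a₁ b₁ a₂ b₂ m a c := by
  congr 1
  funext a₁
  rw [EL_comm W N k]
  congr 1
  funext b₁
  rw [EL_comm W N n]
  have h1 : ∀ m : List W.B, (EL W N fun a => EL W k fun a₂ => EL W k fun b₂ => EL W N fun c =>
      φ a₁ b₁ a₂ b₂ m a c) = EL W k fun a₂ => EL W k fun b₂ => EL W N fun a => EL W N fun c =>
      φ a₁ b₁ a₂ b₂ m a c := by
    intro m
    rw [EL_comm W N k]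
    congr 1
    funext a₂
    rw [EL_comm W N k]
  simp only [h1]
  rw [EL_comm W n k]
  congr 1
  funext a₂
  rw [EL_comm W n k]

/-- The full expansion of an expectation over the three lists. -/
theorem expand (k n N : ℕ) (F : List W.B → List W.B → List W.B → ℝ) :
    (EL W (k + N) fun a => EL W (n + 2 * k) fun b => EL W (k + N) fun c => F (rv W a) b c) =
    EL W k fun a₁ => EL W k fun b₁ => EL W k fun a₂ => EL W k fun b₂ =>
      EL W n fun m => EL W N fun a => EL W N fun c =>
        F (a₁ ++ a) (b₁ ++ m ++ rv W a₂) (b₂ ++ c) := by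
  rw [EL_rv W (k + N) fun a => EL W (n + 2 * k) fun b => EL W (k + N) fun c => F a b c]
  rw [EL_add]
  rw [← perm7 W k n N fun a₁ b₁ a₂ b₂ m a c => F (a₁ ++ a) (b₁ ++ m ++ rv W a₂) (b₂ ++ c)]
  congr 1
  funext a₁
  congr 1
  funext a
  rw [split3]
  congr 1
  funext b₁
  congr 1
  funext m
  congr 1
  funext a₂
  rw [EL_add]

theorem rv_drop (x : List W.B) (j : ℕ) : rv W (x.drop j) = (rv W x).take (x.length - j) := by
  unfold rv
  rw [List.map_drop, List.take_reverse, List.length_map]
  congr 1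
  by_cases h : j ≤ x.length
  · rw [Nat.sub_sub_self h]
  · push Not at h
    rw [List.drop_eq_nil_of_le (by simpa using h.le)]
    rw [Nat.sub_eq_zero_of_le h.le, Nat.sub_zero]
    rw [List.drop_eq_nil_of_le (by simp)]

/-- The fold of a list with a prefix of the second arm. -/
theorem fold_take {A b c : List W.B} {K : ℕ} (hb : b.length ≤ K)
    (h : Fold W A ((b ++ c).take K)) : Fold W A b := by
  have h1 : (b ++ c).take K = b ++ c.take (K - b.length) := by
    rw [List.take_append, List.take_of_length_le hb]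
  rw [h1] at h
  exact fold_append W (a := A) (a' := []) (by simpa using h)

theorem fold_take' {A b c : List W.B} {K : ℕ} (hb : A.length ≤ K)
    (h : Fold W ((A ++ c).take K) b) : Fold W A b := by
  have h1 : (A ++ c).take K = A ++ c.take (K - A.length) := by
    rw [List.take_append, List.take_of_length_le hb]
  rw [h1] at h
  exact fold_append W (b := b) (b' := []) (by simpa using h)

end ZigAux

open ZigAux

theorem p2_le_EE (k n N : ℕ) (h : n + 2 * k ≤ k + N) :
    p2 W (k + N) (n + 2 * k) ≤ EE W k n N fun a₁ b₁ a₂ b₂ m a c =>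
      ind (G1 W a₁ b₁ a₂ m a ∧ G2 W b₁ a₂ b₂ m c) := by
  have key : p2 W (k + N) (n + 2 * k) =
      EL W (k + N) fun a => EL W (n + 2 * k) fun b => EL W (k + N) fun c =>
        ind (Fold W (rv W a) ((b ++ c).take (k + N)) ∧
          Fold W (rv W ((rv W (rv W a) ++ b).drop (n + 2 * k))) c) := by
    unfold p2
    congr 1
    funext a
    simp only [rv_rv]
  rw [key, expand W k n N fun A b C => ind (Fold W A ((b ++ C).take (k + N)) ∧
          Fold W (rv W ((rv W A ++ b).drop (n + 2 * k))) C)]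
  unfold EE
  refine EL_mono W fun a₁ ha₁ => EL_mono W fun b₁ hb₁ => EL_mono W fun a₂ ha₂ =>
    EL_mono W fun b₂ hb₂ => EL_mono W fun m hm => EL_mono W fun a ha => EL_mono W fun c hc => ?_
  rw [← ind_and, ← ind_and]
  refine ind_mono ?_
  rintro ⟨h1, h2⟩
  have hlen : (b₁ ++ m ++ rv W a₂).length = n + 2 * k := by
    simp [hb₁, hm, rv_length, ha₂]; ring
  have hA : (a₁ ++ a).length = k + N := by simp [ha₁, ha]
  have g1 : Fold W (a₁ ++ a) (b₁ ++ m ++ rv W a₂) := fold_take W (by rw [hlen]; exact h) h1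
  have g2 : Fold W (rv W (b₁ ++ m ++ rv W a₂)) (b₂ ++ c) := by
    rw [rv_drop, List.length_append, rv_length, hA, hlen,
      rv_append W (rv W (a₁ ++ a)) (b₁ ++ m ++ rv W a₂), rv_rv W (a₁ ++ a)] at h2
    rw [show k + N + (n + 2 * k) - (n + 2 * k) = k + N by omega] at h2
    exact fold_take' W (by rw [rv_length, hlen]; exact h) h2
  refine ⟨⟨?_, ?_⟩, g1, ?_⟩
  · rw [List.append_assoc] at g1
    exact fold_append W g1
  · rw [rv_append, rv_rv, rv_append] at g2
    exact fold_append W g2
  · unfold G2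
    rw [disjoint_bc]
    exact g2

theorem pz_ge_EE (k n N : ℕ) : EE W k n N (fun a₁ b₁ a₂ b₂ m a c =>
      ind (G1 W a₁ b₁ a₂ m a ∧ G2 W b₁ a₂ b₂ m c ∧ G3 W a₁ b₁ a₂ b₂ m a c ∧
        Vl W (b₁ ++ m ++ rv W a₂) 0 < Vl W (a₁ ++ a) 0 ∧
        Vl W (b₁ ++ m ++ rv W a₂) 0 ≤ Vl W (b₂ ++ c) 0)) ≤ pz W (k + N) (n + 2 * k) := by
  unfold pz
  rw [expand W k n N fun A b C => ind (Zg W A b C)]
  unfold EE
  refine EL_mono W fun a₁ ha₁ => EL_mono W fun b₁ hb₁ => EL_mono W fun a₂ ha₂ =>
    EL_mono W fun b₂ hb₂ => EL_mono W fun m hm => EL_mono W fun a ha => EL_mono W fun c hc => ?_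
  rw [← ind_and, ← ind_and]
  refine ind_mono ?_
  rintro ⟨_, h1, h2, h3, h4, h5⟩
  exact ⟨h1, h2, h3, h4, h5⟩

end Pool.Agent.SawFold
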