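import Pool.Agent.SawFold.Shift
import Pool.Agent.SawFold.Zig

/-!
Module WEst (the main estimate for the outer arms of zigzags and folds) of the project
Pool.Agent.SawFold.
-/

set_option autoImplicit false
set_option linter.unusedSectionVars false

namespace Pool.Agent.SawFold

open Finset
open scoped BigOperators

variable {d : ℕ} [NeZero d] (W : BlockSys d)

namespace WEstAux

/-! ### Geometry -/

theorem fl_neg (v : Pt d) : fl (-v) = - fl v := map_neg fl v
theorem fl_add (v w : Pt d) : fl (v + w) = fl v + fl w := map_add fl v w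
theorem fl_sub (v w : Pt d) : fl (v - w) = fl v - fl w := map_sub fl v w

theorem mem_up0 (x : Pt d) (l : List W.B) (y : Pt d) : y ∈ up W x l ↔ y - x ∈ up W 0 l := by
  have := up_add W 0 x l y
  rwa [zero_add] at this

/-- Reflection of the position of two strands. -/
theorem meet_refl (p q : Pt d) (a T : List W.B) :
    Disjoint (up W p a) (dn W q T) ↔ Disjoint (up W 0 T) (dn W (fl p - fl q) a) := by
  rw [Set.disjoint_left, Set.disjoint_left]
  constructor
  · intro h y hy hy'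
    rw [mem_dn] at hy'
    apply h (a := q + fl y)
    · rw [mem_up0]
      rw [fl_sub, fl_sub, fl_fl, fl_fl] at hy'
      convert hy' using 1
      abel
    · rw [mem_dn, add_sub_cancel_left, fl_fl]
      exact hy
  · intro h y hy hy'
    rw [mem_dn] at hy'
    refine h hy' ?_
    rw [mem_dn]
    simp only [fl_sub, fl_fl]
    rw [mem_up0] at hy
    convert hy using 1
    abel

theorem meet_ud (p q z : Pt d) (a c : List W.B) :
    Disjoint (up W (p + z) a) (dn W (q + z) c) ↔ Disjoint (up W p a) (dn W q c) := by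
  rw [Set.disjoint_left, Set.disjoint_left]
  constructor
  · intro h y hy hy'
    apply h (a := y + z)
    · rw [up_add, add_sub_cancel_right]; exact hy
    · rw [dn_add, add_sub_cancel_right]; exact hy'
  · intro h y hy hy'
    rw [up_add] at hy
    rw [dn_add] at hy'
    exact h hy hy'

theorem meet_uu (p q z : Pt d) (a c : List W.B) :
    Disjoint (up W (p + z) a) (up W (q + z) c) ↔ Disjoint (up W p a) (up W q c) := by
  rw [Set.disjoint_left, Set.disjoint_left]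
  constructor
  · intro h y hy hy'
    apply h (a := y + z)
    · rw [up_add, add_sub_cancel_right]; exact hy
    · rw [up_add, add_sub_cancel_right]; exact hy'
  · intro h y hy hy'
    rw [up_add] at hy
    rw [up_add] at hy'
    exact h hy hy'

/-! ### Expectations -/

theorem EL_nonneg {k : ℕ} {φ : List W.B → ℝ} (h : ∀ l, 0 ≤ φ l) : 0 ≤ EL W k φ := by
  have := EL_mono W (k := k) (φ := fun _ => 0) (ψ := φ) fun l _ => h l
  rwa [EL_const] at this

theorem EL_le_one {k : ℕ} {φ : List W.B → ℝ} (h : ∀ l, φ l ≤ 1) : EL W k φ ≤ 1 := by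
  have := EL_mono W (k := k) (φ := φ) (ψ := fun _ => 1) fun l _ => h l
  rwa [EL_const] at this

/-- Expectation over the inner arms, conditioned on the two folds (unnormalised). -/
noncomputable def QQ (k : ℕ) (Θ : List W.B → List W.B → List W.B → List W.B → ℝ) : ℝ :=
  EL W k fun a₁ => EL W k fun b₁ => EL W k fun a₂ => EL W k fun b₂ =>
    ind (Fold W a₁ b₁) * ind (Fold W a₂ b₂) * Θ a₁ b₁ a₂ b₂

theorem EE_eq (k n N : ℕ)
    (Φ : List W.B → List W.B → List W.B → List W.B → List W.B → List W.B → List W.B → ℝ) :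
    EE W k n N Φ = QQ W k fun a₁ b₁ a₂ b₂ => EL W n fun m => EL W N fun a => EL W N fun c =>
      Φ a₁ b₁ a₂ b₂ m a c := by
  unfold EE QQ
  simp only [EL_mul_left]

theorem QQ_mono (k : ℕ) {Θ Θ' : List W.B → List W.B → List W.B → List W.B → ℝ}
    (h : ∀ a₁ b₁ a₂ b₂, Θ a₁ b₁ a₂ b₂ ≤ Θ' a₁ b₁ a₂ b₂) : QQ W k Θ ≤ QQ W k Θ' := by
  unfold QQ
  refine EL_mono W fun a₁ _ => EL_mono W fun b₁ _ => EL_mono W fun a₂ _ =>
    EL_mono W fun b₂ _ => ?_
  exact mul_le_mul_of_nonneg_left (h _ _ _ _) (mul_nonneg (ind_nonneg _) (ind_nonneg _))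

theorem QQ_add (k : ℕ) (Θ Θ' : List W.B → List W.B → List W.B → List W.B → ℝ) :
    QQ W k (fun a₁ b₁ a₂ b₂ => Θ a₁ b₁ a₂ b₂ + Θ' a₁ b₁ a₂ b₂) = QQ W k Θ + QQ W k Θ' := by
  unfold QQ
  simp only [mul_add, EL_sum]

theorem QQ_swap (k : ℕ) (Θ : List W.B → List W.B → List W.B → List W.B → ℝ) :
    QQ W k Θ = QQ W k fun a₁ b₁ a₂ b₂ => Θ a₂ b₂ a₁ b₁ := by
  unfold QQ
  -- move the second pair to the front
  have h1 : ∀ F : List W.B → List W.B → List W.B → List W.B → ℝ,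
      (EL W k fun a₁ => EL W k fun b₁ => EL W k fun a₂ => EL W k fun b₂ => F a₁ b₁ a₂ b₂) =
      EL W k fun a₂ => EL W k fun b₂ => EL W k fun a₁ => EL W k fun b₁ => F a₁ b₁ a₂ b₂ := by
    intro F
    have e1 : ∀ a₁ : List W.B, (EL W k fun b₁ => EL W k fun a₂ => EL W k fun b₂ =>
        F a₁ b₁ a₂ b₂) = EL W k fun a₂ => EL W k fun b₂ => EL W k fun b₁ => F a₁ b₁ a₂ b₂ := by
      intro a₁
      rw [EL_comm W k k]
      congr 1
      funext a₂
      rw [EL_comm W k k]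
    simp only [e1]
    rw [EL_comm W k k]
    congr 1
    funext a₂
    rw [EL_comm W k k]
  rw [h1]
  congr 1
  funext a₂
  congr 1
  funext b₂
  congr 1
  funext a₁
  congr 1
  funext b₁
  rw [mul_comm (ind (Fold W a₁ b₁))]

theorem QQ_one (k : ℕ) (r : ℝ) : QQ W k (fun _ _ _ _ => r) = (pf W k) ^ 2 * r := by
  unfold QQ
  have h : ∀ a₁ b₁ : List W.B, (EL W k fun a₂ => EL W k fun b₂ =>
      ind (Fold W a₁ b₁) * ind (Fold W a₂ b₂) * r) = ind (Fold W a₁ b₁) * (pf W k * r) := by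
    intro a₁ b₁
    unfold pf
    rw [← EL_mul_right, ← EL_mul_left]
    congr 1
    funext a₂
    rw [← EL_mul_right, ← EL_mul_left]
    congr 1
    funext b₂
    ring
  simp only [h]
  simp only [EL_mul_right]
  unfold pf
  ring

theorem QQ_eta1 (k n : ℕ) : QQ W k (fun a₁ b₁ _ _ => shN W n (Vl W a₁ - Vl W b₁)) =
    pf W k * etaF W k n := by
  unfold QQ
  have h : ∀ a₁ b₁ : List W.B, (EL W k fun a₂ => EL W k fun b₂ =>
      ind (Fold W a₁ b₁) * ind (Fold W a₂ b₂) * shN W n (Vl W a₁ - Vl W b₁)) =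
      (ind (Fold W a₁ b₁) * shN W n (Vl W a₁ - Vl W b₁)) * pf W k := by
    intro a₁ b₁
    unfold pf
    rw [← EL_mul_left]
    congr 1
    funext a₂
    rw [← EL_mul_left]
    congr 1
    funext b₂
    ring
  simp only [h]
  simp only [EL_mul_right]
  unfold etaF
  ring

theorem QQ_eta2 (k n : ℕ) : QQ W k (fun _ _ a₂ b₂ => shN W n (Vl W a₂ - Vl W b₂)) =
    pf W k * etaF W k n := by
  rw [QQ_swap, QQ_eta1]

theorem QQ_nonneg_ind (k : ℕ) : 0 ≤ pf W k :=
  EL_nonneg W fun _ => EL_nonneg W fun _ => ind_nonneg _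

/-- The meeting probability of the upward strand `T` and a random downward strand. -/
noncomputable def Psi (N : ℕ) (T : List W.B) (z : Pt d) : ℝ :=
  EL W N fun c => ind (¬ Disjoint (up W 0 T) (dn W z c))

theorem Psi_mem (N : ℕ) (T : List W.B) (z : Pt d) : 0 ≤ Psi W N T z ∧ Psi W N T z ≤ 1 :=
  ⟨EL_nonneg W fun _ => ind_nonneg _, EL_le_one W fun _ => ind_le_one _⟩

theorem Psi_shift (n N : ℕ) (T : List W.B) (z z' : Pt d) :
    (EL W n fun m => Psi W N T (Vl W m + z)) ≤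
      (EL W n fun m => Psi W N T (Vl W m + z')) + shN W n (z - z') :=
  shN_spec W n (Psi W N T) (fun y => Psi_mem W N T y) z z'

/-- The three positions of the end of the middle strand. -/
theorem D_eq (b₁ m a₂ : List W.B) :
    Vl W (b₁ ++ m ++ rv W a₂) = Vl W b₁ + Vl W m - fl (Vl W a₂) := by
  rw [Vl_append, Vl_append, Vl_rv]
  abel

theorem ind_le_of {P Q : Prop} (h : P → Q) : ind P ≤ ind Q := ind_mono h

theorem ind_or4 (P Q R S : Prop) : ind (P ∨ Q ∨ R ∨ S) ≤ ind P + ind Q + ind R + ind S := by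
  have h1 := ind_or P (Q ∨ R ∨ S)
  have h2 := ind_or Q (R ∨ S)
  have h3 := ind_or R S
  linarith

/-- The four parts of a meeting of the outer strands of the zigzag. -/
theorem not_G3 (a₁ b₁ a₂ b₂ m a c : List W.B) (h : ¬ G3 W a₁ b₁ a₂ b₂ m a c) :
    (¬ Disjoint (up W 0 a₁) (dn W (Vl W (b₁ ++ m ++ rv W a₂) - e) b₂)) ∨
    (¬ Disjoint (up W 0 a₁) (dn W (Vl W (b₁ ++ m ++ rv W a₂) - e + fl (Vl W b₂)) c)) ∨
    (¬ Disjoint (up W (0 + Vl W a₁) a) (dn W (Vl W (b₁ ++ m ++ rv W a₂) - e) b₂)) ∨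
    (¬ Disjoint (up W (0 + Vl W a₁) a)
      (dn W (Vl W (b₁ ++ m ++ rv W a₂) - e + fl (Vl W b₂)) c)) := by
  by_contra hc
  push Not at hc
  obtain ⟨h1, h2, h3, h4⟩ := hc
  apply h
  unfold G3
  rw [up_append, dn_append]
  rw [Set.disjoint_union_left, Set.disjoint_union_right, Set.disjoint_union_right]
  exact ⟨⟨h1, h2⟩, h3, h4⟩

/-- The inner parts cannot meet when the middle is high. -/
theorem ii_imp (a₁ b₁ a₂ b₂ m : List W.B)
    (h : ¬ Disjoint (up W 0 a₁) (dn W (Vl W (b₁ ++ m ++ rv W a₂) - e) b₂)) :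
    ¬ (Vl W a₁ 0 + Vl W b₂ 0 ≤ Vl W m 0) := by
  intro hle
  apply h
  rw [Set.disjoint_left]
  intro y hy hy'
  have h1 := up_hi W _ _ _ hy
  have h2 := dn_lo W _ _ _ hy'
  have e1 : (Vl W (b₁ ++ m ++ rv W a₂) - e : Pt d) 0 =
      Vl W b₁ 0 + Vl W m 0 + Vl W a₂ 0 - 1 := by
    rw [D_eq]
    simp only [Pi.sub_apply, Pi.add_apply, fl_zero_apply, e_zero]
    ring
  rw [e1] at h2
  have e2 : (0 : Pt d) 0 = 0 := rfl
  rw [e2] at h1
  have p1 := Vl_height W b₁
  have p2 := Vl_height W a₂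
  have q1 : (0 : ℤ) ≤ (b₁.length : ℤ) := Int.natCast_nonneg _
  have q2 : (0 : ℤ) ≤ (a₂.length : ℤ) := Int.natCast_nonneg _
  linarith

/-- A meeting of the first outer arm with the end of the middle strand violates the first fold. -/
theorem G1_part (a₁ b₁ a₂ m a : List W.B)
    (h : ¬ Disjoint (up W 0 a₂)
      (dn W (Vl W (rv W m) + (Vl W a₂ + fl (Vl W a₁ - Vl W b₁))) a)) :
    ¬ G1 W a₁ b₁ a₂ m a := by
  intro hG
  apply h
  unfold G1 at hG
  rw [up_append, Set.disjoint_union_left] at hG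
  have h1 := hG.2
  rw [up_append W e (b₁ ++ m), Set.disjoint_union_right] at h1
  have h2 := h1.2
  rw [up_rv W _ (rv W a₂), rv_rv, Vl_append, Vl_rv, meet_refl] at h2
  convert h2 using 2
  rw [Vl_rv]
  simp only [fl_sub, fl_add, fl_neg, fl_fl, fl_e, zero_add]
  abel_nf

/-- The position of the outer arms, first part. -/
theorem oi_eq (a₁ b₁ a₂ b₂ m a : List W.B) :
    Disjoint (up W (0 + Vl W a₁) a) (dn W (Vl W (b₁ ++ m ++ rv W a₂) - e) b₂) ↔
    Disjoint (up W 0 b₂)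
      (dn W (Vl W (rv W m) + (Vl W a₂ + fl (Vl W a₁ - Vl W b₁) - e)) a) := by
  rw [meet_refl, D_eq, Vl_rv]
  have : fl (0 + Vl W a₁) - fl (Vl W b₁ + Vl W m - fl (Vl W a₂) - e) =
      -fl (Vl W m) + (Vl W a₂ + fl (Vl W a₁ - Vl W b₁) - e) := by
    simp only [fl_sub, fl_add, fl_fl, fl_e, zero_add]
    abel
  rw [this]

/-- A meeting of the second outer arm with the beginning of the middle strand violates the second
fold. -/
theorem G2_part (b₁ a₂ b₂ m c : List W.B)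
    (h : ¬ Disjoint (up W 0 b₁)
      (dn W (Vl W m + (Vl W b₁ + fl (Vl W b₂ - Vl W a₂) - e - e)) c)) :
    ¬ G2 W b₁ a₂ b₂ m c := by
  intro hG
  apply h
  unfold G2 at hG
  rw [dn_append, Set.disjoint_union_right] at hG
  have h1 := hG.2
  rw [List.append_assoc, up_append W e b₁, Set.disjoint_union_left] at h1
  have h2 := h1.1
  rw [← List.append_assoc, D_eq] at h2
  have h3 := (meet_ud W (0 : Pt d) (Vl W m + (Vl W b₁ + fl (Vl W b₂ - Vl W a₂) - e - e)) e
    b₁ c).1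
  apply h3
  rw [zero_add]
  have h4 : Vl W m + (Vl W b₁ + fl (Vl W b₂ - Vl W a₂) - e - e) + e =
      Vl W b₁ + Vl W m - fl (Vl W a₂) - e + fl (Vl W b₂) := by
    simp only [fl_sub]
    abel
  rw [h4]
  exact h2

/-- The position of the outer arms, second part. -/
theorem io_eq (a₁ b₁ a₂ b₂ m c : List W.B) :
    Disjoint (up W 0 a₁) (dn W (Vl W (b₁ ++ m ++ rv W a₂) - e + fl (Vl W b₂)) c) ↔
    Disjoint (up W 0 a₁)
      (dn W (Vl W m + (Vl W b₁ + fl (Vl W b₂ - Vl W a₂) - e)) c) := by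
  have : Vl W (b₁ ++ m ++ rv W a₂) - e + fl (Vl W b₂) =
      Vl W m + (Vl W b₁ + fl (Vl W b₂ - Vl W a₂) - e) := by
    rw [D_eq]
    simp only [fl_sub]
    abel
  rw [this]

/-- The position of the outer arms, third part. -/
theorem oo_eq (a₁ b₁ a₂ b₂ m a c : List W.B) :
    Disjoint (up W (0 + Vl W a₁) a)
      (dn W (Vl W (b₁ ++ m ++ rv W a₂) - e + fl (Vl W b₂)) c) ↔
    Disjoint (up W 0 a)
      (up W (Vl W m + (Vl W b₁ - Vl W a₁ + fl (Vl W b₂ - Vl W a₂)) - Vl W (rv W c))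
        (rv W c)) := by
  rw [dn_rv]
  have h := meet_uu W (0 : Pt d)
    (Vl W m + (Vl W b₁ - Vl W a₁ + fl (Vl W b₂ - Vl W a₂)) - Vl W (rv W c)) (Vl W a₁) a (rv W c)
  rw [← h]
  have : Vl W m + (Vl W b₁ - Vl W a₁ + fl (Vl W b₂ - Vl W a₂)) - Vl W (rv W c) + Vl W a₁ =
      Vl W (b₁ ++ m ++ rv W a₂) - e + fl (Vl W b₂) + fl (Vl W c) + e := by
    rw [D_eq, Vl_rv]
    simp only [fl_sub]
    abel
  rw [this]

theorem shN_sub_comm (n : ℕ) (x y : Pt d) : shN W n (x - y) = shN W n (y - x) := by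
  rw [← shN_neg W n (x - y), neg_sub]

/-- The shift norm of the difference of the positions. -/
theorem shN_three (n : ℕ) (x y : Pt d) (w : Pt d) (hw : shN W n w = shN W n e) :
    shN W n (x + (fl y + fl y) + w) ≤ shN W n x + 2 * shN W n y + shN W n e := by
  have h1 := shN_add W n (x + (fl y + fl y)) w
  have h2 := shN_add W n x (fl y + fl y)
  have h3 := shN_add W n (fl y) (fl y)
  rw [shN_fl] at h3
  rw [hw] at h1
  linarith

/-- The mean position term of the event `io`. -/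
theorem io_bound (k n N : ℕ) :
    (QQ W k fun a₁ b₁ a₂ b₂ => EL W n fun m =>
      Psi W N a₁ (Vl W m + (Vl W b₁ + fl (Vl W b₂ - Vl W a₂) - e))) ≤
    (QQ W k fun a₁ b₁ a₂ _ => EL W n fun m => EL W N fun a => ind (¬ G1 W a₁ b₁ a₂ m a)) +
      3 * (pf W k * etaF W k n) + (pf W k) ^ 2 * shN W n e := by
  have h1 : (QQ W k fun a₁ b₁ a₂ b₂ => EL W n fun m =>
      Psi W N a₁ (Vl W m + (Vl W b₁ + fl (Vl W b₂ - Vl W a₂) - e))) ≤
      QQ W k fun a₁ b₁ a₂ b₂ => ((EL W n fun m =>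
        Psi W N a₁ (Vl W m + (Vl W a₁ + fl (Vl W a₂ - Vl W b₂)))) +
        shN W n (Vl W a₁ - Vl W b₁)) + (shN W n (Vl W a₂ - Vl W b₂) +
        (shN W n (Vl W a₂ - Vl W b₂) + shN W n e)) := by
    apply QQ_mono
    intro a₁ b₁ a₂ b₂
    have h := Psi_shift W n N a₁ (Vl W b₁ + fl (Vl W b₂ - Vl W a₂) - e)
      (Vl W a₁ + fl (Vl W a₂ - Vl W b₂))
    have h' := shN_three W n (Vl W b₁ - Vl W a₁) (Vl W b₂ - Vl W a₂) (-e) (shN_neg W n e)
    rw [shN_sub_comm W n (Vl W b₁), shN_sub_comm W n (Vl W b₂)] at h'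
    have he : Vl W b₁ + fl (Vl W b₂ - Vl W a₂) - e - (Vl W a₁ + fl (Vl W a₂ - Vl W b₂)) =
        Vl W b₁ - Vl W a₁ + (fl (Vl W b₂ - Vl W a₂) + fl (Vl W b₂ - Vl W a₂)) + -e := by
      simp only [fl_sub]
      abel
    rw [he] at h
    linarith
  refine h1.trans ?_
  rw [QQ_add W k _ fun _ _ a₂ b₂ => shN W n (Vl W a₂ - Vl W b₂) +
        (shN W n (Vl W a₂ - Vl W b₂) + shN W n e)]
  rw [QQ_add W k (fun a₁ b₁ a₂ b₂ => EL W n fun m =>
        Psi W N a₁ (Vl W m + (Vl W a₁ + fl (Vl W a₂ - Vl W b₂)))) fun a₁ b₁ _ _ =>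
        shN W n (Vl W a₁ - Vl W b₁)]
  rw [QQ_add W k (fun _ _ a₂ b₂ => shN W n (Vl W a₂ - Vl W b₂)) fun _ _ a₂ b₂ =>
        (shN W n (Vl W a₂ - Vl W b₂) + shN W n e)]
  rw [QQ_add W k (fun _ _ a₂ b₂ => shN W n (Vl W a₂ - Vl W b₂)) fun _ _ _ _ => shN W n e]
  rw [QQ_eta1, QQ_eta2, QQ_one]
  have h2 : (QQ W k fun a₁ b₁ a₂ b₂ => EL W n fun m =>
      Psi W N a₁ (Vl W m + (Vl W a₁ + fl (Vl W a₂ - Vl W b₂)))) ≤
      QQ W k fun a₁ b₁ a₂ _ => EL W n fun m => EL W N fun a => ind (¬ G1 W a₁ b₁ a₂ m a) := by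
    rw [QQ_swap]
    apply QQ_mono
    intro a₁ b₁ a₂ b₂
    rw [← EL_rv W n fun m => Psi W N a₂ (Vl W m + (Vl W a₂ + fl (Vl W a₁ - Vl W b₁)))]
    refine EL_mono W fun m _ => ?_
    unfold Psi
    refine EL_mono W fun a _ => ?_
    exact ind_mono (G1_part W a₁ b₁ a₂ m a)
  linarith

/-- The mean position term of the event `oi`. -/
theorem oi_bound (k n N : ℕ) :
    (QQ W k fun a₁ b₁ a₂ b₂ => EL W n fun m =>
      Psi W N b₂ (Vl W m + (Vl W a₂ + fl (Vl W a₁ - Vl W b₁) - e))) ≤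
    (QQ W k fun _ b₁ a₂ b₂ => EL W n fun m => EL W N fun c => ind (¬ G2 W b₁ a₂ b₂ m c)) +
      3 * (pf W k * etaF W k n) + (pf W k) ^ 2 * shN W n e := by
  have h1 : (QQ W k fun a₁ b₁ a₂ b₂ => EL W n fun m =>
      Psi W N b₂ (Vl W m + (Vl W a₂ + fl (Vl W a₁ - Vl W b₁) - e))) ≤
      QQ W k fun a₁ b₁ a₂ b₂ => ((EL W n fun m =>
        Psi W N b₂ (Vl W m + (Vl W b₂ + fl (Vl W b₁ - Vl W a₁) - e - e))) +
        shN W n (Vl W a₂ - Vl W b₂)) + (shN W n (Vl W a₁ - Vl W b₁) +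
        (shN W n (Vl W a₁ - Vl W b₁) + shN W n e)) := by
    apply QQ_mono
    intro a₁ b₁ a₂ b₂
    have h := Psi_shift W n N b₂ (Vl W a₂ + fl (Vl W a₁ - Vl W b₁) - e)
      (Vl W b₂ + fl (Vl W b₁ - Vl W a₁) - e - e)
    have h' := shN_three W n (Vl W a₂ - Vl W b₂) (Vl W a₁ - Vl W b₁) e rfl
    have he : Vl W a₂ + fl (Vl W a₁ - Vl W b₁) - e -
        (Vl W b₂ + fl (Vl W b₁ - Vl W a₁) - e - e) =
        Vl W a₂ - Vl W b₂ + (fl (Vl W a₁ - Vl W b₁) + fl (Vl W a₁ - Vl W b₁)) + e := by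
      simp only [fl_sub]
      abel
    rw [he] at h
    linarith
  refine h1.trans ?_
  rw [QQ_add W k _ fun a₁ b₁ _ _ => shN W n (Vl W a₁ - Vl W b₁) +
        (shN W n (Vl W a₁ - Vl W b₁) + shN W n e)]
  rw [QQ_add W k (fun a₁ b₁ a₂ b₂ => EL W n fun m =>
        Psi W N b₂ (Vl W m + (Vl W b₂ + fl (Vl W b₁ - Vl W a₁) - e - e))) fun _ _ a₂ b₂ =>
        shN W n (Vl W a₂ - Vl W b₂)]
  rw [QQ_add W k (fun a₁ b₁ _ _ => shN W n (Vl W a₁ - Vl W b₁)) fun a₁ b₁ _ _ =>
        (shN W n (Vl W a₁ - Vl W b₁) + shN W n e)]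
  rw [QQ_add W k (fun a₁ b₁ _ _ => shN W n (Vl W a₁ - Vl W b₁)) fun _ _ _ _ => shN W n e]
  rw [QQ_eta1, QQ_eta2, QQ_one]
  have h2 : (QQ W k fun a₁ b₁ a₂ b₂ => EL W n fun m =>
      Psi W N b₂ (Vl W m + (Vl W b₂ + fl (Vl W b₁ - Vl W a₁) - e - e))) ≤
      QQ W k fun _ b₁ a₂ b₂ => EL W n fun m => EL W N fun c => ind (¬ G2 W b₁ a₂ b₂ m c) := by
    rw [QQ_swap]
    apply QQ_mono
    intro a₁ b₁ a₂ b₂
    refine EL_mono W fun m _ => ?_
    unfold Psi
    refine EL_mono W fun c _ => ?_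
    exact ind_mono (G2_part W b₁ a₂ b₂ m c)
  linarith

/-- The meeting probability of the outer parts. -/
theorem oo_bound (k n N : ℕ) :
    (QQ W k fun a₁ b₁ a₂ b₂ => EL W n fun m => EL W N fun a => EL W N fun c =>
      ind (¬ Disjoint (up W 0 a)
        (up W (Vl W m + (Vl W b₁ - Vl W a₁ + fl (Vl W b₂ - Vl W a₂)) - Vl W c) c))) ≤
    2 * (pf W k * etaF W k n) + (pf W k) ^ 2 * qz W n N := by
  have h1 : (QQ W k fun a₁ b₁ a₂ b₂ => EL W n fun m => EL W N fun a => EL W N fun c =>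
      ind (¬ Disjoint (up W 0 a)
        (up W (Vl W m + (Vl W b₁ - Vl W a₁ + fl (Vl W b₂ - Vl W a₂)) - Vl W c) c))) ≤
      QQ W k fun a₁ b₁ a₂ b₂ => shN W n (Vl W a₁ - Vl W b₁) +
        (shN W n (Vl W a₂ - Vl W b₂) + qz W n N) := by
    apply QQ_mono
    intro a₁ b₁ a₂ b₂
    set z := Vl W b₁ - Vl W a₁ + fl (Vl W b₂ - Vl W a₂) with hz
    have e1 : (EL W n fun m => EL W N fun a => EL W N fun c =>
        ind (¬ Disjoint (up W 0 a) (up W (Vl W m + z - Vl W c) c))) =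
        EL W N fun c => EL W n fun m => EL W N fun a =>
        ind (¬ Disjoint (up W 0 a) (up W (Vl W m + z - Vl W c) c)) := by
      rw [EL_comm W N n]
      congr 1
      funext m
      rw [EL_comm W N N]
    rw [e1]
    have h2 : ∀ c : List W.B, (EL W n fun m => EL W N fun a =>
        ind (¬ Disjoint (up W 0 a) (up W (Vl W m + z - Vl W c) c))) ≤
        (EL W n fun m => EL W N fun a =>
        ind (¬ Disjoint (up W 0 a) (up W (Vl W m - Vl W c) c))) + shN W n z := by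
      intro c
      have h := shN_spec W n (fun y => EL W N fun a =>
        ind (¬ Disjoint (up W 0 a) (up W (y - Vl W c) c)))
        (fun y => ⟨EL_nonneg W fun _ => ind_nonneg _, EL_le_one W fun _ => ind_le_one _⟩) z 0
      simp only [add_zero, sub_zero] at h
      exact h
    have h3 := EL_mono W (k := N) fun c _ => h2 c
    rw [EL_sum, EL_const] at h3
    have h4 : shN W n z ≤ shN W n (Vl W a₁ - Vl W b₁) + shN W n (Vl W a₂ - Vl W b₂) := by
      have := shN_add W n (Vl W b₁ - Vl W a₁) (fl (Vl W b₂ - Vl W a₂))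
      rw [shN_fl, shN_sub_comm W n (Vl W b₁), shN_sub_comm W n (Vl W b₂)] at this
      exact this
    unfold qz
    linarith
  refine h1.trans ?_
  rw [QQ_add W k (fun a₁ b₁ _ _ => shN W n (Vl W a₁ - Vl W b₁)) fun _ _ a₂ b₂ =>
        (shN W n (Vl W a₂ - Vl W b₂) + qz W n N)]
  rw [QQ_add W k (fun _ _ a₂ b₂ => shN W n (Vl W a₂ - Vl W b₂)) fun _ _ _ _ => qz W n N]
  rw [QQ_eta1, QQ_eta2, QQ_one]
  linarith

end WEstAux

open WEstAux

theorem w_est (k n N : ℕ) (hk : 0 < k) :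
    EE W k n N (fun a₁ b₁ a₂ b₂ m a c => ind (¬ G3 W a₁ b₁ a₂ b₂ m a c)) ≤
      EE W k n N (fun a₁ b₁ a₂ _ m a _ => ind (¬ G1 W a₁ b₁ a₂ m a)) +
      EE W k n N (fun _ b₁ a₂ b₂ m _ c => ind (¬ G2 W b₁ a₂ b₂ m c)) +
      8 * pf W k * etaF W k n + 2 * (pf W k) ^ 2 * shN W n e +
      EE W k n N (fun a₁ _ _ b₂ m _ _ => ind (¬ (Vl W a₁ 0 + Vl W b₂ 0 ≤ Vl W m 0))) +
      (pf W k) ^ 2 * qz W n N := by
  simp only [EE_eq, EL_const]
  have hmain : (QQ W k fun a₁ b₁ a₂ b₂ => EL W n fun m => EL W N fun a => EL W N fun c =>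
      ind (¬ G3 W a₁ b₁ a₂ b₂ m a c)) ≤
      (QQ W k fun a₁ b₁ a₂ b₂ =>
        (EL W n fun m => ind (¬ (Vl W a₁ 0 + Vl W b₂ 0 ≤ Vl W m 0))) +
        ((EL W n fun m =>
          Psi W N a₁ (Vl W m + (Vl W b₁ + fl (Vl W b₂ - Vl W a₂) - e))) +
        ((EL W n fun m =>
          Psi W N b₂ (Vl W m + (Vl W a₂ + fl (Vl W a₁ - Vl W b₁) - e))) +
        EL W n fun m => EL W N fun a => EL W N fun c =>
          ind (¬ Disjoint (up W 0 a)
            (up W (Vl W m + (Vl W b₁ - Vl W a₁ + fl (Vl W b₂ - Vl W a₂)) - Vl W c) c))))) := by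
    apply QQ_mono
    intro a₁ b₁ a₂ b₂
    have h0 : (EL W n fun m => EL W N fun a => EL W N fun c =>
        ind (¬ G3 W a₁ b₁ a₂ b₂ m a c)) ≤
        EL W n fun m => EL W N fun a => EL W N fun c =>
          ind (¬ (Vl W a₁ 0 + Vl W b₂ 0 ≤ Vl W m 0)) +
          (ind (¬ Disjoint (up W 0 a₁)
            (dn W (Vl W m + (Vl W b₁ + fl (Vl W b₂ - Vl W a₂) - e)) c)) +
          (ind (¬ Disjoint (up W 0 b₂)
            (dn W (Vl W (rv W m) + (Vl W a₂ + fl (Vl W a₁ - Vl W b₁) - e)) a)) +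
          ind (¬ Disjoint (up W 0 a)
            (up W (Vl W m + (Vl W b₁ - Vl W a₁ + fl (Vl W b₂ - Vl W a₂)) - Vl W (rv W c))
              (rv W c))))) := by
      refine EL_mono W fun m _ => EL_mono W fun a _ => EL_mono W fun c _ => ?_
      have h1 := ind_mono (not_G3 W a₁ b₁ a₂ b₂ m a c)
      have h2 := ind_or4
        (¬ Disjoint (up W 0 a₁) (dn W (Vl W (b₁ ++ m ++ rv W a₂) - e) b₂))
        (¬ Disjoint (up W 0 a₁) (dn W (Vl W (b₁ ++ m ++ rv W a₂) - e + fl (Vl W b₂)) c))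
        (¬ Disjoint (up W (0 + Vl W a₁) a) (dn W (Vl W (b₁ ++ m ++ rv W a₂) - e) b₂))
        (¬ Disjoint (up W (0 + Vl W a₁) a)
          (dn W (Vl W (b₁ ++ m ++ rv W a₂) - e + fl (Vl W b₂)) c))
      have h3 := ind_mono (ii_imp W a₁ b₁ a₂ b₂ m)
      rw [io_eq, oi_eq, oo_eq] at h1 h2
      linarith
    refine h0.trans (le_of_eq ?_)
    simp only [EL_sum, EL_const]
    congr 2
    congr 1
    · rw [← EL_rv W n fun m => Psi W N b₂ (Vl W m + (Vl W a₂ + fl (Vl W a₁ - Vl W b₁) - e))]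
      rfl
    · congr 1
      funext m
      congr 1
      funext a
      rw [EL_rv W N fun c => ind (¬ Disjoint (up W 0 a)
            (up W (Vl W m + (Vl W b₁ - Vl W a₁ + fl (Vl W b₂ - Vl W a₂)) - Vl W c) c))]
  refine hmain.trans ?_
  rw [QQ_add W k (fun a₁ _ _ b₂ =>
        (EL W n fun m => ind (¬ (Vl W a₁ 0 + Vl W b₂ 0 ≤ Vl W m 0)))) _]
  rw [QQ_add W k (fun a₁ b₁ a₂ b₂ => (EL W n fun m =>
          Psi W N a₁ (Vl W m + (Vl W b₁ + fl (Vl W b₂ - Vl W a₂) - e)))) _]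
  rw [QQ_add W k (fun a₁ b₁ a₂ b₂ => (EL W n fun m =>
          Psi W N b₂ (Vl W m + (Vl W a₂ + fl (Vl W a₁ - Vl W b₁) - e)))) _]
  have h1 := io_bound W k n N
  have h2 := oi_bound W k n N
  have h3 := oo_bound W k n N
  linarith

theorem ref_est (k n N K : ℕ) (h1 : k + 2 * N ≤ K) (h2 : k + n + N ≤ K) :
    pf W k * qr W n N ≤ pf W k - pf W K + etaF W k n + pf W k * shN W n e := by
  -- the fold event with many blocks
  have hK : pf W K ≤ EL W k fun a₁ => EL W k fun b₁ => ind (Fold W a₁ b₁) *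
      EL W N fun b => EL W n fun v => EL W N fun u => EL W N fun a =>
        (1 - ind (¬ Disjoint (up W 0 a)
          (up W ((Vl W v + (Vl W b₁ - Vl W a₁ + e)) - Vl W u) b))) := by
    have e1 : pf W K ≤ EL W K fun A => EL W K fun B =>
        ind (Fold W ((A.drop 0).take (k + (N + N))) ((B.drop 0).take (k + (n + N)))) := by
      unfold pf
      refine EL_mono W fun A _ => EL_mono W fun B _ => ?_
      refine ind_mono ?_
      intro h
      simp only [List.drop_zero]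
      exact fold_append W (a := A.take (k + (N + N))) (b := B.take (k + (n + N)))
        (a' := A.drop (k + (N + N))) (b' := B.drop (k + (n + N)))
        (by rw [List.take_append_drop, List.take_append_drop]; exact h)
    refine e1.trans ?_
    have e2 : ∀ A : List W.B, (EL W K fun B =>
        ind (Fold W ((A.drop 0).take (k + (N + N))) ((B.drop 0).take (k + (n + N))))) =
        EL W (k + (n + N)) fun B => ind (Fold W ((A.drop 0).take (k + (N + N))) B) := by
      intro A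
      exact EL_sub_list W K 0 (k + (n + N)) (by omega)
        (fun B => ind (Fold W ((A.drop 0).take (k + (N + N))) B))
    simp only [e2]
    rw [EL_sub_list W K 0 (k + (N + N)) (by omega)
        (fun A => EL W (k + (n + N)) fun B => ind (Fold W A B))]
    rw [EL_add]
    refine EL_mono W fun a₁ _ => ?_
    have e3 : (EL W (N + N) fun l' => EL W (k + (n + N)) fun B => ind (Fold W (a₁ ++ l') B)) =
        EL W k fun b₁ => EL W N fun b => EL W n fun v => EL W N fun u => EL W N fun a =>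
          ind (Fold W (a₁ ++ (u ++ a)) (b₁ ++ (v ++ b))) := by
      rw [EL_comm]
      rw [EL_add]
      congr 1
      funext b₁
      rw [EL_add, EL_comm]
      congr 1
      funext b
      congr 1
      funext v
      rw [EL_add]
    rw [e3]
    refine EL_mono W fun b₁ _ => ?_
    rw [← EL_mul_left]
    refine EL_mono W fun b _ => ?_
    rw [← EL_mul_left]
    refine EL_mono W fun v _ => ?_
    rw [← EL_mul_left]
    refine EL_mono W fun u _ => ?_
    rw [← EL_mul_left]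
    refine EL_mono W fun a _ => ?_
    rw [ind_not, sub_sub_cancel, ← ind_and]
    refine ind_mono ?_
    intro h
    refine ⟨fold_append W h, ?_⟩
    unfold Fold at h
    rw [up_append, up_append, up_append, up_append] at h
    rw [Set.disjoint_union_left, Set.disjoint_union_left] at h
    have h' := h.2.2
    rw [Set.disjoint_union_right, Set.disjoint_union_right] at h'
    have h'' := h'.2.2
    have key := (meet_uu W (0 : Pt d) (Vl W v + (Vl W b₁ - Vl W a₁ + e) - Vl W u)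
      (Vl W a₁ + Vl W u) a b).1
    apply key
    have e4 : (0 : Pt d) + (Vl W a₁ + Vl W u) = 0 + Vl W a₁ + Vl W u := by
      rw [add_assoc]
    have e5 : Vl W v + (Vl W b₁ - Vl W a₁ + e) - Vl W u + (Vl W a₁ + Vl W u) =
        e + Vl W b₁ + Vl W v := by
      funext i
      simp only [Pi.add_apply, Pi.sub_apply]
      ring
    rw [e4, e5]
    exact h''
  -- the shift
  have hS : (EL W k fun a₁ => EL W k fun b₁ => ind (Fold W a₁ b₁) *
      EL W N fun b => EL W n fun v => EL W N fun u => EL W N fun a =>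
        (1 - ind (¬ Disjoint (up W 0 a)
          (up W ((Vl W v + (Vl W b₁ - Vl W a₁ + e)) - Vl W u) b)))) ≤
      EL W k fun a₁ => EL W k fun b₁ => (ind (Fold W a₁ b₁) * (1 - qr W n N) +
        ind (Fold W a₁ b₁) * shN W n (Vl W a₁ - Vl W b₁)) +
        ind (Fold W a₁ b₁) * shN W n e := by
    refine EL_mono W fun a₁ _ => EL_mono W fun b₁ _ => ?_
    rw [← mul_add, ← mul_add]
    refine mul_le_mul_of_nonneg_left ?_ (ind_nonneg _)
    set z := Vl W b₁ - Vl W a₁ + e with hz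
    have hz' : shN W n (0 - z) ≤ shN W n (Vl W a₁ - Vl W b₁) + shN W n e := by
      rw [zero_sub, shN_neg]
      have := shN_add W n (Vl W b₁ - Vl W a₁) e
      rw [shN_sub_comm W n (Vl W b₁)] at this
      exact this
    have h3 : ∀ b : List W.B, (EL W n fun v => EL W N fun u => EL W N fun a =>
        (1 - ind (¬ Disjoint (up W 0 a) (up W ((Vl W v + z) - Vl W u) b)))) ≤
        (1 - (EL W n fun v => EL W N fun u => EL W N fun a =>
          ind (¬ Disjoint (up W 0 a) (up W (Vl W v - Vl W u) b)))) + shN W n (0 - z) := by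
      intro b
      have h := shN_spec W n (fun y => EL W N fun u => EL W N fun a =>
        ind (¬ Disjoint (up W 0 a) (up W (y - Vl W u) b)))
        (fun y => ⟨EL_nonneg W fun _ => EL_nonneg W fun _ => ind_nonneg _,
          EL_le_one W fun _ => EL_le_one W fun _ => ind_le_one _⟩) 0 z
      simp only [add_zero] at h
      simp only [EL_sub, EL_const]
      linarith
    have h4 := EL_mono W (k := N) fun b _ => h3 b
    rw [EL_sum, EL_sub, EL_const, EL_const] at h4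
    unfold qr
    linarith
  have hR : (EL W k fun a₁ => EL W k fun b₁ => (ind (Fold W a₁ b₁) * (1 - qr W n N) +
        ind (Fold W a₁ b₁) * shN W n (Vl W a₁ - Vl W b₁)) +
        ind (Fold W a₁ b₁) * shN W n e) = pf W k * (1 - qr W n N) + etaF W k n +
        pf W k * shN W n e := by
    simp only [EL_sum, EL_mul_right]
    rfl
  rw [hR] at hS
  linarith

end Pool.Agent.SawFold
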